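import Mathlib
import Pool.Agent.Lib.MP_f9aece_nt_mp.StmtsP

/-!
The fourth moment of the plain average of zeta over short windows: definitions and statements of the
modules. Module `X` proves `theorem x : X`; modules using `X` take it as a hypothesis.
-/

set_option autoImplicit false

namespace Pool.Agent.Lib.MP4

open MeasureTheory Set Filter Topology Complex
open scoped ComplexConjugate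
open Pool.Agent.Lib.MS (psi Adm ZW ZS Res ZIdent PowClose)
open Pool.Agent.Lib.MP2 (RD Av PA BumpFn Th Ss ph Prim PhAdm Cont Ident Top)

/-! ### definitions -/

/-- the transform of the indicator of `[0,1]` -/
noncomputable def g0 (r : ℝ) : ℂ := ∫ v in (0 : ℝ)..1, cexp (-(I * ((r * v : ℝ) : ℂ)))

/-- cut-off functions -/
structure Cf (θ θ' : ℝ → ℂ) (B : ℝ) : Prop where
  one_le : 1 ≤ B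
  zero : θ 0 = 1
  bd : ∀ r, ‖θ r‖ ≤ B
  der : ∀ r, HasDerivAt θ (θ' r) r
  cont : Continuous θ'
  bd' : ∀ r, ‖θ' r‖ ≤ B
  supp : ∀ r, 1 ≤ |r| → θ r = 0

/-- the coefficients -/
noncomputable def FF (θ : ℝ → ℂ) (R r : ℝ) : ℂ := g0 r * θ (r / R)

/-- functions of size `1 / (1 + r)` with compact support -/
structure Fn (F F' : ℝ → ℂ) (C R : ℝ) : Prop where
  hR : 1 ≤ R
  hC : 1 ≤ C
  der : ∀ r, HasDerivAt F (F' r) r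
  cont : Continuous F'
  bd : ∀ r, 0 ≤ r → ‖F r‖ * (1 + r) ≤ C
  bd' : ∀ r, 0 ≤ r → ‖F' r‖ * (1 + r) ≤ C
  supp : ∀ r, R ≤ r → F r = 0 ∧ F' r = 0

/-- the kernel -/
noncomputable def kk (F : ℝ → ℂ) (R X Y : ℝ) : ℂ := ∫ u in (0 : ℝ)..R, F (X + u) * conj (F (Y + u))

/-- the majorant -/
noncomputable def ll (X Y : ℝ) : ℝ :=
  (max (1 + X) (1 + Y)) ^ (-(3 / 4) : ℝ) * (min (1 + X) (1 + Y)) ^ (-(1 / 4) : ℝ)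

/-- the homogeneous kernel -/
noncomputable def l0 (X Y : ℝ) : ℝ := ∫ u in Ioi (0 : ℝ), ((X + u) * (Y + u))⁻¹

/-- the energy of the square of a Dirichlet polynomial -/
noncomputable def E4 (c : ℕ → ℂ) (N : ℕ) : ℝ :=
  ∑ m ∈ Finset.Icc 1 (N ^ 2), ‖∑ p ∈ m.divisorsAntidiagonal, c p.1 * c p.2‖ ^ 2 / m

/-- the discrete kernel -/
noncomputable def dk (c : ℕ → ℂ) (N x y : ℕ) : ℂ :=
  ∑ g ∈ Finset.Icc 1 N, c (g * x) * conj (c (g * y)) / g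

/-- pairs of coprime integers -/
def cop (N : ℕ) : Finset (ℕ × ℕ) :=
  (Finset.Icc 1 N ×ˢ Finset.Icc 1 N).filter fun p => Nat.Coprime p.1 p.2

/-! ### A: the coefficients -/

/-- A1 -/
def GZero : Prop := (∀ r : ℝ, r ≠ 0 → g0 r = (1 - cexp (-(I * (r : ℂ)))) / (I * (r : ℂ))) ∧
  g0 0 = 1 ∧ ∃ g0' : ℝ → ℂ, Continuous g0' ∧ (∀ r, HasDerivAt g0 (g0' r) r) ∧
  (∀ r, 0 ≤ r → ‖g0 r‖ * (1 + r) ≤ 4 ∧ ‖g0' r‖ * (1 + r) ≤ 4)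

/-- A2 -/
def PsiPh : Prop := ∀ g : ℂ → ℂ, BumpFn g →
  (∃ (θ' : ℝ → ℂ) (B : ℝ), Cf (psi fun v : ℝ => g (v : ℂ)) θ' B) ∧
  ∀ R : ℝ, 0 < R → ∀ r : ℝ, psi (ph g R) r = FF (psi fun v : ℝ => g (v : ℂ)) R r

/-- A3 -/
def FBd : Prop := ∀ (θ θ' : ℝ → ℂ) (B : ℝ), Cf θ θ' B → ∃ C : ℝ, ∀ R : ℝ, 1 ≤ R →
  ∃ F' : ℝ → ℂ, Fn (FF θ R) F' C R

/-! ### B: from sums to integrals -/

/-- B1: the energy of the square -/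
def FourEn : Prop := ∀ (c : ℕ → ℂ) (N : ℕ), (∀ n, N < n → c n = 0) →
  E4 c N = ∑ p ∈ cop N, ‖dk c N p.1 p.2‖ ^ 2 / (p.1 * p.2)

/-- B2: sums and integrals -/
def SumInt : Prop := ∀ (φ φ' : ℝ → ℂ) (R H : ℝ) (N : ℕ), 0 ≤ R → 0 < H →
  (∀ r, HasDerivAt φ (φ' r) r) → Continuous φ' → (∀ r, R ≤ r → φ r = 0) → Real.exp (R / H) < N + 1 →
  ‖(H : ℂ) * ∑ n ∈ Finset.Icc 1 N, φ (H * Real.log n) / n - ∫ u in (0 : ℝ)..R, φ u‖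
    ≤ H * ∫ u in (0 : ℝ)..R, ‖φ' u‖

/-- B3: the majorant -/
def MajL : Prop := ∀ X Y : ℝ, 0 ≤ X → 0 ≤ Y →
  IntegrableOn (fun u : ℝ => ((1 + X + u) * (1 + Y + u))⁻¹) (Ioi 0) ∧
  ∫ u in Ioi (0 : ℝ), ((1 + X + u) * (1 + Y + u))⁻¹ ≤ 4 * ll X Y

/-- B4: the kernel and its derivative -/
def KDer : Prop := ∃ A : ℝ, 1 ≤ A ∧ ∀ (F F' : ℝ → ℂ) (C R : ℝ), Fn F F' C R →
  Continuous (Function.uncurry (kk F R)) ∧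
  (∀ X Y : ℝ, kk F R Y X = conj (kk F R X Y)) ∧
  (∀ X Y : ℝ, 0 ≤ X → 0 ≤ Y → ‖kk F R X Y‖ ≤ A * C ^ 2 * ll X Y) ∧
  (∀ X Y : ℝ, 0 ≤ X → 0 ≤ Y → (R ≤ X ∨ R ≤ Y) → kk F R X Y = 0) ∧
  ∃ K' : ℝ → ℝ → ℂ, Continuous (Function.uncurry K') ∧
    (∀ X Y : ℝ, HasDerivAt (fun X => kk F R X Y) (K' X Y) X) ∧
    ∀ X Y : ℝ, 0 ≤ X → 0 ≤ Y → ‖K' X Y‖ ≤ A * C ^ 2 * ll X Y

/-- B5: the discrete kernel -/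
def Kappa : Prop := ∃ A : ℝ, 1 ≤ A ∧ ∀ (F F' : ℝ → ℂ) (C R : ℝ), Fn F F' C R →
  ∀ (H : ℝ) (x y : ℕ), 0 < H → 1 ≤ x → 1 ≤ y →
  ‖(H : ℂ) * dk (fun n => F (H * Real.log n)) ⌊Real.exp (R / H)⌋₊ x y
    - kk F R (H * Real.log x) (H * Real.log y)‖
    ≤ A * C ^ 2 * H * ll (H * Real.log x) (H * Real.log y)

/-- B6: sums of the majorant -/
def LSum : Prop := ∃ A : ℝ, 1 ≤ A ∧
  (∀ Y : ℝ, 0 ≤ Y → IntegrableOn (fun X : ℝ => ll X Y ^ 2) (Ioi 0) ∧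
    ∫ X in Ioi (0 : ℝ), ll X Y ^ 2 ≤ A * (1 + Y)⁻¹) ∧
  (∀ (H Y : ℝ) (N : ℕ), 0 < H → H ≤ 1 → 0 ≤ Y →
    H * ∑ x ∈ Finset.Icc 1 N, ll (H * Real.log x) Y ^ 2 / x ≤ A * (1 + Y)⁻¹) ∧
  (∀ (H R : ℝ), 0 < H → H ≤ 1 → 1 ≤ R →
    H ^ 2 * ∑ x ∈ Finset.Icc 1 ⌊Real.exp (R / H)⌋₊, ∑ y ∈ Finset.Icc 1 ⌊Real.exp (R / H)⌋₊,
      ll (H * Real.log x) (H * Real.log y) ^ 2 / (x * y) ≤ A * (1 + Real.log R))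

/-- functions of two variables of the size of the square of the majorant -/
structure Gf (G G₁ G₂ : ℝ → ℝ → ℝ) (D R : ℝ) : Prop where
  hR : 1 ≤ R
  hD : 0 ≤ D
  cont : Continuous (Function.uncurry G)
  cont1 : Continuous (Function.uncurry G₁)
  cont2 : Continuous (Function.uncurry G₂)
  der1 : ∀ X Y, HasDerivAt (fun X => G X Y) (G₁ X Y) X
  der2 : ∀ X Y, HasDerivAt (fun Y => G X Y) (G₂ X Y) Y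
  bd : ∀ X Y, 0 ≤ X → 0 ≤ Y → |G X Y| ≤ D * ll X Y ^ 2
  bd1 : ∀ X Y, 0 ≤ X → 0 ≤ Y → |G₁ X Y| ≤ D * ll X Y ^ 2
  bd2 : ∀ X Y, 0 ≤ X → 0 ≤ Y → |G₂ X Y| ≤ D * ll X Y ^ 2
  supp : ∀ X Y, 0 ≤ X → 0 ≤ Y → (R ≤ X ∨ R ≤ Y) → G X Y = 0

/-- B7: double sums and double integrals -/
def SumInt2 : Prop := ∃ A : ℝ, 1 ≤ A ∧ ∀ (G G₁ G₂ : ℝ → ℝ → ℝ) (D R : ℝ), Gf G G₁ G₂ D R →
  (|∫ X in (0 : ℝ)..R, ∫ Y in (0 : ℝ)..R, G X Y| ≤ A * D * (1 + Real.log R)) ∧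
  (∀ δ : ℝ, 0 ≤ δ → |(∫ X in (0 : ℝ)..R, ∫ Y in (0 : ℝ)..R, G (X + δ) (Y + δ))
    - ∫ X in (0 : ℝ)..R, ∫ Y in (0 : ℝ)..R, G X Y| ≤ A * D * δ * (1 + Real.log R)) ∧
  ∀ H δ : ℝ, 0 < H → H ≤ 1 → 0 ≤ δ →
  |H ^ 2 * (∑ x ∈ Finset.Icc 1 ⌊Real.exp (R / H)⌋₊, ∑ y ∈ Finset.Icc 1 ⌊Real.exp (R / H)⌋₊,
      G (H * Real.log x + δ) (H * Real.log y + δ) / (x * y))
    - ∫ X in (0 : ℝ)..R, ∫ Y in (0 : ℝ)..R, G (X + δ) (Y + δ)| ≤ A * D * H * (1 + Real.log R)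

/-- B8: sums over pairs of coprime integers -/
def CopSum : Prop := ∃ A : ℝ, 1 ≤ A ∧ ∀ (G G₁ G₂ : ℝ → ℝ → ℝ) (D R : ℝ), Gf G G₁ G₂ D R →
  ∀ H : ℝ, 0 < H → H ≤ 1 →
  |H ^ 2 * (∑ p ∈ cop ⌊Real.exp (R / H)⌋₊,
      G (H * Real.log p.1) (H * Real.log p.2) / (p.1 * p.2))
    - 6 / Real.pi ^ 2 * ∫ X in (0 : ℝ)..R, ∫ Y in (0 : ℝ)..R, G X Y| ≤ A * D * H * (1 + Real.log R)

/-- B9: the energy and the kernel -/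
def EnKer : Prop := ∃ A : ℝ, 1 ≤ A ∧ ∀ (F F' : ℝ → ℂ) (C R : ℝ), Fn F F' C R →
  ∀ H : ℝ, 0 < H → H ≤ 1 →
  |H ^ 4 * E4 (fun n => F (H * Real.log n)) ⌊Real.exp (R / H)⌋₊
    - 6 / Real.pi ^ 2 * ∫ X in (0 : ℝ)..R, ∫ Y in (0 : ℝ)..R, ‖kk F R X Y‖ ^ 2|
    ≤ A * C ^ 4 * H * (1 + Real.log R)

/-! ### D: the main term -/

/-- D1: the kernel for large arguments -/
def KMain : Prop := ∀ (θ θ' : ℝ → ℂ) (B : ℝ), Cf θ θ' B → ∃ C : ℝ, 1 ≤ C ∧ ∀ R X Y : ℝ,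
  1 ≤ X → X ≤ R → 1 ≤ Y → Y ≤ R →
  ‖kk (FF θ R) R X Y - (1 + cexp (I * ((Y - X : ℝ) : ℂ))) * (l0 X Y : ℂ)‖
    ≤ C * ((X * Y)⁻¹ + (1 + Real.log (R / X) + Real.log (R / Y)) / R)

/-- D2: the homogeneous kernel -/
def LZero : Prop := (∀ X Y : ℝ, 0 < X → 0 < Y → 0 ≤ l0 X Y ∧ l0 X Y ≤ (Real.sqrt (X * Y))⁻¹ ∧
    l0 Y X = l0 X Y) ∧
  (∀ X Y : ℝ, 0 < X → 0 < Y → X ≠ Y → l0 X Y = (Real.log X - Real.log Y) / (X - Y)) ∧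
  (∀ a X Y : ℝ, 0 < a → 0 < X → 0 < Y → l0 (a * X) (a * Y) = a⁻¹ * l0 X Y) ∧
  ContinuousOn (Function.uncurry l0) (Ioi 0 ×ˢ Ioi 0) ∧
  ∃ l1 : ℝ → ℝ → ℝ, ContinuousOn (Function.uncurry l1) (Ioi 0 ×ˢ Ioi 0) ∧ ∀ X Y : ℝ, 0 < X → 0 < Y →
    HasDerivAt (fun Y => l0 X Y) (l1 X Y) Y ∧ |l1 X Y| ≤ l0 X Y / Y

/-- D3: the constant -/
def Const : Prop := IntegrableOn (fun s : ℝ => (Real.log s / (s - 1)) ^ 2) (Ioi 0) ∧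
  ∫ s in Ioi (0 : ℝ), (Real.log s / (s - 1)) ^ 2 = 2 * Real.pi ^ 2 / 3

/-- D4 -/
def LInt : Prop := ∃ C : ℝ, 1 ≤ C ∧ ∀ R : ℝ, 1 ≤ R →
  |(∫ X in (1 : ℝ)..R, ∫ Y in (1 : ℝ)..R, l0 X Y ^ 2) - 2 * Real.pi ^ 2 / 3 * Real.log R| ≤ C

/-- D5 -/
def CosInt : Prop := ∃ C : ℝ, 1 ≤ C ∧ ∀ R : ℝ, 1 ≤ R →
  |∫ X in (1 : ℝ)..R, ∫ Y in (1 : ℝ)..R, Real.cos (Y - X) * l0 X Y ^ 2| ≤ C

/-- D6: the square of the kernel -/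
def KInt : Prop := ∀ (θ θ' : ℝ → ℂ) (B : ℝ), Cf θ θ' B → ∃ C : ℝ, 1 ≤ C ∧ ∀ R : ℝ, 1 ≤ R →
  |(∫ X in (0 : ℝ)..R, ∫ Y in (0 : ℝ)..R, ‖kk (FF θ R) R X Y‖ ^ 2)
    - 4 * Real.pi ^ 2 / 3 * Real.log R| ≤ C

/-- D7: the energy -/
def Energy : Prop := ∀ (θ θ' : ℝ → ℂ) (B : ℝ), Cf θ θ' B → ∃ C : ℝ, 1 ≤ C ∧ ∀ R H : ℝ, 1 ≤ R →
  0 < H → H ≤ 1 →
  |H ^ 4 * E4 (fun n => FF θ R (H * Real.log n)) ⌊Real.exp (R / H)⌋₊ - 8 * Real.log R|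
    ≤ C * (1 + H * Real.log R)

/-! ### C: fourth moments -/

/-- C1: fourth moments of Dirichlet polynomials -/
def FourMV : Prop := ∃ C : ℝ, 1 ≤ C ∧ ∀ (c : ℕ → ℂ) (N : ℕ) (T x : ℝ), 1 ≤ N → 1 ≤ T →
  (∀ n, N < n → c n = 0) →
  |T⁻¹ * (∫ t in x..(x + T), ‖∑ n ∈ Finset.Icc 1 N, c n * (n : ℂ) ^ (-(1 / 2 + I * t : ℂ))‖ ^ 4)
    - E4 c N| ≤ C * (N : ℝ) ^ 4 / T * E4 c N

/-- C2: the pole, uniformly in the cut-off -/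
def ResU : Prop := ∀ g : ℂ → ℂ, BumpFn g → ∃ C : ℝ, 1 ≤ C ∧ ∀ R H t : ℝ, 1 ≤ R → 0 < H → H ≤ 1 →
  ‖Res (ph g R) R H t‖ ≤ C * Real.exp (R / (2 * H)) / (1 + |t|)

/-- C3: the low frequencies -/
def Low : Prop := ∀ g : ℂ → ℂ, BumpFn g → ∀ ε : ℝ, 0 < ε → ∃ C : ℝ, 1 ≤ C ∧ ∀ H T x : ℝ, 0 < H →
  C * H ≤ 1 → 1 ≤ T → C ≤ H * Real.log T →
  |Av 4 x T (ZW (ph g (H * Real.log T / 16)) H) - 8 * H ^ (-4 : ℝ) * Real.log (H * Real.log T)|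
    ≤ ε * H ^ (-4 : ℝ) * Real.log (H * Real.log T)

/-- C4: the high frequencies -/
def High : Prop := ∀ g : ℂ → ℂ, BumpFn g → ∃ C : ℝ, 1 ≤ C ∧ ∀ H T x : ℝ, 0 < H → C * H ≤ 1 → 1 ≤ T →
  C ≤ H * Real.log T → |x| ≤ T →
  Av 4 x T (fun t => PA H t - ZW (ph g (H * Real.log T / 16)) H t) ≤ C * H ^ (-4 : ℝ)

/-- C5: the fourth moment of the plain average -/
def Crit : Prop := ∀ ε : ℝ, 0 < ε → ∃ C : ℝ, 0 < C ∧ ∀ H T x : ℝ, 0 < H → C * H ≤ 1 →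
  C ≤ H * Real.log T → |x| ≤ T →
  |Av 4 x T (PA H) - 8 * H ^ (-4 : ℝ) * Real.log (H * Real.log T)|
    ≤ ε * (H ^ (-4 : ℝ) * Real.log (H * Real.log T))

/-- C6: the law for exponents below four fails for all other exponents -/
def Sharp : Prop := ∀ p : ℝ, 4 ≤ p → ¬ ∃ c : ℝ, ∀ ε : ℝ, 0 < ε → ∃ C : ℝ, 0 < C ∧
  ∀ H T x : ℝ, 0 < H → C * H ≤ 1 → C ≤ H * Real.log T → |x| ≤ T →
  |Av p x T (PA H) - c * H ^ (-(p ^ 2 / 4))| ≤ ε * H ^ (-(p ^ 2 / 4))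

end Pool.Agent.Lib.MP4
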