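import Mathlib
import Pool.Agent.Lib.MP_f9aece_nt_mq.StmtsF

/-!
The fourth moment of the plain average of zeta over short windows, module FA1: the transform of the
indicator of the unit interval.
-/

set_option autoImplicit false

namespace Pool.Agent.Lib.MP4

open MeasureTheory Set Filter Topology Complex

namespace FA1I

/-- the derivative -/
noncomputable def g1 (r : ℝ) : ℂ := ∫ v in (0 : ℝ)..1, (-(I * (v : ℂ))) * cexp (-(I * ((r * v : ℝ) : ℂ)))

lemma hasDerivAt_g0 (r : ℝ) : HasDerivAt g0 (g1 r) r := by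
  unfold g0 g1
  have h := intervalIntegral.hasDerivAt_integral_of_dominated_loc_of_deriv_le (𝕜 := ℝ) (μ := volume)
    (a := 0) (b := 1) (F := fun (r v : ℝ) => cexp (-(I * ((r * v : ℝ) : ℂ))))
    (F' := fun (r v : ℝ) => (-(I * (v : ℂ))) * cexp (-(I * ((r * v : ℝ) : ℂ)))) (x₀ := r)
    (bound := fun _ => 1) (s := Set.univ) Filter.univ_mem
    (Eventually.of_forall fun r => Continuous.aestronglyMeasurable (by fun_prop))
    (Continuous.intervalIntegrable (by fun_prop) _ _)
    (Continuous.aestronglyMeasurable (by fun_prop))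
    (Eventually.of_forall fun v hv x _ => ?_) (by simp)
    (Eventually.of_forall fun v hv x _ => ?_)
  · exact h.2
  · rw [uIoc_of_le zero_le_one] at hv
    rw [norm_mul, norm_neg, norm_mul, Complex.norm_I, Complex.norm_real, Complex.norm_exp,
      Real.norm_of_nonneg hv.1.le]
    simp only [one_mul, Complex.neg_re, Complex.mul_re, Complex.I_re, Complex.ofReal_re, zero_mul,
      Complex.I_im, Complex.ofReal_im, mul_zero, sub_zero, neg_zero, Real.exp_zero, mul_one]
    exact hv.2
  · have h1 : HasDerivAt (fun r : ℝ => ((r * v : ℝ) : ℂ)) ((v : ℝ) : ℂ) x := by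
      have := ((hasDerivAt_id x).mul_const v).ofReal_comp
      simpa using this
    have h2 : HasDerivAt (fun r : ℝ => -(I * ((r * v : ℝ) : ℂ))) (-(I * (v : ℂ))) x :=
      (h1.const_mul I).neg
    refine h2.cexp.congr_deriv ?_
    ring

lemma cont_g1 : Continuous g1 := by
  unfold g1
  refine intervalIntegral.continuous_parametric_intervalIntegral_of_continuous' ?_ _ _
  simp only [Function.uncurry_def]
  fun_prop

lemma formula {r : ℝ} (hr : r ≠ 0) : g0 r = (1 - cexp (-(I * (r : ℂ)))) / (I * (r : ℂ)) := by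
  unfold g0
  have hc : (-(I * (r : ℂ))) ≠ 0 := by
    rw [neg_ne_zero]
    exact mul_ne_zero I_ne_zero (by exact_mod_cast hr)
  have h1 : ∀ v : ℝ, cexp (-(I * ((r * v : ℝ) : ℂ))) = cexp (-(I * (r : ℂ)) * (v : ℂ)) := by
    intro v
    congr 1
    push_cast; ring
  simp only [h1]
  rw [integral_exp_mul_complex hc]
  simp only [Complex.ofReal_one, mul_one, Complex.ofReal_zero, mul_zero, Complex.exp_zero]
  rw [← neg_div_neg_eq]
  congr 1
  · ring
  · ring

lemma norm_g0 (r : ℝ) : ‖g0 r‖ ≤ 1 := by
  unfold g0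
  have h := intervalIntegral.norm_integral_le_of_norm_le_const (a := 0) (b := 1)
    (f := fun v : ℝ => cexp (-(I * ((r * v : ℝ) : ℂ)))) (C := 1) (fun v _ => by
      rw [Complex.norm_exp]; simp)
  simpa using h

lemma norm_g1 (r : ℝ) : ‖g1 r‖ ≤ 1 := by
  unfold g1
  have h := intervalIntegral.norm_integral_le_of_norm_le_const (a := 0) (b := 1)
    (f := fun v : ℝ => (-(I * (v : ℂ))) * cexp (-(I * ((r * v : ℝ) : ℂ)))) (C := 1) (fun v hv => by
      rw [uIoc_of_le zero_le_one] at hv
      rw [norm_mul, norm_neg, norm_mul, Complex.norm_I, Complex.norm_real, Complex.norm_exp,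
        Real.norm_of_nonneg hv.1.le]
      simp only [one_mul, Complex.neg_re, Complex.mul_re, Complex.I_re, Complex.ofReal_re, zero_mul,
        Complex.I_im, Complex.ofReal_im, mul_zero, sub_zero, neg_zero, Real.exp_zero, mul_one]
      exact hv.2)
  simpa using h

lemma norm_e (r : ℝ) : ‖cexp (-(I * (r : ℂ)))‖ = 1 := by
  rw [Complex.norm_exp]; simp

lemma g0_le {r : ℝ} (hr : 0 < r) : ‖g0 r‖ ≤ 2 / r := by
  rw [formula hr.ne', norm_div, norm_mul, Complex.norm_I, one_mul, Complex.norm_real, Real.norm_of_nonneg hr.le]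
  gcongr
  refine (norm_sub_le _ _).trans ?_
  rw [norm_one, norm_e]
  norm_num

/-- the derivative for positive arguments -/
lemma g1_eq {r : ℝ} (hr : 0 < r) :
    g1 r = (cexp (-(I * (r : ℂ))) - g0 r) / (r : ℂ) := by
  have hr0 : (r : ℂ) ≠ 0 := by exact_mod_cast hr.ne'
  -- `r * g0 r = (1 - exp (- I r)) / I`
  have h1 : HasDerivAt (fun r : ℝ => (r : ℂ) * g0 r) (1 * g0 r + (r : ℂ) * g1 r) r := by
    have h2 : HasDerivAt (fun r : ℝ => (r : ℂ)) 1 r := by
      simpa using (hasDerivAt_id r).ofReal_comp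
    exact h2.mul (hasDerivAt_g0 r)
  have h3 : HasDerivAt (fun r : ℝ => (1 - cexp (-(I * (r : ℂ)))) / I) (cexp (-(I * (r : ℂ)))) r := by
    have h4 : HasDerivAt (fun r : ℝ => -(I * (r : ℂ))) (-(I * 1)) r := by
      have : HasDerivAt (fun r : ℝ => (r : ℂ)) 1 r := by simpa using (hasDerivAt_id r).ofReal_comp
      exact (this.const_mul I).neg
    have h5 := ((h4.cexp.const_sub 1)).div_const I
    refine h5.congr_deriv ?_
    field_simp
  have h6 : (fun r : ℝ => (r : ℂ) * g0 r) = fun r : ℝ => (1 - cexp (-(I * (r : ℂ)))) / I := by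
    funext r
    rcases eq_or_ne r 0 with h0 | h0
    · rw [h0]; simp
    · rw [formula h0]
      have : (r : ℂ) ≠ 0 := by exact_mod_cast h0
      field_simp
  rw [h6] at h1
  have h7 := h1.unique h3
  rw [eq_div_iff hr0]
  linear_combination h7

lemma g1_le {r : ℝ} (hr : 0 < r) : ‖g1 r‖ ≤ (1 + 2 / r) / r := by
  rw [g1_eq hr, norm_div, Complex.norm_real, Real.norm_of_nonneg hr.le]
  gcongr
  refine (norm_sub_le _ _).trans ?_
  rw [norm_e]
  linarith [g0_le hr]

end FA1I

open FA1I

theorem gZero : GZero := by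
  refine ⟨fun r hr => formula hr, ?_, g1, cont_g1, hasDerivAt_g0, fun r hr => ?_⟩
  · unfold g0
    simp
  · rcases le_or_gt r 3 with h | h
    · have h1 := norm_g0 r
      have h2 := norm_g1 r
      constructor
      · nlinarith [norm_nonneg (g0 r)]
      · nlinarith [norm_nonneg (g1 r)]
    · have hr0 : 0 < r := by linarith
      constructor
      · calc ‖g0 r‖ * (1 + r) ≤ 2 / r * (1 + r) := by
              gcongr
              exact g0_le hr0
          _ ≤ 4 := by
              rw [div_mul_eq_mul_div, div_le_iff₀ hr0]; linarith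
      · calc ‖g1 r‖ * (1 + r) ≤ (1 + 2 / r) / r * (1 + r) := by
              gcongr
              exact g1_le hr0
          _ ≤ 4 := by
              rw [div_mul_eq_mul_div, div_le_iff₀ hr0]
              have h3 : 2 / r ≤ 2 / 3 := by gcongr
              nlinarith

end Pool.Agent.Lib.MP4
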