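import Mathlib
import Pool.Agent.Lib.MP_f9aece_nt_mq.StmtsF
import Pool.Agent.Lib.MP_f9aece_nt_ms.Z3PsiLip

/-!
The fourth moment of the plain average of zeta over short windows, module FA2.
-/

set_option autoImplicit false

namespace Pool.Agent.Lib.MP4

open MeasureTheory Set Filter Topology Complex
open scoped ComplexConjugate
open Pool.Agent.Lib.MS (psi Adm ZW ZS Res ZIdent PowClose)
open Pool.Agent.Lib
open Pool.Agent.Lib.MP2 (RD Av PA BumpFn Th Ss ph Prim PhAdm Cont Ident Top)

theorem psiPh (hP : Prim) (hG : GZero) : PsiPh := by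
  intro g hg
  have hgc : Continuous (fun v : ℝ => g v) := hg.diff.continuous.comp Complex.continuous_ofReal
  have hwint : Integrable (fun v : ℝ => ((1 + |v| : ℝ) : ℂ) * g v) := by
    obtain ⟨C, hC⟩ := hg.decay 3
    refine Integrable.mono' (integrable_inv_one_add_sq.const_mul C) ?_ ?_
    · have : Continuous (fun v : ℝ => ((1 + |v| : ℝ) : ℂ) * g v) :=
        (Complex.continuous_ofReal.comp (continuous_const.add continuous_abs)).mul hgc
      exact this.aestronglyMeasurable
    · refine Filter.Eventually.of_forall fun v => ?_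
      have h1 := hC (v : ℂ) (by simp)
      simp only [ofReal_re] at h1
      have hp : 0 < 1 + |v| := by positivity
      rw [norm_mul, Complex.norm_real, Real.norm_eq_abs, abs_of_pos hp, ← div_eq_mul_inv,
        le_div_iff₀ (by positivity)]
      have h2 : 1 + v ^ 2 ≤ (1 + |v|) ^ 2 := by
        have := abs_nonneg v
        nlinarith [sq_abs v]
      calc (1 + |v|) * ‖g v‖ * (1 + v ^ 2) ≤ (1 + |v|) * ‖g v‖ * (1 + |v|) ^ 2 := by gcongr
        _ = ‖g v‖ * (1 + |v|) ^ 3 := by ring
        _ ≤ C := h1
  have hgint : Integrable (fun v : ℝ => g v) := by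
    refine Integrable.mono hwint hgc.aestronglyMeasurable (Filter.Eventually.of_forall fun v => ?_)
    have hp : 0 < 1 + |v| := by positivity
    rw [norm_mul, Complex.norm_real, Real.norm_eq_abs, abs_of_pos hp]
    have := norm_nonneg (g v)
    nlinarith [abs_nonneg v]
  constructor
  · have hadm : Adm (fun v : ℝ => g v) 1 := ⟨one_pos, hwint, hg.one, fun r hr => hg.supp r hr⟩
    obtain ⟨B, ψ', hB1, hb, _, hder, hcont, hb'⟩ := MS.psiLip _ 1 hadm
    refine ⟨ψ', B, ⟨hB1, ?_, hb, hder, hcont, hb', hg.supp⟩⟩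
    unfold psi
    simp only [zero_mul, ofReal_zero, mul_zero, neg_zero, Complex.exp_zero, mul_one]
    exact hg.one
  intro R hR r
  have hder := (hP g hg).1
  -- the averaged formula
  have hph : ∀ v : ℝ, ph g R v = ∫ w in (0 : ℝ)..1, (R : ℂ) * g ((R * (v - w) : ℝ) : ℂ) := by
    intro v
    have hd : ∀ w ∈ uIcc (0 : ℝ) 1, HasDerivAt (fun w : ℝ => - Th g (R * (v - w)))
        ((R : ℂ) * g ((R * (v - w) : ℝ) : ℂ)) w := by
      intro w _
      have h1 : HasDerivAt (fun w : ℝ => R * (v - w)) (-R) w := by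
        have := ((hasDerivAt_id w).const_sub v).const_mul R
        simpa using this
      have h2 := (HasDerivAt.scomp w (hder (R * (v - w))) h1).neg
      have e : (R : ℂ) * g ((R * (v - w) : ℝ) : ℂ) = -(-R • g ((R * (v - w) : ℝ) : ℂ)) := by
        rw [neg_smul, neg_neg, Complex.real_smul]
      rw [e]
      exact h2
    have hc : Continuous (fun w : ℝ => (R : ℂ) * g ((R * (v - w) : ℝ) : ℂ)) :=
      continuous_const.mul (hgc.comp (by fun_prop))
    rw [intervalIntegral.integral_eq_sub_of_hasDerivAt hd (hc.intervalIntegrable _ _)]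
    unfold ph
    simp only [sub_zero]
    ring
  set f : ℝ → ℝ → ℂ := fun v w => (R : ℂ) * g ((R * (v - w) : ℝ) : ℂ) *
    cexp (-(I * ((r * v : ℝ) : ℂ))) with hf
  have hfc : Continuous (Function.uncurry f) := by
    have h1 : Continuous fun p : ℝ × ℝ => g ((R * (p.1 - p.2) : ℝ) : ℂ) :=
      hgc.comp (by fun_prop : Continuous fun p : ℝ × ℝ => R * (p.1 - p.2))
    have h2 : Continuous fun p : ℝ × ℝ => cexp (-(I * ((r * p.1 : ℝ) : ℂ))) := by fun_prop
    exact (continuous_const.mul h1).mul h2
  have hnormf : ∀ v w : ℝ, ‖f v w‖ = R * ‖g ((R * (v - w) : ℝ) : ℂ)‖ := by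
    intro v w
    simp only [hf]
    rw [norm_mul, norm_mul, Complex.norm_real, Real.norm_eq_abs, abs_of_pos hR]
    have : ‖cexp (-(I * ((r * v : ℝ) : ℂ)))‖ = 1 := by
      rw [show -(I * ((r * v : ℝ) : ℂ)) = ((-(r * v) : ℝ) : ℂ) * I by push_cast; ring,
        Complex.norm_exp_ofReal_mul_I]
    rw [this, mul_one]
  have hgR : ∀ w : ℝ, Integrable (fun v : ℝ => g ((R * (v - w) : ℝ) : ℂ)) := by
    intro w
    have h1 : Integrable (fun v : ℝ => g ((R * v : ℝ) : ℂ)) := hgint.comp_mul_left' hR.ne'
    exact h1.comp_sub_right w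
  have hfw : ∀ w : ℝ, Integrable (fun v : ℝ => f v w) := by
    intro w
    refine Integrable.mono' ((hgR w).norm.const_mul R) ?_ ?_
    · have : Continuous fun v : ℝ => f v w := hfc.comp (by fun_prop : Continuous fun v : ℝ => (v, w))
      exact this.aestronglyMeasurable
    · exact Filter.Eventually.of_forall fun v => (hnormf v w).le
  have hconst : ∀ w : ℝ, ∫ v, ‖f v w‖ = ∫ v, ‖f v 0‖ := by
    intro w
    simp_rw [hnormf]
    have := integral_sub_right_eq_self (μ := volume) (fun v : ℝ => R * ‖g ((R * (v - 0) : ℝ) : ℂ)‖) w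
    rw [← this]
    refine integral_congr_ae (Filter.Eventually.of_forall fun v => ?_)
    simp only [sub_zero]
  have hprod : Integrable (Function.uncurry f) ((volume : Measure ℝ).prod (volume.restrict (Ioc 0 1))) := by
    rw [integrable_prod_iff' hfc.aestronglyMeasurable]
    refine ⟨Filter.Eventually.of_forall fun w => hfw w, ?_⟩
    simp only [Function.uncurry]
    simp_rw [hconst]
    exact integrable_const _
  have hswap := integral_integral_swap (μ := (volume : Measure ℝ)) (ν := volume.restrict (Ioc (0:ℝ) 1)) hprod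
  -- value of the inner integral
  have hinner : ∀ w : ℝ, ∫ v, f v w = cexp (-(I * ((r * w : ℝ) : ℂ))) *
      psi (fun v : ℝ => g v) (r / R) := by
    intro w
    set G : ℝ → ℂ := fun u => cexp (-(I * ((r * w : ℝ) : ℂ))) *
      (g u * cexp (-(I * ((r / R * u : ℝ) : ℂ)))) with hGdef
    have e1 : ∀ v : ℝ, f v w = (R : ℂ) * G (R * (v - w)) := by
      intro v
      simp only [hf, hGdef]
      have e2 : cexp (-(I * ((r * v : ℝ) : ℂ))) = cexp (-(I * ((r * w : ℝ) : ℂ))) *
          cexp (-(I * ((r / R * (R * (v - w)) : ℝ) : ℂ))) := by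
        rw [← Complex.exp_add]
        congr 1
        have : r / R * (R * (v - w)) = r * (v - w) := by field_simp
        rw [this]
        push_cast
        ring
      rw [e2]
      ring
    simp_rw [e1]
    rw [integral_const_mul, integral_sub_right_eq_self (μ := volume) (fun v : ℝ => G (R * v)) w,
      Measure.integral_comp_mul_left, abs_of_pos (inv_pos.2 hR), hGdef, integral_const_mul]
    unfold psi
    rw [Complex.real_smul]
    have hRc : (R : ℂ) ≠ 0 := by exact_mod_cast hR.ne'
    push_cast
    field_simp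
  have hpsi : psi (ph g R) r = ∫ v, ∫ w in Ioc (0:ℝ) 1, f v w := by
    unfold psi
    refine integral_congr_ae (Filter.Eventually.of_forall fun v => ?_)
    simp only [hf]
    rw [hph v, intervalIntegral.integral_of_le zero_le_one, integral_mul_const]
  rw [hpsi, hswap]
  simp_rw [hinner]
  rw [integral_mul_const]
  unfold FF g0
  rw [intervalIntegral.integral_of_le zero_le_one]

end Pool.Agent.Lib.MP4
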