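import Mathlib
import Pool.Agent.Lib.MP_f9aece_nt_mq.StmtsF

/-!
The fourth moment of the plain average of zeta over short windows, module FA3: bounds for the
coefficients.
-/

set_option autoImplicit false

namespace Pool.Agent.Lib.MP4

open MeasureTheory Set Filter Topology Complex

theorem fBd (hG : GZero) : FBd := by
  obtain ⟨-, -, g0', hgc, hgd, hgb⟩ := hG
  intro θ θ' B hθ
  have hB := hθ.one_le
  refine ⟨8 * B, fun R hR => ?_⟩
  have hR0 : 0 < R := by linarith
  have hRne : (R : ℂ) ≠ 0 := by exact_mod_cast hR0.ne'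
  -- the derivative of the cut-off vanishes beyond one
  have hz : ∀ r : ℝ, 1 ≤ r → θ' r = 0 := by
    have h1 : ∀ r : ℝ, 1 < r → θ' r = 0 := by
      intro r hr
      have h2 : θ =ᶠ[𝓝 r] fun _ => (0 : ℂ) := by
        filter_upwards [lt_mem_nhds hr] with s hs
        exact hθ.supp s (le_trans hs.le (le_abs_self s))
      have h3 : HasDerivAt θ 0 r := (hasDerivAt_const r (0 : ℂ)).congr_of_eventuallyEq h2
      exact (hθ.der r).unique h3
    intro r hr
    rcases eq_or_lt_of_le hr with h | h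
    · rw [← h]
      have hcl : IsClosed {s : ℝ | θ' s = 0} := isClosed_eq hθ.cont continuous_const
      have hsub : Ioi (1 : ℝ) ⊆ {s : ℝ | θ' s = 0} := fun s hs => h1 s hs
      have h4 := hcl.closure_subset_iff.mpr hsub
      rw [closure_Ioi] at h4
      exact h4 (mem_Ici.mpr le_rfl)
    · exact h1 r h
  refine ⟨fun r => g0' r * θ (r / R) + g0 r * (θ' (r / R) * ((R⁻¹ : ℝ) : ℂ)), ?_⟩
  have hθc : Continuous θ := continuous_iff_continuousAt.mpr fun r => (hθ.der r).continuousAt
  have hg0c : Continuous g0 := continuous_iff_continuousAt.mpr fun r => (hgd r).continuousAt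
  have hdiv : Continuous (fun r : ℝ => r / R) := by fun_prop
  refine ⟨hR, by linarith, ?_, ?_, ?_, ?_, ?_⟩
  · intro r
    have h1 : HasDerivAt (fun r : ℝ => r / R) R⁻¹ r := by
      simpa [div_eq_mul_inv] using (hasDerivAt_id r).mul_const R⁻¹
    have h2 : HasDerivAt (fun r : ℝ => θ (r / R)) (θ' (r / R) * ((R⁻¹ : ℝ) : ℂ)) r := by
      have h3 := HasDerivAt.scomp r (hθ.der (r / R)) h1
      simpa [Function.comp_def, mul_comm] using h3
    exact (hgd r).mul h2
  · exact (hgc.mul (hθc.comp hdiv)).add (hg0c.mul ((hθ.cont.comp hdiv).mul continuous_const))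
  · intro r hr
    unfold FF
    rw [norm_mul]
    have h1 := (hgb r hr).1
    have h2 := hθ.bd (r / R)
    calc ‖g0 r‖ * ‖θ (r / R)‖ * (1 + r) = ‖g0 r‖ * (1 + r) * ‖θ (r / R)‖ := by ring
      _ ≤ 4 * B := by gcongr
      _ ≤ 8 * B := by linarith
  · intro r hr
    have h1 := hgb r hr
    have h2 := hθ.bd (r / R)
    have h3 := hθ.bd' (r / R)
    have h4 : R⁻¹ ≤ 1 := inv_le_one_of_one_le₀ hR
    have h5 : ‖g0' r * θ (r / R) + g0 r * (θ' (r / R) * ((R⁻¹ : ℝ) : ℂ))‖
        ≤ ‖g0' r‖ * B + ‖g0 r‖ * B := by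
      refine (norm_add_le _ _).trans ?_
      rw [norm_mul, norm_mul, norm_mul, Complex.norm_real, Real.norm_of_nonneg (inv_nonneg.mpr hR0.le)]
      have h6 : ‖θ' (r / R)‖ * R⁻¹ ≤ B * 1 := by
        gcongr
      rw [mul_one] at h6
      gcongr
    have h7 : 0 ≤ 1 + r := by linarith
    calc ‖g0' r * θ (r / R) + g0 r * (θ' (r / R) * ((R⁻¹ : ℝ) : ℂ))‖ * (1 + r)
        ≤ (‖g0' r‖ * B + ‖g0 r‖ * B) * (1 + r) := by gcongr
      _ = (‖g0' r‖ * (1 + r)) * B + (‖g0 r‖ * (1 + r)) * B := by ring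
      _ ≤ 4 * B + 4 * B := by
          gcongr
          · exact h1.2
          · exact h1.1
      _ = 8 * B := by ring
  · intro r hr
    have h1 : 1 ≤ r / R := by rw [le_div_iff₀ hR0]; linarith
    have h2 : θ (r / R) = 0 := hθ.supp _ (h1.trans (le_abs_self _))
    have h3 := hz _ h1
    constructor
    · unfold FF
      rw [h2, mul_zero]
    · simp only [h2, h3, zero_mul, mul_zero, add_zero]

end Pool.Agent.Lib.MP4
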