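import Mathlib
import Pool.Agent.Lib.MP_f9aece_nt_mq.StmtsF

/-!
The fourth moment of the plain average of zeta over short windows, module FB1.

Expand both sides into sums over quadruples. LHS: sum over a,b,a1,b1 in [1,N], ab = a1 b1, of c a c b conj(c a1 c b1)/(ab) (c vanishes above N, so divisorsAntidiagonal can be restricted). RHS: sum over coprime (x,y), g,h: c(gx) conj c(gy) conj(c(hx)) c(hy)/(g h x y). Bijection a = gx, a1 = gy, b = hy, b1 = hx with g = gcd(a,a1) (Finset.sum_bij / sum_nbij; only terms with all four arguments <= N are non-zero; note x,y <= N, g,h <= N then).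
-/

set_option autoImplicit false

namespace Pool.Agent.Lib.MP4

open MeasureTheory Set Filter Topology Complex
open scoped ComplexConjugate
open Pool.Agent.Lib.MS (psi Adm ZW ZS Res ZIdent PowClose)
open Pool.Agent.Lib
open Pool.Agent.Lib.MP2 (RD Av PA BumpFn Th Ss ph Prim PhAdm Cont Ident Top)

/-- the summand over quadruples -/
private noncomputable def qt (c : ℕ → ℂ) (q : (ℕ × ℕ) × (ℕ × ℕ)) : ℂ :=
  c q.1.1 * c q.1.2 * conj (c q.2.1 * c q.2.2) / ((q.1.1 * q.1.2 : ℕ) : ℂ)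

private def qd (N : ℕ) : Finset ((ℕ × ℕ) × (ℕ × ℕ)) :=
  (((Finset.Icc 1 N ×ˢ Finset.Icc 1 N) ×ˢ (Finset.Icc 1 N ×ˢ Finset.Icc 1 N))).filter
    fun q => q.1.1 * q.1.2 = q.2.1 * q.2.2

private theorem lhs_eq (c : ℕ → ℂ) (N : ℕ) (hc : ∀ n, N < n → c n = 0) :
    ((E4 c N : ℝ) : ℂ) = ∑ q ∈ qd N, qt c q := by
  classical
  -- restrict the divisor sums
  have h1 : ∀ m ∈ Finset.Icc 1 (N ^ 2), ∑ p ∈ m.divisorsAntidiagonal, c p.1 * c p.2 =
      ∑ p ∈ (Finset.Icc 1 N ×ˢ Finset.Icc 1 N).filter (fun p => p.1 * p.2 = m),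
        c p.1 * c p.2 := by
    intro m hm
    have hm1 := (Finset.mem_Icc.1 hm).1
    symm
    apply Finset.sum_subset
    · intro p hp
      rw [Finset.mem_filter] at hp
      rw [Nat.mem_divisorsAntidiagonal]
      exact ⟨hp.2, by omega⟩
    · intro p hp hpn
      rw [Nat.mem_divisorsAntidiagonal] at hp
      have hp1 : p.1 ≠ 0 := by
        rintro h
        rw [h, zero_mul] at hp
        exact hp.2 hp.1.symm
      have hp2 : p.2 ≠ 0 := by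
        rintro h
        rw [h, mul_zero] at hp
        exact hp.2 hp.1.symm
      rw [Finset.mem_filter, Finset.mem_product, Finset.mem_Icc, Finset.mem_Icc] at hpn
      by_cases hN : N < p.1
      · rw [hc _ hN, zero_mul]
      · by_cases hN' : N < p.2
        · rw [hc _ hN', mul_zero]
        · exfalso
          exact hpn ⟨⟨⟨by omega, by omega⟩, ⟨by omega, by omega⟩⟩, hp.1⟩
  unfold E4
  rw [Complex.ofReal_sum]
  have h2 : ∀ m ∈ Finset.Icc 1 (N ^ 2),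
      (((‖∑ p ∈ m.divisorsAntidiagonal, c p.1 * c p.2‖ ^ 2 / m : ℝ)) : ℂ) =
        ∑ q ∈ (qd N).filter (fun q => q.1.1 * q.1.2 = m), qt c q := by
    intro m hm
    have hm1 := (Finset.mem_Icc.1 hm).1
    rw [h1 m hm]
    push_cast
    rw [← Complex.mul_conj', map_sum, Finset.sum_mul_sum, ← Finset.sum_product', Finset.sum_div]
    refine Finset.sum_bij (fun q _ => q) ?_ ?_ ?_ ?_
    · intro q hq
      simp only [qd, Finset.mem_filter, Finset.mem_product, Finset.mem_Icc] at hq ⊢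
      obtain ⟨⟨⟨h3, h4⟩, h5⟩, ⟨⟨h6, h7⟩, h8⟩⟩ := hq
      exact ⟨⟨⟨⟨h3, h4⟩, ⟨h6, h7⟩⟩, by rw [h5, h8]⟩, h5⟩
    · intro a _ b _ h
      exact h
    · intro q hq
      simp only [qd, Finset.mem_filter, Finset.mem_product, Finset.mem_Icc] at hq
      obtain ⟨⟨⟨⟨h3, h4⟩, ⟨h6, h7⟩⟩, h8⟩, h5⟩ := hq
      refine ⟨q, ?_, rfl⟩
      simp only [Finset.mem_filter, Finset.mem_product, Finset.mem_Icc]
      exact ⟨⟨⟨h3, h4⟩, h5⟩, ⟨⟨h6, h7⟩, by rw [← h8, h5]⟩⟩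
    · intro q hq
      simp only [Finset.mem_filter, Finset.mem_product, Finset.mem_Icc] at hq
      unfold qt
      rw [hq.1.2]
  rw [Finset.sum_congr rfl h2]
  have h3 : ∀ q ∈ qd N, q.1.1 * q.1.2 ∈ Finset.Icc 1 (N ^ 2) := by
    intro q hq
    simp only [qd, Finset.mem_filter, Finset.mem_product, Finset.mem_Icc] at hq
    rw [Finset.mem_Icc]
    obtain ⟨⟨⟨⟨h3, h4⟩, ⟨h6, h7⟩⟩, -⟩, -⟩ := hq
    refine ⟨Nat.mul_pos h3 h6, ?_⟩
    rw [pow_two]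
    exact Nat.mul_le_mul h4 h7
  exact Finset.sum_fiberwise_of_maps_to h3 (qt c)

private theorem rhs_eq (c : ℕ → ℂ) (N : ℕ) :
    (((∑ p ∈ cop N, ‖dk c N p.1 p.2‖ ^ 2 / (p.1 * p.2) : ℝ)) : ℂ) =
      ∑ r ∈ cop N ×ˢ (Finset.Icc 1 N ×ˢ Finset.Icc 1 N),
        qt c ((r.2.1 * r.1.1, r.2.2 * r.1.2), (r.2.1 * r.1.2, r.2.2 * r.1.1)) := by
  rw [Complex.ofReal_sum, Finset.sum_product]
  apply Finset.sum_congr rfl
  intro p hp
  push_cast
  rw [← Complex.mul_conj']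
  unfold dk
  rw [map_sum, Finset.sum_mul_sum, ← Finset.sum_product', Finset.sum_div]
  apply Finset.sum_congr rfl
  rintro ⟨g, h⟩ _
  unfold qt
  simp only [map_div₀, map_mul, Complex.conj_conj, Complex.conj_natCast]
  push_cast
  rw [div_mul_div_comm, div_div]
  congr 1
  · ring
  · ring

theorem fourEn : FourEn := by
  classical
  intro c N hc
  apply Complex.ofReal_injective
  rw [lhs_eq c N hc, rhs_eq c N]
  symm
  -- keep only the quadruples of size at most `N`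
  set S : Finset ((ℕ × ℕ) × (ℕ × ℕ)) := cop N ×ˢ (Finset.Icc 1 N ×ˢ Finset.Icc 1 N) with hS
  set S' : Finset ((ℕ × ℕ) × (ℕ × ℕ)) := S.filter fun r =>
    (r.2.1 * r.1.1 ≤ N ∧ r.2.2 * r.1.2 ≤ N) ∧ (r.2.1 * r.1.2 ≤ N ∧ r.2.2 * r.1.1 ≤ N) with hS'
  have h1 : ∑ r ∈ S, qt c ((r.2.1 * r.1.1, r.2.2 * r.1.2), (r.2.1 * r.1.2, r.2.2 * r.1.1)) =
      ∑ r ∈ S', qt c ((r.2.1 * r.1.1, r.2.2 * r.1.2), (r.2.1 * r.1.2, r.2.2 * r.1.1)) := by
    symm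
    apply Finset.sum_subset (Finset.filter_subset _ _)
    intro r hr hrn
    rw [Finset.mem_filter] at hrn
    unfold qt
    simp only
    by_cases h1 : N < r.2.1 * r.1.1
    · rw [hc _ h1]; simp
    by_cases h2 : N < r.2.2 * r.1.2
    · rw [hc _ h2]; simp
    by_cases h3 : N < r.2.1 * r.1.2
    · rw [hc _ h3]; simp
    by_cases h4 : N < r.2.2 * r.1.1
    · rw [hc _ h4]; simp
    exact absurd ⟨hr, ⟨not_lt.1 h1, not_lt.1 h2⟩, ⟨not_lt.1 h3, not_lt.1 h4⟩⟩ hrn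
  rw [h1]
  have hmem : ∀ r, r ∈ S' ↔ ((((1 ≤ r.1.1 ∧ r.1.1 ≤ N) ∧ (1 ≤ r.1.2 ∧ r.1.2 ≤ N)) ∧
      Nat.Coprime r.1.1 r.1.2) ∧ ((1 ≤ r.2.1 ∧ r.2.1 ≤ N) ∧ (1 ≤ r.2.2 ∧ r.2.2 ≤ N))) ∧
      (r.2.1 * r.1.1 ≤ N ∧ r.2.2 * r.1.2 ≤ N) ∧ (r.2.1 * r.1.2 ≤ N ∧ r.2.2 * r.1.1 ≤ N) := by
    intro r
    simp only [hS', hS, cop, Finset.mem_filter, Finset.mem_product, Finset.mem_Icc]
  refine Finset.sum_bij
    (fun r _ => ((r.2.1 * r.1.1, r.2.2 * r.1.2), (r.2.1 * r.1.2, r.2.2 * r.1.1))) ?_ ?_ ?_ ?_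
  · intro r hr
    obtain ⟨⟨⟨⟨h2, h3⟩, -⟩, ⟨h4, h5⟩⟩, ⟨h6, h7⟩, ⟨h8, h9⟩⟩ := (hmem r).1 hr
    simp only [qd, Finset.mem_filter, Finset.mem_product, Finset.mem_Icc]
    exact ⟨⟨⟨⟨Nat.mul_pos h4.1 h2.1, h6⟩, ⟨Nat.mul_pos h5.1 h3.1, h7⟩⟩,
      ⟨⟨Nat.mul_pos h4.1 h3.1, h8⟩, ⟨Nat.mul_pos h5.1 h2.1, h9⟩⟩⟩, by ring⟩
  · intro r hr s hs hrs
    obtain ⟨⟨⟨⟨h2, h3⟩, hco⟩, ⟨h4, h5⟩⟩, -⟩ := (hmem r).1 hr
    obtain ⟨⟨⟨⟨k2, k3⟩, kco⟩, ⟨k4, k5⟩⟩, -⟩ := (hmem s).1 hs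
    obtain ⟨⟨x, y⟩, ⟨g, h⟩⟩ := r
    obtain ⟨⟨x', y'⟩, ⟨g', h'⟩⟩ := s
    simp only [Prod.mk.injEq] at *
    obtain ⟨⟨e1, e2⟩, ⟨e3, e4⟩⟩ := hrs
    have hg : g = g' := by
      have h6 : Nat.gcd (g * x) (g * y) = g := by
        rw [Nat.gcd_mul_left, hco.gcd_eq_one, mul_one]
      have h7 : Nat.gcd (g' * x') (g' * y') = g' := by
        rw [Nat.gcd_mul_left, kco.gcd_eq_one, mul_one]
      rw [← h6, ← h7, e1, e3]
    have hh : h = h' := by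
      have h6 : Nat.gcd (h * x) (h * y) = h := by
        rw [Nat.gcd_mul_left, hco.gcd_eq_one, mul_one]
      have h7 : Nat.gcd (h' * x') (h' * y') = h' := by
        rw [Nat.gcd_mul_left, kco.gcd_eq_one, mul_one]
      rw [← h6, ← h7, e4, e2]
    subst hg
    subst hh
    exact ⟨⟨Nat.eq_of_mul_eq_mul_left h4.1 e1, Nat.eq_of_mul_eq_mul_left h4.1 e3⟩, rfl, rfl⟩
  · rintro ⟨⟨a, b⟩, ⟨a1, b1⟩⟩ hq
    simp only [qd, Finset.mem_filter, Finset.mem_product, Finset.mem_Icc] at hq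
    obtain ⟨⟨⟨⟨h2, h3⟩, ⟨h4, h5⟩⟩, ⟨⟨h6, h7⟩, ⟨h8, h9⟩⟩⟩, he⟩ := hq
    obtain ⟨g, x, y, hg, hco, hax, hay⟩ := Nat.exists_coprime' (m := a) (n := a1)
      (Nat.gcd_pos_of_pos_left _ h2)
    -- `a = x * g`, `a1 = y * g`
    have hx : 0 < x := Nat.pos_of_ne_zero (by
      rintro rfl
      rw [zero_mul] at hax
      omega)
    have hy : 0 < y := Nat.pos_of_ne_zero (by
      rintro rfl
      rw [zero_mul] at hay
      omega)
    have he' : x * b = y * b1 := by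
      apply Nat.eq_of_mul_eq_mul_left hg
      calc g * (x * b) = (x * g) * b := by ring
        _ = a1 * b1 := by rw [← hax, he]
        _ = g * (y * b1) := by rw [hay]; ring
    have hyb : y ∣ b := by
      apply (Nat.Coprime.dvd_mul_left hco.symm).1
      exact ⟨b1, he'⟩
    obtain ⟨h, hb⟩ := hyb
    have hb1 : b1 = x * h := by
      apply Nat.eq_of_mul_eq_mul_left hy
      rw [← he', hb]
      ring
    have hh : 0 < h := Nat.pos_of_ne_zero (by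
      rintro rfl
      rw [mul_zero] at hb
      omega)
    subst hb
    subst hb1
    subst hax
    subst hay
    refine ⟨((x, y), (g, h)), (hmem _).2 ?_, ?_⟩
    · simp only
      refine ⟨⟨⟨⟨⟨hx, ?_⟩, ⟨hy, ?_⟩⟩, hco⟩, ⟨⟨hg, ?_⟩, ⟨hh, ?_⟩⟩⟩, ⟨?_, ?_⟩, ⟨?_, ?_⟩⟩
      · exact le_trans (Nat.le_mul_of_pos_right x hg) h3
      · exact le_trans (Nat.le_mul_of_pos_right y hg) h7
      · exact le_trans (Nat.le_mul_of_pos_left g hx) h3
      · exact le_trans (Nat.le_mul_of_pos_left h hy) h5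
      · rw [mul_comm]; exact h3
      · rw [mul_comm]; exact h5
      · rw [mul_comm]; exact h7
      · rw [mul_comm]; exact h9
    · simp only [Prod.mk.injEq]
      exact ⟨⟨mul_comm _ _, mul_comm _ _⟩, mul_comm _ _, mul_comm _ _⟩
  · intro r _
    rfl

end Pool.Agent.Lib.MP4
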