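import Mathlib
import Pool.Agent.Lib.MP_f9aece_nt_mq.StmtsF

/-!
The fourth moment of the plain average of zeta over short windows, module FB2.
-/

set_option autoImplicit false

namespace Pool.Agent.Lib.MP4

open MeasureTheory Set Filter Topology Complex
open scoped ComplexConjugate
open Pool.Agent.Lib.MS (psi Adm ZW ZS Res ZIdent PowClose)
open Pool.Agent.Lib
open Pool.Agent.Lib.MP2 (RD Av PA BumpFn Th Ss ph Prim PhAdm Cont Ident Top)

/-- the weight is close to `u / H` -/
private theorem weight_bd (R H : ℝ) (N : ℕ) (hH : 0 < H) (hN : Real.exp (R / H) < N + 1) (u : ℝ)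
    (hu : 0 < u) (huR : u ≤ R) :
    |H * (∑ n ∈ Finset.Icc 1 N, if H * Real.log n < u then ((n : ℝ))⁻¹ else 0) - u| ≤ H := by
  set x : ℝ := Real.exp (u / H) with hx
  have hx1 : 1 < x := by
    rw [hx]; exact Real.one_lt_exp_iff.2 (by positivity)
  have hxN : x < N + 1 := by
    refine lt_of_le_of_lt ?_ hN
    rw [hx]
    apply Real.exp_le_exp.2
    gcongr
  obtain ⟨k, hk⟩ : ∃ k : ℕ, ⌈x⌉₊ = k + 1 := by
    refine ⟨⌈x⌉₊ - 1, ?_⟩
    have : 0 < ⌈x⌉₊ := Nat.ceil_pos.2 (by linarith)
    omega
  have hkx : (k : ℝ) < x := Nat.lt_ceil.1 (by omega)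
  have hxk : x ≤ (k + 1 : ℕ) := by rw [← hk]; exact Nat.le_ceil x
  have hkN : k ≤ N := by
    have h1 : ⌈x⌉₊ ≤ N + 1 := Nat.ceil_le.2 (by push_cast; linarith)
    omega
  have hsum : (∑ n ∈ Finset.Icc 1 N, if H * Real.log n < u then ((n : ℝ))⁻¹ else 0) = harmonic k := by
    rw [← Finset.sum_filter]
    have hf : (Finset.Icc 1 N).filter (fun n : ℕ => H * Real.log n < u) = Finset.Icc 1 k := by
      ext n
      rw [Finset.mem_filter, Finset.mem_Icc, Finset.mem_Icc]
      have key : 1 ≤ n → (H * Real.log n < u ↔ n ≤ k) := by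
        intro hn
        have hn0 : (0 : ℝ) < n := by exact_mod_cast hn
        have e1 : H * Real.log n < u ↔ Real.log n < u / H := by
          rw [lt_div_iff₀ hH, mul_comm]
        have e2 : Real.log n < u / H ↔ (n : ℝ) < x := Real.log_lt_iff_lt_exp hn0
        have e3 : (n : ℝ) < x ↔ n < ⌈x⌉₊ := Nat.lt_ceil.symm
        rw [e1, e2, e3, hk]
        omega
      constructor
      · rintro ⟨⟨h1, _⟩, h3⟩; exact ⟨h1, (key h1).1 h3⟩
      · rintro ⟨h1, h2⟩; exact ⟨⟨h1, by omega⟩, (key h1).2 h2⟩
    rw [hf, harmonic_eq_sum_Icc]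
    push_cast
    rfl
  rw [hsum]
  have hlogx : Real.log x = u / H := Real.log_exp _
  have h1 : u / H ≤ harmonic k := by
    rw [← hlogx]
    exact (Real.log_le_log (by linarith) hxk).trans (log_add_one_le_harmonic k)
  have h2 : (harmonic k : ℝ) ≤ 1 + u / H := by
    refine (harmonic_le_one_add_log k).trans ?_
    rw [← hlogx]
    rcases Nat.eq_zero_or_pos k with h | h
    · subst h
      have : 0 ≤ Real.log x := Real.log_nonneg hx1.le
      simp only [Nat.cast_zero, Real.log_zero]
      linarith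
    · have hk0 : (0 : ℝ) < k := by exact_mod_cast h
      have := Real.log_le_log hk0 hkx.le
      linarith
  have e : u = H * (u / H) := by field_simp
  rw [abs_le]
  constructor
  · have : H * (u / H) ≤ H * (harmonic k : ℝ) := by gcongr
    linarith
  · have : H * (harmonic k : ℝ) ≤ H * (1 + u / H) := by gcongr
    have e3 : H * (1 + u / H) = H + u := by field_simp
    linarith

theorem sumInt : SumInt := by
  intro φ φ' R H N hR hH hder hcont hsupp hN
  have hint : ∀ a b : ℝ, IntervalIntegrable φ' volume a b := fun a b => hcont.intervalIntegrable a b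
  have hRz : φ R = 0 := hsupp R le_rfl
  have hval : ∀ a : ℝ, 0 ≤ a → φ a = - ∫ u in (0:ℝ)..R, (Ioi a).indicator φ' u := by
    intro a ha
    rw [intervalIntegral.integral_of_le hR, setIntegral_indicator measurableSet_Ioi]
    have hset : Ioc 0 R ∩ Ioi a = Ioc a R := by
      ext u; simp only [mem_inter_iff, mem_Ioc, mem_Ioi]; constructor
      · rintro ⟨⟨_, h2⟩, h3⟩; exact ⟨h3, h2⟩
      · rintro ⟨h1, h2⟩; exact ⟨⟨lt_of_le_of_lt ha h1, h2⟩, h1⟩
    rw [hset]
    rcases le_total a R with h | h
    · rw [← intervalIntegral.integral_of_le h,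
        intervalIntegral.integral_eq_sub_of_hasDerivAt (fun x _ => hder x) (hint a R), hRz]
      ring
    · rw [Ioc_eq_empty (not_lt.2 h)]; simp [hsupp a h]
  have hindint : ∀ a : ℝ, IntervalIntegrable ((Ioi a).indicator φ') volume 0 R := by
    intro a
    rw [intervalIntegrable_iff]
    exact ((intervalIntegrable_iff.1 (hint 0 R))).indicator measurableSet_Ioi
  have hindint' : ∀ (n : ℕ), IntervalIntegrable
      (fun u => ((H / n : ℝ) : ℂ) * (Ioi (H * Real.log n)).indicator φ' u) volume 0 R :=
    fun n => (hindint _).const_mul _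
  set S : ℝ → ℝ := fun u => ∑ n ∈ Finset.Icc 1 N, if H * Real.log n < u then ((n : ℝ))⁻¹ else 0
    with hS
  have hpt : ∀ u : ℝ, ∑ n ∈ Finset.Icc 1 N, ((H / n : ℝ) : ℂ) * (Ioi (H * Real.log n)).indicator φ' u
      = ((H * S u : ℝ) : ℂ) * φ' u := by
    intro u
    rw [hS]
    simp only
    rw [Finset.mul_sum]
    push_cast
    rw [Finset.sum_mul]
    refine Finset.sum_congr rfl fun n _ => ?_
    by_cases h : H * Real.log n < u
    · rw [indicator_of_mem (show u ∈ Ioi (H * Real.log n) from h), if_pos h]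
      push_cast
      ring
    · rw [indicator_of_notMem (show u ∉ Ioi (H * Real.log n) from h), if_neg h]
      simp
  have hsum : (H : ℂ) * ∑ n ∈ Finset.Icc 1 N, φ (H * Real.log n) / n
      = - ∫ u in (0:ℝ)..R, ((H * S u : ℝ) : ℂ) * φ' u := by
    have e1 : ∀ n ∈ Finset.Icc 1 N, (H : ℂ) * (φ (H * Real.log n) / n) =
        - ∫ u in (0:ℝ)..R, ((H / n : ℝ) : ℂ) * (Ioi (H * Real.log n)).indicator φ' u := by
      intro n hn
      rw [Finset.mem_Icc] at hn
      have hlog : 0 ≤ Real.log n := Real.log_natCast_nonneg n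
      rw [hval (H * Real.log n) (by positivity), intervalIntegral.integral_const_mul]
      push_cast
      ring
    rw [Finset.mul_sum, Finset.sum_congr rfl e1, Finset.sum_neg_distrib,
      ← intervalIntegral.integral_finsetSum (fun n _ => hindint' n)]
    congr 1
    exact intervalIntegral.integral_congr fun u _ => hpt u
  have hint2 : IntervalIntegrable (fun u => ((H * S u : ℝ) : ℂ) * φ' u) volume 0 R := by
    have h := IntervalIntegrable.sum (Finset.Icc 1 N) (fun n _ => hindint' n)
    refine h.congr ?_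
    intro u _
    simp only [Finset.sum_apply]
    exact hpt u
  have hint3 : IntervalIntegrable (fun u : ℝ => (u : ℂ) * φ' u) volume 0 R :=
    (Complex.continuous_ofReal.mul hcont).intervalIntegrable _ _
  have hφcont : Continuous φ := continuous_iff_continuousAt.2 fun x => (hder x).continuousAt
  have hparts : ∫ u in (0:ℝ)..R, φ u = - ∫ u in (0:ℝ)..R, (u : ℂ) * φ' u := by
    have hd : ∀ u ∈ uIcc 0 R, HasDerivAt (fun u : ℝ => (u : ℂ) * φ u) (1 * φ u + (u : ℂ) * φ' u) u := by
      intro u _
      exact ((hasDerivAt_id u).ofReal_comp).mul (hder u)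
    have hi : IntervalIntegrable (fun u : ℝ => 1 * φ u + (u : ℂ) * φ' u) volume 0 R := by
      refine ((continuous_const.mul hφcont).intervalIntegrable _ _).add hint3
    have := intervalIntegral.integral_eq_sub_of_hasDerivAt hd hi
    rw [hRz] at this
    simp only [one_mul, mul_zero, ofReal_zero, zero_mul, sub_zero] at this
    rw [intervalIntegral.integral_add (hφcont.intervalIntegrable _ _) hint3] at this
    exact eq_neg_of_add_eq_zero_left this
  rw [hsum, hparts]
  have e : (- ∫ u in (0:ℝ)..R, ((H * S u : ℝ) : ℂ) * φ' u) - - ∫ u in (0:ℝ)..R, (u : ℂ) * φ' u =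
      - ∫ u in (0:ℝ)..R, (((H * S u - u : ℝ)) : ℂ) * φ' u := by
    have : ∀ u : ℝ, (((H * S u - u : ℝ)) : ℂ) * φ' u = ((H * S u : ℝ) : ℂ) * φ' u - (u : ℂ) * φ' u := by
      intro u; push_cast; ring
    simp_rw [this]
    rw [intervalIntegral.integral_sub hint2 hint3]
    ring
  rw [e, norm_neg, ← intervalIntegral.integral_const_mul]
  refine (intervalIntegral.norm_integral_le_of_norm_le hR ?_ ?_)
  · refine Filter.Eventually.of_forall fun u hu => ?_
    rw [norm_mul, Complex.norm_real, Real.norm_eq_abs]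
    gcongr
    exact weight_bd R H N hH hN u hu.1 hu.2
  · exact (continuous_const.mul hcont.norm).intervalIntegrable _ _

end Pool.Agent.Lib.MP4
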