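import Mathlib
import Pool.Agent.Lib.MP_f9aece_nt_mq.StmtsF

/-!
The fourth moment of the plain average of zeta over short windows, module FB3: the majorant.
-/

set_option autoImplicit false

namespace Pool.Agent.Lib.MP4

open MeasureTheory Set Filter Topology Complex

namespace FB3I

/-- the basic integral -/
lemma base {b : ℝ} (hb : 0 < b) : IntegrableOn (fun u : ℝ => (b + u) ^ (-(5 / 4) : ℝ)) (Ioi 0) ∧
    ∫ u in Ioi (0 : ℝ), (b + u) ^ (-(5 / 4) : ℝ) = 4 * b ^ (-(1 / 4) : ℝ) := by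
  have h1 : IntegrableOn (fun u : ℝ => (b + u) ^ (-(5 / 4) : ℝ)) (Ioi 0) := by
    have := integrableOn_add_rpow_Ioi_of_lt (a := -(5 / 4)) (c := 0) (m := b) (by norm_num) (by linarith)
    refine this.congr_fun (fun u _ => ?_) measurableSet_Ioi
    change (u + b) ^ _ = (b + u) ^ _
    rw [add_comm]
  refine ⟨h1, ?_⟩
  have hd : ∀ u ∈ Ici (0 : ℝ), HasDerivAt (fun u : ℝ => -4 * (b + u) ^ (-(1 / 4) : ℝ))
      ((b + u) ^ (-(5 / 4) : ℝ)) u := by
    intro u hu
    have hbu : 0 < b + u := by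
      have : (0 : ℝ) ≤ u := hu
      linarith
    have h2 : HasDerivAt (fun u : ℝ => b + u) 1 u := (hasDerivAt_id u).const_add b
    have h3 := (h2.rpow_const (p := -(1 / 4)) (Or.inl hbu.ne')).const_mul (-4)
    refine h3.congr_deriv ?_
    rw [show (-(1 / 4) - 1 : ℝ) = -(5 / 4) by norm_num]
    ring
  have hlim : Tendsto (fun u : ℝ => -4 * (b + u) ^ (-(1 / 4) : ℝ)) atTop (𝓝 (-4 * 0)) := by
    refine Tendsto.const_mul _ ?_
    exact (tendsto_rpow_neg_atTop (by norm_num : (0 : ℝ) < 1 / 4)).comp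
      (tendsto_atTop_add_const_left _ b tendsto_id)
  rw [integral_Ioi_of_hasDerivAt_of_tendsto' hd h1 hlim]
  simp

/-- the case `b ≤ a` -/
lemma half {a b : ℝ} (hb : 0 < b) (hab : b ≤ a) :
    IntegrableOn (fun u : ℝ => ((a + u) * (b + u))⁻¹) (Ioi 0) ∧
    ∫ u in Ioi (0 : ℝ), ((a + u) * (b + u))⁻¹ ≤ 4 * (a ^ (-(3 / 4) : ℝ) * b ^ (-(1 / 4) : ℝ)) := by
  have ha : 0 < a := by linarith
  obtain ⟨h1, h2⟩ := base hb
  have hle : ∀ u ∈ Ioi (0 : ℝ), ((a + u) * (b + u))⁻¹ ≤ a ^ (-(3 / 4) : ℝ) * (b + u) ^ (-(5 / 4) : ℝ) := by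
    intro u hu
    have hu0 : (0 : ℝ) < u := hu
    have hau : 0 < a + u := by linarith
    have hbu : 0 < b + u := by linarith
    have e1 : (a + u)⁻¹ = (a + u) ^ (-(3 / 4) : ℝ) * (a + u) ^ (-(1 / 4) : ℝ) := by
      rw [← Real.rpow_add hau, ← Real.rpow_neg_one]
      norm_num
    have e2 : (b + u) ^ (-(5 / 4) : ℝ) = (b + u) ^ (-(1 / 4) : ℝ) * (b + u)⁻¹ := by
      rw [← Real.rpow_neg_one, ← Real.rpow_add hbu]
      norm_num
    have h3 : (a + u) ^ (-(3 / 4) : ℝ) ≤ a ^ (-(3 / 4) : ℝ) :=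
      Real.rpow_le_rpow_of_nonpos ha (by linarith) (by norm_num)
    have h4 : (a + u) ^ (-(1 / 4) : ℝ) ≤ (b + u) ^ (-(1 / 4) : ℝ) :=
      Real.rpow_le_rpow_of_nonpos hbu (by linarith) (by norm_num)
    rw [mul_inv, e1, e2]
    calc (a + u) ^ (-(3 / 4) : ℝ) * (a + u) ^ (-(1 / 4) : ℝ) * (b + u)⁻¹
        ≤ a ^ (-(3 / 4) : ℝ) * (b + u) ^ (-(1 / 4) : ℝ) * (b + u)⁻¹ := by gcongr
      _ = _ := by ring
  have hmeas : AEStronglyMeasurable (fun u : ℝ => ((a + u) * (b + u))⁻¹) (volume.restrict (Ioi 0)) := by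
    refine ContinuousOn.aestronglyMeasurable ?_ measurableSet_Ioi
    refine ContinuousOn.inv₀ (by fun_prop) fun u hu => ?_
    have hu0 : (0 : ℝ) < u := hu
    positivity
  have hint : IntegrableOn (fun u : ℝ => ((a + u) * (b + u))⁻¹) (Ioi 0) := by
    refine Integrable.mono' (h1.const_mul (a ^ (-(3 / 4) : ℝ))) hmeas ?_
    filter_upwards [ae_restrict_mem measurableSet_Ioi] with u hu
    have hu0 : (0 : ℝ) < u := hu
    rw [Real.norm_of_nonneg (by positivity)]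
    exact hle u hu
  refine ⟨hint, ?_⟩
  calc ∫ u in Ioi (0 : ℝ), ((a + u) * (b + u))⁻¹
      ≤ ∫ u in Ioi (0 : ℝ), a ^ (-(3 / 4) : ℝ) * (b + u) ^ (-(5 / 4) : ℝ) :=
        setIntegral_mono_on hint (h1.const_mul _) measurableSet_Ioi hle
    _ = _ := by rw [integral_const_mul, h2]; ring

end FB3I

theorem majL : MajL := by
  intro X Y hX hY
  rcases le_total Y X with h | h
  · have h1 := FB3I.half (a := 1 + X) (b := 1 + Y) (by linarith) (by linarith)
    unfold ll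
    rw [max_eq_left (by linarith), min_eq_right (by linarith)]
    exact h1
  · have h1 := FB3I.half (a := 1 + Y) (b := 1 + X) (by linarith) (by linarith)
    unfold ll
    rw [max_eq_right (by linarith), min_eq_left (by linarith)]
    have e : (fun u : ℝ => ((1 + X + u) * (1 + Y + u))⁻¹) = fun u : ℝ => ((1 + Y + u) * (1 + X + u))⁻¹ := by
      funext u; rw [mul_comm]
    rw [e]
    exact h1

end Pool.Agent.Lib.MP4
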