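import Mathlib
import Pool.Agent.Lib.MP_f9aece_nt_mq.StmtsF

/-!
The fourth moment of the plain average of zeta over short windows, module FB4.

continuity: intervalIntegral.continuous_parametric_intervalIntegral_of_continuous (F continuous on R). Kp X Y = int_0^R Fp(X+u) conj F(Y+u) du (intervalIntegral.hasDerivAt_integral_of_dominated_loc_of_deriv_le, everything continuous on compact sets). Bounds: norm F(X+u) <= C/(1+X+u), integral over [0,R] <= integral over Ioi 0 <= 4 ll. A = 4.
-/

set_option autoImplicit false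

namespace Pool.Agent.Lib.MP4

open MeasureTheory Set Filter Topology Complex
open scoped ComplexConjugate
open Pool.Agent.Lib.MS (psi Adm ZW ZS Res ZIdent PowClose)
open Pool.Agent.Lib
open Pool.Agent.Lib.MP2 (RD Av PA BumpFn Th Ss ph Prim PhAdm Cont Ident Top)

private theorem FB4_bound (h : MajL) {f g : ℝ → ℂ} {C R : ℝ} (hR : 1 ≤ R) (hC : 1 ≤ C)
    (hf : Continuous f) (hg : Continuous g)
    (hfb : ∀ r, 0 ≤ r → ‖f r‖ * (1 + r) ≤ C) (hgb : ∀ r, 0 ≤ r → ‖g r‖ * (1 + r) ≤ C) {X Y : ℝ}
    (hX : 0 ≤ X) (hY : 0 ≤ Y) :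
    ‖∫ u in (0 : ℝ)..R, f (X + u) * conj (g (Y + u))‖ ≤ 4 * C ^ 2 * ll X Y := by
  obtain ⟨hint, hle⟩ := h X Y hX hY
  have hR0 : (0:ℝ) ≤ R := by linarith
  have hpt : ∀ u, 0 ≤ u → ‖f (X + u) * conj (g (Y + u))‖ ≤ C ^ 2 * ((1 + X + u) * (1 + Y + u))⁻¹ := by
    intro u hu
    have h1 := hfb (X + u) (by linarith)
    have h2 := hgb (Y + u) (by linarith)
    have p1 : (0:ℝ) < 1 + X + u := by linarith
    have p2 : (0:ℝ) < 1 + Y + u := by linarith
    rw [norm_mul, RCLike.norm_conj, mul_inv]
    have e1 : ‖f (X + u)‖ ≤ C * (1 + X + u)⁻¹ := by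
      rw [← div_eq_mul_inv, le_div_iff₀ p1]
      have : 1 + X + u = 1 + (X + u) := by ring
      rw [this]
      exact h1
    have e2 : ‖g (Y + u)‖ ≤ C * (1 + Y + u)⁻¹ := by
      rw [← div_eq_mul_inv, le_div_iff₀ p2]
      have : 1 + Y + u = 1 + (Y + u) := by ring
      rw [this]
      exact h2
    calc ‖f (X + u)‖ * ‖g (Y + u)‖ ≤ (C * (1 + X + u)⁻¹) * (C * (1 + Y + u)⁻¹) :=
          mul_le_mul e1 e2 (norm_nonneg _) (by positivity)
      _ = C ^ 2 * ((1 + X + u)⁻¹ * (1 + Y + u)⁻¹) := by ring
  calc ‖∫ u in (0 : ℝ)..R, f (X + u) * conj (g (Y + u))‖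
      ≤ ∫ u in (0 : ℝ)..R, ‖f (X + u) * conj (g (Y + u))‖ :=
        intervalIntegral.norm_integral_le_integral_norm hR0
    _ = ∫ u in Ioc (0 : ℝ) R, ‖f (X + u) * conj (g (Y + u))‖ :=
        intervalIntegral.integral_of_le hR0
    _ ≤ ∫ u in Ioc (0 : ℝ) R, C ^ 2 * ((1 + X + u) * (1 + Y + u))⁻¹ := by
        apply setIntegral_mono_on
        · have hc : Continuous (fun u : ℝ => ‖f (X + u) * conj (g (Y + u))‖) := by
            have c1 : Continuous (fun u : ℝ => f (X + u)) := hf.comp (by fun_prop)
            have c2 : Continuous (fun u : ℝ => g (Y + u)) := hg.comp (by fun_prop)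
            exact (c1.mul (Complex.continuous_conj.comp c2)).norm
          exact (hc.integrableOn_Icc (a := 0) (b := R)).mono_set Ioc_subset_Icc_self
        · exact (hint.mono_set Ioc_subset_Ioi_self).const_mul _
        · exact measurableSet_Ioc
        · intro u hu
          exact hpt u hu.1.le
    _ ≤ ∫ u in Ioi (0 : ℝ), C ^ 2 * ((1 + X + u) * (1 + Y + u))⁻¹ := by
        apply setIntegral_mono_set
        · exact hint.const_mul _
        · filter_upwards [ae_restrict_mem measurableSet_Ioi] with u hu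
          have hu' : (0:ℝ) < u := hu
          have p1 : (0:ℝ) < 1 + X + u := by linarith
          have p2 : (0:ℝ) < 1 + Y + u := by linarith
          show (0:ℝ) ≤ C ^ 2 * ((1 + X + u) * (1 + Y + u))⁻¹
          positivity
        · exact Ioc_subset_Ioi_self.eventuallyLE
    _ = C ^ 2 * ∫ u in Ioi (0 : ℝ), ((1 + X + u) * (1 + Y + u))⁻¹ := by
        rw [integral_const_mul]
    _ ≤ C ^ 2 * (4 * ll X Y) := mul_le_mul_of_nonneg_left hle (by positivity)
    _ = 4 * C ^ 2 * ll X Y := by ring

private theorem FB4_cont {f g : ℝ → ℂ} (hf : Continuous f) (hg : Continuous g) (R : ℝ) :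
    Continuous (Function.uncurry fun X Y : ℝ => ∫ u in (0 : ℝ)..R, f (X + u) * conj (g (Y + u))) := by
  apply intervalIntegral.continuous_parametric_intervalIntegral_of_continuous'
    (f := fun (p : ℝ × ℝ) (u : ℝ) => f (p.1 + u) * conj (g (p.2 + u)))
  have c1 : Continuous (fun q : (ℝ × ℝ) × ℝ => f (q.1.1 + q.2)) := hf.comp (by fun_prop)
  have c2 : Continuous (fun q : (ℝ × ℝ) × ℝ => g (q.1.2 + q.2)) := hg.comp (by fun_prop)
  exact c1.mul (Complex.continuous_conj.comp c2)

theorem kDer (h : MajL) : KDer := by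
  refine ⟨4, by norm_num, ?_⟩
  intro F F' C R hF
  obtain ⟨hR, hC, hder, hcont', hbd, hbd', hsupp⟩ := hF
  have hR0 : (0:ℝ) ≤ R := by linarith
  have hcont : Continuous F := continuous_iff_continuousAt.2 (fun r => (hder r).continuousAt)
  refine ⟨FB4_cont hcont hcont R, ?_, ?_, ?_, ?_⟩
  · intro X Y
    unfold kk
    rw [intervalIntegral.integral_of_le hR0, intervalIntegral.integral_of_le hR0, ← integral_conj]
    apply integral_congr_ae
    filter_upwards with u
    simp only [map_mul, Complex.conj_conj]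
    ring
  · intro X Y hX hY
    exact FB4_bound h hR hC hcont hcont hbd hbd hX hY
  · intro X Y hX hY hXY
    unfold kk
    rw [intervalIntegral.integral_of_le hR0]
    rw [setIntegral_congr_fun (g := fun _ => (0:ℂ)) measurableSet_Ioc]
    · simp
    · intro u hu
      have hu' : 0 < u := hu.1
      rcases hXY with h1 | h1
      · show F (X + u) * conj (F (Y + u)) = 0
        rw [(hsupp (X + u) (by linarith)).1, zero_mul]
      · show F (X + u) * conj (F (Y + u)) = 0
        rw [(hsupp (Y + u) (by linarith)).1, map_zero, mul_zero]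
  · refine ⟨fun X Y => ∫ u in (0 : ℝ)..R, F' (X + u) * conj (F (Y + u)), FB4_cont hcont' hcont R, ?_, ?_⟩
    · intro X Y
      have hc : Continuous (fun q : ℝ × ℝ => F' (q.1 + q.2) * conj (F (Y + q.2))) := by
        have c1 : Continuous (fun q : ℝ × ℝ => F' (q.1 + q.2)) := hcont'.comp (by fun_prop)
        have c2 : Continuous (fun q : ℝ × ℝ => F (Y + q.2)) := hcont.comp (by fun_prop)
        exact c1.mul (Complex.continuous_conj.comp c2)
      have hcu : ∀ x : ℝ, Continuous (fun u : ℝ => F (x + u) * conj (F (Y + u))) := by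
        intro x
        have c1 : Continuous (fun u : ℝ => F (x + u)) := hcont.comp (by fun_prop)
        have c2 : Continuous (fun u : ℝ => F (Y + u)) := hcont.comp (by fun_prop)
        exact c1.mul (Complex.continuous_conj.comp c2)
      obtain ⟨M, hM⟩ := ((isCompact_Icc (a := X - 1) (b := X + 1)).prod
        (isCompact_Icc (a := (0:ℝ)) (b := R))).exists_bound_of_continuousOn hc.continuousOn
      exact (intervalIntegral.hasDerivAt_integral_of_dominated_loc_of_deriv_le
        (F := fun x u => F (x + u) * conj (F (Y + u)))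
        (F' := fun x u => F' (x + u) * conj (F (Y + u))) (x₀ := X) (s := Icc (X - 1) (X + 1))
        (bound := fun _ => M) (a := 0) (b := R) (μ := volume)
        (Icc_mem_nhds (by linarith) (by linarith))
        (Eventually.of_forall (fun x => (hcu x).aestronglyMeasurable))
        ((hcu X).intervalIntegrable 0 R)
        ((hc.comp (by fun_prop : Continuous (fun u : ℝ => (X, u)))).aestronglyMeasurable)
        (Eventually.of_forall (fun u hu x hx => by
          rw [uIoc_of_le hR0] at hu
          exact hM (x, u) ⟨hx, ⟨hu.1.le, hu.2⟩⟩))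
        (intervalIntegrable_const)
        (Eventually.of_forall (fun u hu x hx => by
          have h1 : HasDerivAt (fun x => F (x + u)) (F' (x + u)) x := (hder (x + u)).comp_add_const x u
          exact h1.mul_const _))).2
    · intro X Y hX hY
      exact FB4_bound h hR hC hcont' hcont hbd' hbd hX hY

end Pool.Agent.Lib.MP4
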