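import Mathlib
import Pool.Agent.Lib.MP_f9aece_nt_mq.StmtsF

/-!
The fourth moment of the plain average of zeta over short windows, module FB5.
-/

set_option autoImplicit false

namespace Pool.Agent.Lib.MP4

open MeasureTheory Set Filter Topology Complex
open scoped ComplexConjugate
open Pool.Agent.Lib.MS (psi Adm ZW ZS Res ZIdent PowClose)
open Pool.Agent.Lib
open Pool.Agent.Lib.MP2 (RD Av PA BumpFn Th Ss ph Prim PhAdm Cont Ident Top)

theorem kappa (h2 : SumInt) (h3 : MajL) : Kappa := by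
  refine ⟨8, by norm_num, ?_⟩
  intro F F' C R hF H x y hH hx hy
  have hC : 0 ≤ C := le_trans zero_le_one hF.hC
  have hR : 0 ≤ R := le_trans zero_le_one hF.hR
  set X : ℝ := H * Real.log x with hX
  set Y : ℝ := H * Real.log y with hY
  have hX0 : 0 ≤ X := mul_nonneg hH.le (Real.log_natCast_nonneg x)
  have hY0 : 0 ≤ Y := mul_nonneg hH.le (Real.log_natCast_nonneg y)
  have hFc : Continuous F := continuous_iff_continuousAt.2 fun r => (hF.der r).continuousAt
  set φ : ℝ → ℂ := fun u => F (X + u) * conj (F (Y + u)) with hφ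
  set φ' : ℝ → ℂ := fun u => F' (X + u) * conj (F (Y + u)) + F (X + u) * conj (F' (Y + u)) with hφ'
  have hder : ∀ r, HasDerivAt φ (φ' r) r := by
    intro r
    have h1 : HasDerivAt (fun u => F (X + u)) (F' (X + r)) r := by
      have := (hF.der (X + r)).comp_const_add X r
      exact this
    have h2 : HasDerivAt (fun u => conj (F (Y + u))) (conj (F' (Y + r))) r := by
      have h := (hF.der (Y + r)).comp_const_add Y r
      exact h.star
    exact h1.mul h2
  have hcont : Continuous φ' := by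
    have c1 : Continuous fun u : ℝ => X + u := continuous_const.add continuous_id
    have c2 : Continuous fun u : ℝ => Y + u := continuous_const.add continuous_id
    exact ((hF.cont.comp c1).mul (Complex.continuous_conj.comp (hFc.comp c2))).add
      ((hFc.comp c1).mul (Complex.continuous_conj.comp (hF.cont.comp c2)))
  have hsupp : ∀ r, R ≤ r → φ r = 0 := by
    intro r hr
    have : F (X + r) = 0 := (hF.supp (X + r) (by linarith)).1
    simp only [hφ, this, zero_mul]
  have key := h2 φ φ' R H ⌊Real.exp (R / H)⌋₊ hR hH hder hcont hsupp (Nat.lt_floor_add_one _)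
  have hdk : dk (fun n => F (H * Real.log n)) ⌊Real.exp (R / H)⌋₊ x y =
      ∑ n ∈ Finset.Icc 1 ⌊Real.exp (R / H)⌋₊, φ (H * Real.log n) / n := by
    unfold dk
    refine Finset.sum_congr rfl fun n hn => ?_
    rw [Finset.mem_Icc] at hn
    have hn0 : (n : ℝ) ≠ 0 := by exact_mod_cast (show n ≠ 0 by omega)
    have hx0 : (x : ℝ) ≠ 0 := by exact_mod_cast (show x ≠ 0 by omega)
    have hy0 : (y : ℝ) ≠ 0 := by exact_mod_cast (show y ≠ 0 by omega)
    have e1 : H * Real.log ((n * x : ℕ) : ℝ) = X + H * Real.log n := by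
      push_cast; rw [Real.log_mul hn0 hx0]; ring
    have e2 : H * Real.log ((n * y : ℕ) : ℝ) = Y + H * Real.log n := by
      push_cast; rw [Real.log_mul hn0 hy0]; ring
    simp only [e1, e2, hφ]
  rw [hdk]
  refine key.trans ?_
  have hbd : ∀ u ∈ Ioc (0 : ℝ) R, ‖φ' u‖ ≤ 2 * C ^ 2 * ((1 + X + u) * (1 + Y + u))⁻¹ := by
    intro u hu
    have a1 := hF.bd (X + u) (by linarith [hu.1])
    have a2 := hF.bd (Y + u) (by linarith [hu.1])
    have b1 := hF.bd' (X + u) (by linarith [hu.1])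
    have b2 := hF.bd' (Y + u) (by linarith [hu.1])
    have p1 : 0 < 1 + X + u := by linarith [hu.1]
    have p2 : 0 < 1 + Y + u := by linarith [hu.1]
    rw [← div_eq_mul_inv, le_div_iff₀ (by positivity)]
    have hn : ‖φ' u‖ ≤ ‖F' (X + u)‖ * ‖F (Y + u)‖ + ‖F (X + u)‖ * ‖F' (Y + u)‖ := by
      refine (norm_add_le _ _).trans (le_of_eq ?_)
      rw [norm_mul, norm_mul, RCLike.norm_conj, RCLike.norm_conj]
    have e1 : ‖F' (X + u)‖ * (1 + X + u) ≤ C := by
      have : 1 + X + u = 1 + (X + u) := by ring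
      rw [this]; exact b1
    have e2 : ‖F (Y + u)‖ * (1 + Y + u) ≤ C := by
      have : 1 + Y + u = 1 + (Y + u) := by ring
      rw [this]; exact a2
    have e3 : ‖F (X + u)‖ * (1 + X + u) ≤ C := by
      have : 1 + X + u = 1 + (X + u) := by ring
      rw [this]; exact a1
    have e4 : ‖F' (Y + u)‖ * (1 + Y + u) ≤ C := by
      have : 1 + Y + u = 1 + (Y + u) := by ring
      rw [this]; exact b2
    calc ‖φ' u‖ * ((1 + X + u) * (1 + Y + u))
        ≤ (‖F' (X + u)‖ * ‖F (Y + u)‖ + ‖F (X + u)‖ * ‖F' (Y + u)‖) * ((1 + X + u) * (1 + Y + u)) := by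
          gcongr
      _ = (‖F' (X + u)‖ * (1 + X + u)) * (‖F (Y + u)‖ * (1 + Y + u)) +
          (‖F (X + u)‖ * (1 + X + u)) * (‖F' (Y + u)‖ * (1 + Y + u)) := by ring
      _ ≤ C * C + C * C := by gcongr
      _ = 2 * C ^ 2 := by ring
  obtain ⟨hint, hle⟩ := h3 X Y hX0 hY0
  have hint2 : IntegrableOn (fun u : ℝ => 2 * C ^ 2 * ((1 + X + u) * (1 + Y + u))⁻¹) (Ioi 0) :=
    hint.const_mul _
  have h5 : ∫ u in (0 : ℝ)..R, ‖φ' u‖ ≤ 2 * C ^ 2 * (4 * ll X Y) := by
    rw [intervalIntegral.integral_of_le hR]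
    calc ∫ u in Ioc 0 R, ‖φ' u‖ ≤ ∫ u in Ioc 0 R, 2 * C ^ 2 * ((1 + X + u) * (1 + Y + u))⁻¹ := by
          refine setIntegral_mono_on ?_ ?_ measurableSet_Ioc hbd
          · exact (intervalIntegrable_iff_integrableOn_Ioc_of_le hR).1
              (hcont.norm.intervalIntegrable _ _)
          · exact hint2.mono_set Ioc_subset_Ioi_self
      _ ≤ ∫ u in Ioi 0, 2 * C ^ 2 * ((1 + X + u) * (1 + Y + u))⁻¹ := by
          refine setIntegral_mono_set hint2 ?_ (Ioc_subset_Ioi_self.eventuallyLE)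
          refine (ae_restrict_iff' measurableSet_Ioi).2 (Filter.Eventually.of_forall fun u hu => ?_)
          have hu' : 0 < u := hu
          simp only [Pi.zero_apply]
          positivity
      _ = 2 * C ^ 2 * ∫ u in Ioi 0, ((1 + X + u) * (1 + Y + u))⁻¹ := by
          rw [integral_const_mul]
      _ ≤ 2 * C ^ 2 * (4 * ll X Y) := by gcongr
  calc H * ∫ u in (0 : ℝ)..R, ‖φ' u‖ ≤ H * (2 * C ^ 2 * (4 * ll X Y)) := by gcongr
    _ = 8 * C ^ 2 * H * ll X Y := by ring

end Pool.Agent.Lib.MP4
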