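import Mathlib
import Pool.Agent.Lib.MP_f9aece_nt_mq.StmtsF

/-!
The fourth moment of the plain average of zeta over short windows, module FB7.

First part: |G| <= D ll^2 and LSum (i), int_0^R (1+Y)^-1 = log(1+R) <= 1 + log R. Second: |G(X+d,Y+d) - G(X,Y)| <= int_0^d (|G1|+|G2|)(X+s,Y+s) ds <= 2 D d ll(X,Y)^2 (ll is antitone in both variables). Third: for fixed y use SumInt (real function cast to C) for X -> G(X+d, H log y + d): error H int |G1| <= H A D (1+Y)^-1, multiply by H/y and sum over y (LSum style sum of (1+H log y)^-1/y: or ll(H log y, H log y)^2 = (1+H log y)^-2 is too small; use the sum of the antitone function (1+Y)^-1); then SumInt for M(Y) = int_0^R G(X+d,Y+d) dX, derivative int_0^R G2(X+d,Y+d) dX, |M1| <= A D (1+Y)^-1.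
-/

set_option autoImplicit false

namespace Pool.Agent.Lib.MP4

open MeasureTheory Set Filter Topology Complex
open scoped ComplexConjugate
open Pool.Agent.Lib.MS (psi Adm ZW ZS Res ZIdent PowClose)
open Pool.Agent.Lib
open Pool.Agent.Lib.MP2 (RD Av PA BumpFn Th Ss ph Prim PhAdm Cont Ident Top)

private theorem B7_comm (X Y : ℝ) : ll X Y = ll Y X := by
  unfold ll
  rw [max_comm, min_comm]

private theorem B7_nonneg {X Y : ℝ} (hX : 0 ≤ X) (hY : 0 ≤ Y) : 0 ≤ ll X Y := by
  have a1 : 0 < max (1 + X) (1 + Y) := lt_max_of_lt_left (by linarith)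
  have a2 : 0 < min (1 + X) (1 + Y) := lt_min (by linarith) (by linarith)
  unfold ll
  positivity

private theorem B7_anti {X Y X' Y' : ℝ} (hX : 0 ≤ X) (hY : 0 ≤ Y) (h1 : X ≤ X') (h2 : Y ≤ Y') :
    ll X' Y' ^ 2 ≤ ll X Y ^ 2 := by
  have a1 : 0 < max (1 + X) (1 + Y) := lt_max_of_lt_left (by linarith)
  have a2 : 0 < min (1 + X) (1 + Y) := lt_min (by linarith) (by linarith)
  have a3 : 0 < min (1 + X') (1 + Y') := lt_min (by linarith) (by linarith)
  have b1 : max (1 + X) (1 + Y) ≤ max (1 + X') (1 + Y') := max_le_max (by linarith) (by linarith)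
  have b2 : min (1 + X) (1 + Y) ≤ min (1 + X') (1 + Y') := min_le_min (by linarith) (by linarith)
  refine pow_le_pow_left₀ (B7_nonneg (hX.trans h1) (hY.trans h2)) ?_ 2
  unfold ll
  exact mul_le_mul (Real.rpow_le_rpow_of_nonpos a1 b1 (by norm_num))
    (Real.rpow_le_rpow_of_nonpos a2 b2 (by norm_num)) (by positivity) (by positivity)

/-- first part of `LSum` with the constant `A` -/
private def B7P (A : ℝ) : Prop := ∀ Y : ℝ, 0 ≤ Y →
  IntegrableOn (fun X : ℝ => ll X Y ^ 2) (Ioi 0) ∧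
    ∫ X in Ioi (0 : ℝ), ll X Y ^ 2 ≤ A * (1 + Y)⁻¹

private theorem B7_in {A : ℝ} (hA : B7P A) {D R X : ℝ} (hR : 0 ≤ R) (hX : 0 ≤ X) (hD : 0 ≤ D)
    {g : ℝ → ℝ} (hb : ∀ Y, 0 ≤ Y → |g Y| ≤ D * ll X Y ^ 2) :
    |∫ Y in (0 : ℝ)..R, g Y| ≤ A * D * (1 + X)⁻¹ := by
  obtain ⟨h1, h2⟩ := hA X hX
  have hi : IntervalIntegrable (fun Y => D * ll Y X ^ 2) volume 0 R := by
    rw [intervalIntegrable_iff_integrableOn_Ioc_of_le hR]
    exact (h1.mono_set Ioc_subset_Ioi_self).const_mul D
  have h3 : ‖∫ Y in (0 : ℝ)..R, g Y‖ ≤ ∫ Y in (0 : ℝ)..R, D * ll Y X ^ 2 :=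
    intervalIntegral.norm_integral_le_of_norm_le hR
      (Filter.Eventually.of_forall fun t ht => by
        rw [Real.norm_eq_abs, B7_comm t X]
        exact hb t ht.1.le) hi
  have h5 : ∫ Y in (0 : ℝ)..R, ll Y X ^ 2 = ∫ Y in Ioc 0 R, ll Y X ^ 2 :=
    intervalIntegral.integral_of_le hR
  rw [intervalIntegral.integral_const_mul, h5] at h3
  have h4 : ∫ Y in Ioc 0 R, ll Y X ^ 2 ≤ ∫ Y in Ioi (0 : ℝ), ll Y X ^ 2 :=
    setIntegral_mono_set h1 (Filter.Eventually.of_forall fun t => sq_nonneg _)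
      Ioc_subset_Ioi_self.eventuallyLE
  calc |∫ Y in (0 : ℝ)..R, g Y| ≤ D * ∫ Y in Ioc 0 R, ll Y X ^ 2 := h3
    _ ≤ D * (A * (1 + X)⁻¹) := mul_le_mul_of_nonneg_left (h4.trans h2) hD
    _ = A * D * (1 + X)⁻¹ := by ring

private theorem B7_log {R : ℝ} (hR : 1 ≤ R) : Real.log (1 + R) ≤ 1 + Real.log R := by
  have h1 : Real.log (Real.exp 1 * R) = 1 + Real.log R := by
    rw [Real.log_mul (Real.exp_pos 1).ne' (by linarith), Real.log_exp]
  rw [← h1]
  apply Real.log_le_log (by linarith)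
  have h2 : (2 : ℝ) ≤ Real.exp 1 := by
    have := Real.add_one_le_exp (1 : ℝ)
    linarith
  nlinarith

private theorem B7_out {E R : ℝ} (hR : 1 ≤ R) (hE : 0 ≤ E) {h : ℝ → ℝ}
    (hb : ∀ X, 0 ≤ X → |h X| ≤ E * (1 + X)⁻¹) :
    |∫ X in (0 : ℝ)..R, h X| ≤ E * (1 + Real.log R) := by
  have hR0 : 0 ≤ R := by linarith
  have hi : IntervalIntegrable (fun X : ℝ => E * (1 + X)⁻¹) volume 0 R := by
    apply ContinuousOn.intervalIntegrable
    rw [uIcc_of_le hR0]
    apply ContinuousOn.mul continuousOn_const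
    apply ContinuousOn.inv₀ (by fun_prop)
    intro x hx
    have := hx.1
    linarith
  have h3 : ‖∫ X in (0 : ℝ)..R, h X‖ ≤ ∫ X in (0 : ℝ)..R, E * (1 + X)⁻¹ :=
    intervalIntegral.norm_integral_le_of_norm_le hR0
      (Filter.Eventually.of_forall fun t ht => hb t ht.1.le) hi
  rw [intervalIntegral.integral_const_mul] at h3
  have h4 : ∫ X in (0 : ℝ)..R, (1 + X)⁻¹ = Real.log (1 + R) := by
    rw [intervalIntegral.integral_comp_add_left (fun x : ℝ => x⁻¹) 1]
    rw [integral_inv_of_pos (by norm_num) (by linarith)]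
    norm_num
  rw [h4] at h3
  calc |∫ X in (0 : ℝ)..R, h X| ≤ E * Real.log (1 + R) := h3
    _ ≤ E * (1 + Real.log R) := mul_le_mul_of_nonneg_left (B7_log hR) hE

private theorem B7_real (h2 : SumInt) {φ φ' : ℝ → ℝ} {R H : ℝ} {N : ℕ} (hR : 0 ≤ R) (hH : 0 < H)
    (hd : ∀ r, HasDerivAt φ (φ' r) r) (hc : Continuous φ') (hz : ∀ r, R ≤ r → φ r = 0)
    (hN : Real.exp (R / H) < N + 1) :
    |H * ∑ n ∈ Finset.Icc 1 N, φ (H * Real.log n) / n - ∫ u in (0 : ℝ)..R, φ u|
      ≤ H * ∫ u in (0 : ℝ)..R, |φ' u| := by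
  have h := h2 (fun r => (φ r : ℂ)) (fun r => (φ' r : ℂ)) R H N hR hH
    (fun r => (hd r).ofReal_comp) (Complex.continuous_ofReal.comp hc)
    (fun r hr => by simp only [hz r hr, Complex.ofReal_zero]) hN
  have e1 : ((H : ℂ) * ∑ n ∈ Finset.Icc 1 N, ((φ (H * Real.log n) : ℝ) : ℂ) / n -
      ∫ u in (0 : ℝ)..R, ((φ u : ℝ) : ℂ)) =
      ((H * ∑ n ∈ Finset.Icc 1 N, φ (H * Real.log n) / n - ∫ u in (0 : ℝ)..R, φ u : ℝ) : ℂ) := by
    rw [intervalIntegral.integral_ofReal]
    push_cast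
    rfl
  simp only [Complex.norm_real, Real.norm_eq_abs] at h
  rw [e1, Complex.norm_real, Real.norm_eq_abs] at h
  exact h

private theorem B7_sum {H : ℝ} (hH : 0 < H) (N : ℕ) (hN : 1 ≤ N) :
    ∑ x ∈ Finset.Icc 1 N, H * (1 + H * Real.log x)⁻¹ / x ≤ H + Real.log (1 + H * Real.log N) := by
  induction N, hN using Nat.le_induction with
  | base => simp
  | succ N hN ih =>
    rw [Finset.sum_Icc_succ_top (by omega)]
    have hN' : (1 : ℝ) ≤ N := by exact_mod_cast hN
    have hl : 0 ≤ Real.log N := Real.log_nonneg hN'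
    have hl1 : 1 - ((N : ℝ) / (N + 1)) ≤ Real.log ((N : ℝ) + 1) - Real.log N := by
      rw [← Real.log_div (by linarith) (by linarith)]
      have := Real.one_sub_inv_le_log_of_pos (x := ((N : ℝ) + 1) / N) (by positivity)
      rwa [inv_div] at this
    have hl2 : 1 - ((N : ℝ) / (N + 1)) = 1 / ((N : ℝ) + 1) := by field_simp; ring
    rw [hl2] at hl1
    have hl3 : Real.log N ≤ Real.log ((N : ℝ) + 1) := by
      have : 0 < 1 / ((N : ℝ) + 1) := by positivity
      linarith
    set a := 1 + H * Real.log ((N : ℝ) + 1) with ha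
    set b := 1 + H * Real.log N with hb
    have hb0 : 0 < b := by positivity
    have ha0 : 0 < a := by
      have : 0 ≤ Real.log ((N : ℝ) + 1) := hl.trans hl3
      positivity
    have h5 : 1 - b / a ≤ Real.log a - Real.log b := by
      rw [← Real.log_div ha0.ne' hb0.ne']
      have := Real.one_sub_inv_le_log_of_pos (x := a / b) (by positivity)
      rwa [inv_div] at this
    have h6 : H * a⁻¹ / ((N : ℝ) + 1) ≤ 1 - b / a := by
      have e : 1 - b / a = H * (Real.log ((N : ℝ) + 1) - Real.log N) * a⁻¹ := by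
        rw [ha, hb]
        rw [← ha]
        field_simp
        rw [ha]
        ring
      rw [e]
      have e2 : H * a⁻¹ / ((N : ℝ) + 1) = H * (1 / ((N : ℝ) + 1)) * a⁻¹ := by ring
      rw [e2]
      gcongr
    push_cast
    rw [← ha]
    linarith

private theorem B7_diff {G G₁ G₂ : ℝ → ℝ → ℝ} {D R : ℝ} (hG : Gf G G₁ G₂ D R) {δ X Y : ℝ}
    (hδ : 0 ≤ δ) (hX : 0 ≤ X) (hY : 0 ≤ Y) :
    |G (X + δ) (Y + δ) - G X Y| ≤ 2 * D * δ * ll X Y ^ 2 := by
  have h1 : ‖G (X + δ) (Y + δ) - G X (Y + δ)‖ ≤ (D * ll X Y ^ 2) * ‖X + δ - X‖ :=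
    Convex.norm_image_sub_le_of_norm_hasDerivWithin_le (s := Icc X (X + δ))
      (f := fun s => G s (Y + δ)) (f' := fun s => G₁ s (Y + δ))
      (fun s _ => (hG.der1 s (Y + δ)).hasDerivWithinAt)
      (fun s hs => (hG.bd1 s (Y + δ) (hX.trans hs.1) (by linarith)).trans
        (mul_le_mul_of_nonneg_left (B7_anti hX hY hs.1 (by linarith)) hG.hD))
      (convex_Icc _ _) ⟨le_rfl, by linarith⟩ ⟨by linarith, le_rfl⟩
  have h2 : ‖G X (Y + δ) - G X Y‖ ≤ (D * ll X Y ^ 2) * ‖Y + δ - Y‖ :=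
    Convex.norm_image_sub_le_of_norm_hasDerivWithin_le (s := Icc Y (Y + δ))
      (f := fun s => G X s) (f' := fun s => G₂ X s)
      (fun s _ => (hG.der2 X s).hasDerivWithinAt)
      (fun s hs => (hG.bd2 X s hX (hY.trans hs.1)).trans
        (mul_le_mul_of_nonneg_left (B7_anti hX hY le_rfl hs.1) hG.hD))
      (convex_Icc _ _) ⟨le_rfl, by linarith⟩ ⟨by linarith, le_rfl⟩
  rw [add_sub_cancel_left, Real.norm_eq_abs, Real.norm_eq_abs, abs_of_nonneg hδ] at h1 h2
  calc |G (X + δ) (Y + δ) - G X Y|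
      = |(G (X + δ) (Y + δ) - G X (Y + δ)) + (G X (Y + δ) - G X Y)| := by ring_nf
    _ ≤ |G (X + δ) (Y + δ) - G X (Y + δ)| + |G X (Y + δ) - G X Y| := abs_add_le _ _
    _ ≤ 2 * D * δ * ll X Y ^ 2 := by linarith

private theorem B7_der {f f' : ℝ → ℝ → ℝ} (hc : Continuous (Function.uncurry f))
    (hc' : Continuous (Function.uncurry f')) (hd : ∀ X Y, HasDerivAt (fun X => f X Y) (f' X Y) X)
    (R X₀ : ℝ) : HasDerivAt (fun X => ∫ Y in (0 : ℝ)..R, f X Y) (∫ Y in (0 : ℝ)..R, f' X₀ Y) X₀ := by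
  have hK : IsCompact (Icc (X₀ - 1) (X₀ + 1) ×ˢ uIcc (0 : ℝ) R) :=
    isCompact_Icc.prod isCompact_uIcc
  obtain ⟨C, hC⟩ := hK.exists_bound_of_continuousOn hc'.continuousOn
  have h1 : ∀ X, Continuous (fun Y => f X Y) := fun X =>
    hc.comp (by fun_prop : Continuous fun Y : ℝ => (X, Y))
  have h1' : ∀ X, Continuous (fun Y => f' X Y) := fun X =>
    hc'.comp (by fun_prop : Continuous fun Y : ℝ => (X, Y))
  refine (intervalIntegral.hasDerivAt_integral_of_dominated_loc_of_deriv_le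
    (F := f) (F' := f') (x₀ := X₀) (s := Icc (X₀ - 1) (X₀ + 1)) (bound := fun _ => C)
    (Icc_mem_nhds (by linarith) (by linarith))
    (Filter.Eventually.of_forall fun X => (h1 X).aestronglyMeasurable)
    ((h1 X₀).intervalIntegrable _ _) (h1' X₀).aestronglyMeasurable
    (Filter.Eventually.of_forall fun t ht X hX => hC (X, t) ⟨hX, uIoc_subset_uIcc ht⟩)
    (continuous_const.intervalIntegrable _ _)
    (Filter.Eventually.of_forall fun t _ X _ => hd X t)).2

private theorem B7_first {A : ℝ} (hA1 : 1 ≤ A) (hA : B7P A) {E R : ℝ} (hR : 1 ≤ R) (hE : 0 ≤ E)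
    {g : ℝ → ℝ → ℝ} (hb : ∀ X Y, 0 ≤ X → 0 ≤ Y → |g X Y| ≤ E * ll X Y ^ 2) :
    |∫ X in (0 : ℝ)..R, ∫ Y in (0 : ℝ)..R, g X Y| ≤ A * E * (1 + Real.log R) :=
  B7_out hR (by positivity) fun X hX =>
    B7_in hA (by linarith) hX hE fun Y hY => hb X Y hX hY

theorem sumInt2 (h2 : SumInt) (h6 : LSum) : SumInt2 := by
  obtain ⟨A, hA1, hA, -, -⟩ := h6
  have hA' : B7P A := hA
  refine ⟨3 * A, by linarith, ?_⟩
  intro G G₁ G₂ D R hG
  have hR := hG.hR
  have hR0 : 0 ≤ R := by linarith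
  have hD := hG.hD
  have hl : 0 ≤ Real.log R := Real.log_nonneg hR
  have hs : ∀ δ : ℝ, Continuous (Function.uncurry fun X Y => G (X + δ) (Y + δ)) := fun δ =>
    hG.cont.comp (by fun_prop : Continuous fun p : ℝ × ℝ => (p.1 + δ, p.2 + δ))
  have hs1 : ∀ δ : ℝ, Continuous (Function.uncurry fun X Y => G₁ (X + δ) (Y + δ)) := fun δ =>
    hG.cont1.comp (by fun_prop : Continuous fun p : ℝ × ℝ => (p.1 + δ, p.2 + δ))
  have hs2 : ∀ δ : ℝ, Continuous (Function.uncurry fun X Y => G₂ (X + δ) (Y + δ)) := fun δ =>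
    hG.cont2.comp (by fun_prop : Continuous fun p : ℝ × ℝ => (p.1 + δ, p.2 + δ))
  refine ⟨?_, ?_, ?_⟩
  · have h := B7_first hA1 hA' hR hD hG.bd
    have h0 : 0 ≤ A * D * (1 + Real.log R) := by positivity
    calc _ ≤ A * D * (1 + Real.log R) := h
      _ ≤ 3 * A * D * (1 + Real.log R) := by nlinarith
  · intro δ hδ
    have e : (∫ X in (0 : ℝ)..R, ∫ Y in (0 : ℝ)..R, G (X + δ) (Y + δ)) -
        ∫ X in (0 : ℝ)..R, ∫ Y in (0 : ℝ)..R, G X Y =
        ∫ X in (0 : ℝ)..R, ∫ Y in (0 : ℝ)..R, (G (X + δ) (Y + δ) - G X Y) := by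
      rw [← intervalIntegral.integral_sub]
      · congr 1
        funext X
        rw [intervalIntegral.integral_sub]
        · exact ((hs δ).comp (by fun_prop : Continuous fun Y : ℝ => (X, Y))).intervalIntegrable _ _
        · exact (hG.cont.comp (by fun_prop : Continuous fun Y : ℝ => (X, Y))).intervalIntegrable _ _
      · exact (intervalIntegral.continuous_parametric_intervalIntegral_of_continuous'
          (hs δ) 0 R).intervalIntegrable _ _
      · exact (intervalIntegral.continuous_parametric_intervalIntegral_of_continuous'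
          hG.cont 0 R).intervalIntegrable _ _
    rw [e]
    have h := B7_first (g := fun X Y => G (X + δ) (Y + δ) - G X Y) (E := 2 * D * δ) hA1 hA' hR
      (by positivity) (fun X Y hX hY => B7_diff hG hδ hX hY)
    have h0 : 0 ≤ A * D * δ * (1 + Real.log R) := by positivity
    calc _ ≤ A * (2 * D * δ) * (1 + Real.log R) := h
      _ ≤ 3 * A * D * δ * (1 + Real.log R) := by nlinarith
  · intro H δ hH hH1 hδ
    set N := ⌊Real.exp (R / H)⌋₊ with hNdef
    have hN : Real.exp (R / H) < N + 1 := Nat.lt_floor_add_one _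
    have hN1 : 1 ≤ N := by
      rw [hNdef]
      apply Nat.le_floor
      rw [Nat.cast_one]
      exact Real.one_le_exp (by positivity)
    have hN1' : (1 : ℝ) ≤ N := by exact_mod_cast hN1
    have hNR : H * Real.log N ≤ R := by
      have h7 : Real.log N ≤ R / H := by
        rw [← Real.log_exp (R / H)]
        exact Real.log_le_log (by linarith) (Nat.floor_le (Real.exp_pos _).le)
      calc H * Real.log N ≤ H * (R / H) := mul_le_mul_of_nonneg_left h7 hH.le
        _ = R := by field_simp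
    -- the inner sums
    have hin : ∀ X : ℝ, 0 ≤ X →
        |H * ∑ y ∈ Finset.Icc 1 N, G (X + δ) (H * Real.log y + δ) / y -
          ∫ Y in (0 : ℝ)..R, G (X + δ) (Y + δ)| ≤ H * (A * D * (1 + X)⁻¹) := by
      intro X hX
      have h := B7_real h2 (φ := fun Y => G (X + δ) (Y + δ)) (φ' := fun Y => G₂ (X + δ) (Y + δ))
        hR0 hH (fun r => by
          have := (hG.der2 (X + δ) (r + δ)).comp_add_const r δ
          exact this)
        ((hs2 δ).comp (by fun_prop : Continuous fun Y : ℝ => (X, Y)))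
        (fun r hr => hG.supp _ _ (by linarith) (by linarith) (Or.inr (by linarith))) hN
      refine h.trans (mul_le_mul_of_nonneg_left ?_ hH.le)
      refine (le_abs_self _).trans (B7_in hA' hR0 hX hD ?_)
      intro Y hY
      rw [abs_abs]
      exact (hG.bd2 _ _ (by linarith) (by linarith)).trans
        (mul_le_mul_of_nonneg_left (B7_anti hX hY (by linarith) (by linarith)) hD)
    -- the outer sum
    have hout : |H * ∑ x ∈ Finset.Icc 1 N,
          (∫ Y in (0 : ℝ)..R, G (H * Real.log x + δ) (Y + δ)) / x -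
        ∫ X in (0 : ℝ)..R, ∫ Y in (0 : ℝ)..R, G (X + δ) (Y + δ)| ≤
        H * (A * D * (1 + Real.log R)) := by
      have h := B7_real h2 (φ := fun X => ∫ Y in (0 : ℝ)..R, G (X + δ) (Y + δ))
        (φ' := fun X => ∫ Y in (0 : ℝ)..R, G₁ (X + δ) (Y + δ)) hR0 hH
        (fun r => B7_der (hs δ) (hs1 δ) (fun X Y => by
          have := (hG.der1 (X + δ) (Y + δ)).comp_add_const X δ
          exact this) R r)
        (intervalIntegral.continuous_parametric_intervalIntegral_of_continuous' (hs1 δ) 0 R)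
        (fun r hr => by
          have : ∫ Y in (0 : ℝ)..R, G (r + δ) (Y + δ) = ∫ Y in (0 : ℝ)..R, (0 : ℝ) := by
            apply intervalIntegral.integral_congr
            intro Y hY
            rw [uIcc_of_le hR0] at hY
            have := hY.1
            exact hG.supp _ _ (by linarith) (by linarith) (Or.inl (by linarith))
          rw [this]
          simp) hN
      refine h.trans (mul_le_mul_of_nonneg_left ?_ hH.le)
      refine (le_abs_self _).trans (B7_out hR (by positivity) ?_)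
      intro X hX
      rw [abs_abs]
      refine B7_in hA' hR0 hX hD ?_
      intro Y hY
      exact (hG.bd1 _ _ (by linarith) (by linarith)).trans
        (mul_le_mul_of_nonneg_left (B7_anti hX hY (by linarith) (by linarith)) hD)
    have hmid : |H ^ 2 * (∑ x ∈ Finset.Icc 1 N, ∑ y ∈ Finset.Icc 1 N,
          G (H * Real.log x + δ) (H * Real.log y + δ) / (x * y)) -
        H * ∑ x ∈ Finset.Icc 1 N, (∫ Y in (0 : ℝ)..R, G (H * Real.log x + δ) (Y + δ)) / x| ≤
        A * D * H * (2 * (1 + Real.log R)) := by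
      have e : H ^ 2 * (∑ x ∈ Finset.Icc 1 N, ∑ y ∈ Finset.Icc 1 N,
          G (H * Real.log x + δ) (H * Real.log y + δ) / (x * y)) -
        H * ∑ x ∈ Finset.Icc 1 N, (∫ Y in (0 : ℝ)..R, G (H * Real.log x + δ) (Y + δ)) / x =
        ∑ x ∈ Finset.Icc 1 N, H / x *
          (H * ∑ y ∈ Finset.Icc 1 N, G (H * Real.log x + δ) (H * Real.log y + δ) / y -
            ∫ Y in (0 : ℝ)..R, G (H * Real.log x + δ) (Y + δ)) := by
        rw [Finset.mul_sum, Finset.mul_sum, ← Finset.sum_sub_distrib]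
        apply Finset.sum_congr rfl
        intro x _
        have e2 : ∑ y ∈ Finset.Icc 1 N, G (H * Real.log x + δ) (H * Real.log y + δ) / (x * y) =
            (1 / x) * ∑ y ∈ Finset.Icc 1 N, G (H * Real.log x + δ) (H * Real.log y + δ) / y := by
          rw [Finset.mul_sum]
          apply Finset.sum_congr rfl
          intro y _
          rw [div_mul_div_comm, one_mul]
        rw [e2]
        ring
      rw [e]
      refine (Finset.abs_sum_le_sum_abs _ _).trans ?_
      calc ∑ x ∈ Finset.Icc 1 N, |H / x *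
          (H * ∑ y ∈ Finset.Icc 1 N, G (H * Real.log x + δ) (H * Real.log y + δ) / y -
            ∫ Y in (0 : ℝ)..R, G (H * Real.log x + δ) (Y + δ))|
          ≤ ∑ x ∈ Finset.Icc 1 N, A * D * H * (H * (1 + H * Real.log x)⁻¹ / x) := by
            apply Finset.sum_le_sum
            intro x hx
            have hx1 : (1 : ℝ) ≤ x := by exact_mod_cast (Finset.mem_Icc.1 hx).1
            have hlx : 0 ≤ Real.log x := Real.log_nonneg hx1
            rw [abs_mul, abs_of_nonneg (by positivity : 0 ≤ H / x)]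
            calc _ ≤ H / x * (H * (A * D * (1 + H * Real.log x)⁻¹)) :=
                  mul_le_mul_of_nonneg_left (hin _ (by positivity)) (by positivity)
              _ = A * D * H * (H * (1 + H * Real.log x)⁻¹ / x) := by ring
        _ = A * D * H * ∑ x ∈ Finset.Icc 1 N, H * (1 + H * Real.log x)⁻¹ / x := by
            rw [Finset.mul_sum]
        _ ≤ A * D * H * (2 * (1 + Real.log R)) := by
            apply mul_le_mul_of_nonneg_left _ (by positivity)
            have h8 := B7_sum hH N hN1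
            have h9 : Real.log (1 + H * Real.log N) ≤ Real.log (1 + R) := by
              apply Real.log_le_log _ (by linarith)
              have : 0 ≤ Real.log N := Real.log_nonneg hN1'
              positivity
            have h10 := B7_log hR
            linarith
    calc |H ^ 2 * (∑ x ∈ Finset.Icc 1 N, ∑ y ∈ Finset.Icc 1 N,
          G (H * Real.log x + δ) (H * Real.log y + δ) / (x * y)) -
        ∫ X in (0 : ℝ)..R, ∫ Y in (0 : ℝ)..R, G (X + δ) (Y + δ)|
        ≤ |H ^ 2 * (∑ x ∈ Finset.Icc 1 N, ∑ y ∈ Finset.Icc 1 N,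
          G (H * Real.log x + δ) (H * Real.log y + δ) / (x * y)) -
          H * ∑ x ∈ Finset.Icc 1 N, (∫ Y in (0 : ℝ)..R, G (H * Real.log x + δ) (Y + δ)) / x| +
          |H * ∑ x ∈ Finset.Icc 1 N, (∫ Y in (0 : ℝ)..R, G (H * Real.log x + δ) (Y + δ)) / x -
            ∫ X in (0 : ℝ)..R, ∫ Y in (0 : ℝ)..R, G (X + δ) (Y + δ)| := abs_sub_le _ _ _
      _ ≤ A * D * H * (2 * (1 + Real.log R)) + H * (A * D * (1 + Real.log R)) :=
          add_le_add hmid hout
      _ = 3 * A * D * H * (1 + Real.log R) := by ring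

end Pool.Agent.Lib.MP4
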