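import Mathlib
import Pool.Agent.Lib.MP_f9aece_nt_mq.StmtsF

/-!
The fourth moment of the plain average of zeta over short windows, module FB8.

Moebius: sum over coprime pairs f(x,y) = sum_{d<=N} mu(d) sum_{x,y<=N/d} f(dx,dy) (or indicator gcd = 1 as sum_{d | gcd} mu d). G(H log(dx), H log(dy)) = G(H log x + dl, H log y + dl), dl = H log d, zero if x > N/d or y > N/d (H log(dx) >= R), so the inner sums can be taken over [1,N]. SumInt2 (iii), (ii): error <= A D (H + H log d)(1+log R), summed with 1/d^2. sum_{d<=N} mu(d)/d^2 = 6/pi^2 + O(1/N), 1/N <= 2H (N >= exp(1/H)/2; Mathlib: ArithmeticFunction.LSeries_zeta_mul_Lseries_moebius, riemannZeta_two), and (i).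
-/

set_option autoImplicit false

namespace Pool.Agent.Lib.MP4

open MeasureTheory Set Filter Topology Complex
open scoped ComplexConjugate
open Pool.Agent.Lib.MS (psi Adm ZW ZS Res ZIdent PowClose)
open Pool.Agent.Lib
open Pool.Agent.Lib.MP2 (RD Av PA BumpFn Th Ss ph Prim PhAdm Cont Ident Top)

private theorem sum_dvd (h : ℕ → ℝ) (N d : ℕ) (hd : 1 ≤ d) (hh : ∀ n, N < n → h n = 0) :
    ∑ x ∈ Finset.Icc 1 N, (if d ∣ x then h x else 0) = ∑ x ∈ Finset.Icc 1 N, h (d * x) := by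
  have hinj : Set.InjOn (fun x : ℕ => d * x) (Finset.Icc 1 N : Finset ℕ) := by
    intro a _ b _ hab
    exact Nat.eq_of_mul_eq_mul_left (by omega) hab
  rw [← Finset.sum_image (f := h) hinj, ← Finset.sum_filter]
  refine Finset.sum_subset ?_ ?_
  · intro y hy
    rw [Finset.mem_filter, Finset.mem_Icc] at hy
    obtain ⟨⟨h1, h2⟩, k, rfl⟩ := hy
    rw [Finset.mem_image]
    refine ⟨k, Finset.mem_Icc.2 ⟨?_, ?_⟩, rfl⟩
    · rcases Nat.eq_zero_or_pos k with rfl | hk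
      · simp at h1
      · exact hk
    · exact (Nat.le_mul_of_pos_left k (by omega)).trans h2
  · intro y hy hy'
    rw [Finset.mem_image] at hy
    obtain ⟨k, hk, rfl⟩ := hy
    rw [Finset.mem_Icc] at hk
    apply hh
    by_contra hlt
    apply hy'
    rw [Finset.mem_filter, Finset.mem_Icc]
    refine ⟨⟨?_, by omega⟩, Dvd.intro k rfl⟩
    exact Nat.mul_pos (by omega) (by omega)

private theorem cop_ind (N x y : ℕ) (hx : x ∈ Finset.Icc 1 N) :
    (if Nat.Coprime x y then (1 : ℝ) else 0)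
      = ∑ d ∈ Finset.Icc 1 N, if d ∣ x ∧ d ∣ y then ((ArithmeticFunction.moebius d : ℤ) : ℝ) else 0 := by
  rw [Finset.mem_Icc] at hx
  have hg : Nat.gcd x y ≠ 0 := by
    intro h
    have := Nat.eq_zero_of_gcd_eq_zero_left h
    omega
  have h1 : ∑ i ∈ (Nat.gcd x y).divisors, ArithmeticFunction.moebius i
      = if Nat.gcd x y = 1 then (1 : ℤ) else 0 := by
    rw [← ArithmeticFunction.coe_mul_zeta_apply, ArithmeticFunction.moebius_mul_coe_zeta,
      ArithmeticFunction.one_apply]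
  rw [← Finset.sum_filter]
  have h2 : (Finset.Icc 1 N).filter (fun d => d ∣ x ∧ d ∣ y) = (Nat.gcd x y).divisors := by
    ext d
    rw [Finset.mem_filter, Finset.mem_Icc, Nat.mem_divisors, Nat.dvd_gcd_iff]
    constructor
    · rintro ⟨_, h⟩
      exact ⟨h, hg⟩
    · rintro ⟨h, _⟩
      refine ⟨⟨?_, ?_⟩, h⟩
      · rcases Nat.eq_zero_or_pos d with rfl | hd
        · have := Nat.eq_zero_of_zero_dvd h.1
          omega
        · exact hd
      · exact (Nat.le_of_dvd (by omega) h.1).trans hx.2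
  rw [h2, ← Int.cast_sum, h1]
  by_cases h : Nat.Coprime x y
  · have h' : Nat.gcd x y = 1 := h
    simp [h, h']
  · have h' : ¬ Nat.gcd x y = 1 := h
    simp [h, h']

private theorem cop_sum (f : ℕ → ℕ → ℝ) (N : ℕ) (h1 : ∀ x y, N < x → f x y = 0)
    (h2 : ∀ x y, N < y → f x y = 0) :
    ∑ p ∈ cop N, f p.1 p.2 = ∑ d ∈ Finset.Icc 1 N, ((ArithmeticFunction.moebius d : ℤ) : ℝ) *
      ∑ x ∈ Finset.Icc 1 N, ∑ y ∈ Finset.Icc 1 N, f (d * x) (d * y) := by
  have hL : ∑ p ∈ cop N, f p.1 p.2 = ∑ x ∈ Finset.Icc 1 N, ∑ y ∈ Finset.Icc 1 N,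
      (if Nat.Coprime x y then (1 : ℝ) else 0) * f x y := by
    rw [cop, Finset.sum_filter, Finset.sum_product]
    refine Finset.sum_congr rfl fun x _ => Finset.sum_congr rfl fun y _ => ?_
    by_cases h : Nat.Coprime x y <;> simp [h]
  rw [hL]
  have hM : ∑ x ∈ Finset.Icc 1 N, ∑ y ∈ Finset.Icc 1 N,
      (if Nat.Coprime x y then (1 : ℝ) else 0) * f x y
      = ∑ x ∈ Finset.Icc 1 N, ∑ y ∈ Finset.Icc 1 N, ∑ d ∈ Finset.Icc 1 N,
        (if d ∣ x ∧ d ∣ y then ((ArithmeticFunction.moebius d : ℤ) : ℝ) else 0) * f x y := by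
    refine Finset.sum_congr rfl fun x hx => Finset.sum_congr rfl fun y _ => ?_
    rw [cop_ind N x y hx, Finset.sum_mul]
  rw [hM]
  have hS : ∑ x ∈ Finset.Icc 1 N, ∑ y ∈ Finset.Icc 1 N, ∑ d ∈ Finset.Icc 1 N,
        (if d ∣ x ∧ d ∣ y then ((ArithmeticFunction.moebius d : ℤ) : ℝ) else 0) * f x y
      = ∑ d ∈ Finset.Icc 1 N, ∑ x ∈ Finset.Icc 1 N, ∑ y ∈ Finset.Icc 1 N,
        (if d ∣ x ∧ d ∣ y then ((ArithmeticFunction.moebius d : ℤ) : ℝ) else 0) * f x y := by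
    rw [Finset.sum_comm]
    have : ∀ y ∈ Finset.Icc 1 N, ∑ x ∈ Finset.Icc 1 N, ∑ d ∈ Finset.Icc 1 N,
        (if d ∣ x ∧ d ∣ y then ((ArithmeticFunction.moebius d : ℤ) : ℝ) else 0) * f x y
        = ∑ d ∈ Finset.Icc 1 N, ∑ x ∈ Finset.Icc 1 N,
        (if d ∣ x ∧ d ∣ y then ((ArithmeticFunction.moebius d : ℤ) : ℝ) else 0) * f x y :=
      fun y _ => Finset.sum_comm
    rw [Finset.sum_congr rfl this, Finset.sum_comm]
    exact Finset.sum_congr rfl fun d _ => Finset.sum_comm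
  rw [hS]
  refine Finset.sum_congr rfl fun d hd => ?_
  rw [Finset.mem_Icc] at hd
  have e1 : ∑ x ∈ Finset.Icc 1 N, ∑ y ∈ Finset.Icc 1 N,
        (if d ∣ x ∧ d ∣ y then ((ArithmeticFunction.moebius d : ℤ) : ℝ) else 0) * f x y
      = ((ArithmeticFunction.moebius d : ℤ) : ℝ) * ∑ x ∈ Finset.Icc 1 N,
        (if d ∣ x then ∑ y ∈ Finset.Icc 1 N, (if d ∣ y then f x y else 0) else 0) := by
    rw [Finset.mul_sum]
    refine Finset.sum_congr rfl fun x _ => ?_
    by_cases hx : d ∣ x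
    · rw [if_pos hx, Finset.mul_sum]
      refine Finset.sum_congr rfl fun y _ => ?_
      by_cases hy : d ∣ y <;> simp [hx, hy]
    · simp [hx]
  rw [e1, sum_dvd (fun x => ∑ y ∈ Finset.Icc 1 N, (if d ∣ y then f x y else 0)) N d hd.1 ?_]
  · congr 1
    refine Finset.sum_congr rfl fun x _ => ?_
    exact sum_dvd (fun y => f (d * x) y) N d hd.1 fun n hn => h2 _ _ hn
  · intro n hn
    refine Finset.sum_eq_zero fun y _ => ?_
    rw [h1 n y hn]
    simp

private theorem hasSum_moebius :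
    HasSum (fun n : ℕ => ((ArithmeticFunction.moebius n : ℤ) : ℝ) * ((n : ℝ) ^ 2)⁻¹)
      (6 / Real.pi ^ 2) := by
  have h2 : (1 : ℝ) < (2 : ℂ).re := by norm_num
  have hsum := (ArithmeticFunction.LSeriesSummable_moebius_iff (s := 2)).2 h2
  have h1 := ArithmeticFunction.LSeries_zeta_mul_Lseries_moebius h2
  rw [ArithmeticFunction.LSeries_zeta_eq_riemannZeta h2, riemannZeta_two] at h1
  have hval : LSeries (fun n => ((ArithmeticFunction.moebius n : ℤ) : ℂ)) 2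
      = ((6 / Real.pi ^ 2 : ℝ) : ℂ) := by
    have hpi : (Real.pi : ℂ) ≠ 0 := by exact_mod_cast Real.pi_ne_zero
    push_cast
    field_simp at h1 ⊢
    linear_combination h1
  have hs : HasSum (LSeries.term (fun n => ((ArithmeticFunction.moebius n : ℤ) : ℂ)) 2)
      (LSeries (fun n => ((ArithmeticFunction.moebius n : ℤ) : ℂ)) 2) := hsum.hasSum
  rw [hval] at hs
  have he : (LSeries.term (fun n => ((ArithmeticFunction.moebius n : ℤ) : ℂ)) 2)
      = fun n : ℕ => ((((ArithmeticFunction.moebius n : ℤ) : ℝ) * ((n : ℝ) ^ 2)⁻¹ : ℝ) : ℂ) := by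
    funext n
    rw [LSeries.term_def]
    by_cases hn : n = 0
    · simp [hn]
    · rw [if_neg hn]
      push_cast
      rw [div_eq_mul_inv]
      congr 2
      exact_mod_cast Complex.cpow_natCast (n : ℂ) 2
  rw [he] at hs
  exact_mod_cast hs

private theorem moebius_tail (N : ℕ) (hN : 1 ≤ N) :
    |∑ d ∈ Finset.Icc 1 N, ((ArithmeticFunction.moebius d : ℤ) : ℝ) * ((d : ℝ) ^ 2)⁻¹
      - 6 / Real.pi ^ 2| ≤ (N : ℝ)⁻¹ := by
  have h := hasSum_moebius.tendsto_sum_nat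
  set g : ℕ → ℝ := fun n => ((ArithmeticFunction.moebius n : ℤ) : ℝ) * ((n : ℝ) ^ 2)⁻¹ with hg
  have hg0 : g 0 = 0 := by simp [hg]
  have hr : ∀ M, ∑ i ∈ Finset.range (M + 1), g i = ∑ i ∈ Finset.Icc 1 M, g i := by
    intro M
    rw [Finset.range_eq_Ico, Finset.sum_eq_sum_Ico_succ_bot (by omega), hg0, zero_add]
    rfl
  have h' : Tendsto (fun M => ∑ i ∈ Finset.Icc 1 M, g i) atTop (𝓝 (6 / Real.pi ^ 2)) := by
    have := (tendsto_add_atTop_iff_nat 1).2 h
    refine this.congr fun M => hr M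
  have h3 : Tendsto (fun M => |∑ i ∈ Finset.Icc 1 N, g i - ∑ i ∈ Finset.Icc 1 M, g i|) atTop
      (𝓝 |∑ i ∈ Finset.Icc 1 N, g i - 6 / Real.pi ^ 2|) := (tendsto_const_nhds.sub h').abs
  refine le_of_tendsto h3 ?_
  filter_upwards [eventually_ge_atTop N] with M hM
  have h4 : ∑ i ∈ Finset.Icc 1 M, g i = ∑ i ∈ Finset.Icc 1 N, g i + ∑ i ∈ Finset.Ioc N M, g i := by
    have e1 : Finset.Icc 1 M = Finset.Ioc 0 M := rfl
    have e2 : Finset.Icc 1 N = Finset.Ioc 0 N := rfl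
    rw [e1, e2, Finset.sum_Ioc_consecutive _ (Nat.zero_le N) hM]
  rw [h4]
  have h5 : ∑ i ∈ Finset.Icc 1 N, g i - (∑ i ∈ Finset.Icc 1 N, g i + ∑ i ∈ Finset.Ioc N M, g i)
      = -∑ i ∈ Finset.Ioc N M, g i := by ring
  rw [h5, abs_neg]
  have h6 : |∑ i ∈ Finset.Ioc N M, g i| ≤ ∑ i ∈ Finset.Ioc N M, ((i : ℝ) ^ 2)⁻¹ := by
    refine (Finset.abs_sum_le_sum_abs _ _).trans (Finset.sum_le_sum fun i _ => ?_)
    rw [hg]
    simp only
    rw [abs_mul, abs_of_nonneg (a := ((i : ℝ) ^ 2)⁻¹) (by positivity)]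
    have h7 : |((ArithmeticFunction.moebius i : ℤ) : ℝ)| ≤ 1 := by
      have := ArithmeticFunction.abs_moebius_le_one (n := i)
      exact_mod_cast this
    calc |((ArithmeticFunction.moebius i : ℤ) : ℝ)| * ((i : ℝ) ^ 2)⁻¹ ≤ 1 * ((i : ℝ) ^ 2)⁻¹ :=
          mul_le_mul_of_nonneg_right h7 (by positivity)
      _ = _ := one_mul _
  have h8 := sum_Ioc_inv_sq_le_sub (α := ℝ) (k := N) (n := M) (by omega) hM
  have h9 : (0 : ℝ) ≤ (M : ℝ)⁻¹ := by positivity
  linarith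

private theorem one_add_log_le (d : ℕ) (hd : 1 ≤ d) : 1 + Real.log d ≤ 2 * (d : ℝ) ^ (1 / 2 : ℝ) := by
  have h0 : (0 : ℝ) < d := by exact_mod_cast hd
  have h1 : Real.log ((d : ℝ) ^ (1 / 2 : ℝ)) = 1 / 2 * Real.log d := Real.log_rpow h0 _
  have h2 := Real.log_le_sub_one_of_pos (Real.rpow_pos_of_pos h0 (1 / 2))
  rw [h1] at h2
  linarith

private theorem sum_log : ∃ K : ℝ, 0 ≤ K ∧ ∀ N : ℕ,
    ∑ d ∈ Finset.Icc 1 N, (1 + Real.log d) * ((d : ℝ) ^ 2)⁻¹ ≤ K := by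
  have hs : Summable fun n : ℕ => 2 * (n : ℝ) ^ (-(3 / 2) : ℝ) :=
    (Real.summable_nat_rpow.2 (by norm_num)).mul_left 2
  refine ⟨∑' n : ℕ, 2 * (n : ℝ) ^ (-(3 / 2) : ℝ), tsum_nonneg fun n => by positivity, fun N => ?_⟩
  refine le_trans (Finset.sum_le_sum fun d hd => ?_) (hs.sum_le_tsum (Finset.Icc 1 N)
    fun n _ => by positivity)
  rw [Finset.mem_Icc] at hd
  have h0 : (0 : ℝ) < d := by exact_mod_cast hd.1
  have h1 := one_add_log_le d hd.1
  calc (1 + Real.log d) * ((d : ℝ) ^ 2)⁻¹ ≤ 2 * (d : ℝ) ^ (1 / 2 : ℝ) * ((d : ℝ) ^ 2)⁻¹ :=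
        mul_le_mul_of_nonneg_right h1 (by positivity)
    _ = 2 * (d : ℝ) ^ (-(3 / 2) : ℝ) := by
        rw [mul_assoc]
        congr 1
        rw [← Real.rpow_natCast (d : ℝ) 2, ← Real.rpow_neg h0.le, ← Real.rpow_add h0]
        congr 1
        norm_num

theorem copSum (h7 : SumInt2) : CopSum := by
  obtain ⟨A0, hA0, h⟩ := h7
  obtain ⟨K, hK, hlog⟩ := sum_log
  refine ⟨A0 * (K + 1), ?_, ?_⟩
  · nlinarith
  intro G G₁ G₂ D R hG H hH hH1
  obtain ⟨hi, hii, hiii⟩ := h G G₁ G₂ D R hG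
  set N : ℕ := ⌊Real.exp (R / H)⌋₊ with hN
  set J : ℝ := ∫ X in (0 : ℝ)..R, ∫ Y in (0 : ℝ)..R, G X Y with hJ
  have hR := hG.hR
  have hD := hG.hD
  have hlR : 0 ≤ Real.log R := Real.log_nonneg hR
  have hNlt : Real.exp (R / H) < (N : ℝ) + 1 := Nat.lt_floor_add_one _
  have hNH : H⁻¹ ≤ (N : ℝ) := by
    have h1 := Real.add_one_le_exp (R / H)
    have h2 : H⁻¹ ≤ R / H := by
      rw [inv_eq_one_div]
      exact div_le_div_of_nonneg_right hR hH.le
    linarith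
  have hHinv : (1 : ℝ) ≤ H⁻¹ := (one_le_inv₀ hH).2 hH1
  have hN1 : 1 ≤ N := by
    have : (1 : ℝ) ≤ (N : ℝ) := hHinv.trans hNH
    exact_mod_cast this
  have hNinv : (N : ℝ)⁻¹ ≤ H := inv_le_of_inv_le₀ hH hNH
  -- the summands vanish outside the box
  have hbig : ∀ x : ℕ, N < x → R ≤ H * Real.log x := by
    intro x hx
    have h1 : (N : ℝ) + 1 ≤ x := by exact_mod_cast hx
    have h2 : Real.exp (R / H) ≤ x := hNlt.le.trans h1
    have h3 : R / H ≤ Real.log x := by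
      rw [← Real.log_exp (R / H)]
      exact Real.log_le_log (Real.exp_pos _) h2
    rw [div_le_iff₀ hH] at h3
    linarith
  have hnn : ∀ x : ℕ, 0 ≤ H * Real.log x := fun x =>
    mul_nonneg hH.le (Real.log_natCast_nonneg x)
  set f : ℕ → ℕ → ℝ := fun x y => G (H * Real.log x) (H * Real.log y) / (x * y) with hf
  have hf1 : ∀ x y, N < x → f x y = 0 := by
    intro x y hx
    rw [hf]
    simp only
    rw [hG.supp _ _ (hnn x) (hnn y) (Or.inl (hbig x hx)), zero_div]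
  have hf2 : ∀ x y, N < y → f x y = 0 := by
    intro x y hy
    rw [hf]
    simp only
    rw [hG.supp _ _ (hnn x) (hnn y) (Or.inr (hbig y hy)), zero_div]
  have hcop := cop_sum f N hf1 hf2
  set S : ℕ → ℝ := fun d => H ^ 2 * ∑ x ∈ Finset.Icc 1 N, ∑ y ∈ Finset.Icc 1 N,
      G (H * Real.log x + H * Real.log d) (H * Real.log y + H * Real.log d) / (x * y) with hS
  have hfd : ∀ d ∈ Finset.Icc 1 N, H ^ 2 * ∑ x ∈ Finset.Icc 1 N, ∑ y ∈ Finset.Icc 1 N,
      f (d * x) (d * y) = ((d : ℝ) ^ 2)⁻¹ * S d := by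
    intro d hd
    rw [Finset.mem_Icc] at hd
    have hd0 : (d : ℝ) ≠ 0 := by
      have : 0 < d := hd.1
      positivity
    rw [hS]
    simp only
    rw [mul_left_comm]
    congr 1
    rw [Finset.mul_sum]
    refine Finset.sum_congr rfl fun x hx => ?_
    rw [Finset.mul_sum]
    refine Finset.sum_congr rfl fun y hy => ?_
    rw [Finset.mem_Icc] at hx hy
    have hx0 : (x : ℝ) ≠ 0 := by
      have : 0 < x := hx.1
      positivity
    have hy0 : (y : ℝ) ≠ 0 := by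
      have : 0 < y := hy.1
      positivity
    rw [hf]
    simp only
    push_cast
    rw [Real.log_mul hd0 hx0, Real.log_mul hd0 hy0]
    rw [show H * (Real.log d + Real.log x) = H * Real.log x + H * Real.log d by ring,
      show H * (Real.log d + Real.log y) = H * Real.log y + H * Real.log d by ring]
    field_simp
  have hmain : H ^ 2 * (∑ p ∈ cop N, G (H * Real.log p.1) (H * Real.log p.2) / (p.1 * p.2))
      = ∑ d ∈ Finset.Icc 1 N, ((ArithmeticFunction.moebius d : ℤ) : ℝ) * (((d : ℝ) ^ 2)⁻¹ * S d) := by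
    have : ∑ p ∈ cop N, G (H * Real.log p.1) (H * Real.log p.2) / (p.1 * p.2)
        = ∑ p ∈ cop N, f p.1 p.2 := rfl
    rw [this, hcop, Finset.mul_sum]
    refine Finset.sum_congr rfl fun d hd => ?_
    rw [← hfd d hd]
    ring
  rw [hmain]
  -- the error of one term
  have herr : ∀ d ∈ Finset.Icc 1 N, |S d - J| ≤ A0 * D * H * (1 + Real.log R) * (1 + Real.log d) := by
    intro d hd
    have hδ : 0 ≤ H * Real.log d := hnn d
    have h1 := hiii H (H * Real.log d) hH hH1 hδ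
    have h2 := hii (H * Real.log d) hδ
    have h3 : S d - J = (S d - ∫ X in (0 : ℝ)..R, ∫ Y in (0 : ℝ)..R,
        G (X + H * Real.log d) (Y + H * Real.log d))
        + ((∫ X in (0 : ℝ)..R, ∫ Y in (0 : ℝ)..R,
        G (X + H * Real.log d) (Y + H * Real.log d)) - J) := by ring
    rw [h3]
    refine (abs_add_le _ _).trans ?_
    refine (add_le_add h1 h2).trans (le_of_eq ?_)
    ring
  have hdec : ∑ d ∈ Finset.Icc 1 N, ((ArithmeticFunction.moebius d : ℤ) : ℝ) * (((d : ℝ) ^ 2)⁻¹ * S d)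
      - 6 / Real.pi ^ 2 * J
      = ∑ d ∈ Finset.Icc 1 N, ((ArithmeticFunction.moebius d : ℤ) : ℝ) * (((d : ℝ) ^ 2)⁻¹ * (S d - J))
        + (∑ d ∈ Finset.Icc 1 N, ((ArithmeticFunction.moebius d : ℤ) : ℝ) * ((d : ℝ) ^ 2)⁻¹
          - 6 / Real.pi ^ 2) * J := by
    rw [sub_mul, Finset.sum_mul, ← add_sub_assoc, ← Finset.sum_add_distrib]
    congr 1
    refine Finset.sum_congr rfl fun d _ => ?_
    ring
  rw [hdec]
  refine (abs_add_le _ _).trans ?_
  have hE1 : |∑ d ∈ Finset.Icc 1 N, ((ArithmeticFunction.moebius d : ℤ) : ℝ) *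
      (((d : ℝ) ^ 2)⁻¹ * (S d - J))| ≤ A0 * D * H * (1 + Real.log R) * K := by
    refine (Finset.abs_sum_le_sum_abs _ _).trans ?_
    refine le_trans (Finset.sum_le_sum (g := fun d : ℕ => A0 * D * H * (1 + Real.log R) *
      ((1 + Real.log d) * ((d : ℝ) ^ 2)⁻¹)) fun d hd => ?_) ?_
    · rw [abs_mul, abs_mul, abs_of_nonneg (a := ((d : ℝ) ^ 2)⁻¹) (by positivity)]
      have h7 : |((ArithmeticFunction.moebius d : ℤ) : ℝ)| ≤ 1 := by
        have := ArithmeticFunction.abs_moebius_le_one (n := d)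
        exact_mod_cast this
      calc |((ArithmeticFunction.moebius d : ℤ) : ℝ)| * (((d : ℝ) ^ 2)⁻¹ * |S d - J|)
          ≤ 1 * (((d : ℝ) ^ 2)⁻¹ * |S d - J|) := mul_le_mul_of_nonneg_right h7 (by positivity)
        _ = ((d : ℝ) ^ 2)⁻¹ * |S d - J| := one_mul _
        _ ≤ ((d : ℝ) ^ 2)⁻¹ * (A0 * D * H * (1 + Real.log R) * (1 + Real.log d)) :=
            mul_le_mul_of_nonneg_left (herr d hd) (by positivity)
        _ = _ := by ring
    · rw [← Finset.mul_sum]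
      exact mul_le_mul_of_nonneg_left (hlog N) (by positivity)
  have hE2 : |(∑ d ∈ Finset.Icc 1 N, ((ArithmeticFunction.moebius d : ℤ) : ℝ) * ((d : ℝ) ^ 2)⁻¹
          - 6 / Real.pi ^ 2) * J| ≤ H * (A0 * D * (1 + Real.log R)) := by
    rw [abs_mul]
    exact mul_le_mul ((moebius_tail N hN1).trans hNinv) hi (abs_nonneg _) hH.le
  refine (add_le_add hE1 hE2).trans (le_of_eq ?_)
  ring

end Pool.Agent.Lib.MP4
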