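import Mathlib
import Pool.Agent.Lib.MP_f9aece_nt_mq.StmtsF

/-!
The fourth moment of the plain average of zeta over short windows, module FB9: the energy of the
square of the Dirichlet polynomial and the integral of the square of the kernel.
-/

set_option autoImplicit false

namespace Pool.Agent.Lib.MP4

open MeasureTheory Set Filter Topology Complex
open scoped ComplexConjugate
open Pool.Agent.Lib.MS (psi Adm ZW ZS Res ZIdent PowClose)
open Pool.Agent.Lib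
open Pool.Agent.Lib.MP2 (RD Av PA BumpFn Th Ss ph Prim PhAdm Cont Ident Top)

private lemma ll_nonneg' {X Y : ℝ} (hX : 0 ≤ X) (hY : 0 ≤ Y) : 0 ≤ ll X Y := by
  unfold ll
  have h1 : 0 < max (1 + X) (1 + Y) := lt_max_of_lt_left (by linarith)
  have h2 : 0 < min (1 + X) (1 + Y) := lt_min (by linarith) (by linarith)
  positivity

private lemma sq_diff {z w : ℂ} {a b : ℝ} (h : ‖z - w‖ ≤ a) (hw : ‖w‖ ≤ b) :
    |‖z‖ ^ 2 - ‖w‖ ^ 2| ≤ a * (2 * b + a) := by
  have ha : 0 ≤ a := (norm_nonneg _).trans h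
  have h1 : |‖z‖ - ‖w‖| ≤ a := (abs_norm_sub_norm_le z w).trans h
  have h2 : ‖z‖ ≤ b + a := by linarith [(abs_le.1 h1).2]
  rw [show ‖z‖ ^ 2 - ‖w‖ ^ 2 = (‖z‖ - ‖w‖) * (‖z‖ + ‖w‖) by ring, abs_mul]
  refine mul_le_mul h1 ?_ (abs_nonneg _) ha
  rw [abs_of_nonneg (by positivity)]
  linarith

theorem enKer (h1 : FourEn) (h4 : KDer) (h5 : Kappa) (h6 : LSum) (h8 : CopSum) : EnKer := by
  obtain ⟨A4, hA4, h4⟩ := h4
  obtain ⟨A5, hA5, h5⟩ := h5
  obtain ⟨A6, hA6, -, -, h6⟩ := h6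
  obtain ⟨A8, hA8, h8⟩ := h8
  refine ⟨A8 * (2 * A4 ^ 2) + A5 * (2 * A4 + A5) * A6, ?_, ?_⟩
  · have e1 : 1 ≤ A8 * (2 * A4 ^ 2) := by nlinarith
    have e2 : 0 ≤ A5 * (2 * A4 + A5) * A6 := by positivity
    linarith
  intro F F' C R hF H hH hH1
  have hC := hF.hC
  have hR := hF.hR
  obtain ⟨hkc, hks, hkb, hk0, K', hK'c, hK'd, hK'b⟩ := h4 F F' C R hF
  set N : ℕ := ⌊Real.exp (R / H)⌋₊ with hN
  set D : ℝ := 2 * A4 ^ 2 * C ^ 4 with hD
  -- the function `G`
  set G : ℝ → ℝ → ℝ := fun X Y => ‖kk F R X Y‖ ^ 2 with hG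
  set G₁ : ℝ → ℝ → ℝ := fun X Y => 2 * inner ℝ (kk F R X Y) (K' X Y) with hG1
  have hGsymm : ∀ X Y, G X Y = G Y X := by
    intro X Y
    simp only [hG]
    rw [hks X Y, Complex.norm_conj]
  have hd1 : ∀ X Y, HasDerivAt (fun X => G X Y) (G₁ X Y) X := fun X Y => (hK'd X Y).norm_sq
  have hGb : ∀ X Y : ℝ, 0 ≤ X → 0 ≤ Y → |G X Y| ≤ D * ll X Y ^ 2 := by
    intro X Y hX hY
    have e1 := hkb X Y hX hY
    simp only [hG]
    rw [abs_of_nonneg (by positivity)]
    calc ‖kk F R X Y‖ ^ 2 ≤ (A4 * C ^ 2 * ll X Y) ^ 2 := pow_le_pow_left₀ (norm_nonneg _) e1 2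
      _ ≤ D * ll X Y ^ 2 := by
        rw [hD]
        have : 0 ≤ A4 ^ 2 * C ^ 4 * ll X Y ^ 2 := by positivity
        nlinarith
  have hG1b : ∀ X Y : ℝ, 0 ≤ X → 0 ≤ Y → |G₁ X Y| ≤ D * ll X Y ^ 2 := by
    intro X Y hX hY
    have e1 := hkb X Y hX hY
    have e2 := hK'b X Y hX hY
    simp only [hG1]
    rw [abs_mul, abs_two]
    have e3 := abs_real_inner_le_norm (kk F R X Y) (K' X Y)
    have e4 : ‖kk F R X Y‖ * ‖K' X Y‖ ≤ (A4 * C ^ 2 * ll X Y) * (A4 * C ^ 2 * ll X Y) :=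
      mul_le_mul e1 e2 (norm_nonneg _) ((norm_nonneg _).trans e1)
    rw [hD]
    nlinarith
  have hGf : Gf G G₁ (fun X Y => G₁ Y X) D R := by
    refine ⟨hR, by positivity, ?_, ?_, ?_, hd1, ?_, hGb, hG1b, ?_, ?_⟩
    · exact hkc.norm.pow 2
    · exact continuous_const.mul (hkc.inner hK'c)
    · exact (continuous_const.mul (hkc.inner hK'c)).comp continuous_swap
    · intro X Y
      have e1 : (fun Y => G X Y) = fun Y => G Y X := funext fun Y => hGsymm X Y
      rw [e1]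
      exact hd1 Y X
    · intro X Y hX hY
      have e1 := hG1b Y X hY hX
      have e2 : ll Y X = ll X Y := by
        unfold ll
        rw [max_comm, min_comm]
      rwa [e2] at e1
    · intro X Y hX hY h
      simp only [hG]
      rw [hk0 X Y hX hY h, norm_zero]
      norm_num
  have hmain := h8 G G₁ (fun X Y => G₁ Y X) D R hGf H hH hH1
  -- the energy
  set c : ℕ → ℂ := fun n => F (H * Real.log n) with hc
  have hc0 : ∀ n, N < n → c n = 0 := by
    intro n hn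
    have e1 : Real.exp (R / H) < n := (Nat.lt_of_floor_lt hn)
    have e2 : R / H < Real.log n :=
      (Real.lt_log_iff_exp_lt ((Real.exp_pos _).trans e1)).2 e1
    have e3 : R ≤ H * Real.log n := by
      rw [div_lt_iff₀ hH] at e2
      linarith
    exact (hF.supp _ e3).1
  have hE := h1 c N hc0
  have hE2 : H ^ 4 * E4 c N
      = H ^ 2 * ∑ p ∈ cop N, ‖(H : ℂ) * dk c N p.1 p.2‖ ^ 2 / (p.1 * p.2) := by
    rw [hE, Finset.mul_sum, Finset.mul_sum]
    refine Finset.sum_congr rfl fun p _ => ?_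
    rw [norm_mul, Complex.norm_real, Real.norm_of_nonneg hH.le]
    ring
  have hdiff : |H ^ 4 * E4 c N - H ^ 2 * ∑ p ∈ cop N,
      G (H * Real.log p.1) (H * Real.log p.2) / (p.1 * p.2)|
      ≤ A5 * (2 * A4 + A5) * A6 * C ^ 4 * H * (1 + Real.log R) := by
    rw [hE2, ← mul_sub, ← Finset.sum_sub_distrib, abs_mul, abs_of_nonneg (by positivity)]
    have e1 : |∑ p ∈ cop N, (‖(H : ℂ) * dk c N p.1 p.2‖ ^ 2 / (p.1 * p.2)
        - G (H * Real.log p.1) (H * Real.log p.2) / (p.1 * p.2))|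
        ≤ ∑ p ∈ cop N, (A5 * (2 * A4 + A5) * C ^ 4 * H) *
          (ll (H * Real.log p.1) (H * Real.log p.2) ^ 2 / (p.1 * p.2)) := by
      refine (Finset.abs_sum_le_sum_abs _ _).trans (Finset.sum_le_sum fun p hp => ?_)
      have hp1 : 1 ≤ p.1 ∧ 1 ≤ p.2 := by
        have := (Finset.mem_filter.1 hp).1
        rw [Finset.mem_product, Finset.mem_Icc, Finset.mem_Icc] at this
        exact ⟨this.1.1, this.2.1⟩
      have hx : 0 ≤ H * Real.log p.1 :=
        mul_nonneg hH.le (Real.log_nonneg (by exact_mod_cast hp1.1))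
      have hy : 0 ≤ H * Real.log p.2 :=
        mul_nonneg hH.le (Real.log_nonneg (by exact_mod_cast hp1.2))
      have hxy : (0 : ℝ) < p.1 * p.2 := by
        have a1 : (0 : ℝ) < p.1 := by exact_mod_cast hp1.1
        have a2 : (0 : ℝ) < p.2 := by exact_mod_cast hp1.2
        positivity
      rw [← sub_div, abs_div, abs_of_pos hxy, ← mul_div_assoc]
      refine div_le_div_of_nonneg_right ?_ hxy.le
      have e2 := h5 F F' C R hF H p.1 p.2 hH hp1.1 hp1.2
      have e3 := hkb _ _ hx hy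
      refine (sq_diff e2 e3).trans ?_
      set l := ll (H * Real.log p.1) (H * Real.log p.2) with hl
      have hl0 : 0 ≤ l := ll_nonneg' hx hy
      have e4 : A5 * C ^ 2 * H * l * (2 * (A4 * C ^ 2 * l) + A5 * C ^ 2 * H * l)
          = (A5 * (2 * A4 + A5 * H)) * (C ^ 4 * H * l ^ 2) := by ring
      have e5 : A5 * (2 * A4 + A5) * C ^ 4 * H * l ^ 2
          = (A5 * (2 * A4 + A5)) * (C ^ 4 * H * l ^ 2) := by ring
      rw [e4, e5]
      refine mul_le_mul_of_nonneg_right ?_ (by positivity)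
      refine mul_le_mul_of_nonneg_left ?_ (by linarith)
      have : A5 * H ≤ A5 := mul_le_of_le_one_right (by linarith) hH1
      linarith
    rw [← Finset.mul_sum] at e1
    have e6 : ∑ p ∈ cop N, ll (H * Real.log p.1) (H * Real.log p.2) ^ 2 / ((p.1 : ℝ) * p.2)
        ≤ ∑ x ∈ Finset.Icc 1 N, ∑ y ∈ Finset.Icc 1 N,
          ll (H * Real.log x) (H * Real.log y) ^ 2 / ((x : ℝ) * y) := by
      rw [← Finset.sum_product']
      refine Finset.sum_le_sum_of_subset_of_nonneg (Finset.filter_subset _ _) ?_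
      intro p _ _
      positivity
    have e7 := h6 H R hH hH1 hR
    have e8 : 0 ≤ A5 * (2 * A4 + A5) * C ^ 4 * H := by positivity
    calc H ^ 2 * |∑ p ∈ cop N, (‖(H : ℂ) * dk c N p.1 p.2‖ ^ 2 / (p.1 * p.2)
          - G (H * Real.log p.1) (H * Real.log p.2) / (p.1 * p.2))|
        ≤ H ^ 2 * ((A5 * (2 * A4 + A5) * C ^ 4 * H) * ∑ x ∈ Finset.Icc 1 N,
          ∑ y ∈ Finset.Icc 1 N, ll (H * Real.log x) (H * Real.log y) ^ 2 / ((x : ℝ) * y)) :=
          mul_le_mul_of_nonneg_left (e1.trans (mul_le_mul_of_nonneg_left e6 e8)) (by positivity)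
      _ = (A5 * (2 * A4 + A5) * C ^ 4 * H) * (H ^ 2 * ∑ x ∈ Finset.Icc 1 N,
          ∑ y ∈ Finset.Icc 1 N, ll (H * Real.log x) (H * Real.log y) ^ 2 / ((x : ℝ) * y)) := by
          ring
      _ ≤ (A5 * (2 * A4 + A5) * C ^ 4 * H) * (A6 * (1 + Real.log R)) :=
          mul_le_mul_of_nonneg_left e7 e8
      _ = A5 * (2 * A4 + A5) * A6 * C ^ 4 * H * (1 + Real.log R) := by ring
  have htri := abs_add_le (H ^ 4 * E4 c N - H ^ 2 * ∑ p ∈ cop N,
      G (H * Real.log p.1) (H * Real.log p.2) / (p.1 * p.2))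
    (H ^ 2 * (∑ p ∈ cop N, G (H * Real.log p.1) (H * Real.log p.2) / (p.1 * p.2))
      - 6 / Real.pi ^ 2 * ∫ X in (0 : ℝ)..R, ∫ Y in (0 : ℝ)..R, G X Y)
  rw [sub_add_sub_cancel] at htri
  refine htri.trans ((add_le_add hdiff hmain).trans (le_of_eq ?_))
  rw [hD]
  ring

end Pool.Agent.Lib.MP4
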