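import Mathlib
import Pool.Agent.Lib.MP_f9aece_nt_mq.StmtsF

/-!
The fourth moment of the plain average of zeta over short windows, module FC1.

Square the polynomial: b(m) = sum over divisorsAntidiagonal, length N^2 (c vanishes above N). Real and imaginary parts b = b1 + i b2 as DP; unifMVP (MP_f9aece_nt_ms/Q0Unif.lean, X = N^2, eta = 2 N^4/T): E|B1 + i B2|^2 = En b1 + En b2 + 2 Re(i * real) + errors <= 4 eta E4. Or expand directly.
-/

set_option autoImplicit false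

namespace Pool.Agent.Lib.MP4

open MeasureTheory Set Filter Topology Complex
open scoped ComplexConjugate
open Pool.Agent.Lib.MS (psi Adm ZW ZS Res ZIdent PowClose)
open Pool.Agent.Lib
open Pool.Agent.Lib.MP2 (RD Av PA BumpFn Th Ss ph Prim PhAdm Cont Ident Top)

/-- `n ^ (-(1/2 + it))` as an exponential -/
private lemma fc1_u (m : ℕ) (hm : 1 ≤ m) (t : ℝ) :
    (m : ℂ) ^ (-(1 / 2 + I * t : ℂ)) = cexp ((Real.log m : ℂ) * (-(1 / 2 + I * t))) := by
  have hm0 : (m : ℂ) ≠ 0 := by exact_mod_cast (by omega : m ≠ 0)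
  rw [Complex.cpow_def_of_ne_zero hm0, ← Complex.natCast_log]

/-- the product of two terms -/
private lemma fc1_prod (m n : ℕ) (hm : 1 ≤ m) (hn : 1 ≤ n) (t : ℝ) :
    (m : ℂ) ^ (-(1 / 2 + I * t : ℂ)) * conj ((n : ℂ) ^ (-(1 / 2 + I * t : ℂ))) =
      cexp (((-(Real.log m + Real.log n) / 2 : ℝ) : ℂ)) *
        cexp ((-I * ((Real.log m - Real.log n : ℝ) : ℂ)) * t) := by
  rw [fc1_u m hm, fc1_u n hn, ← Complex.exp_conj, ← Complex.exp_add, ← Complex.exp_add]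
  congr 1
  simp only [map_mul, map_neg, map_add, map_div₀, map_one, Complex.conj_ofReal, Complex.conj_I,
    map_ofNat]
  push_cast
  ring

private lemma fc1_cont (m : ℕ) (hm : 1 ≤ m) :
    Continuous fun t : ℝ => (m : ℂ) ^ (-(1 / 2 + I * t : ℂ)) := by
  have h : (fun t : ℝ => (m : ℂ) ^ (-(1 / 2 + I * t : ℂ))) =
      fun t : ℝ => cexp ((Real.log m : ℂ) * (-(1 / 2 + I * t))) := funext fun t => fc1_u m hm t
  rw [h]
  fun_prop

/-- `exp (-(log m + log n)/2) = m ^ (-1/2) n ^ (-1/2)`, as a real number -/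
private lemma fc1_K (m n : ℕ) (hm : 1 ≤ m) (hn : 1 ≤ n) :
    Real.exp (-(Real.log m + Real.log n) / 2) = (Real.sqrt m)⁻¹ * (Real.sqrt n)⁻¹ := by
  have hm' : (0 : ℝ) < m := by exact_mod_cast hm
  have hn' : (0 : ℝ) < n := by exact_mod_cast hn
  have h1 : Real.sqrt m = Real.exp (Real.log m / 2) := by
    rw [Real.exp_half, Real.exp_log hm']
  have h2 : Real.sqrt n = Real.exp (Real.log n / 2) := by
    rw [Real.exp_half, Real.exp_log hn']
  rw [h1, h2, ← Real.exp_neg, ← Real.exp_neg, ← Real.exp_add]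
  congr 1
  ring

/-- different integers have logarithms at distance at least `1 / M` -/
private lemma fc1_log (m n M : ℕ) (hm : 1 ≤ m) (hn : 1 ≤ n) (hmM : m ≤ M) (hnM : n ≤ M)
    (hne : m ≠ n) : (M : ℝ)⁻¹ ≤ |Real.log m - Real.log n| := by
  wlog h : n < m generalizing m n
  · rw [abs_sub_comm]
    exact this n m hn hm hnM hmM (Ne.symm hne) (by omega)
  have hm' : (0 : ℝ) < m := by exact_mod_cast hm
  have hn' : (0 : ℝ) < n := by exact_mod_cast hn
  have hM' : (0 : ℝ) < M := by exact_mod_cast (by omega : 0 < M)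
  have h1 : Real.log ((n : ℝ) / m) ≤ (n : ℝ) / m - 1 := Real.log_le_sub_one_of_pos (by positivity)
  rw [Real.log_div hn'.ne' hm'.ne'] at h1
  have h2 : (n : ℝ) + 1 ≤ m := by exact_mod_cast h
  have h3 : (n : ℝ) / m - 1 ≤ -(m : ℝ)⁻¹ := by
    rw [div_sub_one hm'.ne', div_le_iff₀ hm', neg_mul, inv_mul_cancel₀ hm'.ne']
    linarith
  have h4 : (M : ℝ)⁻¹ ≤ (m : ℝ)⁻¹ := by
    apply inv_anti₀ hm'
    exact_mod_cast hmM
  rw [abs_of_nonneg (by linarith [inv_pos.2 hm'])]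
  linarith

/-- off-diagonal integrals -/
private lemma fc1_off (m n M : ℕ) (hm : 1 ≤ m) (hn : 1 ≤ n) (hmM : m ≤ M) (hnM : n ≤ M)
    (hne : m ≠ n) (x T : ℝ) :
    ‖∫ t in x..(x + T), (m : ℂ) ^ (-(1 / 2 + I * t : ℂ)) * conj ((n : ℂ) ^ (-(1 / 2 + I * t : ℂ)))‖
      ≤ 2 * M * ((Real.sqrt m)⁻¹ * (Real.sqrt n)⁻¹) := by
  have hlog := fc1_log m n M hm hn hmM hnM hne
  have hM' : (0 : ℝ) < M := by exact_mod_cast (by omega : 0 < M)
  have hpos : 0 < |Real.log m - Real.log n| := lt_of_lt_of_le (inv_pos.2 hM') hlog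
  have hl0 : Real.log m - Real.log n ≠ 0 := abs_pos.1 hpos
  set c : ℂ := -I * ((Real.log m - Real.log n : ℝ) : ℂ) with hc
  have hc0 : c ≠ 0 := by
    rw [hc]
    refine mul_ne_zero (neg_ne_zero.2 I_ne_zero) ?_
    exact_mod_cast hl0
  have hcn : ‖c‖ = |Real.log m - Real.log n| := by
    rw [hc, norm_mul, norm_neg, Complex.norm_I, one_mul, Complex.norm_real, Real.norm_eq_abs]
  have hcong : (∫ t in x..(x + T), (m : ℂ) ^ (-(1 / 2 + I * t : ℂ)) *
      conj ((n : ℂ) ^ (-(1 / 2 + I * t : ℂ)))) =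
      cexp (((-(Real.log m + Real.log n) / 2 : ℝ) : ℂ)) * ∫ t in x..(x + T), cexp (c * t) := by
    rw [← intervalIntegral.integral_const_mul]
    exact intervalIntegral.integral_congr fun t _ => fc1_prod m n hm hn t
  rw [hcong, integral_exp_mul_complex hc0, norm_mul, norm_div, hcn, ← Complex.ofReal_exp,
    Complex.norm_real, Real.norm_eq_abs, abs_of_pos (Real.exp_pos _), fc1_K m n hm hn]
  have hexp : ∀ s : ℝ, ‖cexp (c * s)‖ = 1 := by
    intro s
    have : c * s = ((-((Real.log m - Real.log n) * s) : ℝ) : ℂ) * I := by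
      rw [hc]
      push_cast
      ring
    rw [this, Complex.norm_exp_ofReal_mul_I]
  have hnum : ‖cexp (c * ((x + T : ℝ) : ℂ)) - cexp (c * x)‖ ≤ 2 := by
    refine (norm_sub_le _ _).trans ?_
    rw [hexp, hexp]
    norm_num
  have h5 : ‖cexp (c * ((x + T : ℝ) : ℂ)) - cexp (c * x)‖ / |Real.log m - Real.log n| ≤ 2 * M := by
    rw [div_le_iff₀ hpos]
    refine hnum.trans ?_
    have : (1 : ℝ) ≤ M * |Real.log m - Real.log n| := by
      have := mul_le_mul_of_nonneg_left hlog hM'.le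
      rwa [mul_inv_cancel₀ hM'.ne'] at this
    nlinarith
  have h6 : 0 ≤ (Real.sqrt m)⁻¹ * (Real.sqrt n)⁻¹ := by positivity
  calc (Real.sqrt m)⁻¹ * (Real.sqrt n)⁻¹ *
        (‖cexp (c * ((x + T : ℝ) : ℂ)) - cexp (c * x)‖ / |Real.log m - Real.log n|)
      ≤ (Real.sqrt m)⁻¹ * (Real.sqrt n)⁻¹ * (2 * M) := mul_le_mul_of_nonneg_left h5 h6
    _ = 2 * M * ((Real.sqrt m)⁻¹ * (Real.sqrt n)⁻¹) := by ring

/-- diagonal integrals -/
private lemma fc1_diag (n : ℕ) (hn : 1 ≤ n) (x T : ℝ) :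
    (∫ t in x..(x + T), (n : ℂ) ^ (-(1 / 2 + I * t : ℂ)) * conj ((n : ℂ) ^ (-(1 / 2 + I * t : ℂ))))
      = T * (n : ℂ)⁻¹ := by
  have hn' : (0 : ℝ) < n := by exact_mod_cast hn
  have hcong : (∫ t in x..(x + T), (n : ℂ) ^ (-(1 / 2 + I * t : ℂ)) *
      conj ((n : ℂ) ^ (-(1 / 2 + I * t : ℂ)))) = ∫ t in x..(x + T), (n : ℂ)⁻¹ := by
    refine intervalIntegral.integral_congr fun t _ => ?_
    rw [fc1_prod n n hn hn t]
    rw [sub_self]
    simp only [Complex.ofReal_zero, mul_zero, zero_mul, Complex.exp_zero, mul_one]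
    rw [← Complex.ofReal_exp]
    have : -(Real.log n + Real.log n) / 2 = -Real.log n := by ring
    rw [this, Real.exp_neg, Real.exp_log hn']
    push_cast
    rfl
  rw [hcong, intervalIntegral.integral_const]
  simp

/-- mean values of Dirichlet polynomials -/
private lemma fc1_mv (a : ℕ → ℂ) (M : ℕ) (T x : ℝ) (hT : 0 < T) :
    |T⁻¹ * (∫ t in x..(x + T), ‖∑ n ∈ Finset.Icc 1 M, a n * (n : ℂ) ^ (-(1 / 2 + I * t : ℂ))‖ ^ 2)
      - ∑ n ∈ Finset.Icc 1 M, ‖a n‖ ^ 2 / n| ≤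
      2 * (M : ℝ) ^ 2 / T * ∑ n ∈ Finset.Icc 1 M, ‖a n‖ ^ 2 / n := by
  set J : ℕ → ℕ → ℂ := fun m n => ∫ t in x..(x + T),
    (m : ℂ) ^ (-(1 / 2 + I * t : ℂ)) * conj ((n : ℂ) ^ (-(1 / 2 + I * t : ℂ))) with hJ
  have hexp : ((∫ t in x..(x + T),
      ‖∑ n ∈ Finset.Icc 1 M, a n * (n : ℂ) ^ (-(1 / 2 + I * t : ℂ))‖ ^ 2 : ℝ) : ℂ) =
      ∑ m ∈ Finset.Icc 1 M, ∑ n ∈ Finset.Icc 1 M, a m * conj (a n) * J m n := by
    rw [← intervalIntegral.integral_ofReal]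
    have h1 : ∀ t : ℝ, ((‖∑ n ∈ Finset.Icc 1 M, a n * (n : ℂ) ^ (-(1 / 2 + I * t : ℂ))‖ ^ 2 : ℝ) : ℂ)
        = ∑ m ∈ Finset.Icc 1 M, ∑ n ∈ Finset.Icc 1 M, a m * conj (a n) *
          ((m : ℂ) ^ (-(1 / 2 + I * t : ℂ)) * conj ((n : ℂ) ^ (-(1 / 2 + I * t : ℂ)))) := by
      intro t
      rw [Complex.ofReal_pow, ← Complex.mul_conj', map_sum, Finset.sum_mul_sum]
      refine Finset.sum_congr rfl fun m _ => Finset.sum_congr rfl fun n _ => ?_
      rw [map_mul]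
      ring
    rw [intervalIntegral.integral_congr fun t _ => h1 t]
    rw [intervalIntegral.integral_finsetSum]
    · refine Finset.sum_congr rfl fun m hm => ?_
      rw [intervalIntegral.integral_finsetSum]
      · refine Finset.sum_congr rfl fun n hn => ?_
        rw [intervalIntegral.integral_const_mul]
      · intro n hn
        have hc1 := fc1_cont m (Finset.mem_Icc.1 hm).1
        have hc2 := fc1_cont n (Finset.mem_Icc.1 hn).1
        exact (continuous_const.mul (hc1.mul (Complex.continuous_conj.comp hc2))).intervalIntegrable _ _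
    · intro m hm
      refine Continuous.intervalIntegrable ?_ _ _
      refine continuous_finsetSum _ fun n hn => ?_
      have hc1 := fc1_cont m (Finset.mem_Icc.1 hm).1
      have hc2 := fc1_cont n (Finset.mem_Icc.1 hn).1
      exact continuous_const.mul (hc1.mul (Complex.continuous_conj.comp hc2))
  set D : ℂ := ∑ m ∈ Finset.Icc 1 M, ∑ n ∈ Finset.Icc 1 M,
    (if m = n then 0 else a m * conj (a n) * J m n) with hD
  have hsplit : ((∫ t in x..(x + T),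
      ‖∑ n ∈ Finset.Icc 1 M, a n * (n : ℂ) ^ (-(1 / 2 + I * t : ℂ))‖ ^ 2 : ℝ) : ℂ) =
      T * (((∑ n ∈ Finset.Icc 1 M, ‖a n‖ ^ 2 / n : ℝ)) : ℂ) + D := by
    rw [hexp, hD]
    push_cast
    rw [Finset.mul_sum, ← Finset.sum_add_distrib]
    refine Finset.sum_congr rfl fun m hm => ?_
    have hm1 := (Finset.mem_Icc.1 hm).1
    have h1 : ∀ n ∈ Finset.Icc 1 M, a m * conj (a n) * J m n =
        (if m = n then a m * conj (a n) * J m n else 0) +
          (if m = n then 0 else a m * conj (a n) * J m n) := by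
      intro n _
      split_ifs <;> simp
    rw [Finset.sum_congr rfl h1, Finset.sum_add_distrib, Finset.sum_ite_eq, if_pos hm]
    congr 1
    rw [hJ]
    simp only
    rw [fc1_diag m hm1, Complex.mul_conj']
    ring
  have hreal : ((T⁻¹ * (∫ t in x..(x + T),
      ‖∑ n ∈ Finset.Icc 1 M, a n * (n : ℂ) ^ (-(1 / 2 + I * t : ℂ))‖ ^ 2)
      - ∑ n ∈ Finset.Icc 1 M, ‖a n‖ ^ 2 / n : ℝ) : ℂ) = (T : ℂ)⁻¹ * D := by
    have hT' : (T : ℂ) ≠ 0 := by exact_mod_cast hT.ne'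
    rw [Complex.ofReal_sub, Complex.ofReal_mul, hsplit, Complex.ofReal_inv]
    field_simp
    ring
  have habs : |T⁻¹ * (∫ t in x..(x + T),
      ‖∑ n ∈ Finset.Icc 1 M, a n * (n : ℂ) ^ (-(1 / 2 + I * t : ℂ))‖ ^ 2)
      - ∑ n ∈ Finset.Icc 1 M, ‖a n‖ ^ 2 / n| = T⁻¹ * ‖D‖ := by
    rw [← Real.norm_eq_abs, ← Complex.norm_real, hreal, norm_mul, norm_inv, Complex.norm_real,
      Real.norm_eq_abs, abs_of_pos hT]
  rw [habs]
  have hDn : ‖D‖ ≤ 2 * (M : ℝ) * (∑ n ∈ Finset.Icc 1 M, ‖a n‖ * (Real.sqrt n)⁻¹) ^ 2 := by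
    rw [hD, sq, Finset.sum_mul_sum, Finset.mul_sum]
    refine (norm_sum_le _ _).trans (Finset.sum_le_sum fun m hm => ?_)
    rw [Finset.mul_sum]
    refine (norm_sum_le _ _).trans (Finset.sum_le_sum fun n hn => ?_)
    obtain ⟨hm1, hm2⟩ := Finset.mem_Icc.1 hm
    obtain ⟨hn1, hn2⟩ := Finset.mem_Icc.1 hn
    split_ifs with hmn
    · rw [norm_zero]
      positivity
    · rw [norm_mul, norm_mul, RCLike.norm_conj]
      have := fc1_off m n M hm1 hn1 hm2 hn2 hmn x T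
      calc ‖a m‖ * ‖a n‖ * ‖J m n‖ ≤ ‖a m‖ * ‖a n‖ * (2 * M * ((Real.sqrt m)⁻¹ * (Real.sqrt n)⁻¹)) :=
            mul_le_mul_of_nonneg_left this (by positivity)
        _ = 2 * (M : ℝ) * (‖a m‖ * (Real.sqrt m)⁻¹ * (‖a n‖ * (Real.sqrt n)⁻¹)) := by ring
  have hCS : (∑ n ∈ Finset.Icc 1 M, ‖a n‖ * (Real.sqrt n)⁻¹) ^ 2 ≤
      (M : ℝ) * ∑ n ∈ Finset.Icc 1 M, ‖a n‖ ^ 2 / n := by
    have h1 := sq_sum_le_card_mul_sum_sq (s := Finset.Icc 1 M) (f := fun n => ‖a n‖ * (Real.sqrt n)⁻¹)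
    rw [Nat.card_Icc, Nat.add_sub_cancel] at h1
    refine h1.trans (le_of_eq ?_)
    congr 1
    refine Finset.sum_congr rfl fun n _ => ?_
    rw [mul_pow, inv_pow, Real.sq_sqrt (Nat.cast_nonneg n), div_eq_mul_inv]
  have hTi : 0 ≤ T⁻¹ := inv_nonneg.2 hT.le
  calc T⁻¹ * ‖D‖ ≤ T⁻¹ * (2 * (M : ℝ) * ((M : ℝ) * ∑ n ∈ Finset.Icc 1 M, ‖a n‖ ^ 2 / n)) := by
        refine mul_le_mul_of_nonneg_left (hDn.trans ?_) hTi
        exact mul_le_mul_of_nonneg_left hCS (by positivity)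
    _ = 2 * (M : ℝ) ^ 2 / T * ∑ n ∈ Finset.Icc 1 M, ‖a n‖ ^ 2 / n := by
        rw [div_eq_mul_inv]
        ring

/-- the square of a Dirichlet polynomial -/
private lemma fc1_sq (c : ℕ → ℂ) (N : ℕ) (hc : ∀ n, N < n → c n = 0) (t : ℝ) :
    (∑ n ∈ Finset.Icc 1 N, c n * (n : ℂ) ^ (-(1 / 2 + I * t : ℂ))) ^ 2 =
      ∑ m ∈ Finset.Icc 1 (N ^ 2), (∑ p ∈ m.divisorsAntidiagonal, c p.1 * c p.2) *
        (m : ℂ) ^ (-(1 / 2 + I * t : ℂ)) := by
  rw [sq, Finset.sum_mul_sum, ← Finset.sum_product']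
  have hmaps : ∀ p ∈ Finset.Icc 1 N ×ˢ Finset.Icc 1 N, p.1 * p.2 ∈ Finset.Icc 1 (N ^ 2) := by
    intro p hp
    rw [Finset.mem_product, Finset.mem_Icc, Finset.mem_Icc] at hp
    rw [Finset.mem_Icc]
    refine ⟨Nat.mul_pos (by omega) (by omega), ?_⟩
    rw [sq]
    exact Nat.mul_le_mul hp.1.2 hp.2.2
  rw [← Finset.sum_fiberwise_of_maps_to hmaps]
  refine Finset.sum_congr rfl fun m hm => ?_
  have hm1 := (Finset.mem_Icc.1 hm).1
  rw [Finset.sum_mul]
  have hsub : (Finset.Icc 1 N ×ˢ Finset.Icc 1 N).filter (fun p => p.1 * p.2 = m) ⊆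
      m.divisorsAntidiagonal := by
    intro p hp
    rw [Finset.mem_filter] at hp
    rw [Nat.mem_divisorsAntidiagonal]
    exact ⟨hp.2, by omega⟩
  rw [← Finset.sum_subset hsub]
  · refine Finset.sum_congr rfl fun p hp => ?_
    rw [Finset.mem_filter, Finset.mem_product, Finset.mem_Icc, Finset.mem_Icc] at hp
    obtain ⟨⟨⟨h1, h2⟩, h3, h4⟩, h5⟩ := hp
    rw [← h5, Nat.cast_mul, Complex.natCast_mul_natCast_cpow]
    ring
  · intro p hp hp'
    rw [Nat.mem_divisorsAntidiagonal] at hp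
    have hp1 : p.1 ≠ 0 := by
      rintro h
      rw [h, zero_mul] at hp
      omega
    have hp2 : p.2 ≠ 0 := by
      rintro h
      rw [h, mul_zero] at hp
      omega
    have : N < p.1 ∨ N < p.2 := by
      by_contra hcon
      push Not at hcon
      apply hp'
      rw [Finset.mem_filter, Finset.mem_product, Finset.mem_Icc, Finset.mem_Icc]
      exact ⟨⟨⟨by omega, hcon.1⟩, by omega, hcon.2⟩, hp.1⟩
    rcases this with h | h
    · rw [hc _ h, zero_mul, zero_mul]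
    · rw [hc _ h, mul_zero, zero_mul]

theorem fourMV : FourMV := by
  refine ⟨2, by norm_num, ?_⟩
  intro c N T x hN hT hc
  have hT0 : 0 < T := lt_of_lt_of_le one_pos hT
  have h := fc1_mv (fun m => ∑ p ∈ m.divisorsAntidiagonal, c p.1 * c p.2) (N ^ 2) T x hT0
  have hcong : (∫ t in x..(x + T),
      ‖∑ n ∈ Finset.Icc 1 N, c n * (n : ℂ) ^ (-(1 / 2 + I * t : ℂ))‖ ^ 4) =
      ∫ t in x..(x + T), ‖∑ m ∈ Finset.Icc 1 (N ^ 2), (∑ p ∈ m.divisorsAntidiagonal, c p.1 * c p.2) *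
        (m : ℂ) ^ (-(1 / 2 + I * t : ℂ))‖ ^ 2 := by
    refine intervalIntegral.integral_congr fun t _ => ?_
    rw [← fc1_sq c N hc t, norm_pow]
    ring
  rw [hcong]
  unfold E4
  refine h.trans (le_of_eq ?_)
  push_cast
  ring

end Pool.Agent.Lib.MP4
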