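import Mathlib
import Pool.Agent.Lib.MP_f9aece_nt_mq.StmtsF

/-!
The fourth moment of the plain average of zeta over short windows, module FC2.

Z4ResBound.lean: the proof of resBound uses only B with |psi phi| <= B, derivative bounded by B and continuous: constant 4B. Here psi (ph g R) = FF theta R, |FF| <= 4B, |derivative| <= 8B for R >= 1 on r >= 0; for r < 0 use |g0| <= 1, |g0p| <= 1 (or g0(-r) = conj g0(r)): redo with the bounds on all of R (g0 is bounded by 1, its derivative by 1: direct from the definition).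
-/

set_option autoImplicit false

namespace Pool.Agent.Lib.MP4

open MeasureTheory Set Filter Topology Complex
open scoped ComplexConjugate
open Pool.Agent.Lib.MS (psi Adm ZW ZS Res ZIdent PowClose)
open Pool.Agent.Lib
open Pool.Agent.Lib.MP2 (RD Av PA BumpFn Th Ss ph Prim PhAdm Cont Ident Top)

private theorem norm_cexp_line (t ρ : ℝ) : ‖cexp ((1 / 2 - I * t) * ρ)‖ = Real.exp (ρ / 2) := by
  rw [Complex.norm_exp]
  congr 1
  simp
  ring

private theorem int_exp_half (a : ℝ) :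
    ∫ ρ in (-a)..a, Real.exp (ρ / 2) ≤ 2 * Real.exp (a / 2) := by
  have h1 : ∫ ρ in (-a)..a, Real.exp (ρ / 2) = 2 * (Real.exp (a / 2) - Real.exp (-a / 2)) := by
    rw [intervalIntegral.integral_comp_div (fun x => Real.exp x) (two_ne_zero), integral_exp]
    simp
  rw [h1]
  have := Real.exp_pos (-a / 2)
  linarith

private theorem int_bound (f : ℝ → ℂ) (B a t : ℝ) (ha : 0 ≤ a)
    (hb : ∀ ρ, ‖f ρ‖ ≤ B) :
    ‖∫ ρ in (-a)..a, cexp ((1 / 2 - I * t) * ρ) * f ρ‖ ≤ B * (2 * Real.exp (a / 2)) := by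
  have hB : 0 ≤ B := (norm_nonneg _).trans (hb 0)
  have h1 : ‖∫ ρ in (-a)..a, cexp ((1 / 2 - I * t) * ρ) * f ρ‖
      ≤ ∫ ρ in (-a)..a, B * Real.exp (ρ / 2) := by
    refine intervalIntegral.norm_integral_le_of_norm_le (by linarith)
      (Filter.Eventually.of_forall fun ρ _ => ?_) (Continuous.intervalIntegrable (by fun_prop) _ _)
    rw [norm_mul, norm_cexp_line, mul_comm]
    exact mul_le_mul_of_nonneg_right (hb ρ) (Real.exp_pos _).le
  refine h1.trans ?_
  rw [intervalIntegral.integral_const_mul]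
  exact mul_le_mul_of_nonneg_left (int_exp_half a) hB

private theorem res_core {φ : ℝ → ℂ} {R B : ℝ} {ψ' : ℝ → ℂ} (hR : 0 < R) (hB0 : 0 ≤ B)
    (hψ : ∀ r, ‖psi φ r‖ ≤ B) (hd : ∀ r, HasDerivAt (psi φ) (ψ' r) r) (hc : Continuous ψ')
    (hψ' : ∀ r, ‖ψ' r‖ ≤ B) (hsupp : ∀ r, R ≤ |r| → psi φ r = 0) {H : ℝ} (t : ℝ) (hH : 0 < H)
    (hH1 : H ≤ 1) : ‖Res φ R H t‖ ≤ 4 * B * Real.exp (R / (2 * H)) / (1 + |t|) := by
  set a : ℝ := R / H with ha_def
  have ha : 0 ≤ a := by positivity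
  have hHa : H * a = R := by rw [ha_def]; field_simp
  have hψc : Continuous (psi φ) := continuous_iff_continuousAt.2 fun r => (hd r).continuousAt
  have hexp : Real.exp (R / (2 * H)) = Real.exp (a / 2) := by
    congr 1; rw [ha_def]; field_simp
  have hE : 0 < Real.exp (a / 2) := Real.exp_pos _
  have h1 : ‖Res φ R H t‖ ≤ B * (2 * Real.exp (a / 2)) :=
    int_bound (fun ρ => psi φ (H * ρ)) B a t ha (fun ρ => hψ _)
  have h2 : ‖(1 / 2 - I * t : ℂ) * Res φ R H t‖ ≤ (H * B) * (2 * Real.exp (a / 2)) := by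
    have hu : ∀ ρ : ℝ, HasDerivAt (fun ρ : ℝ => psi φ (H * ρ)) ((H : ℂ) * ψ' (H * ρ)) ρ := by
      intro ρ
      have h3 : HasDerivAt (fun ρ : ℝ => H * ρ) H ρ := by
        simpa using (hasDerivAt_id ρ).const_mul H
      have h4 := HasDerivAt.scomp ρ (hd (H * ρ)) h3
      simpa [Function.comp_def] using h4
    have hv : ∀ ρ : ℝ, HasDerivAt (fun ρ : ℝ => cexp ((1 / 2 - I * t) * ρ))
        ((1 / 2 - I * t) * cexp ((1 / 2 - I * t) * ρ)) ρ := by
      intro ρ
      have h3 : HasDerivAt (fun ρ : ℝ => (1 / 2 - I * t) * (ρ : ℂ)) (1 / 2 - I * t) ρ := by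
        simpa using ((hasDerivAt_id ρ).ofReal_comp).const_mul (1 / 2 - I * t : ℂ)
      simpa [mul_comm] using h3.cexp
    have hparts := intervalIntegral.integral_mul_deriv_eq_deriv_mul (a := -a) (b := a)
      (u := fun ρ : ℝ => psi φ (H * ρ)) (v := fun ρ : ℝ => cexp ((1 / 2 - I * t) * ρ))
      (u' := fun ρ => (H : ℂ) * ψ' (H * ρ))
      (v' := fun ρ => (1 / 2 - I * t) * cexp ((1 / 2 - I * t) * ρ))
      (fun ρ _ => hu ρ) (fun ρ _ => hv ρ)
      (Continuous.intervalIntegrable (by fun_prop) _ _)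
      (Continuous.intervalIntegrable (by fun_prop) _ _)
    have hz1 : psi φ (H * a) = 0 := hsupp _ (by rw [hHa]; exact le_abs_self R)
    have hz2 : psi φ (H * -a) = 0 := hsupp _ (by
      rw [mul_neg, hHa, abs_neg]; exact le_abs_self R)
    have hlhs : (1 / 2 - I * t : ℂ) * Res φ R H t
        = ∫ ρ in (-a)..a, psi φ (H * ρ) * ((1 / 2 - I * t) * cexp ((1 / 2 - I * t) * ρ)) := by
      unfold Res
      rw [← intervalIntegral.integral_const_mul]
      refine intervalIntegral.integral_congr fun ρ _ => ?_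
      ring
    rw [hlhs, hparts, hz1, hz2]
    simp only [zero_mul, sub_zero, zero_sub, norm_neg]
    have h5 : (∫ ρ in (-a)..a, (H : ℂ) * ψ' (H * ρ) * cexp ((1 / 2 - I * t) * ρ))
        = ∫ ρ in (-a)..a, cexp ((1 / 2 - I * t) * ρ) * ((H : ℂ) * ψ' (H * ρ)) := by
      refine intervalIntegral.integral_congr fun ρ _ => ?_
      ring
    rw [h5]
    refine int_bound (fun ρ => (H : ℂ) * ψ' (H * ρ)) (H * B) a t ha (fun ρ => ?_)
    rw [norm_mul, Complex.norm_real, Real.norm_of_nonneg hH.le]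
    exact mul_le_mul_of_nonneg_left (hψ' _) hH.le
  have h3 : |t| ≤ ‖(1 / 2 - I * t : ℂ)‖ := by
    have := Complex.abs_im_le_norm (1 / 2 - I * t : ℂ)
    simpa using this
  have h4 : |t| * ‖Res φ R H t‖ ≤ B * (2 * Real.exp (a / 2)) := by
    calc |t| * ‖Res φ R H t‖ ≤ ‖(1 / 2 - I * t : ℂ)‖ * ‖Res φ R H t‖ :=
          mul_le_mul_of_nonneg_right h3 (norm_nonneg _)
      _ = ‖(1 / 2 - I * t : ℂ) * Res φ R H t‖ := (norm_mul _ _).symm
      _ ≤ (H * B) * (2 * Real.exp (a / 2)) := h2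
      _ ≤ B * (2 * Real.exp (a / 2)) := by
          refine mul_le_mul_of_nonneg_right ?_ (by positivity)
          nlinarith
  rw [hexp, le_div_iff₀ (by positivity)]
  nlinarith [norm_nonneg (Res φ R H t), abs_nonneg t]

private theorem g0_neg (r : ℝ) : g0 (-r) = conj (g0 r) := by
  unfold g0
  rw [intervalIntegral.integral_of_le zero_le_one, intervalIntegral.integral_of_le zero_le_one,
    ← integral_conj]
  congr 1
  funext v
  simp only [← Complex.exp_conj, map_neg, map_mul, Complex.conj_I, Complex.conj_ofReal]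
  congr 1
  push_cast
  ring

theorem resU (hP : PsiPh) (hG : GZero) (hA : PhAdm) : ResU := by
  have _ := hA
  intro g hg
  obtain ⟨⟨θ', B, hθ⟩, hFF⟩ := hP g hg
  obtain ⟨-, -, g0', hg0c, hg0d, hg0b⟩ := hG
  set θ : ℝ → ℂ := psi fun v : ℝ => g (v : ℂ) with hθdef
  have hB := hθ.one_le
  -- the derivative on the negative axis
  have hg0n : ∀ r, g0' (-r) = -conj (g0' r) := by
    intro r
    have h1 : HasDerivAt (fun s : ℝ => g0 (-s)) (-g0' (-r)) r := by
      have := HasDerivAt.scomp r (hg0d (-r)) (hasDerivAt_neg r)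
      simpa [Function.comp_def] using this
    have h2 : HasDerivAt (fun s : ℝ => g0 (-s)) (conj (g0' r)) r := by
      have h3 : (fun s : ℝ => g0 (-s)) = fun s => conj (g0 s) := funext g0_neg
      rw [h3]
      exact (hg0d r).star
    have h4 := h1.unique h2
    rw [← h4, neg_neg]
  have hb : ∀ r, ‖g0 r‖ ≤ 4 ∧ ‖g0' r‖ ≤ 4 := by
    have hpos : ∀ r, 0 ≤ r → ‖g0 r‖ ≤ 4 ∧ ‖g0' r‖ ≤ 4 := by
      intro r hr
      obtain ⟨h1, h2⟩ := hg0b r hr
      constructor
      · nlinarith [norm_nonneg (g0 r)]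
      · nlinarith [norm_nonneg (g0' r)]
    intro r
    rcases le_total 0 r with hr | hr
    · exact hpos r hr
    · have h1 := hpos (-r) (by linarith)
      rw [g0_neg, hg0n, norm_neg, RCLike.norm_conj, RCLike.norm_conj] at h1
      exact h1
  refine ⟨4 * (8 * B), by linarith, ?_⟩
  intro R H t hR hH hH1
  have hR0 : 0 < R := by linarith
  have hpsi : psi (ph g R) = FF θ R := funext fun r => hFF R hR0 r
  refine res_core (φ := ph g R) (R := R) (B := 8 * B)
    (ψ' := fun r => g0' r * θ (r / R) + g0 r * ((1 / R : ℝ) * θ' (r / R))) hR0 (by linarith)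
    ?_ ?_ ?_ ?_ ?_ t hH hH1
  · intro r
    rw [hpsi]
    unfold FF
    rw [norm_mul]
    have h1 := (hb r).1
    have h2 := hθ.bd (r / R)
    nlinarith [norm_nonneg (g0 r), norm_nonneg (θ (r / R))]
  · intro r
    rw [hpsi]
    unfold FF
    have h1 : HasDerivAt (fun r : ℝ => θ (r / R)) ((1 / R : ℝ) * θ' (r / R)) r := by
      have h3 : HasDerivAt (fun r : ℝ => r / R) (1 / R) r := by
        simpa using (hasDerivAt_id r).div_const R
      have h4 := HasDerivAt.scomp r (hθ.der (r / R)) h3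
      simpa [Function.comp_def] using h4
    exact (hg0d r).mul h1
  · have h1 : Continuous θ := continuous_iff_continuousAt.2 fun r => (hθ.der r).continuousAt
    have h2 : Continuous g0 := continuous_iff_continuousAt.2 fun r => (hg0d r).continuousAt
    have h3 := hθ.cont
    fun_prop
  · intro r
    have h1 := (hb r).1
    have h2 := (hb r).2
    have h3 := hθ.bd (r / R)
    have h4 := hθ.bd' (r / R)
    have h5 : ‖((1 / R : ℝ) : ℂ)‖ ≤ 1 := by
      rw [Complex.norm_real, Real.norm_of_nonneg (by positivity), div_le_one hR0]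
      exact hR
    refine (norm_add_le _ _).trans ?_
    rw [norm_mul, norm_mul, norm_mul]
    have h6 : ‖g0' r‖ * ‖θ (r / R)‖ ≤ 4 * B :=
      mul_le_mul h2 h3 (norm_nonneg _) (by norm_num)
    have h7 : ‖((1 / R : ℝ) : ℂ)‖ * ‖θ' (r / R)‖ ≤ 1 * B :=
      mul_le_mul h5 h4 (norm_nonneg _) (by norm_num)
    have h8 : ‖g0 r‖ * (‖((1 / R : ℝ) : ℂ)‖ * ‖θ' (r / R)‖) ≤ 4 * (1 * B) :=
      mul_le_mul h1 h7 (by positivity) (by norm_num)
    linarith
  · intro r hr
    rw [hpsi]
    unfold FF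
    rw [hθ.supp, mul_zero]
    rw [abs_div, abs_of_pos hR0, le_div_iff₀ hR0, one_mul]
    exact hr

end Pool.Agent.Lib.MP4
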