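import Mathlib
import Pool.Agent.Lib.MP_f9aece_nt_mq.StmtsF
import Pool.Agent.Lib.MP_f9aece_nt_ms.Z2Ident
import Pool.Agent.Lib.MP_f9aece_nt_ms.Z6PowClose

/-!
The fourth moment of the plain average of zeta over short windows, module FC3.

R = H log T/16, N = floor(exp(R/H)) <= T^(1/16). ZW = ZS (psi phi (R.)) (R/H) - Res (MS.zIdent), ZS = sum_{n<=N} c n n^(-1/2-it), c n = FF theta R (H log n) (n >= 1). FourMV: Av 4 = E4 (1 + O(T^(-3/4))), H^4 E4 = 8 log R + O(1 + H log R) = 8 log(H log T) + O(1 + H log R); T^-1 int |Res|^4 <= T^-1 C^4 exp(2R/H) int (1+|t|)^-4 <= C T^(-7/8) <= C <= C H^-4. Combine with MS.powClose (both directions, p = 4) as in Z7MomentsT2.lean (Z7I.av_le, cont_ZS, cont_Res). c 0 = 1 is irrelevant.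
-/

set_option autoImplicit false

namespace Pool.Agent.Lib.MP4

open MeasureTheory Set Filter Topology Complex
open scoped ComplexConjugate
open Pool.Agent.Lib.MS (psi Adm ZW ZS Res ZIdent PowClose)
open Pool.Agent.Lib
open Pool.Agent.Lib.MP2 (RD Av PA BumpFn Th Ss ph Prim PhAdm Cont Ident Top)

private lemma fc3_cont_ZS (w : ℝ → ℂ) (L : ℝ) : Continuous (ZS w L) := by
  unfold ZS
  refine continuous_finsetSum _ fun n hn => ?_
  have hn0 : (n : ℂ) ≠ 0 := by
    rw [Nat.cast_ne_zero]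
    have := (Finset.mem_Icc.mp hn).1
    omega
  exact continuous_const.mul (Continuous.const_cpow (by fun_prop) (Or.inl hn0))

private lemma fc3_cont_Res {φ : ℝ → ℂ} (hψ : Continuous (psi φ)) (R H : ℝ) :
    Continuous (Res φ R H) := by
  unfold Res
  refine intervalIntegral.continuous_parametric_intervalIntegral_of_continuous' ?_ _ _
  simp only [Function.uncurry_def]
  have h1 : Continuous (fun z : ℝ × ℝ => psi φ (H * z.2)) := hψ.comp (by fun_prop)
  fun_prop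

private lemma fc3_cont_g0 : Continuous g0 := by
  unfold g0
  refine intervalIntegral.continuous_parametric_intervalIntegral_of_continuous' ?_ _ _
  simp only [Function.uncurry_def]
  fun_prop

private lemma fc3_av_le {f g h : ℝ → ℂ} (hf : Continuous f) (hg : Continuous g)
    (hh : Continuous h) {β a C : ℝ} (hβ : 0 < β)
    (hle : ∀ t, ‖f t‖ ^ β ≤ a * ‖g t‖ ^ β + C * ‖h t‖ ^ β) (x : ℝ) {T : ℝ} (hT : 0 < T) :
    Av β x T f ≤ a * Av β x T g + C * Av β x T h := by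
  have hc : ∀ {u : ℝ → ℂ}, Continuous u → Continuous (fun t => ‖u t‖ ^ β) :=
    fun hu => hu.norm.rpow_const fun t => Or.inr hβ.le
  unfold Av
  have h1 : (∫ t in x..(x + T), ‖f t‖ ^ β) ≤ ∫ t in x..(x + T), (a * ‖g t‖ ^ β + C * ‖h t‖ ^ β) :=
    intervalIntegral.integral_mono_on (by linarith) ((hc hf).intervalIntegrable _ _)
      ((((hc hg).const_mul a).add ((hc hh).const_mul C)).intervalIntegrable _ _) fun t _ => hle t
  rw [intervalIntegral.integral_add (((hc hg).const_mul a).intervalIntegrable _ _)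
    (((hc hh).const_mul C).intervalIntegrable _ _), intervalIntegral.integral_const_mul,
    intervalIntegral.integral_const_mul] at h1
  calc T⁻¹ * (∫ t in x..(x + T), ‖f t‖ ^ β)
      ≤ T⁻¹ * (a * (∫ t in x..(x + T), ‖g t‖ ^ β) + C * ∫ t in x..(x + T), ‖h t‖ ^ β) := by gcongr
    _ = _ := by ring

private lemma fc3_int : Integrable (fun u : ℝ => ((1 + |u|) ^ 2)⁻¹) := by
  have h := integrable_one_add_norm (E := ℝ) (μ := volume) (r := 2) (by simp)
  refine h.congr (Eventually.of_forall fun u => ?_)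
  show (1 + ‖u‖) ^ (-(2 : ℝ)) = ((1 + |u|) ^ 2)⁻¹
  rw [Real.rpow_neg (by positivity), Real.norm_eq_abs]
  congr 1
  exact_mod_cast Real.rpow_natCast (1 + |u|) 2

private lemma fc3_res {f : ℝ → ℂ} (hf : Continuous f) {M : ℝ} (hM : 0 ≤ M)
    (hb : ∀ t, ‖f t‖ ≤ M / (1 + |t|)) {x T : ℝ} (hT : 0 < T) :
    Av 4 x T f ≤ T⁻¹ * (M ^ 4 * ∫ u : ℝ, ((1 + |u|) ^ 2)⁻¹) := by
  unfold Av
  refine mul_le_mul_of_nonneg_left ?_ (by positivity)
  have hpt : ∀ t : ℝ, ‖f t‖ ^ (4 : ℝ) ≤ M ^ 4 * ((1 + |t|) ^ 2)⁻¹ := by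
    intro t
    have h0 : 0 < 1 + |t| := by positivity
    have h1 : ‖f t‖ ^ (4 : ℝ) = ‖f t‖ ^ (4 : ℕ) := by
      exact_mod_cast Real.rpow_natCast ‖f t‖ 4
    rw [h1]
    calc ‖f t‖ ^ 4 ≤ (M / (1 + |t|)) ^ 4 := pow_le_pow_left₀ (norm_nonneg _) (hb t) 4
      _ = M ^ 4 * ((1 + |t|) ^ 4)⁻¹ := by rw [div_pow, div_eq_mul_inv]
      _ ≤ M ^ 4 * ((1 + |t|) ^ 2)⁻¹ := by
          refine mul_le_mul_of_nonneg_left ?_ (by positivity)
          refine inv_anti₀ (by positivity) ?_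
          exact pow_le_pow_right₀ (by linarith [abs_nonneg t]) (by norm_num)
  have hi : Integrable (fun t : ℝ => M ^ 4 * ((1 + |t|) ^ 2)⁻¹) := fc3_int.const_mul _
  have hc : Continuous fun t : ℝ => M ^ 4 * ((1 + |t|) ^ 2)⁻¹ := by
    refine continuous_const.mul (Continuous.inv₀ (by fun_prop) fun t => ?_)
    positivity
  calc (∫ t in x..(x + T), ‖f t‖ ^ (4 : ℝ))
      ≤ ∫ t in x..(x + T), M ^ 4 * ((1 + |t|) ^ 2)⁻¹ :=
        intervalIntegral.integral_mono_on (by linarith)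
          ((hf.norm.rpow_const fun t => Or.inr (by norm_num)).intervalIntegrable _ _)
          (hc.intervalIntegrable _ _) fun t _ => hpt t
    _ = ∫ t in Ioc x (x + T), M ^ 4 * ((1 + |t|) ^ 2)⁻¹ :=
        intervalIntegral.integral_of_le (by linarith)
    _ ≤ ∫ t : ℝ, M ^ 4 * ((1 + |t|) ^ 2)⁻¹ :=
        setIntegral_le_integral hi (Eventually.of_forall fun t => by positivity)
    _ = M ^ 4 * ∫ t : ℝ, ((1 + |t|) ^ 2)⁻¹ := integral_const_mul _ _

/-- the arithmetic at the end -/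
private lemma fc3_end {ε ε1 ε2 a b c L : ℝ} (hε : 0 < ε) (h1 : ε1 = ε / 8)
    (h2 : ε2 = ε / (100 * (1 + ε))) (hL : 0 ≤ L) (hb0 : 0 ≤ b) (ha : |a - 8 * L| ≤ ε1 * L)
    (hc : c ≤ ε1 * L) (hba : b ≤ (1 + ε2) * a + c) (hab : a ≤ (1 + ε2) * b + c) :
    |b - 8 * L| ≤ ε * L := by
  have h3 : 0 < ε2 := by rw [h2]; positivity
  have h4 : ε2 * (8 + ε) ≤ ε / 10 := by
    rw [h2, div_mul_eq_mul_div, div_le_div_iff₀ (by positivity) (by norm_num)]
    nlinarith
  have h5 := abs_le.1 ha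
  have h6 : ε2 * a ≤ ε2 * ((8 + ε1) * L) := mul_le_mul_of_nonneg_left (by linarith) h3.le
  have h7 : ε2 * (8 + ε) * L ≤ ε / 10 * L := mul_le_mul_of_nonneg_right h4 hL
  have h8 : ε1 ≤ ε := by rw [h1]; linarith
  have h9 : ε2 * ((8 + ε1) * L) ≤ ε2 * (8 + ε) * L := by
    have : (8 + ε1) * L ≤ (8 + ε) * L := mul_le_mul_of_nonneg_right (by linarith) hL
    nlinarith
  have hεL : 0 ≤ ε * L := by positivity
  have hup : b ≤ (8 + ε) * L := by
    have : ε1 * L = ε * L / 8 := by rw [h1]; ring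
    nlinarith
  have h10 : ε2 * b ≤ ε2 * ((8 + ε) * L) := mul_le_mul_of_nonneg_left hup h3.le
  rw [abs_le]
  have e1 : ε1 * L = ε * L / 8 := by rw [h1]; ring
  have e2 : ε2 * ((8 + ε) * L) = ε2 * (8 + ε) * L := by ring
  constructor
  · nlinarith
  · nlinarith

theorem low (hA : PhAdm) (hP : PsiPh) (hE : Energy) (hM : FourMV) (hR : ResU) : Low := by
  intro g hg ε hε
  obtain ⟨⟨θ', B, hcf⟩, hpsi⟩ := hP g hg
  set θ : ℝ → ℂ := psi fun v : ℝ => g (v : ℂ) with hθ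
  obtain ⟨CE, hCE, hEn⟩ := hE θ θ' B hcf
  obtain ⟨CM, hCM, hMv⟩ := hM
  obtain ⟨CR, hCR, hRe⟩ := hR g hg
  obtain ⟨ε1, hε1⟩ : ∃ ε1 : ℝ, ε1 = ε / 8 := ⟨_, rfl⟩
  obtain ⟨ε2, hε2⟩ : ∃ ε2 : ℝ, ε2 = ε / (100 * (1 + ε)) := ⟨_, rfl⟩
  have hε10 : 0 < ε1 := by rw [hε1]; positivity
  have hε20 : 0 < ε2 := by rw [hε2]; positivity
  obtain ⟨C2, hC2, hpc⟩ := MS.powClose 4 ε2 (by norm_num) hε20
  obtain ⟨K, hK⟩ : ∃ K : ℝ, K = CR ^ 4 * ∫ u : ℝ, ((1 + |u|) ^ 2)⁻¹ := ⟨_, rfl⟩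
  have hK0 : 0 ≤ K := by
    rw [hK]
    have : 0 ≤ ∫ u : ℝ, ((1 + |u|) ^ 2)⁻¹ := integral_nonneg fun u => by positivity
    positivity
  obtain ⟨L0, hL0⟩ : ∃ L0 : ℝ, L0 = 16 + 8 * CE / ε1 + 100 / ε1 + C2 * K / ε1 +
      16 * (CM * (8 + 2 * CE)) / ε1 := ⟨_, rfl⟩
  have q1 : 0 ≤ 8 * CE / ε1 := by positivity
  have q2 : 0 ≤ 100 / ε1 := by positivity
  have q3 : 0 ≤ C2 * K / ε1 := by positivity
  have q4 : 0 ≤ 16 * (CM * (8 + 2 * CE)) / ε1 := by positivity
  have hL16 : 16 ≤ L0 := by rw [hL0]; linarith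
  have hexp : L0 + 1 ≤ Real.exp L0 := Real.add_one_le_exp L0
  refine ⟨Real.exp L0, by linarith, fun H T x hH hCH hT hCT => ?_⟩
  obtain ⟨C, hC⟩ : ∃ C : ℝ, C = Real.exp L0 := ⟨_, rfl⟩
  rw [← hC] at hCH hCT hexp
  have hC1 : 17 ≤ C := by linarith
  have hH1 : H ≤ 1 := by nlinarith
  have hT0 : 0 < T := by linarith
  have hlT0 : 0 ≤ Real.log T := Real.log_nonneg hT
  have hlT : C ≤ Real.log T := by nlinarith
  obtain ⟨Λ, hΛ⟩ : ∃ Λ : ℝ, Λ = Real.log (H * Real.log T) := ⟨_, rfl⟩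
  have hΛ0 : L0 ≤ Λ := by
    rw [hΛ, ← Real.log_exp L0, ← hC]
    exact Real.log_le_log (by linarith) hCT
  obtain ⟨R, hRd⟩ : ∃ R : ℝ, R = H * Real.log T / 16 := ⟨_, rfl⟩
  have hR1 : 1 ≤ R := by rw [hRd]; linarith
  have hR0 : 0 < R := by linarith
  have hlR : Real.log R = Λ - Real.log 16 := by
    rw [hRd, Real.log_div (by linarith) (by norm_num), hΛ]
  have hl16 : Real.log 16 ≤ 3 := by
    have h1 : Real.log 16 = 4 * Real.log 2 := by
      rw [show (16 : ℝ) = 2 ^ 4 by norm_num, Real.log_pow]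
      norm_num
    have := Real.log_two_lt_d9
    rw [h1]
    linarith
  have hl160 : 0 ≤ Real.log 16 := Real.log_nonneg (by norm_num)
  have hlR0 : 0 ≤ Real.log R := Real.log_nonneg hR1
  rw [← hRd, ← hΛ]
  -- length
  have hRH : R / H = Real.log T / 16 := by
    rw [hRd]
    field_simp
  obtain ⟨N, hN⟩ : ∃ N : ℕ, N = ⌊Real.exp (R / H)⌋₊ := ⟨_, rfl⟩
  have hN1 : 1 ≤ N := by
    rw [hN]
    refine Nat.le_floor ?_
    rw [Nat.cast_one]
    exact Real.one_le_exp (by positivity)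
  have hNle : (N : ℝ) ≤ Real.exp (R / H) := by
    rw [hN]
    exact Nat.floor_le (Real.exp_pos _).le
  have hNlt : Real.exp (R / H) < N + 1 := by
    rw [hN]
    exact Nat.lt_floor_add_one _
  -- the coefficients
  obtain ⟨c, hc⟩ : ∃ c : ℕ → ℂ, c = fun n : ℕ => FF θ R (H * Real.log (n : ℝ)) := ⟨_, rfl⟩
  have hc0 : ∀ n, N < n → c n = 0 := by
    intro n hn
    rw [hc]
    show g0 (H * Real.log n) * θ (H * Real.log n / R) = 0
    rw [hcf.supp _ ?_, mul_zero]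
    have h1 : (N : ℝ) + 1 ≤ n := by exact_mod_cast hn
    have h2 : R / H ≤ Real.log n := by
      rw [← Real.log_exp (R / H)]
      exact Real.log_le_log (Real.exp_pos _) (by linarith)
    rw [div_le_iff₀ hH] at h2
    refine le_trans ?_ (le_abs_self _)
    rw [le_div_iff₀ hR0]
    linarith
  -- the Dirichlet polynomial
  obtain ⟨S, hS⟩ : ∃ S : ℝ → ℂ, S = ZS (fun r => psi (ph g R) (R * r)) (R / H) := ⟨_, rfl⟩
  have hSeq : ∀ t, S t = ∑ n ∈ Finset.Icc 1 N, c n * (n : ℂ) ^ (-(1 / 2 + I * t : ℂ)) := by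
    intro t
    rw [hS, ZS, ← hN]
    refine Finset.sum_congr rfl fun n _ => ?_
    congr 1
    rw [hc]
    show psi (ph g R) (R * (Real.log n / (R / H))) = FF θ R (H * Real.log n)
    rw [hpsi R hR0]
    congr 1
    field_simp
  have hAdm : Adm (ph g R) R := hA g hg R hR0
  have hid : ∀ t, ZW (ph g R) H t = S t - Res (ph g R) R H t := by
    intro t
    rw [hS]
    exact MS.zIdent (ph g R) R hAdm H t hH
  have hSc : Continuous S := by rw [hS]; exact fc3_cont_ZS _ _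
  have hθc : Continuous θ := continuous_iff_continuousAt.mpr fun r => (hcf.der r).continuousAt
  have hψc : Continuous (psi (ph g R)) := by
    have : psi (ph g R) = fun r => g0 r * θ (r / R) := by
      funext r
      exact hpsi R hR0 r
    rw [this]
    exact fc3_cont_g0.mul (hθc.comp (by fun_prop))
  have hRc : Continuous (Res (ph g R) R H) := fc3_cont_Res hψc R H
  have hZc : Continuous (ZW (ph g R) H) := by
    have : ZW (ph g R) H = fun t => S t - Res (ph g R) R H t := funext hid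
    rw [this]
    exact hSc.sub hRc
  -- the mean value
  have hmv := hMv c N T x hN1 hT hc0
  have hAvS : Av 4 x T S =
      T⁻¹ * (∫ t in x..(x + T), ‖∑ n ∈ Finset.Icc 1 N, c n * (n : ℂ) ^ (-(1 / 2 + I * t : ℂ))‖ ^ 4)
      := by
    unfold Av
    congr 1
    refine intervalIntegral.integral_congr fun t _ => ?_
    show ‖S t‖ ^ (4 : ℝ) = ‖∑ n ∈ Finset.Icc 1 N, c n * (n : ℂ) ^ (-(1 / 2 + I * t : ℂ))‖ ^ (4 : ℕ)
    rw [← hSeq t]
    exact_mod_cast Real.rpow_natCast ‖S t‖ 4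
  rw [← hAvS] at hmv
  have hen := hEn R H hR1 hH hH1
  rw [← hN, ← hc] at hen
  obtain ⟨E, hEd⟩ : ∃ E : ℝ, E = E4 c N := ⟨_, rfl⟩
  rw [← hEd] at hmv hen
  obtain ⟨s, hs⟩ : ∃ s : ℝ, s = Av 4 x T S := ⟨_, rfl⟩
  obtain ⟨z, hz⟩ : ∃ z : ℝ, z = Av 4 x T (ZW (ph g R) H) := ⟨_, rfl⟩
  obtain ⟨ρ, hρ⟩ : ∃ ρ : ℝ, ρ = Av 4 x T (Res (ph g R) R H) := ⟨_, rfl⟩
  rw [← hs] at hmv
  -- N ^ 4 / T is small
  have hexpT : Real.exp (Real.log T) = T := Real.exp_log hT0
  have hNT : (N : ℝ) ^ 4 / T ≤ 1 / (8 / 16 * C) := by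
    have h1 : (N : ℝ) ^ 4 ≤ Real.exp (Real.log T / 4) := by
      calc (N : ℝ) ^ 4 ≤ Real.exp (R / H) ^ 4 := pow_le_pow_left₀ (Nat.cast_nonneg _) hNle 4
        _ = Real.exp (Real.log T / 4) := by
          rw [← Real.exp_nat_mul, hRH]
          congr 1
          push_cast
          ring
    have h2 : 8 / 16 * C ≤ Real.exp (Real.log T * (3 / 4)) := by
      have := Real.add_one_le_exp (Real.log T * (3 / 4))
      linarith
    rw [div_le_div_iff₀ hT0 (by positivity), one_mul]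
    calc (N : ℝ) ^ 4 * (8 / 16 * C) ≤ Real.exp (Real.log T / 4) * Real.exp (Real.log T * (3 / 4)) :=
          mul_le_mul h1 h2 (by positivity) (Real.exp_pos _).le
      _ = T := by
          rw [← Real.exp_add]
          have : Real.log T / 4 + Real.log T * (3 / 4) = Real.log T := by ring
          rw [this, hexpT]
  have hρK : ρ ≤ K := by
    rw [hρ]
    have h1 := fc3_res hRc (M := CR * Real.exp (R / (2 * H))) (by positivity) (x := x)
      (fun t => hRe R H t hR1 hH hH1) hT0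
    refine h1.trans ?_
    rw [mul_pow, ← Real.exp_nat_mul]
    have h2 : ((4 : ℕ) : ℝ) * (R / (2 * H)) ≤ Real.log T := by
      have : ((4 : ℕ) : ℝ) * (R / (2 * H)) = 2 * (R / H) := by
        push_cast
        field_simp
        norm_num
      rw [this, hRH]
      linarith
    have h3 : Real.exp (((4 : ℕ) : ℝ) * (R / (2 * H))) ≤ T := by
      rw [← hexpT]
      exact Real.exp_le_exp.2 h2
    have hI0 : 0 ≤ ∫ u : ℝ, ((1 + |u|) ^ 2)⁻¹ := integral_nonneg fun u => by positivity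
    calc T⁻¹ * (CR ^ 4 * Real.exp (((4 : ℕ) : ℝ) * (R / (2 * H))) * ∫ u : ℝ, ((1 + |u|) ^ 2)⁻¹)
        ≤ T⁻¹ * (CR ^ 4 * T * ∫ u : ℝ, ((1 + |u|) ^ 2)⁻¹) := by gcongr
      _ = K := by
          rw [hK]
          field_simp
  -- comparison
  have hba := fc3_av_le hZc hSc hRc (β := 4) (a := 1 + ε2) (C := C2) (by norm_num) (by
      intro t
      rw [hid t, sub_eq_add_neg]
      have := hpc (S t) (-Res (ph g R) R H t)
      rwa [norm_neg] at this) x hT0
  have hab := fc3_av_le hSc hZc hRc (β := 4) (a := 1 + ε2) (C := C2) (by norm_num) (by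
      intro t
      have h3 : S t = ZW (ph g R) H t + Res (ph g R) R H t := by
        rw [hid t]; ring
      rw [h3]
      exact hpc _ _) x hT0
  rw [← hs, ← hz, ← hρ] at hba hab
  rw [← hz]
  have hH4 : 0 < H ^ 4 := by positivity
  have hH41 : H ^ 4 ≤ 1 := pow_le_one₀ hH.le hH1
  have hz0 : 0 ≤ z := by
    rw [hz]
    unfold Av
    refine mul_nonneg (by positivity) ?_
    refine intervalIntegral.integral_nonneg (by linarith) fun t _ => ?_
    positivity
  have hρ0 : 0 ≤ ρ := by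
    rw [hρ]
    unfold Av
    refine mul_nonneg (by positivity) ?_
    refine intervalIntegral.integral_nonneg (by linarith) fun t _ => ?_
    positivity
  -- lower bounds for Λ and C
  have hΛ1 : 1 ≤ Λ := by linarith
  have r1 : CE ≤ ε1 / 8 * Λ := by
    have h1 : 8 * CE / ε1 ≤ Λ := by
      refine le_trans ?_ hΛ0
      rw [hL0]
      linarith
    rw [div_le_iff₀ hε10] at h1
    linarith
  have r2 : 24 ≤ ε1 / 4 * Λ := by
    have h1 : 100 / ε1 ≤ Λ := by
      refine le_trans ?_ hΛ0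
      rw [hL0]
      linarith
    rw [div_le_iff₀ hε10] at h1
    linarith
  have r3 : C2 * K ≤ ε1 * Λ := by
    have h1 : C2 * K / ε1 ≤ Λ := by
      refine le_trans ?_ hΛ0
      rw [hL0]
      linarith
    rw [div_le_iff₀ hε10] at h1
    linarith
  have r4 : CE * H ≤ ε1 / 8 := by
    have h1 : 8 * CE / ε1 ≤ C := by
      refine le_trans ?_ hexp
      rw [hL0]
      linarith
    rw [div_le_iff₀ hε10] at h1
    nlinarith
  have r5 : 16 * (CM * (8 + 2 * CE)) ≤ ε1 * C := by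
    have h1 : 16 * (CM * (8 + 2 * CE)) / ε1 ≤ C := by
      refine le_trans ?_ hexp
      rw [hL0]
      linarith
    rw [div_le_iff₀ hε10] at h1
    linarith
  have hlRΛ : Real.log R ≤ Λ := by linarith
  have hHR : H * Real.log R ≤ H * Λ := mul_le_mul_of_nonneg_left hlRΛ hH.le
  have hHΛ : CE * (H * Λ) ≤ ε1 / 8 * Λ := by
    have := mul_le_mul_of_nonneg_right r4 (by linarith : (0 : ℝ) ≤ Λ)
    linarith
  have hen1 : CE * (1 + H * Real.log R) ≤ ε1 / 4 * Λ := by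
    have := mul_le_mul_of_nonneg_left hHR (by linarith : (0 : ℝ) ≤ CE)
    linarith
  have hen2 := abs_le.1 (hen.trans hen1)
  have hEn0 : 0 ≤ E := by
    rw [hEd]
    unfold E4
    exact Finset.sum_nonneg fun m _ => by positivity
  have hEle : H ^ 4 * E ≤ (8 + 2 * CE) * Λ := by
    have h1 := (abs_le.1 hen).2
    have h2 : CE * (1 + H * Real.log R) ≤ 2 * CE * Λ := by
      have h3 : H * Real.log R ≤ Λ := by
        refine hHR.trans ?_
        nlinarith
      nlinarith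
    nlinarith
  have hsE : |H ^ 4 * s - H ^ 4 * E| ≤ ε1 / 4 * Λ := by
    rw [← mul_sub, abs_mul, abs_of_pos hH4]
    calc H ^ 4 * |s - E| ≤ H ^ 4 * (CM * (N : ℝ) ^ 4 / T * E) :=
          mul_le_mul_of_nonneg_left hmv hH4.le
      _ = CM * ((N : ℝ) ^ 4 / T) * (H ^ 4 * E) := by ring
      _ ≤ CM * (1 / (8 / 16 * C)) * ((8 + 2 * CE) * Λ) := by gcongr
      _ ≤ ε1 / 4 * Λ := by
          have e1 : CM * (1 / (8 / 16 * C)) * ((8 + 2 * CE) * Λ) =
              2 * (CM * (8 + 2 * CE)) / C * Λ := by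
            field_simp
            ring
          rw [e1]
          refine mul_le_mul_of_nonneg_right ?_ (by linarith)
          rw [div_le_iff₀ (by linarith)]
          have : 0 ≤ CM * (8 + 2 * CE) := by positivity
          linarith
  have ha : |H ^ 4 * s - 8 * Λ| ≤ ε1 * Λ := by
    have h1 := abs_le.1 hsE
    rw [abs_le]
    rw [hlR] at hen2
    constructor
    · linarith [hen2.1, hen2.2, h1.1, h1.2]
    · linarith [hen2.1, hen2.2, h1.1, h1.2]
  have hfin := fc3_end (a := H ^ 4 * s) (b := H ^ 4 * z) (c := H ^ 4 * (C2 * ρ)) (L := Λ) hε hε1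
    hε2 (by linarith) (by positivity) ha (by
      calc H ^ 4 * (C2 * ρ) ≤ 1 * (C2 * K) := by gcongr
        _ ≤ ε1 * Λ := by linarith) (by
      have := mul_le_mul_of_nonneg_left hba hH4.le
      linarith) (by
      have := mul_le_mul_of_nonneg_left hab hH4.le
      linarith)
  have hHn : H ^ (-4 : ℝ) = (H ^ 4)⁻¹ := by
    rw [Real.rpow_neg hH.le]
    congr 1
    exact_mod_cast Real.rpow_natCast H 4
  rw [hHn]
  have e1 : z - 8 * (H ^ 4)⁻¹ * Λ = (H ^ 4)⁻¹ * (H ^ 4 * z - 8 * Λ) := by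
    field_simp
  rw [e1, abs_mul, abs_of_pos (by positivity)]
  calc (H ^ 4)⁻¹ * |H ^ 4 * z - 8 * Λ| ≤ (H ^ 4)⁻¹ * (ε * Λ) :=
        mul_le_mul_of_nonneg_left hfin (by positivity)
    _ = ε * (H ^ 4)⁻¹ * Λ := by ring

end Pool.Agent.Lib.MP4
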