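import Mathlib
import Pool.Agent.Lib.MP_f9aece_nt_mq.StmtsF

/-!
The fourth moment of the plain average of zeta over short windows, module FC4.

Ident with M = R = H log T/16, N = 0: PA - ZW (ph g R) H = R^-1 (ZW (Ss g) (H/R) t - ZW (Ss g) (H/R) (t+H)), H/R = 1/Lam, Lam = log T/16. Top with S = Ss g (RD from Prim, measurability: HasDerivAt gives continuity of Th g; the indicator is measurable), p = 4, A = 16, x0 = x and x0 = x + H (substitution in the interval integral): Av 4 <= C (log T)^4 each; |a - b|^4 <= 8(|a|^4 + |b|^4); R^-4 (log T)^4 = 16^4 H^-4. T large from C <= H log T, H <= 1.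
-/

set_option autoImplicit false

namespace Pool.Agent.Lib.MP4

open MeasureTheory Set Filter Topology Complex
open scoped ComplexConjugate
open Pool.Agent.Lib.MS (psi Adm ZW ZS Res ZIdent PowClose)
open Pool.Agent.Lib
open Pool.Agent.Lib.MP2 (RD Av PA BumpFn Th Ss ph Prim PhAdm Cont Ident Top)

namespace C4

private theorem pow_sub_le {p : ℝ} (hp : 0 < p) (a b : ℂ) :
    ‖a - b‖ ^ p ≤ 2 ^ p * (‖a‖ ^ p + ‖b‖ ^ p) := by
  have h1 : ‖a - b‖ ≤ 2 * max ‖a‖ ‖b‖ := by
    have := norm_sub_le a b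
    have h2 := le_max_left ‖a‖ ‖b‖
    have h3 := le_max_right ‖a‖ ‖b‖
    linarith
  have hm : 0 ≤ max ‖a‖ ‖b‖ := le_max_of_le_left (norm_nonneg _)
  have ha : 0 ≤ ‖a‖ ^ p := Real.rpow_nonneg (norm_nonneg _) _
  have hb : 0 ≤ ‖b‖ ^ p := Real.rpow_nonneg (norm_nonneg _) _
  calc ‖a - b‖ ^ p ≤ (2 * max ‖a‖ ‖b‖) ^ p := Real.rpow_le_rpow (norm_nonneg _) h1 hp.le
    _ = 2 ^ p * (max ‖a‖ ‖b‖) ^ p := Real.mul_rpow (by norm_num) hm
    _ ≤ 2 ^ p * (‖a‖ ^ p + ‖b‖ ^ p) := by
        refine mul_le_mul_of_nonneg_left ?_ (Real.rpow_nonneg (by norm_num) _)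
        rcases max_choice ‖a‖ ‖b‖ with h | h <;> rw [h] <;> linarith

private theorem cont_pow {p : ℝ} (hp : 0 < p) {f : ℝ → ℂ} (hf : Continuous f) :
    Continuous fun t => ‖f t‖ ^ p := hf.norm.rpow_const fun _ => Or.inr hp.le

private theorem av_mono {p x T : ℝ} (hp : 0 < p) (hT : 0 < T) {f : ℝ → ℂ} (hf : Continuous f)
    {g : ℝ → ℝ} (hg : Continuous g) (h : ∀ t, ‖f t‖ ^ p ≤ g t) :
    Av p x T f ≤ T⁻¹ * ∫ t in x..(x + T), g t := by
  unfold Av
  refine mul_le_mul_of_nonneg_left ?_ (by positivity)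
  exact intervalIntegral.integral_mono (by linarith) ((cont_pow hp hf).intervalIntegrable _ _)
    (hg.intervalIntegrable _ _) h

private theorem av_shift {p x T H : ℝ} {f : ℝ → ℂ} :
    T⁻¹ * ∫ t in x..(x + T), ‖f (t + H)‖ ^ p = Av p (x + H) T f := by
  unfold Av
  rw [intervalIntegral.integral_comp_add_right (fun t => ‖f t‖ ^ p),
    show x + T + H = x + H + T by ring]

private theorem av_term {p x T H c : ℝ} (hp : 0 < p) (hT : 0 < T) (hc : 0 < c) {f : ℝ → ℂ}
    (hf : Continuous f) :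
    Av p x T (fun t => ((c : ℝ) : ℂ)⁻¹ * (f t - f (t + H)))
      ≤ c ^ (-p) * (2 ^ p * (Av p x T f + Av p (x + H) T f)) := by
  have hf2 : Continuous fun t => f (t + H) := hf.comp (by fun_prop)
  have h1 := av_mono (x := x) hp hT
    (f := fun t => ((c : ℝ) : ℂ)⁻¹ * (f t - f (t + H)))
    (g := fun t => c ^ (-p) * (2 ^ p * (‖f t‖ ^ p + ‖f (t + H)‖ ^ p)))
    (by fun_prop)
    (by
      have h3 := cont_pow hp hf
      have h4 := cont_pow hp hf2
      fun_prop)
    (fun t => by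
      rw [norm_mul, Real.mul_rpow (norm_nonneg _) (norm_nonneg _)]
      have h5 : ‖((c : ℝ) : ℂ)⁻¹‖ ^ p = c ^ (-p) := by
        rw [norm_inv, Complex.norm_real, Real.norm_eq_abs, abs_of_pos hc, Real.rpow_neg hc.le,
          Real.inv_rpow hc.le]
      rw [h5]
      exact mul_le_mul_of_nonneg_left (pow_sub_le hp _ _) (Real.rpow_nonneg hc.le _))
  refine h1.trans (le_of_eq ?_)
  rw [← av_shift]
  unfold Av
  rw [intervalIntegral.integral_const_mul, intervalIntegral.integral_const_mul,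
    intervalIntegral.integral_add ((cont_pow hp hf).intervalIntegrable _ _)
      ((cont_pow hp hf2).intervalIntegrable _ _)]
  ring

end C4

open C4 in
theorem high (hP : Prim) (hC : Cont) (hI : Ident) (hT : Top) : High := by
  intro g hg
  obtain ⟨hTd, _, hSr, _⟩ := hP g hg
  have hTc : Continuous (Th g) := continuous_iff_continuousAt.2 fun y => (hTd y).continuousAt
  have hSm : AEStronglyMeasurable (Ss g) volume := by
    have : Measurable (Ss g) := by
      unfold Ss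
      refine Measurable.sub ?_ hTc.measurable
      exact Measurable.ite measurableSet_Ici measurable_const measurable_const
    exact this.aestronglyMeasurable
  have hSZ : ∀ h : ℝ, Continuous (ZW (Ss g) h) := hC.2 _ hSm hSr
  obtain ⟨C4, hC4, h4⟩ := hT (Ss g) hSm hSr 4 16 (by norm_num) le_rfl (by norm_num)
  refine ⟨16 ^ 4 * 32 * C4, by nlinarith, ?_⟩
  intro H T x hH hCH hT1 hCK hx
  set C : ℝ := 16 ^ 4 * 32 * C4 with hCdef
  have hC1 : 1 ≤ C := by rw [hCdef]; nlinarith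
  have hC4C : C4 ≤ C := by rw [hCdef]; nlinarith
  have hH1 : H ≤ 1 := by nlinarith
  have hT0 : 0 < T := by linarith
  have hlog0 : 0 ≤ Real.log T := Real.log_nonneg hT1
  have hK : C ≤ Real.log T := by nlinarith
  have hlog : 0 < Real.log T := by linarith
  have hCT : C ≤ T := by
    have h1 := Real.add_one_le_exp (Real.log T)
    rw [Real.exp_log hT0] at h1
    linarith
  set R : ℝ := H * Real.log T / 16 with hR
  have hR0 : 0 < R := by rw [hR]; positivity
  have hL : (Real.log T / 16)⁻¹ = H / R := by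
    rw [hR]
    field_simp
  have hid : (fun t => PA H t - ZW (ph g R) H t)
      = fun t => ((R : ℝ) : ℂ)⁻¹ * (ZW (Ss g) (H / R) t - ZW (Ss g) (H / R) (t + H)) := by
    funext t
    rw [hI g hg R H hR0 hH 0 t]
    simp
  rw [hid]
  have hA1 := h4 T (Real.log T / 16) x (hC4C.trans hCT) (by linarith) (by linarith)
    (by linarith)
  have hA2 := h4 T (Real.log T / 16) (x + H) (hC4C.trans hCT) (by linarith) (by linarith)
    (by
      refine (abs_add_le _ _).trans ?_
      rw [abs_of_pos hH]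
      linarith)
  rw [hL, show ((4 : ℝ) ^ 2 / 4) = 4 by norm_num] at hA1 hA2
  refine (av_term (by norm_num) hT0 hR0 (hSZ _)).trans ?_
  have hRp : 0 < R ^ (-4 : ℝ) := Real.rpow_pos_of_pos hR0 _
  have hHp : 0 < H ^ (-4 : ℝ) := Real.rpow_pos_of_pos hH _
  have h5 : R ^ (-4 : ℝ) * Real.log T ^ (4 : ℝ) = 16 ^ 4 * H ^ (-4 : ℝ) := by
    rw [hR, Real.div_rpow (by positivity) (by norm_num), Real.mul_rpow hH.le hlog.le,
      Real.rpow_neg hlog.le, Real.rpow_neg (by norm_num : (0 : ℝ) ≤ 16)]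
    have h6 : Real.log T ^ (4 : ℝ) ≠ 0 := (Real.rpow_pos_of_pos hlog _).ne'
    have h7 : (16 : ℝ) ^ (4 : ℝ) = 16 ^ 4 := by
      rw [show (4 : ℝ) = ((4 : ℕ) : ℝ) by norm_num, Real.rpow_natCast]
    rw [h7]
    field_simp
  calc R ^ (-4 : ℝ) * (2 ^ (4 : ℝ) * (Av 4 x T (ZW (Ss g) (H / R))
        + Av 4 (x + H) T (ZW (Ss g) (H / R))))
      ≤ R ^ (-4 : ℝ) * (2 ^ (4 : ℝ) * (C4 * Real.log T ^ (4 : ℝ) + C4 * Real.log T ^ (4 : ℝ))) := by
        refine mul_le_mul_of_nonneg_left (mul_le_mul_of_nonneg_left (add_le_add hA1 hA2) ?_) hRp.le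
        exact Real.rpow_nonneg (by norm_num) _
    _ = 2 ^ (4 : ℝ) * (2 * C4) * (R ^ (-4 : ℝ) * Real.log T ^ (4 : ℝ)) := by ring
    _ = C * H ^ (-4 : ℝ) := by
        rw [h5, hCdef]
        have h7 : (2 : ℝ) ^ (4 : ℝ) = 16 := by
          rw [show (4 : ℝ) = ((4 : ℕ) : ℝ) by norm_num, Real.rpow_natCast]
          norm_num
        rw [h7]
        ring

end Pool.Agent.Lib.MP4
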