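import Mathlib
import Pool.Agent.Lib.MP_f9aece_nt_mq.StmtsF
import Pool.Agent.Lib.MP_f9aece_nt_ms.Z6PowClose

/-!
The fourth moment of the plain average of zeta over short windows, module FC5.

T >= 0 from |x| <= T, T > 1 from log T > 0. PA = low + (PA - low), MS.powClose (p = 4) in both directions: Av 4 PA <= (1+e) Av 4 low + C_e Av 4 high, high <= C H^-4 <= small * H^-4 log(H log T) for H log T large.
-/

set_option autoImplicit false

namespace Pool.Agent.Lib.MP4

open MeasureTheory Set Filter Topology Complex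
open scoped ComplexConjugate
open Pool.Agent.Lib.MS (psi Adm ZW ZS Res ZIdent PowClose)
open Pool.Agent.Lib
open Pool.Agent.Lib.MP2 (RD Av PA BumpFn Th Ss ph Prim PhAdm Cont Ident Top)

private theorem critAv {e C : ℝ} (hpc : ∀ a b : ℂ,
    ‖a + b‖ ^ (4 : ℝ) ≤ (1 + e) * ‖a‖ ^ (4 : ℝ) + C * ‖b‖ ^ (4 : ℝ)) {f k : ℝ → ℂ}
    (hf : Continuous f) (hk : Continuous k) {x T : ℝ} (hT : 1 ≤ T) :
    Av 4 x T (fun t => f t + k t) ≤ (1 + e) * Av 4 x T f + C * Av 4 x T k := by
  have hpow : ∀ u : ℝ → ℂ, Continuous u → Continuous fun t => ‖u t‖ ^ (4 : ℝ) := fun u hu =>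
    hu.norm.rpow_const fun _ => Or.inr (by norm_num)
  have hT0 : 0 < T := by linarith
  have h1 : ∫ t in x..(x + T), ‖f t + k t‖ ^ (4 : ℝ) ≤
      ∫ t in x..(x + T), ((1 + e) * ‖f t‖ ^ (4 : ℝ) + C * ‖k t‖ ^ (4 : ℝ)) := by
    apply intervalIntegral.integral_mono_on (by linarith)
    · exact (hpow _ (hf.add hk)).intervalIntegrable _ _
    · exact (((hpow _ hf).const_mul _).add ((hpow _ hk).const_mul _)).intervalIntegrable _ _
    · intro t _
      exact hpc (f t) (k t)
  rw [intervalIntegral.integral_add, intervalIntegral.integral_const_mul,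
    intervalIntegral.integral_const_mul] at h1
  · have h2 := mul_le_mul_of_nonneg_left h1 (inv_nonneg.2 hT0.le)
    unfold Av
    calc _ ≤ _ := h2
      _ = _ := by ring
  · exact ((hpow _ hf).const_mul _).intervalIntegrable _ _
  · exact ((hpow _ hk).const_mul _).intervalIntegrable _ _

theorem crit (hB : MP2.Bump) (hP : Prim) (hC : Cont) (hL : Low) (hH : High) : Crit := by
  intro ε hε
  obtain ⟨g, hg⟩ := hB
  obtain ⟨hder, -, -, hph⟩ := hP g hg
  obtain ⟨hPA, hZW⟩ := hC
  set δ : ℝ := min ε 1 / 20 with hδ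
  have hδ0 : 0 < δ := by positivity
  have hδ1 : δ ≤ 1 / 20 := by
    have := min_le_right ε 1
    rw [hδ]
    linarith
  have hδε : 20 * δ ≤ ε := by
    have := min_le_left ε 1
    rw [hδ]
    linarith
  obtain ⟨C', hC'1, hpc⟩ := MS.powClose 4 δ (by norm_num) hδ0
  obtain ⟨C1, hC11, hlow⟩ := hL g hg δ hδ0
  obtain ⟨C2, hC21, hhigh⟩ := hH g hg
  refine ⟨C1 + C2 + Real.exp (C' * C2 / (5 * δ)), by positivity, ?_⟩
  intro H T x hH0 hCH hCT hxT
  have hexp : 0 < Real.exp (C' * C2 / (5 * δ)) := Real.exp_pos _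
  have hHT1 : C1 ≤ H * Real.log T := by linarith
  have hHT2 : C2 ≤ H * Real.log T := by linarith
  have hHT3 : Real.exp (C' * C2 / (5 * δ)) ≤ H * Real.log T := by linarith
  have hH1 : C1 * H ≤ 1 := by nlinarith
  have hH2 : C2 * H ≤ 1 := by nlinarith
  have hT0 : 0 ≤ T := (abs_nonneg x).trans hxT
  have hlogT : 0 < Real.log T := by
    by_contra hcon
    push Not at hcon
    have := mul_nonpos_of_nonneg_of_nonpos hH0.le hcon
    linarith
  have hT1 : 1 ≤ T := by
    by_contra hcon
    push Not at hcon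
    have := Real.log_nonpos hT0 hcon.le
    linarith
  have hR : 0 < H * Real.log T / 16 := by positivity
  set κ := ph g (H * Real.log T / 16) with hκ
  have hThc : Continuous (Th g) := continuous_iff_continuousAt.2 fun y => (hder y).continuousAt
  have hκc : Continuous κ := by
    have : κ = fun v => Th g (H * Real.log T / 16 * v) - Th g (H * Real.log T / 16 * (v - 1)) := by
      funext v
      rfl
    rw [this]
    exact (hThc.comp (continuous_const.mul continuous_id)).sub
      (hThc.comp (continuous_const.mul (continuous_id.sub continuous_const)))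
  have hlowc : Continuous (ZW κ H) := hZW κ hκc.aestronglyMeasurable (hph _ hR) H
  have hPAc : Continuous (PA H) := hPA H
  set A := Av 4 x T (PA H) with hA
  set B := Av 4 x T (ZW κ H) with hBdef
  set h := Av 4 x T (fun t => PA H t - ZW κ H t) with hh
  set P := H ^ (-4 : ℝ) with hPdef
  have hP0 : 0 < P := Real.rpow_pos_of_pos hH0 _
  set l := Real.log (H * Real.log T) with hl
  have hl1 : C' * C2 / (5 * δ) ≤ l := by
    rw [hl, Real.le_log_iff_exp_le (by positivity)]
    exact hHT3
  have hl0 : 0 < l := lt_of_lt_of_le (by positivity) hl1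
  have hlo : |B - 8 * P * l| ≤ δ * P * l := hlow H T x hH0 hH1 hT1 hHT1
  have hhi : h ≤ C2 * P := hhigh H T x hH0 hH2 hT1 hHT2 hxT
  have hsmall : C' * h ≤ 5 * δ * (P * l) := by
    have h1 : C' * h ≤ C' * (C2 * P) := mul_le_mul_of_nonneg_left hhi (by linarith)
    have h2 : C' * C2 ≤ 5 * δ * l := by
      rw [div_le_iff₀ (by positivity)] at hl1
      linarith
    have h3 := mul_le_mul_of_nonneg_right h2 hP0.le
    calc C' * h ≤ C' * (C2 * P) := h1
      _ = C' * C2 * P := by ring
      _ ≤ 5 * δ * l * P := h3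
      _ = _ := by ring
  have hup : A ≤ (1 + δ) * B + C' * h := by
    have h1 := critAv hpc hlowc (hPAc.sub hlowc) hT1 (x := x)
    have h2 : (fun t => ZW κ H t + (PA H - ZW κ H) t) = PA H := by
      funext t
      simp
    rw [h2] at h1
    exact h1
  have hdn : B ≤ (1 + δ) * A + C' * h := by
    have h1 := critAv hpc hPAc (hPAc.sub hlowc).neg hT1 (x := x)
    have h2 : (fun t => PA H t + (-(PA H - ZW κ H)) t) = ZW κ H := by
      funext t
      simp
    rw [h2] at h1
    have h3 : Av 4 x T (-(PA H - ZW κ H)) = h := by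
      rw [hh]
      unfold Av
      congr 1
      apply intervalIntegral.integral_congr
      intro t _
      change ‖-(PA H t - ZW κ H t)‖ ^ (4 : ℝ) = ‖PA H t - ZW κ H t‖ ^ (4 : ℝ)
      rw [norm_neg]
    rw [h3] at h1
    exact h1
  have hE : 0 < P * l := mul_pos hP0 hl0
  obtain ⟨hlo1, hlo2⟩ := abs_le.1 hlo
  have e1 : 8 * P * l = 8 * (P * l) := by ring
  have e2 : δ * P * l = δ * (P * l) := by ring
  rw [e1, e2] at hlo1 hlo2
  rw [e1]
  generalize P * l = E at hE hlo1 hlo2 hsmall ⊢
  have hδE : 0 < δ * E := mul_pos hδ0 hE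
  have hεE : 20 * (δ * E) ≤ ε * E := by nlinarith
  rw [abs_le]
  constructor
  · -- lower bound
    have h1 : 8 * E - δ * E - 5 * δ * E ≤ (1 + δ) * A := by linarith
    have h2 : (1 + δ) * (8 * E - 20 * (δ * E)) ≤ (1 + δ) * A := by
      refine le_trans ?_ h1
      nlinarith [mul_pos hδ0 hδE]
    have h3 : 8 * E - 20 * (δ * E) ≤ A := le_of_mul_le_mul_left h2 (by linarith)
    linarith
  · have h1 : (1 + δ) * B ≤ (1 + δ) * (8 * E + δ * E) :=
      mul_le_mul_of_nonneg_left (by linarith) (by linarith)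
    have h2 : (1 + δ) * (8 * E + δ * E) ≤ 8 * E + 10 * (δ * E) := by nlinarith
    linarith

end Pool.Agent.Lib.MP4
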