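import Mathlib
import Pool.Agent.Lib.MP_f9aece_nt_mq.StmtsF

/-!
The fourth moment of the plain average of zeta over short windows, module FC6.

Suppose c exists. eps = 1 in both: constants C1, C2. Fix H = 1/max(C1,C2,1), x = 0. For T large: Av 4 0 T (PA H) >= 7 H^-4 log(H log T); power mean (Jensen, p/4 >= 1: inner_le_nnorm_mul_nnorm / ENNReal.lintegral_rpow or ConvexOn.map_integral_le for the probability measure T^-1 dt on [0,T]): (Av 4)^(p/4) <= Av p <= (c+1) H^(-p^2/4). T -> oo contradiction.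
-/

set_option autoImplicit false

namespace Pool.Agent.Lib.MP4

open MeasureTheory Set Filter Topology Complex
open scoped ComplexConjugate
open Pool.Agent.Lib.MS (psi Adm ZW ZS Res ZIdent PowClose)
open Pool.Agent.Lib
open Pool.Agent.Lib.MP2 (RD Av PA BumpFn Th Ss ph Prim PhAdm Cont Ident Top)

private theorem fc6_pow {p : ℝ} (hp : 4 ≤ p) {y : ℝ} (hy : 0 ≤ y) : y ^ (4 : ℝ) ≤ 1 + y ^ p := by
  have h0 : 0 ≤ y ^ p := Real.rpow_nonneg hy p
  rcases le_total y 1 with h | h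
  · have := Real.rpow_le_one hy h (by norm_num : (0 : ℝ) ≤ 4)
    linarith
  · have := Real.rpow_le_rpow_of_exponent_le h hp
    linarith

private theorem fc6_av (hC : Cont) {p : ℝ} (hp : 4 ≤ p) (H : ℝ) {T : ℝ} (hT : 0 < T) :
    Av 4 0 T (PA H) ≤ 1 + Av p 0 T (PA H) := by
  unfold MP2.Av
  have hc := (hC.1 H).norm
  have i1 : IntervalIntegrable (fun t => ‖PA H t‖ ^ (4 : ℝ)) volume 0 (0 + T) :=
    (hc.rpow_const fun t => Or.inr (by norm_num)).intervalIntegrable _ _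
  have i2 : IntervalIntegrable (fun t => ‖PA H t‖ ^ p) volume 0 (0 + T) :=
    (hc.rpow_const fun t => Or.inr (by linarith)).intervalIntegrable _ _
  have h1 : (∫ t in (0 : ℝ)..(0 + T), ‖PA H t‖ ^ (4 : ℝ)) ≤
      ∫ t in (0 : ℝ)..(0 + T), (1 + ‖PA H t‖ ^ p) :=
    intervalIntegral.integral_mono_on (by linarith) i1 (intervalIntegrable_const.add i2)
      fun t _ => fc6_pow hp (norm_nonneg _)
  rw [intervalIntegral.integral_add intervalIntegrable_const i2,
    intervalIntegral.integral_const] at h1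
  have h2 : T⁻¹ * (∫ t in (0 : ℝ)..(0 + T), ‖PA H t‖ ^ (4 : ℝ)) ≤
      T⁻¹ * ((0 + T - 0) • (1 : ℝ) + ∫ t in (0 : ℝ)..(0 + T), ‖PA H t‖ ^ p) :=
    mul_le_mul_of_nonneg_left h1 (inv_nonneg.2 hT.le)
  have h3 : T⁻¹ * ((0 + T - 0) • (1 : ℝ) + ∫ t in (0 : ℝ)..(0 + T), ‖PA H t‖ ^ p) =
      1 + T⁻¹ * ∫ t in (0 : ℝ)..(0 + T), ‖PA H t‖ ^ p := by
    rw [zero_add, sub_zero, smul_eq_mul, mul_one, mul_add, inv_mul_cancel₀ (ne_of_gt hT)]
  linarith

theorem sharp (hC : Cont) (h : Crit) : Sharp := by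
  rintro p hp ⟨c, hc⟩
  obtain ⟨C1, hC1, h1⟩ := hc 1 one_pos
  obtain ⟨C2, hC2, h2⟩ := h 1 one_pos
  set M : ℝ := max (max C1 C2) 1 with hM
  have hM1 : 1 ≤ M := le_max_right _ _
  have hMC1 : C1 ≤ M := (le_max_left _ _).trans (le_max_left _ _)
  have hMC2 : C2 ≤ M := (le_max_right _ _).trans (le_max_left _ _)
  have hM0 : 0 < M := lt_of_lt_of_le one_pos hM1
  set H : ℝ := M⁻¹ with hH
  have hH0 : 0 < H := inv_pos.2 hM0
  have hH1 : H ≤ 1 := inv_le_one_of_one_le₀ hM1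
  have hC1H : C1 * H ≤ 1 := by
    rw [hH, ← div_eq_mul_inv, div_le_one hM0]
    exact hMC1
  have hC2H : C2 * H ≤ 1 := by
    rw [hH, ← div_eq_mul_inv, div_le_one hM0]
    exact hMC2
  set K : ℝ := 1 + (c + 1) * H ^ (-(p ^ 2 / 4)) with hK
  set L : ℝ := |K| + 1 + C1 + C2 with hL
  have hLK : K < L := by
    have := le_abs_self K
    linarith
  have hL0 : 0 < L := by
    have := abs_nonneg K
    linarith
  have hexp : L ≤ Real.exp L := by
    have := Real.add_one_le_exp L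
    linarith
  set T : ℝ := Real.exp (Real.exp L / H) with hT
  have hT0 : 0 < T := Real.exp_pos _
  have hlog : H * Real.log T = Real.exp L := by
    rw [hT, Real.log_exp, mul_div_cancel₀ _ (ne_of_gt hH0)]
  have hb1 : C1 ≤ H * Real.log T := by
    rw [hlog]
    have := abs_nonneg K
    linarith
  have hb2 : C2 ≤ H * Real.log T := by
    rw [hlog]
    have := abs_nonneg K
    linarith
  have hx : |(0 : ℝ)| ≤ T := by
    rw [abs_zero]
    exact hT0.le
  have e1 := h1 H T 0 hH0 hC1H hb1 hx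
  have e2 := h2 H T 0 hH0 hC2H hb2 hx
  rw [hlog, Real.log_exp] at e2
  have e3 := fc6_av hC hp H hT0
  have e4 := (abs_le.1 e1).2
  have e5 := (abs_le.1 e2).1
  have h4 : 1 ≤ H ^ (-4 : ℝ) := Real.one_le_rpow_of_pos_of_le_one_of_nonpos hH0 hH1 (by norm_num)
  have h5 : L ≤ H ^ (-4 : ℝ) * L := le_mul_of_one_le_left hL0.le h4
  have h6 : Av p 0 T (PA H) ≤ (c + 1) * H ^ (-(p ^ 2 / 4)) := by
    rw [add_mul]
    linarith
  nlinarith

end Pool.Agent.Lib.MP4
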