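import Mathlib
import Pool.Agent.Lib.MP_f9aece_nt_mq.StmtsF

/-!
The fourth moment of the plain average of zeta over short windows, module FD1.

For 1 <= X,Y <= R and u >= 0: F(X+u) conj F(Y+u) = a(u) (1 - e^(-i(X+u)) - e^(i(Y+u)) + e^(i(Y-X))), a(u) = theta((X+u)/R) conj theta((Y+u)/R) ((X+u)(Y+u))^-1. (i) int_0^R a(u) e^(+-iu) du: integrate by parts, |a(0)|, |a(R)| <= B^2/(XY), int |ap| <= B^2/(XY) + (2B^2/R) l0 <= .. (int_0^oo of (X+u)^-2 (Y+u)^-1 + (X+u)^-1 (Y+u)^-2 = 1/(XY); l0 <= 1). (ii) |int_0^R a - l0|: |theta conj theta - 1| <= (B^2+B)(X+Y+2u)/R, integrand <= 2B^2 R^-1 ((X+u)^-1 + (Y+u)^-1), integral of it: log((X+R)/X) + log((Y+R)/Y) <= 2 log 2 + log(R/X) + log(R/Y); tail int_R^oo u^-2 = 1/R.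
-/

set_option autoImplicit false

namespace Pool.Agent.Lib.MP4

open MeasureTheory Set Filter Topology Complex
open scoped ComplexConjugate
open Pool.Agent.Lib.MS (psi Adm ZW ZS Res ZIdent PowClose)
open Pool.Agent.Lib
open Pool.Agent.Lib.MP2 (RD Av PA BumpFn Th Ss ph Prim PhAdm Cont Ident Top)

/-- the amplitude -/
private noncomputable def am (θ : ℝ → ℂ) (R X Y u : ℝ) : ℂ :=
  θ ((X + u) / R) * conj (θ ((Y + u) / R)) * (((X + u) * (Y + u))⁻¹ : ℝ)

/-- its derivative -/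
private noncomputable def am' (θ θ' : ℝ → ℂ) (R X Y u : ℝ) : ℂ :=
  (((R⁻¹ : ℝ) : ℂ) * θ' ((X + u) / R) * conj (θ ((Y + u) / R)) +
    θ ((X + u) / R) * conj (((R⁻¹ : ℝ) : ℂ) * θ' ((Y + u) / R))) *
      (((X + u) * (Y + u))⁻¹ : ℝ) +
  θ ((X + u) / R) * conj (θ ((Y + u) / R)) *
    ((-((X + Y + 2 * u) / ((X + u) * (Y + u)) ^ 2) : ℝ) : ℂ)

section

variable {θ θ' : ℝ → ℂ} {B R X Y : ℝ}

private theorem th_der (h : Cf θ θ' B) (R X u : ℝ) :
    HasDerivAt (fun u => θ ((X + u) / R)) (((R⁻¹ : ℝ) : ℂ) * θ' ((X + u) / R)) u := by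
  have h1 : HasDerivAt (fun u : ℝ => (X + u) / R) (1 / R) u :=
    ((hasDerivAt_id u).const_add X).div_const R
  have h2 := (h.der ((X + u) / R)).scomp u h1
  refine h2.congr_deriv ?_
  rw [one_div]
  exact Complex.real_smul

private theorem th_cont (h : Cf θ θ' B) : Continuous θ :=
  continuous_iff_continuousAt.2 fun r => (h.der r).continuousAt

private theorem am_der (h : Cf θ θ' B) (hX : 0 < X) (hY : 0 < Y) {u : ℝ} (hu : 0 ≤ u) :
    HasDerivAt (am θ R X Y) (am' θ θ' R X Y u) u := by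
  have h0 : X + u ≠ 0 := by positivity
  have h0' : Y + u ≠ 0 := by positivity
  have h1 := th_der h R X u
  have h2 : HasDerivAt (fun u => conj (θ ((Y + u) / R)))
      (conj (((R⁻¹ : ℝ) : ℂ) * θ' ((Y + u) / R))) u := (th_der h R Y u).star
  have h3 : HasDerivAt (fun u : ℝ => ((X + u) * (Y + u))⁻¹)
      (-((X + Y + 2 * u) / ((X + u) * (Y + u)) ^ 2)) u := by
    have h4 : HasDerivAt (fun u : ℝ => ((X + u) * (Y + u))⁻¹)
        (-(1 * (Y + u) + (X + u) * 1) / ((X + u) * (Y + u)) ^ 2) u :=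
      (((hasDerivAt_id u).const_add X).mul ((hasDerivAt_id u).const_add Y)).inv
        (mul_ne_zero h0 h0')
    refine h4.congr_deriv ?_
    rw [neg_div]
    congr 2
    ring
  exact (h1.mul h2).mul h3.ofReal_comp

private theorem am_bd (h : Cf θ θ' B) (hX : 0 < X) (hY : 0 < Y) {u : ℝ} (hu : 0 ≤ u) :
    ‖am θ R X Y u‖ ≤ B ^ 2 * ((X + u) * (Y + u))⁻¹ := by
  have hB := h.one_le
  unfold am
  rw [norm_mul, norm_mul, RCLike.norm_conj, Complex.norm_real,
    Real.norm_of_nonneg (by positivity), pow_two]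
  apply mul_le_mul_of_nonneg_right _ (by positivity)
  exact mul_le_mul (h.bd _) (h.bd _) (norm_nonneg _) (by linarith)

private theorem am'_bd (h : Cf θ θ' B) (hR : 0 < R) (hX : 0 < X) (hY : 0 < Y) {u : ℝ}
    (hu : 0 ≤ u) :
    ‖am' θ θ' R X Y u‖ ≤ 2 * B ^ 2 / R * ((X + u) * (Y + u))⁻¹ +
      B ^ 2 * ((X + Y + 2 * u) / ((X + u) * (Y + u)) ^ 2) := by
  have hB := h.one_le
  unfold am'
  refine (norm_add_le _ _).trans (add_le_add ?_ ?_)
  · rw [norm_mul, Complex.norm_real, Real.norm_of_nonneg (by positivity)]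
    apply mul_le_mul_of_nonneg_right _ (by positivity)
    refine (norm_add_le _ _).trans ?_
    have hRi : ‖((R⁻¹ : ℝ) : ℂ)‖ = R⁻¹ := by
      rw [Complex.norm_real, Real.norm_of_nonneg (by positivity)]
    have h1 : ‖((R⁻¹ : ℝ) : ℂ) * θ' ((X + u) / R) * conj (θ ((Y + u) / R))‖ ≤
        R⁻¹ * B * B := by
      rw [norm_mul, norm_mul, RCLike.norm_conj, hRi]
      exact mul_le_mul (mul_le_mul_of_nonneg_left (h.bd' _) (by positivity)) (h.bd _)
        (norm_nonneg _) (by positivity)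
    have h2 : ‖θ ((X + u) / R) * conj (((R⁻¹ : ℝ) : ℂ) * θ' ((Y + u) / R))‖ ≤
        B * (R⁻¹ * B) := by
      rw [norm_mul, RCLike.norm_conj, norm_mul, hRi]
      exact mul_le_mul (h.bd _) (mul_le_mul_of_nonneg_left (h.bd' _) (by positivity))
        (by positivity) (by linarith)
    calc _ ≤ R⁻¹ * B * B + B * (R⁻¹ * B) := add_le_add h1 h2
      _ = 2 * B ^ 2 / R := by
        field_simp
        ring
  · have hBB : B ^ 2 = B * B := pow_two B
    rw [norm_mul, norm_mul, RCLike.norm_conj, Complex.norm_real, norm_neg,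
      Real.norm_of_nonneg (by positivity), hBB]
    apply mul_le_mul_of_nonneg_right _ (by positivity)
    exact mul_le_mul (h.bd _) (h.bd _) (norm_nonneg _) (by linarith)

private theorem q_cont (hX : 0 < X) (hY : 0 < Y) :
    ContinuousOn (fun u : ℝ => ((X + u) * (Y + u))⁻¹) (Ici 0) := by
  apply ContinuousOn.inv₀
  · fun_prop
  · intro u hu
    have hu' : (0 : ℝ) ≤ u := hu
    positivity

private theorem q'_cont (hX : 0 < X) (hY : 0 < Y) :
    ContinuousOn (fun u : ℝ => (X + Y + 2 * u) / ((X + u) * (Y + u)) ^ 2) (Ici 0) := by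
  apply ContinuousOn.div
  · fun_prop
  · fun_prop
  · intro u hu
    have hu' : (0 : ℝ) ≤ u := hu
    positivity

private theorem am_cont (h : Cf θ θ' B) (hX : 0 < X) (hY : 0 < Y) :
    ContinuousOn (am θ R X Y) (Ici 0) := fun u hu =>
  (am_der h hX hY hu).continuousAt.continuousWithinAt

private theorem am'_cont (h : Cf θ θ' B) (hX : 0 < X) (hY : 0 < Y) :
    ContinuousOn (am' θ θ' R X Y) (Ici 0) := by
  have h1 := th_cont h
  have h2 := h.cont
  unfold am'
  apply ContinuousOn.add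
  · apply ContinuousOn.mul
    · apply Continuous.continuousOn
      fun_prop
    · exact Complex.continuous_ofReal.comp_continuousOn (q_cont hX hY)
  · apply ContinuousOn.mul
    · apply Continuous.continuousOn
      fun_prop
    · exact Complex.continuous_ofReal.comp_continuousOn (q'_cont hX hY).neg

private theorem ii_of {E : Type*} [NormedAddCommGroup E] {f : ℝ → E} (hR : 0 ≤ R)
    (hf : ContinuousOn f (Ici 0)) : IntervalIntegrable f volume 0 R := by
  apply ContinuousOn.intervalIntegrable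
  rw [uIcc_of_le hR]
  exact hf.mono fun x hx => hx.1

private theorem q_int_le (hR : 0 ≤ R) (hX : 0 < X) (hY : 0 < Y)
    (hi : IntegrableOn (fun u : ℝ => ((X + u) * (Y + u))⁻¹) (Ioi 0)) :
    ∫ u in (0 : ℝ)..R, ((X + u) * (Y + u))⁻¹ ≤ l0 X Y := by
  rw [intervalIntegral.integral_of_le hR]
  apply setIntegral_mono_set hi
  · refine (ae_restrict_iff' measurableSet_Ioi).2 (Eventually.of_forall fun u hu => ?_)
    have hu' : (0 : ℝ) < u := hu
    change 0 ≤ ((X + u) * (Y + u))⁻¹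
    positivity
  · exact (Ioc_subset_Ioi_self : Ioc (0 : ℝ) R ⊆ Ioi 0).eventuallyLE

private theorem q'_int (hR : 0 ≤ R) (hX : 0 < X) (hY : 0 < Y) :
    ∫ u in (0 : ℝ)..R, (X + Y + 2 * u) / ((X + u) * (Y + u)) ^ 2 ≤ (X * Y)⁻¹ := by
  have hd : ∀ u ∈ uIcc 0 R, HasDerivAt (fun u : ℝ => -((X + u) * (Y + u))⁻¹)
      ((X + Y + 2 * u) / ((X + u) * (Y + u)) ^ 2) u := by
    intro u hu
    rw [uIcc_of_le hR] at hu
    have hu' := hu.1
    have h0 : X + u ≠ 0 := by positivity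
    have h0' : Y + u ≠ 0 := by positivity
    have h4 : HasDerivAt (fun u : ℝ => -((X + u) * (Y + u))⁻¹)
        (-(-(1 * (Y + u) + (X + u) * 1) / ((X + u) * (Y + u)) ^ 2)) u :=
      ((((hasDerivAt_id u).const_add X).mul ((hasDerivAt_id u).const_add Y)).inv
        (mul_ne_zero h0 h0')).neg
    refine h4.congr_deriv ?_
    rw [neg_div, neg_neg]
    congr 1
    ring
  rw [intervalIntegral.integral_eq_sub_of_hasDerivAt hd (ii_of hR (q'_cont hX hY))]
  have h1 : 0 ≤ ((X + R) * (Y + R))⁻¹ := by positivity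
  simp only [add_zero]
  linarith

/-- oscillating integrals of the amplitude -/
private theorem am_osc (h : Cf θ θ' B) (hR : 1 ≤ R) (hX : 1 ≤ X) (hY : 1 ≤ Y)
    (hi : IntegrableOn (fun u : ℝ => ((X + u) * (Y + u))⁻¹) (Ioi 0)) (hl : l0 X Y ≤ 1)
    (z : ℂ) (hz : z * z = -1) :
    ‖∫ u in (0 : ℝ)..R, am θ R X Y u * cexp (z * (u : ℂ))‖ ≤
      3 * B ^ 2 * (X * Y)⁻¹ + 2 * B ^ 2 / R := by
  have hR0 : (0 : ℝ) < R := by linarith
  have hX0 : (0 : ℝ) < X := by linarith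
  have hY0 : (0 : ℝ) < Y := by linarith
  have hB := h.one_le
  have hzI : z = I ∨ z = -I := by
    have h1 : (z - I) * (z + I) = 0 := by
      ring_nf
      rw [pow_two, hz, Complex.I_sq]
      ring
    rcases mul_eq_zero.1 h1 with h2 | h2
    · exact Or.inl (sub_eq_zero.1 h2)
    · exact Or.inr (eq_neg_of_add_eq_zero_left h2)
  have hne : ∀ u : ℝ, ‖cexp (z * (u : ℂ))‖ = 1 := by
    intro u
    rcases hzI with rfl | rfl
    · rw [mul_comm]
      exact Complex.norm_exp_ofReal_mul_I u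
    · have h1 : -I * (u : ℂ) = ((-u : ℝ) : ℂ) * I := by
        push_cast
        ring
      rw [h1]
      exact Complex.norm_exp_ofReal_mul_I (-u)
  have hnz : ‖z‖ = 1 := by
    rcases hzI with rfl | rfl
    · exact Complex.norm_I
    · rw [norm_neg]
      exact Complex.norm_I
  have hz0 : z ≠ 0 := by
    rintro rfl
    simp at hnz
  have hde : ∀ u : ℝ, HasDerivAt (fun u : ℝ => cexp (z * (u : ℂ)))
      (cexp (z * (u : ℂ)) * z) u := by
    intro u
    have h1 : HasDerivAt (fun u : ℝ => z * (u : ℂ)) z u := by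
      simpa using (hasDerivAt_id u).ofReal_comp.const_mul z
    exact h1.cexp
  -- integration by parts
  have hd : ∀ u ∈ uIcc 0 R, HasDerivAt (fun u : ℝ => am θ R X Y u * cexp (z * (u : ℂ)))
      (am' θ θ' R X Y u * cexp (z * (u : ℂ)) + am θ R X Y u * (cexp (z * (u : ℂ)) * z)) u := by
    intro u hu
    rw [uIcc_of_le hR0.le] at hu
    exact (am_der h hX0 hY0 hu.1).mul (hde u)
  have hce : Continuous fun u : ℝ => cexp (z * (u : ℂ)) := by fun_prop
  have hi1 : IntervalIntegrable (fun u : ℝ => am' θ θ' R X Y u * cexp (z * (u : ℂ)))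
      volume 0 R := ii_of hR0.le ((am'_cont h hX0 hY0).mul hce.continuousOn)
  have hi2 : IntervalIntegrable (fun u : ℝ => am θ R X Y u * (cexp (z * (u : ℂ)) * z))
      volume 0 R := ii_of hR0.le ((am_cont h hX0 hY0).mul
        (hce.continuousOn.mul continuousOn_const))
  have hftc := intervalIntegral.integral_eq_sub_of_hasDerivAt hd (hi1.add hi2)
  rw [intervalIntegral.integral_add hi1 hi2] at hftc
  have hfac : ∫ u in (0 : ℝ)..R, am θ R X Y u * (cexp (z * (u : ℂ)) * z) =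
      (∫ u in (0 : ℝ)..R, am θ R X Y u * cexp (z * (u : ℂ))) * z := by
    rw [← intervalIntegral.integral_mul_const]
    congr 1
    funext u
    ring
  rw [hfac] at hftc
  set J := ∫ u in (0 : ℝ)..R, am θ R X Y u * cexp (z * (u : ℂ)) with hJ
  set J' := ∫ u in (0 : ℝ)..R, am' θ θ' R X Y u * cexp (z * (u : ℂ)) with hJ'
  have hJn : ‖J‖ = ‖J * z‖ := by rw [norm_mul, hnz, mul_one]
  have h1 : J * z = am θ R X Y R * cexp (z * (R : ℂ)) - am θ R X Y 0 * cexp (z * ((0 : ℝ) : ℂ))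
      - J' := by
    rw [← hftc]
    ring
  have hb1 : ‖am θ R X Y R * cexp (z * (R : ℂ))‖ ≤ B ^ 2 * (X * Y)⁻¹ := by
    rw [norm_mul, hne, mul_one]
    refine (am_bd h hX0 hY0 hR0.le).trans ?_
    apply mul_le_mul_of_nonneg_left _ (by positivity)
    apply inv_anti₀ (by positivity)
    nlinarith
  have hb2 : ‖am θ R X Y 0 * cexp (z * ((0 : ℝ) : ℂ))‖ ≤ B ^ 2 * (X * Y)⁻¹ := by
    rw [norm_mul, hne, mul_one]
    refine (am_bd h hX0 hY0 le_rfl).trans ?_
    simp
  have hb3 : ‖J'‖ ≤ 2 * B ^ 2 / R + B ^ 2 * (X * Y)⁻¹ := by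
    have hq1 : IntervalIntegrable (fun u : ℝ => 2 * B ^ 2 / R * ((X + u) * (Y + u))⁻¹)
        volume 0 R := (ii_of hR0.le (q_cont hX0 hY0)).const_mul _
    have hq2 : IntervalIntegrable
        (fun u : ℝ => B ^ 2 * ((X + Y + 2 * u) / ((X + u) * (Y + u)) ^ 2)) volume 0 R :=
      (ii_of hR0.le (q'_cont hX0 hY0)).const_mul _
    have h2 : ‖J'‖ ≤ ∫ u in (0 : ℝ)..R, (2 * B ^ 2 / R * ((X + u) * (Y + u))⁻¹ +
        B ^ 2 * ((X + Y + 2 * u) / ((X + u) * (Y + u)) ^ 2)) := by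
      apply intervalIntegral.norm_integral_le_of_norm_le hR0.le
      · refine Eventually.of_forall fun u hu => ?_
        rw [norm_mul, hne, mul_one]
        exact am'_bd h hR0 hX0 hY0 hu.1.le
      · exact hq1.add hq2
    refine h2.trans ?_
    rw [intervalIntegral.integral_add hq1 hq2, intervalIntegral.integral_const_mul,
      intervalIntegral.integral_const_mul]
    apply add_le_add
    · calc 2 * B ^ 2 / R * ∫ u in (0 : ℝ)..R, ((X + u) * (Y + u))⁻¹
          ≤ 2 * B ^ 2 / R * 1 := by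
            apply mul_le_mul_of_nonneg_left _ (by positivity)
            exact (q_int_le hR0.le hX0 hY0 hi).trans hl
        _ = 2 * B ^ 2 / R := mul_one _
    · exact mul_le_mul_of_nonneg_left (q'_int hR0.le hX0 hY0) (by positivity)
  rw [hJn, h1]
  calc _ ≤ ‖am θ R X Y R * cexp (z * (R : ℂ)) - am θ R X Y 0 * cexp (z * ((0 : ℝ) : ℂ))‖ +
        ‖J'‖ := norm_sub_le _ _
    _ ≤ ‖am θ R X Y R * cexp (z * (R : ℂ))‖ + ‖am θ R X Y 0 * cexp (z * ((0 : ℝ) : ℂ))‖ +
        ‖J'‖ := by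
        gcongr
        exact norm_sub_le _ _
    _ ≤ B ^ 2 * (X * Y)⁻¹ + B ^ 2 * (X * Y)⁻¹ + (2 * B ^ 2 / R + B ^ 2 * (X * Y)⁻¹) := by
        gcongr
    _ = 3 * B ^ 2 * (X * Y)⁻¹ + 2 * B ^ 2 / R := by ring

/-- near `0` the cut-off is `1` -/
private theorem th_near (h : Cf θ θ' B) {s : ℝ} (hs : 0 ≤ s) : ‖θ s - 1‖ ≤ B * s := by
  have h1 := Convex.norm_image_sub_le_of_norm_hasDerivWithin_le (f := θ) (f' := θ')
    (s := univ) (x := 0) (y := s) (C := B) (fun x _ => (h.der x).hasDerivWithinAt)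
    (fun x _ => h.bd' x) convex_univ (mem_univ _) (mem_univ _)
  rw [h.zero, sub_zero, Real.norm_of_nonneg hs] at h1
  exact h1

private theorem tail_le (hR : 1 ≤ R) (hX : 1 ≤ X) (hY : 1 ≤ Y)
    (hi : IntegrableOn (fun u : ℝ => ((X + u) * (Y + u))⁻¹) (Ioi 0)) :
    ∫ u in Ioi R, ((X + u) * (Y + u))⁻¹ ≤ R⁻¹ := by
  have hR0 : (0 : ℝ) < R := by linarith
  have hd : ∀ x ∈ Ici R, HasDerivAt (fun u : ℝ => -u⁻¹) ((x * x)⁻¹) x := by
    intro x hx
    have hx' : (0 : ℝ) < x := lt_of_lt_of_le hR0 hx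
    have h1 : HasDerivAt (fun u : ℝ => -u⁻¹) (-(-(x ^ 2)⁻¹)) x := (hasDerivAt_inv hx'.ne').neg
    refine h1.congr_deriv ?_
    rw [neg_neg, pow_two]
  have hpos : ∀ x ∈ Ioi R, 0 ≤ (x * x)⁻¹ := fun x _ => by
    have := mul_self_nonneg x
    positivity
  have hlim : Tendsto (fun u : ℝ => -u⁻¹) atTop (𝓝 0) := by
    simpa using (tendsto_inv_atTop_zero (𝕜 := ℝ)).neg
  have h1 := integral_Ioi_of_hasDerivAt_of_nonneg' hd hpos hlim
  have h2 := integrableOn_Ioi_deriv_of_nonneg' hd hpos hlim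
  have h3 : ∫ u in Ioi R, ((X + u) * (Y + u))⁻¹ ≤ ∫ u in Ioi R, (u * u)⁻¹ := by
    apply setIntegral_mono_on (hi.mono_set (Ioi_subset_Ioi hR0.le)) h2 measurableSet_Ioi
    intro u hu
    have hu' : (0 : ℝ) < u := lt_trans hR0 hu
    apply inv_anti₀ (by positivity)
    apply mul_le_mul <;> linarith
  rw [h1] at h3
  simpa using h3

private theorem log_int (hR : 1 ≤ R) (hX : 1 ≤ X) (hXR : X ≤ R) :
    ∫ u in (0 : ℝ)..R, (X + u)⁻¹ ≤ 1 + Real.log (R / X) := by
  have hR0 : (0 : ℝ) < R := by linarith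
  have hX0 : (0 : ℝ) < X := by linarith
  have hc : ContinuousOn (fun u : ℝ => (X + u)⁻¹) (Ici 0) := by
    apply ContinuousOn.inv₀
    · fun_prop
    · intro u hu
      have hu' : (0 : ℝ) ≤ u := hu
      positivity
  have hd : ∀ u ∈ uIcc 0 R, HasDerivAt (fun u : ℝ => Real.log (X + u)) ((X + u)⁻¹) u := by
    intro u hu
    rw [uIcc_of_le hR0.le] at hu
    have hu' := hu.1
    have h0 : X + u ≠ 0 := by positivity
    have h1 : HasDerivAt (fun u : ℝ => Real.log (X + u)) (1 / (X + u)) u :=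
      ((hasDerivAt_id u).const_add X).log h0
    refine h1.congr_deriv (one_div _)
  rw [intervalIntegral.integral_eq_sub_of_hasDerivAt hd (ii_of hR0.le hc), add_zero,
    ← Real.log_div (by positivity) (by positivity)]
  have h1 : (X + R) / X ≤ 2 * (R / X) := by
    rw [← mul_div_assoc]
    apply div_le_div_of_nonneg_right _ hX0.le
    linarith
  have h2 : Real.log ((X + R) / X) ≤ Real.log (2 * (R / X)) :=
    Real.log_le_log (by positivity) h1
  rw [Real.log_mul (by norm_num) (by positivity)] at h2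
  have h3 : Real.log 2 ≤ 1 := by
    have := Real.log_two_lt_d9
    linarith
  linarith

/-- the amplitude and the homogeneous kernel -/
private theorem am_main (h : Cf θ θ' B) (hR : 1 ≤ R) (hX : 1 ≤ X) (hY : 1 ≤ Y) (hXR : X ≤ R)
    (hYR : Y ≤ R) (hi : IntegrableOn (fun u : ℝ => ((X + u) * (Y + u))⁻¹) (Ioi 0)) :
    ‖(∫ u in (0 : ℝ)..R, am θ R X Y u) - (l0 X Y : ℂ)‖ ≤
      B ^ 2 / R * (2 + Real.log (R / X) + Real.log (R / Y)) + R⁻¹ := by
  have hR0 : (0 : ℝ) < R := by linarith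
  have hX0 : (0 : ℝ) < X := by linarith
  have hY0 : (0 : ℝ) < Y := by linarith
  have hB := h.one_le
  have hqi : IntervalIntegrable (fun u : ℝ => ((X + u) * (Y + u))⁻¹) volume 0 R :=
    ii_of hR0.le (q_cont hX0 hY0)
  have hsplit : l0 X Y = (∫ u in (0 : ℝ)..R, ((X + u) * (Y + u))⁻¹) +
      ∫ u in Ioi R, ((X + u) * (Y + u))⁻¹ := by
    unfold l0
    rw [intervalIntegral.integral_of_le hR0.le, ← setIntegral_union _ measurableSet_Ioi
      (hi.mono_set Ioc_subset_Ioi_self) (hi.mono_set (Ioi_subset_Ioi hR0.le)),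
      Ioc_union_Ioi_eq_Ioi hR0.le]
    rw [Set.disjoint_left]
    intro x hx hx'
    exact absurd hx.2 (not_le.2 hx')
  have hqc : IntervalIntegrable (fun u : ℝ => ((((X + u) * (Y + u))⁻¹ : ℝ) : ℂ)) volume 0 R :=
    ii_of hR0.le (Complex.continuous_ofReal.comp_continuousOn (q_cont hX0 hY0))
  have h1 : (∫ u in (0 : ℝ)..R, am θ R X Y u) - (l0 X Y : ℂ) =
      (∫ u in (0 : ℝ)..R, (am θ R X Y u - ((((X + u) * (Y + u))⁻¹ : ℝ) : ℂ))) -
        ((∫ u in Ioi R, ((X + u) * (Y + u))⁻¹ : ℝ) : ℂ) := by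
    rw [intervalIntegral.integral_sub (ii_of hR0.le (am_cont h hX0 hY0)) hqc, hsplit,
      intervalIntegral.integral_ofReal]
    push_cast
    ring
  have hXi : ContinuousOn (fun u : ℝ => (X + u)⁻¹) (Ici 0) := by
    apply ContinuousOn.inv₀
    · fun_prop
    · intro u hu
      have hu' : (0 : ℝ) ≤ u := hu
      positivity
  have hYi : ContinuousOn (fun u : ℝ => (Y + u)⁻¹) (Ici 0) := by
    apply ContinuousOn.inv₀
    · fun_prop
    · intro u hu
      have hu' : (0 : ℝ) ≤ u := hu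
      positivity
  have h2 : ‖∫ u in (0 : ℝ)..R, (am θ R X Y u - ((((X + u) * (Y + u))⁻¹ : ℝ) : ℂ))‖ ≤
      ∫ u in (0 : ℝ)..R, B ^ 2 / R * ((X + u)⁻¹ + (Y + u)⁻¹) := by
    apply intervalIntegral.norm_integral_le_of_norm_le hR0.le
    · refine Eventually.of_forall fun u hu => ?_
      have hu' : (0 : ℝ) ≤ u := hu.1.le
      have h3 : am θ R X Y u - ((((X + u) * (Y + u))⁻¹ : ℝ) : ℂ) =
          ((θ ((X + u) / R) - 1) * conj (θ ((Y + u) / R)) + conj (θ ((Y + u) / R) - 1)) *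
            ((((X + u) * (Y + u))⁻¹ : ℝ) : ℂ) := by
        unfold am
        rw [map_sub, map_one]
        ring
      have h4 : ‖(θ ((X + u) / R) - 1) * conj (θ ((Y + u) / R)) +
          conj (θ ((Y + u) / R) - 1)‖ ≤ B ^ 2 / R * ((X + u) + (Y + u)) := by
        have h5 : ‖(θ ((X + u) / R) - 1) * conj (θ ((Y + u) / R))‖ ≤
            B * ((X + u) / R) * B := by
          rw [norm_mul, RCLike.norm_conj]
          exact mul_le_mul (th_near h (by positivity)) (h.bd _) (norm_nonneg _) (by positivity)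
        have h6 : ‖conj (θ ((Y + u) / R) - 1)‖ ≤ B * ((Y + u) / R) := by
          rw [RCLike.norm_conj]
          exact th_near h (by positivity)
        have h7 : B * ((Y + u) / R) ≤ B * ((Y + u) / R) * B := by
          have : 0 ≤ B * ((Y + u) / R) := by positivity
          nlinarith
        calc _ ≤ _ := norm_add_le _ _
          _ ≤ B * ((X + u) / R) * B + B * ((Y + u) / R) * B := add_le_add h5 (h6.trans h7)
          _ = B ^ 2 / R * ((X + u) + (Y + u)) := by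
            field_simp
      rw [h3, norm_mul, Complex.norm_real, Real.norm_of_nonneg (by positivity)]
      calc _ ≤ B ^ 2 / R * ((X + u) + (Y + u)) * ((X + u) * (Y + u))⁻¹ :=
            mul_le_mul_of_nonneg_right h4 (by positivity)
        _ = B ^ 2 / R * ((X + u)⁻¹ + (Y + u)⁻¹) := by
            have : X + u ≠ 0 := by positivity
            have : Y + u ≠ 0 := by positivity
            field_simp
            ring
    · exact ii_of hR0.le ((hXi.add hYi).const_smul (B ^ 2 / R))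
  rw [intervalIntegral.integral_const_mul, intervalIntegral.integral_add (ii_of hR0.le hXi)
    (ii_of hR0.le hYi)] at h2
  have h3 := log_int hR hX hXR
  have h4 := log_int hR hY hYR
  have h5 : B ^ 2 / R * ((∫ u in (0 : ℝ)..R, (X + u)⁻¹) + ∫ u in (0 : ℝ)..R, (Y + u)⁻¹) ≤
      B ^ 2 / R * (2 + Real.log (R / X) + Real.log (R / Y)) := by
    apply mul_le_mul_of_nonneg_left _ (by positivity)
    linarith
  have h6 : ‖((∫ u in Ioi R, ((X + u) * (Y + u))⁻¹ : ℝ) : ℂ)‖ ≤ R⁻¹ := by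
    rw [Complex.norm_real, Real.norm_of_nonneg]
    · exact tail_le hR hX hY hi
    · apply setIntegral_nonneg measurableSet_Ioi
      intro u hu
      have hu' : (0 : ℝ) < u := lt_trans hR0 hu
      positivity
  rw [h1]
  exact (norm_sub_le _ _).trans (add_le_add (h2.trans h5) h6)

end

private theorem q_int' {X Y : ℝ} (hX : 1 ≤ X) (hY : 1 ≤ Y) :
    IntegrableOn (fun u : ℝ => ((X + u) * (Y + u))⁻¹) (Ioi 0) := by
  have hd : ∀ x ∈ Ici (0 : ℝ), HasDerivAt (fun u : ℝ => -(1 + u)⁻¹) (((1 + x) * (1 + x))⁻¹) x := by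
    intro x hx
    have hx' : (0 : ℝ) ≤ x := hx
    have h0 : 1 + x ≠ 0 := by positivity
    have h1 : HasDerivAt (fun u : ℝ => -(1 + u)⁻¹) (-(-1 / (1 + x) ^ 2)) x :=
      (((hasDerivAt_id x).const_add 1).inv h0).neg
    refine h1.congr_deriv ?_
    rw [neg_div, neg_neg, one_div, pow_two]
  have hpos : ∀ x ∈ Ioi (0 : ℝ), 0 ≤ ((1 + x) * (1 + x))⁻¹ := fun x hx => by
    have hx' : (0 : ℝ) < x := hx
    positivity
  have hlim : Tendsto (fun u : ℝ => -(1 + u)⁻¹) atTop (𝓝 0) := by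
    have h1 : Tendsto (fun u : ℝ => (1 + u)⁻¹) atTop (𝓝 0) :=
      tendsto_inv_atTop_zero.comp (tendsto_atTop_add_const_left _ 1 tendsto_id)
    simpa using h1.neg
  refine Integrable.mono' (integrableOn_Ioi_deriv_of_nonneg' hd hpos hlim)
    ((by fun_prop : Measurable fun u : ℝ => ((X + u) * (Y + u))⁻¹).aestronglyMeasurable) ?_
  refine (ae_restrict_iff' measurableSet_Ioi).2 (Eventually.of_forall fun u hu => ?_)
  have hu' : (0 : ℝ) < u := hu
  rw [Real.norm_of_nonneg (by positivity)]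
  apply inv_anti₀ (by positivity)
  apply mul_le_mul <;> linarith

private theorem kk_expand (hG : GZero) {θ θ' : ℝ → ℂ} {B : ℝ} (h : Cf θ θ' B) {R X Y : ℝ}
    (hR : 1 ≤ R) (hX : 1 ≤ X) (hY : 1 ≤ Y) :
    kk (FF θ R) R X Y = (1 + cexp (I * ((Y - X : ℝ) : ℂ))) * (∫ u in (0 : ℝ)..R, am θ R X Y u)
      - cexp (-I * (X : ℂ)) * (∫ u in (0 : ℝ)..R, am θ R X Y u * cexp (-I * (u : ℂ)))
      - cexp (I * (Y : ℂ)) * (∫ u in (0 : ℝ)..R, am θ R X Y u * cexp (I * (u : ℂ))) := by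
  have hR0 : (0 : ℝ) < R := by linarith
  have hX0 : (0 : ℝ) < X := by linarith
  have hY0 : (0 : ℝ) < Y := by linarith
  have hac := am_cont (R := R) h hX0 hY0
  have hc1 : Continuous fun u : ℝ => cexp (-I * (u : ℂ)) := by fun_prop
  have hc2 : Continuous fun u : ℝ => cexp (I * (u : ℂ)) := by fun_prop
  have hA : IntervalIntegrable (fun u : ℝ => (1 + cexp (I * ((Y - X : ℝ) : ℂ))) * am θ R X Y u)
      volume 0 R := (ii_of hR0.le hac).const_mul _
  have hBi : IntervalIntegrable (fun u : ℝ => cexp (-I * (X : ℂ)) *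
      (am θ R X Y u * cexp (-I * (u : ℂ)))) volume 0 R :=
    (ii_of hR0.le (hac.mul hc1.continuousOn)).const_mul _
  have hCi : IntervalIntegrable (fun u : ℝ => cexp (I * (Y : ℂ)) *
      (am θ R X Y u * cexp (I * (u : ℂ)))) volume 0 R :=
    (ii_of hR0.le (hac.mul hc2.continuousOn)).const_mul _
  unfold kk
  rw [← intervalIntegral.integral_const_mul, ← intervalIntegral.integral_const_mul,
    ← intervalIntegral.integral_const_mul, ← intervalIntegral.integral_sub hA hBi,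
    ← intervalIntegral.integral_sub (hA.sub hBi) hCi]
  · apply intervalIntegral.integral_congr
    intro u hu
    rw [uIcc_of_le hR0.le] at hu
    have hu' := hu.1
    have h0 : X + u ≠ 0 := by positivity
    have h0' : Y + u ≠ 0 := by positivity
    have h0c : ((X + u : ℝ) : ℂ) ≠ 0 := by exact_mod_cast h0
    have h0c' : ((Y + u : ℝ) : ℂ) ≠ 0 := by exact_mod_cast h0'
    have e1 : cexp (-(I * ((X + u : ℝ) : ℂ))) = cexp (-I * (X : ℂ)) * cexp (-I * (u : ℂ)) := by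
      rw [← Complex.exp_add]
      congr 1
      push_cast
      ring
    have e2 : cexp (I * ((Y + u : ℝ) : ℂ)) = cexp (I * (Y : ℂ)) * cexp (I * (u : ℂ)) := by
      rw [← Complex.exp_add]
      congr 1
      push_cast
      ring
    have e3 : cexp (-(I * ((X + u : ℝ) : ℂ))) * cexp (I * ((Y + u : ℝ) : ℂ)) =
        cexp (I * ((Y - X : ℝ) : ℂ)) := by
      rw [← Complex.exp_add]
      congr 1
      push_cast
      ring
    have e4 : conj (cexp (-(I * ((Y + u : ℝ) : ℂ)))) = cexp (I * ((Y + u : ℝ) : ℂ)) := by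
      rw [← Complex.exp_conj, map_neg, map_mul, Complex.conj_I, Complex.conj_ofReal]
      congr 1
      ring
    change FF θ R (X + u) * conj (FF θ R (Y + u)) =
      (1 + cexp (I * ((Y - X : ℝ) : ℂ))) * am θ R X Y u
        - cexp (-I * (X : ℂ)) * (am θ R X Y u * cexp (-I * (u : ℂ)))
        - cexp (I * (Y : ℂ)) * (am θ R X Y u * cexp (I * (u : ℂ)))
    unfold FF am
    rw [hG.1 _ h0, hG.1 _ h0', map_mul, map_div₀, map_sub, map_one, e4, map_mul,
      Complex.conj_I, Complex.conj_ofReal, ← e3]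
    have e5 : cexp (-I * (X : ℂ)) * (θ ((X + u) / R) * conj (θ ((Y + u) / R)) *
        ((((X + u) * (Y + u))⁻¹ : ℝ) : ℂ) * cexp (-I * (u : ℂ))) =
        θ ((X + u) / R) * conj (θ ((Y + u) / R)) * ((((X + u) * (Y + u))⁻¹ : ℝ) : ℂ) *
          cexp (-(I * ((X + u : ℝ) : ℂ))) := by
      rw [e1]
      ring
    have e6 : cexp (I * (Y : ℂ)) * (θ ((X + u) / R) * conj (θ ((Y + u) / R)) *
        ((((X + u) * (Y + u))⁻¹ : ℝ) : ℂ) * cexp (I * (u : ℂ))) =
        θ ((X + u) / R) * conj (θ ((Y + u) / R)) * ((((X + u) * (Y + u))⁻¹ : ℝ) : ℂ) *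
          cexp (I * ((Y + u : ℝ) : ℂ)) := by
      rw [e2]
      ring
    rw [e5, e6]
    have e7 : ((((X + u) * (Y + u))⁻¹ : ℝ) : ℂ) =
        (((X + u : ℝ) : ℂ) * ((Y + u : ℝ) : ℂ))⁻¹ := by
      push_cast
      rfl
    rw [e7]
    have hI : (I : ℂ) ≠ 0 := Complex.I_ne_zero
    field_simp
    ring_nf
    rw [Complex.I_sq]
    ring

theorem kMain (hG : GZero) (h2 : LZero) : KMain := by
  intro θ θ' B h
  have hB := h.one_le
  refine ⟨10 * B ^ 2, by nlinarith, ?_⟩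
  intro R X Y hX hXR hY hYR
  have hR : 1 ≤ R := hX.trans hXR
  have hR0 : (0 : ℝ) < R := by linarith
  have hX0 : (0 : ℝ) < X := by linarith
  have hY0 : (0 : ℝ) < Y := by linarith
  have hi := q_int' hX hY
  have hl : l0 X Y ≤ 1 := by
    refine ((h2.1 X Y hX0 hY0).2.1).trans ?_
    apply inv_le_one_of_one_le₀
    rw [Real.one_le_sqrt]
    nlinarith
  have hnI : ∀ u : ℝ, ‖cexp (I * (u : ℂ))‖ = 1 := by
    intro u
    rw [mul_comm]
    exact Complex.norm_exp_ofReal_mul_I u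
  have hnI' : ∀ u : ℝ, ‖cexp (-I * (u : ℂ))‖ = 1 := by
    intro u
    have h1 : -I * (u : ℂ) = ((-u : ℝ) : ℂ) * I := by
      push_cast
      ring
    rw [h1]
    exact Complex.norm_exp_ofReal_mul_I (-u)
  have ho1 := am_osc h hR hX hY hi hl I Complex.I_mul_I
  have ho2 := am_osc h hR hX hY hi hl (-I) (by rw [neg_mul_neg]; exact Complex.I_mul_I)
  have hm := am_main h hR hX hY hXR hYR hi
  rw [kk_expand hG h hR hX hY]
  set J := ∫ u in (0 : ℝ)..R, am θ R X Y u with hJ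
  set J1 := ∫ u in (0 : ℝ)..R, am θ R X Y u * cexp (-I * (u : ℂ)) with hJ1
  set J2 := ∫ u in (0 : ℝ)..R, am θ R X Y u * cexp (I * (u : ℂ)) with hJ2
  have e1 : (1 + cexp (I * ((Y - X : ℝ) : ℂ))) * J - cexp (-I * (X : ℂ)) * J1
      - cexp (I * (Y : ℂ)) * J2 - (1 + cexp (I * ((Y - X : ℝ) : ℂ))) * (l0 X Y : ℂ) =
      (1 + cexp (I * ((Y - X : ℝ) : ℂ))) * (J - (l0 X Y : ℂ)) - cexp (-I * (X : ℂ)) * J1
      - cexp (I * (Y : ℂ)) * J2 := by ring
  rw [e1]
  have n1 : ‖1 + cexp (I * ((Y - X : ℝ) : ℂ))‖ ≤ 2 := by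
    refine (norm_add_le _ _).trans ?_
    rw [hnI, norm_one]
    norm_num
  have n2 : ‖(1 + cexp (I * ((Y - X : ℝ) : ℂ))) * (J - (l0 X Y : ℂ))‖ ≤
      2 * (B ^ 2 / R * (2 + Real.log (R / X) + Real.log (R / Y)) + R⁻¹) := by
    rw [norm_mul]
    exact mul_le_mul n1 hm (norm_nonneg _) (by norm_num)
  have n3 : ‖cexp (-I * (X : ℂ)) * J1‖ ≤ 3 * B ^ 2 * (X * Y)⁻¹ + 2 * B ^ 2 / R := by
    rw [norm_mul, hnI', one_mul]
    exact ho2
  have n4 : ‖cexp (I * (Y : ℂ)) * J2‖ ≤ 3 * B ^ 2 * (X * Y)⁻¹ + 2 * B ^ 2 / R := by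
    rw [norm_mul, hnI, one_mul]
    exact ho1
  have hlX : 0 ≤ Real.log (R / X) := Real.log_nonneg (by rw [le_div_iff₀ hX0]; linarith)
  have hlY : 0 ≤ Real.log (R / Y) := Real.log_nonneg (by rw [le_div_iff₀ hY0]; linarith)
  have n5 := (norm_sub_le ((1 + cexp (I * ((Y - X : ℝ) : ℂ))) * (J - (l0 X Y : ℂ)) -
    cexp (-I * (X : ℂ)) * J1) (cexp (I * (Y : ℂ)) * J2)).trans
    (add_le_add (norm_sub_le _ _) le_rfl)
  refine n5.trans ((add_le_add (add_le_add n2 n3) n4).trans ?_)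
  have hRi : 0 < R⁻¹ := by positivity
  have hXY : 0 < (X * Y)⁻¹ := by positivity
  rw [div_eq_mul_inv (B ^ 2) R, div_eq_mul_inv (2 * B ^ 2) R,
    div_eq_mul_inv (1 + Real.log (R / X) + Real.log (R / Y)) R]
  have hB2 : 1 ≤ B ^ 2 := by nlinarith
  have p1 : 0 ≤ B ^ 2 * R⁻¹ * Real.log (R / X) := by positivity
  have p2 : 0 ≤ B ^ 2 * R⁻¹ * Real.log (R / Y) := by positivity
  have p3 : R⁻¹ ≤ B ^ 2 * R⁻¹ := by nlinarith
  have p4 : 0 ≤ B ^ 2 * (X * Y)⁻¹ := by positivity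
  nlinarith

end Pool.Agent.Lib.MP4
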