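import Mathlib
import Pool.Agent.Lib.MP_f9aece_nt_mq.StmtsF

/-!
The fourth moment of the plain average of zeta over short windows, module FD2.

(X+u)(Y+u) >= (sqrt(XY)+u)^2 gives the bound; formula by partial fractions (integral_Ioi of ((Y+u)^-1 - (X+u)^-1)/(X-Y)); homogeneity by substitution; continuity by dominated convergence (or from the formulas); derivative in Y: - int (X+u)^-1 (Y+u)^-2 du, |.| <= l0/Y.
-/

set_option autoImplicit false

namespace Pool.Agent.Lib.MP4

open MeasureTheory Set Filter Topology Complex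
open scoped ComplexConjugate
open Pool.Agent.Lib.MS (psi Adm ZW ZS Res ZIdent PowClose)
open Pool.Agent.Lib
open Pool.Agent.Lib.MP2 (RD Av PA BumpFn Th Ss ph Prim PhAdm Cont Ident Top)

private theorem sq_int {m : ℝ} (hm : 0 < m) :
    IntegrableOn (fun u : ℝ => ((m + u) * (m + u))⁻¹) (Ioi 0) ∧
      ∫ u in Ioi (0 : ℝ), ((m + u) * (m + u))⁻¹ = m⁻¹ := by
  have hd : ∀ x ∈ Ici (0 : ℝ),
      HasDerivAt (fun u : ℝ => -(m + u)⁻¹) (((m + x) * (m + x))⁻¹) x := by
    intro x hx
    have hx' : (0 : ℝ) ≤ x := hx
    have h0 : m + x ≠ 0 := by positivity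
    have h1 : HasDerivAt (fun u : ℝ => -(m + u)⁻¹) (-(-1 / (m + x) ^ 2)) x :=
      (((hasDerivAt_id x).const_add m).inv h0).neg
    refine h1.congr_deriv ?_
    rw [neg_div, neg_neg, one_div, pow_two]
  have hpos : ∀ x ∈ Ioi (0 : ℝ), 0 ≤ ((m + x) * (m + x))⁻¹ := fun x hx => by
    have hx' : (0 : ℝ) < x := hx
    positivity
  have hlim : Tendsto (fun u : ℝ => -(m + u)⁻¹) atTop (𝓝 0) := by
    have h1 : Tendsto (fun u : ℝ => (m + u)⁻¹) atTop (𝓝 0) :=
      tendsto_inv_atTop_zero.comp (tendsto_atTop_add_const_left _ m tendsto_id)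
    simpa using h1.neg
  refine ⟨integrableOn_Ioi_deriv_of_nonneg' hd hpos hlim, ?_⟩
  rw [integral_Ioi_of_hasDerivAt_of_nonneg' hd hpos hlim]
  simp

private theorem q_int {X Y : ℝ} (hX : 0 < X) (hY : 0 < Y) :
    IntegrableOn (fun u : ℝ => ((X + u) * (Y + u))⁻¹) (Ioi 0) := by
  have hm : 0 < min X Y := lt_min hX hY
  refine Integrable.mono' (sq_int hm).1
    ((by fun_prop : Measurable fun u : ℝ => ((X + u) * (Y + u))⁻¹).aestronglyMeasurable) ?_
  refine (ae_restrict_iff' measurableSet_Ioi).2 (Eventually.of_forall fun u hu => ?_)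
  have hu' : (0 : ℝ) < u := hu
  rw [Real.norm_of_nonneg (by positivity)]
  apply inv_anti₀ (by positivity)
  apply mul_le_mul
  · linarith [min_le_left X Y]
  · linarith [min_le_right X Y]
  · positivity
  · positivity

private theorem r_int {X Y : ℝ} (hX : 0 < X) (hY : 0 < Y) :
    IntegrableOn (fun u : ℝ => ((X + u) * (Y + u) ^ 2)⁻¹) (Ioi 0) ∧
      ∫ u in Ioi (0 : ℝ), ((X + u) * (Y + u) ^ 2)⁻¹ ≤ l0 X Y / Y := by
  have hle : ∀ u ∈ Ioi (0 : ℝ), ((X + u) * (Y + u) ^ 2)⁻¹ ≤ Y⁻¹ * ((X + u) * (Y + u))⁻¹ := by
    intro u hu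
    have hu' : (0 : ℝ) < u := hu
    rw [← mul_inv]
    apply inv_anti₀ (by positivity)
    have h1 : Y * ((X + u) * (Y + u)) ≤ (Y + u) * ((X + u) * (Y + u)) := by
      apply mul_le_mul_of_nonneg_right (by linarith) (by positivity)
    calc Y * ((X + u) * (Y + u)) ≤ (Y + u) * ((X + u) * (Y + u)) := h1
      _ = (X + u) * (Y + u) ^ 2 := by ring
  have hi := (q_int hX hY).const_mul Y⁻¹
  have h1 : IntegrableOn (fun u : ℝ => ((X + u) * (Y + u) ^ 2)⁻¹) (Ioi 0) := by
    refine Integrable.mono' hi
      ((by fun_prop : Measurable fun u : ℝ => ((X + u) * (Y + u) ^ 2)⁻¹).aestronglyMeasurable) ?_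
    refine (ae_restrict_iff' measurableSet_Ioi).2 (Eventually.of_forall fun u hu => ?_)
    have hu' : (0 : ℝ) < u := hu
    rw [Real.norm_of_nonneg (by positivity)]
    exact hle u hu
  refine ⟨h1, ?_⟩
  have h2 := setIntegral_mono_on h1 hi measurableSet_Ioi hle
  rw [integral_const_mul] at h2
  rw [div_eq_inv_mul]
  exact h2

private theorem l0_self {X : ℝ} (hX : 0 < X) : l0 X X = X⁻¹ := (sq_int hX).2

private theorem l0_symm (X Y : ℝ) : l0 Y X = l0 X Y := by
  unfold l0
  simp_rw [mul_comm]

private theorem l0_formula {X Y : ℝ} (hX : 0 < X) (hY : 0 < Y) (hne : X ≠ Y) :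
    l0 X Y = (Real.log X - Real.log Y) / (X - Y) := by
  have hXY : X - Y ≠ 0 := sub_ne_zero.2 hne
  have hd : ∀ x ∈ Ici (0 : ℝ),
      HasDerivAt (fun u : ℝ => (Real.log (Y + u) - Real.log (X + u)) / (X - Y))
        (((X + x) * (Y + x))⁻¹) x := by
    intro x hx
    have hx' : (0 : ℝ) ≤ x := hx
    have h0 : X + x ≠ 0 := by positivity
    have h0' : Y + x ≠ 0 := by positivity
    have h1 : HasDerivAt (fun u : ℝ => (Real.log (Y + u) - Real.log (X + u)) / (X - Y))
        ((1 / (Y + x) - 1 / (X + x)) / (X - Y)) x :=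
      ((((hasDerivAt_id x).const_add Y).log h0').sub
        (((hasDerivAt_id x).const_add X).log h0)).div_const (X - Y)
    refine h1.congr_deriv ?_
    field_simp
    ring
  have hpos : ∀ x ∈ Ioi (0 : ℝ), 0 ≤ ((X + x) * (Y + x))⁻¹ := fun x hx => by
    have hx' : (0 : ℝ) < x := hx
    positivity
  have hlim : Tendsto (fun u : ℝ => (Real.log (Y + u) - Real.log (X + u)) / (X - Y)) atTop
      (𝓝 0) := by
    have h1 : Tendsto (fun u : ℝ => (Y - X) * (X + u)⁻¹) atTop (𝓝 0) := by
      have h2 : Tendsto (fun u : ℝ => (X + u)⁻¹) atTop (𝓝 0) :=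
        tendsto_inv_atTop_zero.comp (tendsto_atTop_add_const_left _ X tendsto_id)
      simpa using h2.const_mul (Y - X)
    have h3 : Tendsto (fun u : ℝ => Real.log (1 + (Y - X) * (X + u)⁻¹)) atTop (𝓝 0) := by
      have h4 : Tendsto (fun u : ℝ => 1 + (Y - X) * (X + u)⁻¹) atTop (𝓝 1) := by
        simpa using h1.const_add 1
      have h5 := (Real.continuousAt_log (one_ne_zero)).tendsto.comp h4
      rw [Real.log_one] at h5
      exact h5
    have h4 : Tendsto (fun u : ℝ => Real.log (Y + u) - Real.log (X + u)) atTop (𝓝 0) := by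
      refine h3.congr' ?_
      filter_upwards [eventually_gt_atTop 0] with u hu
      rw [← Real.log_div (by positivity) (by positivity)]
      congr 1
      have : X + u ≠ 0 := by positivity
      field_simp
      ring
    simpa using h4.div_const (X - Y)
  unfold l0
  rw [integral_Ioi_of_hasDerivAt_of_nonneg' hd hpos hlim]
  simp only [add_zero]
  rw [zero_sub, ← neg_div]
  congr 1
  ring

theorem lZero : LZero := by
  refine ⟨?_, fun X Y hX hY hne => l0_formula hX hY hne, ?_, ?_, ?_⟩
  · intro X Y hX hY
    refine ⟨setIntegral_nonneg measurableSet_Ioi fun u hu => ?_, ?_, l0_symm X Y⟩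
    · have hu' : (0 : ℝ) < u := hu
      positivity
    · have hs : 0 < Real.sqrt (X * Y) := Real.sqrt_pos.2 (by positivity)
      rw [← (sq_int hs).2]
      apply setIntegral_mono_on (q_int hX hY) (sq_int hs).1 measurableSet_Ioi
      intro u hu
      have hu' : (0 : ℝ) < u := hu
      apply inv_anti₀ (by positivity)
      have h1 : Real.sqrt (X * Y) * Real.sqrt (X * Y) = X * Y :=
        Real.mul_self_sqrt (by positivity)
      have h2 : 2 * Real.sqrt (X * Y) ≤ X + Y := by
        apply le_of_sq_le_sq _ (by positivity)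
        nlinarith [sq_nonneg (X - Y)]
      nlinarith
  · intro a X Y ha hX hY
    by_cases hne : X = Y
    · subst hne
      rw [l0_self (by positivity), l0_self hX, mul_inv]
    · have hne' : a * X ≠ a * Y := fun h => hne (mul_left_cancel₀ ha.ne' h)
      rw [l0_formula (by positivity) (by positivity) hne', l0_formula hX hY hne,
        Real.log_mul ha.ne' hX.ne', Real.log_mul ha.ne' hY.ne']
      have h1 : X - Y ≠ 0 := sub_ne_zero.2 hne
      have h2 : a * X - a * Y ≠ 0 := sub_ne_zero.2 hne'
      field_simp
      ring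
  · rintro ⟨X, Y⟩ ⟨hX, hY⟩
    have hX' : (0 : ℝ) < X := hX
    have hY' : (0 : ℝ) < Y := hY
    apply ContinuousAt.continuousWithinAt
    have hb := q_int (half_pos hX') (half_pos hY')
    have hev : ∀ᶠ p : ℝ × ℝ in 𝓝 (X, Y), X / 2 < p.1 ∧ Y / 2 < p.2 := by
      apply Filter.Eventually.and
      · exact continuousAt_fst.eventually (lt_mem_nhds (by simp; linarith))
      · exact continuousAt_snd.eventually (lt_mem_nhds (by simp; linarith))
    refine continuousAt_of_dominated (F := fun (p : ℝ × ℝ) (u : ℝ) =>
      ((p.1 + u) * (p.2 + u))⁻¹) (bound := fun u => ((X / 2 + u) * (Y / 2 + u))⁻¹) ?_ ?_ hb ?_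
    · exact Eventually.of_forall fun p =>
        (by fun_prop : Measurable fun u : ℝ => ((p.1 + u) * (p.2 + u))⁻¹).aestronglyMeasurable
    · filter_upwards [hev] with p hp
      refine (ae_restrict_iff' measurableSet_Ioi).2 (Eventually.of_forall fun u hu => ?_)
      have hu' : (0 : ℝ) < u := hu
      have h1 : 0 < p.1 := by linarith [hp.1]
      have h2 : 0 < p.2 := by linarith [hp.2]
      rw [Real.norm_of_nonneg (by positivity)]
      apply inv_anti₀ (by positivity)
      apply mul_le_mul
      · linarith [hp.1]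
      · linarith [hp.2]
      · positivity
      · positivity
    · refine (ae_restrict_iff' measurableSet_Ioi).2 (Eventually.of_forall fun u hu => ?_)
      have hu' : (0 : ℝ) < u := hu
      apply ContinuousAt.inv₀
      · fun_prop
      · have h1 : X + u ≠ 0 := by positivity
        have h2 : Y + u ≠ 0 := by positivity
        exact mul_ne_zero h1 h2
  · refine ⟨fun X Y => -∫ u in Ioi (0 : ℝ), ((X + u) * (Y + u) ^ 2)⁻¹, ?_, ?_⟩
    · apply ContinuousOn.neg
      rintro ⟨X, Y⟩ ⟨hX, hY⟩
      have hX' : (0 : ℝ) < X := hX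
      have hY' : (0 : ℝ) < Y := hY
      apply ContinuousAt.continuousWithinAt
      have hb := (r_int (half_pos hX') (half_pos hY')).1
      have hev : ∀ᶠ p : ℝ × ℝ in 𝓝 (X, Y), X / 2 < p.1 ∧ Y / 2 < p.2 := by
        apply Filter.Eventually.and
        · exact continuousAt_fst.eventually (lt_mem_nhds (by simp; linarith))
        · exact continuousAt_snd.eventually (lt_mem_nhds (by simp; linarith))
      refine continuousAt_of_dominated (F := fun (p : ℝ × ℝ) (u : ℝ) =>
        ((p.1 + u) * (p.2 + u) ^ 2)⁻¹) (bound := fun u => ((X / 2 + u) * (Y / 2 + u) ^ 2)⁻¹)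
        ?_ ?_ hb ?_
      · exact Eventually.of_forall fun p =>
          (by fun_prop : Measurable fun u : ℝ =>
            ((p.1 + u) * (p.2 + u) ^ 2)⁻¹).aestronglyMeasurable
      · filter_upwards [hev] with p hp
        refine (ae_restrict_iff' measurableSet_Ioi).2 (Eventually.of_forall fun u hu => ?_)
        have hu' : (0 : ℝ) < u := hu
        have h1 : 0 < p.1 := by linarith [hp.1]
        have h2 : 0 < p.2 := by linarith [hp.2]
        rw [Real.norm_of_nonneg (by positivity)]
        apply inv_anti₀ (by positivity)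
        apply mul_le_mul
        · linarith [hp.1]
        · apply pow_le_pow_left₀ (by positivity)
          linarith [hp.2]
        · positivity
        · positivity
      · refine (ae_restrict_iff' measurableSet_Ioi).2 (Eventually.of_forall fun u hu => ?_)
        have hu' : (0 : ℝ) < u := hu
        apply ContinuousAt.inv₀
        · fun_prop
        · have h1 : X + u ≠ 0 := by positivity
          have h2 : Y + u ≠ 0 := by positivity
          exact mul_ne_zero h1 (pow_ne_zero 2 h2)
    · intro X Y hX hY
      constructor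
      · have hb := (r_int hX (half_pos hY)).1
        have hkey := hasDerivAt_integral_of_dominated_loc_of_deriv_le
          (μ := volume.restrict (Ioi (0 : ℝ))) (x₀ := Y) (s := Metric.ball Y (Y / 2))
          (F := fun (y u : ℝ) => ((X + u) * (y + u))⁻¹)
          (F' := fun (y u : ℝ) => -((X + u) * (y + u) ^ 2)⁻¹)
          (bound := fun u => ((X + u) * (Y / 2 + u) ^ 2)⁻¹)
          (Metric.ball_mem_nhds Y (half_pos hY))
          (Eventually.of_forall fun y =>
            (by fun_prop : Measurable fun u : ℝ => ((X + u) * (y + u))⁻¹).aestronglyMeasurable)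
          (q_int hX hY)
          ((by fun_prop : Measurable fun u : ℝ =>
            -((X + u) * (Y + u) ^ 2)⁻¹).aestronglyMeasurable) ?_ hb ?_
        · have h3 := hkey.2
          rw [integral_neg] at h3
          exact h3
        · refine (ae_restrict_iff' measurableSet_Ioi).2 (Eventually.of_forall fun u hu y hy => ?_)
          have hu' : (0 : ℝ) < u := hu
          have hy' : Y / 2 < y := by
            have := (abs_lt.1 (Metric.mem_ball.1 hy)).1
            linarith
          have hy0 : 0 < y := by linarith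
          rw [norm_neg, Real.norm_of_nonneg (by positivity)]
          apply inv_anti₀ (by positivity)
          apply mul_le_mul le_rfl _ (by positivity) (by positivity)
          apply pow_le_pow_left₀ (by positivity)
          linarith
        · refine (ae_restrict_iff' measurableSet_Ioi).2 (Eventually.of_forall fun u hu y hy => ?_)
          have hu' : (0 : ℝ) < u := hu
          have hy' : Y / 2 < y := by
            have := (abs_lt.1 (Metric.mem_ball.1 hy)).1
            linarith
          have hy0 : 0 < y := by linarith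
          have h1 : X + u ≠ 0 := by positivity
          have h2 : y + u ≠ 0 := by positivity
          have h3 : HasDerivAt (fun y : ℝ => ((X + u) * (y + u))⁻¹)
              (-((X + u) * 1) / ((X + u) * (y + u)) ^ 2) y :=
            (((hasDerivAt_id y).add_const u).const_mul (X + u)).inv (mul_ne_zero h1 h2)
          refine h3.congr_deriv ?_
          field_simp
      · rw [abs_neg, abs_of_nonneg]
        · exact (r_int hX hY).2
        · apply setIntegral_nonneg measurableSet_Ioi
          intro u hu
          have hu' : (0 : ℝ) < u := hu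
          positivity

end Pool.Agent.Lib.MP4
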