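import Mathlib
import Pool.Agent.Lib.MP_f9aece_nt_mq.StmtsF

/-!
The fourth moment of the plain average of zeta over short windows, module FD3.

int over (0,1): (log s)^2/(1-s)^2 = sum_n (n+1) s^n (log s)^2, int_0^1 s^n (log s)^2 ds = 2/(n+1)^3 (Mathlib: integral of rpow times log powers, or substitution s = e^-t and Gamma), hasSum_integral_of_summable / lintegral_tsum, sum 2/(n+1)^2 = pi^2/3 (hasSum_zeta_two). int over (1,oo) = int over (0,1) by s -> 1/s (integral_comp_inv_Ioi or integral_image_eq_integral_abs_deriv_smul).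
-/

set_option autoImplicit false

namespace Pool.Agent.Lib.MP4

open MeasureTheory Set Filter Topology Complex
open scoped ComplexConjugate
open Pool.Agent.Lib.MS (psi Adm ZW ZS Res ZIdent PowClose)
open Pool.Agent.Lib
open Pool.Agent.Lib.MP2 (RD Av PA BumpFn Th Ss ph Prim PhAdm Cont Ident Top)

private noncomputable def hh (t : ℝ) : ℝ := t ^ 2 * (Real.exp (-t) / (1 - Real.exp (-t)) ^ 2)

private theorem hh_int_term (n : ℕ) : ∫ t in Ioi (0 : ℝ), t ^ 2 * ((n : ℝ) * Real.exp (-t) ^ n)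
    = 2 * (1 / (n : ℝ) ^ 2) := by
  rcases Nat.eq_zero_or_pos n with h | h
  · subst h; simp
  · have hn : (0 : ℝ) < n := by exact_mod_cast h
    have h1 := Real.integral_rpow_mul_exp_neg_mul_Ioi (a := 3) (r := n) (by norm_num) hn
    have h2 : ∀ t ∈ Ioi (0 : ℝ), t ^ 2 * ((n : ℝ) * Real.exp (-t) ^ n)
        = (n : ℝ) * (t ^ ((3 : ℝ) - 1) * Real.exp (-((n : ℝ) * t))) := by
      intro t ht
      have e1 : t ^ ((3 : ℝ) - 1) = t ^ 2 := by
        rw [show (3 : ℝ) - 1 = ((2 : ℕ) : ℝ) by norm_num, Real.rpow_natCast]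
      have e2 : Real.exp (-t) ^ n = Real.exp (-((n : ℝ) * t)) := by
        rw [← Real.exp_nat_mul]; congr 1; ring
      rw [e1, e2]; ring
    rw [setIntegral_congr_fun measurableSet_Ioi h2, integral_const_mul, h1]
    have e3 : Real.Gamma 3 = 2 := by
      have h5 : Real.Gamma ((2:ℕ) + 1) = ((Nat.factorial 2 : ℕ) : ℝ) := Real.Gamma_nat_eq_factorial 2
      rw [show (3 : ℝ) = ((2:ℕ) : ℝ) + 1 by norm_num, h5]
      norm_num [Nat.factorial]
    have e4 : (1 / (n : ℝ)) ^ (3 : ℝ) = 1 / (n : ℝ) ^ 3 := by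
      rw [show (3 : ℝ) = ((3 : ℕ) : ℝ) by norm_num, Real.rpow_natCast]
      rw [one_div, one_div, inv_pow]
    rw [e3, e4]
    field_simp

private theorem hh_term_int (n : ℕ) :
    IntegrableOn (fun t : ℝ => t ^ 2 * ((n : ℝ) * Real.exp (-t) ^ n)) (Ioi 0) := by
  rcases Nat.eq_zero_or_pos n with h | h
  · subst h; simp
  · apply Integrable.of_integral_ne_zero
    rw [hh_int_term]
    have hn : (0 : ℝ) < n := by exact_mod_cast h
    positivity

private theorem hh_tsum (t : ℝ) (ht : 0 < t) :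
    ∑' n : ℕ, t ^ 2 * ((n : ℝ) * Real.exp (-t) ^ n) = hh t := by
  have h1 : ‖Real.exp (-t)‖ < 1 := by
    rw [Real.norm_eq_abs, abs_of_pos (Real.exp_pos _)]
    exact (Real.exp_lt_one_iff.2 (by linarith))
  have h2 := (hasSum_coe_mul_geometric_of_norm_lt_one h1).mul_left (t ^ 2)
  exact h2.tsum_eq

private theorem hh_main : ∫ t in Ioi (0 : ℝ), hh t = Real.pi ^ 2 / 3 := by
  have h1 : HasSum (fun n : ℕ => ∫ t in Ioi (0 : ℝ), t ^ 2 * ((n : ℝ) * Real.exp (-t) ^ n))
      (∫ t in Ioi (0 : ℝ), ∑' n : ℕ, t ^ 2 * ((n : ℝ) * Real.exp (-t) ^ n)) := by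
    apply hasSum_integral_of_summable_integral_norm hh_term_int
    have e : ∀ n : ℕ, ∫ t in Ioi (0 : ℝ), ‖t ^ 2 * ((n : ℝ) * Real.exp (-t) ^ n)‖ = 2 * (1 / (n : ℝ) ^ 2) := by
      intro n
      rw [← hh_int_term n]
      apply setIntegral_congr_fun measurableSet_Ioi
      intro t _
      simp only [Real.norm_eq_abs]
      rw [abs_of_nonneg (by positivity)]
    simp only [e]
    exact hasSum_zeta_two.summable.mul_left 2
  have h2 : HasSum (fun n : ℕ => ∫ t in Ioi (0 : ℝ), t ^ 2 * ((n : ℝ) * Real.exp (-t) ^ n))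
      (Real.pi ^ 2 / 3) := by
    simp only [hh_int_term]
    have := hasSum_zeta_two.mul_left 2
    have e5 : 2 * (Real.pi ^ 2 / 6) = Real.pi ^ 2 / 3 := by ring
    rw [← e5]
    exact this
  have h3 := h1.unique h2
  rw [← h3]
  apply setIntegral_congr_fun measurableSet_Ioi
  intro t ht
  exact (hh_tsum t ht).symm

private theorem hh_integrable : IntegrableOn hh (Ioi 0) := by
  apply Integrable.of_integral_ne_zero
  rw [hh_main]
  positivity

private noncomputable def ff (s : ℝ) : ℝ := (Real.log s / (s - 1)) ^ 2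

private theorem img_exp : Real.exp '' Ioi 0 = Ioi 1 := by
  ext s
  simp only [mem_image, mem_Ioi]
  constructor
  · rintro ⟨t, ht, rfl⟩
    exact Real.one_lt_exp_iff.2 ht
  · intro hs
    exact ⟨Real.log s, Real.log_pos hs, Real.exp_log (by linarith)⟩

private theorem img_exp' : (fun t => Real.exp (-t)) '' Ioi 0 = Ioo 0 1 := by
  ext s
  simp only [mem_image, mem_Ioi, mem_Ioo]
  constructor
  · rintro ⟨t, ht, rfl⟩
    exact ⟨Real.exp_pos _, (Real.exp_lt_one_iff.2 (by linarith))⟩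
  · rintro ⟨hs0, hs1⟩
    exact ⟨-Real.log s, by have := Real.log_neg hs0 hs1; linarith, by rw [neg_neg, Real.exp_log hs0]⟩

private theorem ff_exp {t : ℝ} (ht : t ∈ Ioi (0:ℝ)) : |Real.exp t| • ff (Real.exp t) = hh t := by
  have ht0 : (0:ℝ) < t := ht
  unfold ff hh
  rw [Real.log_exp, abs_of_pos (Real.exp_pos t), smul_eq_mul, Real.exp_neg]
  have h1 : Real.exp t - 1 ≠ 0 := by
    have := Real.one_lt_exp_iff.2 ht0
    linarith
  have h2 : Real.exp t ≠ 0 := (Real.exp_pos t).ne'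
  have h3 : 1 - (Real.exp t)⁻¹ = (Real.exp t - 1) / Real.exp t := by field_simp
  rw [h3]
  field_simp

private theorem ff_exp' {t : ℝ} (ht : t ∈ Ioi (0:ℝ)) : |-Real.exp (-t)| • ff (Real.exp (-t)) = hh t := by
  have ht0 : (0:ℝ) < t := ht
  unfold ff hh
  rw [Real.log_exp, abs_neg, abs_of_pos (Real.exp_pos _), smul_eq_mul]
  have h1 : 1 - Real.exp (-t) ≠ 0 := by
    have : Real.exp (-t) < 1 := (Real.exp_lt_one_iff.2 (by linarith))
    linarith
  have h3 : Real.exp (-t) - 1 = -(1 - Real.exp (-t)) := by ring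
  rw [h3]
  field_simp

private theorem constR : IntegrableOn (fun s : ℝ => (Real.log s / (s - 1)) ^ 2) (Ioi 0) ∧
  ∫ s in Ioi (0 : ℝ), (Real.log s / (s - 1)) ^ 2 = 2 * Real.pi ^ 2 / 3 := by
  have d1 : ∀ t ∈ Ioi (0:ℝ), HasDerivWithinAt Real.exp (Real.exp t) (Ioi 0) t :=
    fun t _ => (Real.hasDerivAt_exp t).hasDerivWithinAt
  have d2 : ∀ t ∈ Ioi (0:ℝ), HasDerivWithinAt (fun t => Real.exp (-t)) (-Real.exp (-t)) (Ioi 0) t := by
    intro t _
    have := ((hasDerivAt_neg t).exp)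
    simpa using this.hasDerivWithinAt
  have i1 : InjOn Real.exp (Ioi 0) := Real.exp_injective.injOn
  have i2 : InjOn (fun t => Real.exp (-t)) (Ioi 0) := by
    intro a _ b _ h
    have := Real.exp_injective h
    linarith
  have A1 : IntegrableOn ff (Ioi 1) := by
    rw [← img_exp, integrableOn_image_iff_integrableOn_abs_deriv_smul measurableSet_Ioi d1 i1]
    exact hh_integrable.congr_fun (fun t ht => (ff_exp ht).symm) measurableSet_Ioi
  have A2 : IntegrableOn ff (Ioo 0 1) := by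
    rw [← img_exp', integrableOn_image_iff_integrableOn_abs_deriv_smul measurableSet_Ioi d2 i2]
    exact hh_integrable.congr_fun (fun t ht => (ff_exp' ht).symm) measurableSet_Ioi
  have B1 : ∫ s in Ioi (1:ℝ), ff s = Real.pi ^ 2 / 3 := by
    rw [← img_exp, integral_image_eq_integral_abs_deriv_smul measurableSet_Ioi d1 i1, ← hh_main]
    exact setIntegral_congr_fun measurableSet_Ioi (fun t ht => ff_exp ht)
  have B2 : ∫ s in Ioo (0:ℝ) 1, ff s = Real.pi ^ 2 / 3 := by
    rw [← img_exp', integral_image_eq_integral_abs_deriv_smul measurableSet_Ioi d2 i2, ← hh_main]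
    exact setIntegral_congr_fun measurableSet_Ioi (fun t ht => ff_exp' ht)
  have A3 : IntegrableOn ff (Ioc 0 1) := by
    rw [integrableOn_Ioc_iff_integrableOn_Ioo]; exact A2
  have B3 : ∫ s in Ioc (0:ℝ) 1, ff s = Real.pi ^ 2 / 3 := by rw [integral_Ioc_eq_integral_Ioo]; exact B2
  have e : Ioi (0:ℝ) = Ioc 0 1 ∪ Ioi 1 := (Ioc_union_Ioi_eq_Ioi zero_le_one).symm
  have A : IntegrableOn ff (Ioi 0) := by rw [e]; exact A3.union A1
  refine ⟨A, ?_⟩
  have : ∫ s in Ioi (0:ℝ), ff s = 2 * Real.pi ^ 2 / 3 := by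
    rw [e, setIntegral_union (Ioc_disjoint_Ioi le_rfl) measurableSet_Ioi A3 A1, B1, B3]
    ring
  exact this

theorem const : Const := constR

end Pool.Agent.Lib.MP4
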