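import Mathlib
import Pool.Agent.Lib.MP_f9aece_nt_mq.StmtsF

/-!
The fourth moment of the plain average of zeta over short windows, module FD4.

For Y in [1,R]: int_1^R l0(X,Y)^2 dX = Y^-1 int_{1/Y..R/Y} l0(s,1)^2 ds (homogeneity) = Y^-1 (2pi^2/3 - tails), tails: int_0^{1/Y} l0(s,1)^2 <= C Y^(-1/2)... (l0(s,1) <= 4 s^(-1/4) for s <= 1 and <= 4 s^(-3/4) for s >= 1, from log bounds, or from int ((s+u)(1+u))^-1 <= int (s+u)^(-5/4)..: for s >= 1: <= s^(-3/4) int (1+u)^(-5/4) = 4 s^(-3/4); for s <= 1: (s+u)^(-5/4)(..)): int_0^{1/Y} 16 s^(-1/2) = 32 Y^(-1/2), int_{R/Y}^oo 16 s^(-3/2) = 32 (Y/R)^(1/2); int_1^R Y^-1 (Y^(-1/2) + (Y/R)^(1/2)) dY <= 4. The integrals are symmetric in X,Y, choose the order which is convenient.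
-/

set_option autoImplicit false

namespace Pool.Agent.Lib.MP4

open MeasureTheory Set Filter Topology Complex
open scoped ComplexConjugate
open Pool.Agent.Lib.MS (psi Adm ZW ZS Res ZIdent PowClose)
open Pool.Agent.Lib
open Pool.Agent.Lib.MP2 (RD Av PA BumpFn Th Ss ph Prim PhAdm Cont Ident Top)

/-- bound of the homogeneous kernel for large arguments -/
private theorem lInt_big (h2 : LZero) (s : ℝ) (hs : 1 ≤ s) : l0 1 s ^ 2 ≤ 64 * s ^ (-(3 / 2) : ℝ) := by
  obtain ⟨hb, hf, hh, hc, -⟩ := h2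
  have hs0 : 0 < s := by linarith
  have h1 := hb 1 s one_pos hs0
  have hkey : l0 1 s ≤ 8 * s ^ (-(3 / 4) : ℝ) := by
    by_cases h : s ≤ 2
    · have h3 : l0 1 s ≤ 1 := by
        refine h1.2.1.trans ?_
        rw [one_mul]
        apply inv_le_one_of_one_le₀
        rw [Real.one_le_sqrt]
        exact hs
      have h4 : (2 : ℝ) ^ (-(3 / 4) : ℝ) ≤ s ^ (-(3 / 4) : ℝ) :=
        Real.rpow_le_rpow_of_nonpos hs0 h (by norm_num)
      have h5 : (2 : ℝ) ^ (-1 : ℝ) ≤ (2 : ℝ) ^ (-(3 / 4) : ℝ) :=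
        Real.rpow_le_rpow_of_exponent_le (by norm_num) (by norm_num)
      rw [Real.rpow_neg_one] at h5
      linarith
    · push Not at h
      have hne : s ≠ 1 := by linarith
      have h3 : l0 1 s = Real.log s / (s - 1) := by
        rw [← h1.2.2, hf s 1 hs0 one_pos hne, Real.log_one, sub_zero]
      have h4 : Real.log s ≤ 4 * s ^ (1 / 4 : ℝ) := by
        have := Real.log_le_rpow_div hs0.le (show (0 : ℝ) < 1 / 4 by norm_num)
        linarith
      have h5 : 0 ≤ s ^ (1 / 4 : ℝ) := Real.rpow_nonneg hs0.le _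
      rw [h3, div_le_iff₀ (by linarith)]
      have h6 : s ^ (-(3 / 4) : ℝ) * s = s ^ (1 / 4 : ℝ) := by
        nth_rewrite 2 [← Real.rpow_one s]
        rw [← Real.rpow_add hs0]
        norm_num
      have h7 : 0 ≤ s ^ (-(3 / 4) : ℝ) := Real.rpow_nonneg hs0.le _
      nlinarith
  have hsq : s ^ (-(3 / 4) : ℝ) ^ 2 = s ^ (-(3 / 4) : ℝ) ^ 2 := rfl
  have h8 : (s ^ (-(3 / 4) : ℝ)) ^ 2 = s ^ (-(3 / 2) : ℝ) := by
    rw [← Real.rpow_natCast, ← Real.rpow_mul hs0.le]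
    norm_num
  calc l0 1 s ^ 2 ≤ (8 * s ^ (-(3 / 4) : ℝ)) ^ 2 := by
        apply pow_le_pow_left₀ h1.1 hkey
    _ = 64 * s ^ (-(3 / 2) : ℝ) := by rw [mul_pow, h8]; norm_num

/-- bound of the homogeneous kernel for small arguments -/
private theorem lInt_small (h2 : LZero) (s : ℝ) (hs0 : 0 < s) (hs : s ≤ 1) :
    l0 1 s ^ 2 ≤ 64 * s ^ (-(1 / 2) : ℝ) := by
  have hbig := lInt_big h2 s⁻¹ (by
    rw [one_le_inv₀ hs0]
    exact hs)
  obtain ⟨hb, hf, hh, hc, -⟩ := h2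
  have hinv : 0 < s⁻¹ := inv_pos.2 hs0
  have h1 : l0 1 s = s⁻¹ * l0 1 s⁻¹ := by
    have := hh s s⁻¹ 1 hs0 hinv one_pos
    rw [mul_inv_cancel₀ hs0.ne', mul_one] at this
    rw [this, (hb 1 s⁻¹ one_pos hinv).2.2]
  rw [h1, mul_pow]
  have h3 : s⁻¹ ^ (-(3 / 2) : ℝ) = s ^ (3 / 2 : ℝ) := by
    rw [Real.inv_rpow hs0.le, Real.rpow_neg hs0.le, inv_inv]
  rw [h3] at hbig
  have h4 : s⁻¹ ^ 2 * s ^ (3 / 2 : ℝ) = s ^ (-(1 / 2) : ℝ) := by
    have : s⁻¹ ^ 2 = s ^ (-2 : ℝ) := by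
      rw [Real.rpow_neg hs0.le]
      norm_num
    rw [this, ← Real.rpow_add hs0]
    norm_num
  calc s⁻¹ ^ 2 * l0 1 s⁻¹ ^ 2 ≤ s⁻¹ ^ 2 * (64 * s ^ (3 / 2 : ℝ)) := by
        apply mul_le_mul_of_nonneg_left hbig (by positivity)
    _ = 64 * (s⁻¹ ^ 2 * s ^ (3 / 2 : ℝ)) := by ring
    _ = _ := by rw [h4]

theorem lInt (h2 : LZero) (h3 : Const) : LInt := by
  have hbig := lInt_big h2
  have hsmall := lInt_small h2
  obtain ⟨hb, hf, hh, hc, -⟩ := h2
  obtain ⟨hint, hval⟩ := h3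
  set T : ℝ := 2 * Real.pi ^ 2 / 3 with hT
  -- the profile
  have hcont : ContinuousOn (fun s : ℝ => l0 1 s ^ 2) (Ioi 0) := by
    apply ContinuousOn.pow
    have h1 : ContinuousOn (fun s : ℝ => ((1 : ℝ), s)) (Ioi 0) :=
      (continuous_const.prodMk continuous_id).continuousOn
    exact hc.comp h1 (fun s hs => ⟨(one_pos : (0 : ℝ) < 1), hs⟩)
  have hae : (fun s : ℝ => (Real.log s / (s - 1)) ^ 2) =ᵐ[volume.restrict (Ioi 0)]
      fun s => l0 1 s ^ 2 := by
    have h1 : ∀ᵐ s : ℝ, s ≠ 1 := by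
      rw [ae_iff]
      simp
    filter_upwards [ae_restrict_of_ae h1, ae_restrict_mem measurableSet_Ioi] with s hs hs0
    rw [← (hb 1 s one_pos hs0).2.2, hf s 1 hs0 one_pos hs, Real.log_one, sub_zero]
  have hint' : IntegrableOn (fun s : ℝ => l0 1 s ^ 2) (Ioi 0) := hint.congr hae
  have hval' : ∫ s in Ioi (0 : ℝ), l0 1 s ^ 2 = T := by
    rw [← hval]
    exact integral_congr_ae hae.symm
  have hii : ∀ a b : ℝ, 0 < a → 0 < b → IntervalIntegrable (fun s : ℝ => l0 1 s ^ 2) volume a b := by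
    intro a b ha hb
    apply ContinuousOn.intervalIntegrable
    apply hcont.mono
    intro s hs
    exact lt_of_lt_of_le (lt_min ha hb) hs.1
  -- the middle part
  have hmid : ∀ a b : ℝ, 0 < a → a ≤ 1 → 1 ≤ b →
      |(∫ s in a..b, l0 1 s ^ 2) - T| ≤ 128 * a ^ (1 / 2 : ℝ) + 128 * b ^ (-(1 / 2) : ℝ) := by
    intro a b ha ha1 hb1
    have hb0 : 0 < b := by linarith
    have hab : a ≤ b := by linarith
    have e1 : Ioi (0 : ℝ) = Ioc 0 a ∪ Ioi a := (Ioc_union_Ioi_eq_Ioi ha.le).symm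
    have e2 : Ioi a = Ioc a b ∪ Ioi b := (Ioc_union_Ioi_eq_Ioi hab).symm
    have hi1 : IntegrableOn (fun s : ℝ => l0 1 s ^ 2) (Ioc 0 a) :=
      hint'.mono_set Ioc_subset_Ioi_self
    have hi2 : IntegrableOn (fun s : ℝ => l0 1 s ^ 2) (Ioi a) :=
      hint'.mono_set (Ioi_subset_Ioi ha.le)
    have hi3 : IntegrableOn (fun s : ℝ => l0 1 s ^ 2) (Ioc a b) :=
      hi2.mono_set Ioc_subset_Ioi_self
    have hi4 : IntegrableOn (fun s : ℝ => l0 1 s ^ 2) (Ioi b) :=
      hint'.mono_set (Ioi_subset_Ioi hb0.le)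
    have hsplit : T = (∫ s in Ioc 0 a, l0 1 s ^ 2) + ((∫ s in a..b, l0 1 s ^ 2) +
        ∫ s in Ioi b, l0 1 s ^ 2) := by
      rw [← hval', e1, setIntegral_union (Ioc_disjoint_Ioi le_rfl) measurableSet_Ioi hi1 hi2]
      congr 1
      rw [e2, setIntegral_union (Ioc_disjoint_Ioi le_rfl) measurableSet_Ioi hi3 hi4,
        intervalIntegral.integral_of_le hab]
    have hA0 : 0 ≤ ∫ s in Ioc 0 a, l0 1 s ^ 2 :=
      setIntegral_nonneg measurableSet_Ioc (fun s _ => sq_nonneg _)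
    have hB0 : 0 ≤ ∫ s in Ioi b, l0 1 s ^ 2 :=
      setIntegral_nonneg measurableSet_Ioi (fun s _ => sq_nonneg _)
    have hA : ∫ s in Ioc 0 a, l0 1 s ^ 2 ≤ 128 * a ^ (1 / 2 : ℝ) := by
      have hg : IntegrableOn (fun s : ℝ => 64 * s ^ (-(1 / 2) : ℝ)) (Ioc 0 a) := by
        apply Integrable.const_mul
        rw [← IntegrableOn, ← intervalIntegrable_iff_integrableOn_Ioc_of_le ha.le]
        exact intervalIntegral.intervalIntegrable_rpow' (by norm_num)
      calc ∫ s in Ioc 0 a, l0 1 s ^ 2 ≤ ∫ s in Ioc 0 a, 64 * s ^ (-(1 / 2) : ℝ) := by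
            apply setIntegral_mono_on hi1 hg measurableSet_Ioc
            intro s hs
            exact hsmall s hs.1 (hs.2.trans ha1)
        _ = 64 * ∫ s in (0 : ℝ)..a, s ^ (-(1 / 2) : ℝ) := by
            rw [← intervalIntegral.integral_of_le ha.le, intervalIntegral.integral_const_mul]
        _ = 128 * a ^ (1 / 2 : ℝ) := by
            rw [integral_rpow (Or.inl (by norm_num))]
            rw [Real.zero_rpow (by norm_num)]
            norm_num
            ring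
    have hB : ∫ s in Ioi b, l0 1 s ^ 2 ≤ 128 * b ^ (-(1 / 2) : ℝ) := by
      have hg : IntegrableOn (fun s : ℝ => 64 * s ^ (-(3 / 2) : ℝ)) (Ioi b) := by
        apply Integrable.const_mul
        exact integrableOn_Ioi_rpow_of_lt (by norm_num) hb0
      calc ∫ s in Ioi b, l0 1 s ^ 2 ≤ ∫ s in Ioi b, 64 * s ^ (-(3 / 2) : ℝ) := by
            apply setIntegral_mono_on hi4 hg measurableSet_Ioi
            intro s hs
            exact hbig s (hb1.trans hs.le)
        _ = 64 * ∫ s in Ioi b, s ^ (-(3 / 2) : ℝ) := integral_const_mul _ _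
        _ = 128 * b ^ (-(1 / 2) : ℝ) := by
            rw [integral_Ioi_rpow_of_lt (by norm_num) hb0]
            norm_num
            ring
    rw [abs_le]
    constructor <;> linarith
  -- homogeneity
  have hinner : ∀ R X : ℝ, 1 ≤ X → 1 ≤ R → ∫ Y in (1 : ℝ)..R, l0 X Y ^ 2 =
      X⁻¹ * ∫ s in (1 / X)..(R / X), l0 1 s ^ 2 := by
    intro R X hX hR
    have hX0 : 0 < X := by linarith
    have h1 : ∫ Y in (1 : ℝ)..R, l0 X Y ^ 2 = ∫ Y in (1 : ℝ)..R, X⁻¹ ^ 2 * l0 1 (Y / X) ^ 2 := by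
      apply intervalIntegral.integral_congr
      intro Y hY
      rw [uIcc_of_le hR] at hY
      have hY0 : 0 < Y := by linarith [hY.1]
      have := hh X 1 (Y / X) hX0 one_pos (div_pos hY0 hX0)
      rw [mul_one, mul_div_cancel₀ _ hX0.ne'] at this
      show l0 X Y ^ 2 = X⁻¹ ^ 2 * l0 1 (Y / X) ^ 2
      rw [this, mul_pow]
    rw [h1, intervalIntegral.integral_const_mul,
      intervalIntegral.integral_comp_div (fun s => l0 1 s ^ 2) hX0.ne', smul_eq_mul, ← mul_assoc]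
    congr 1
    field_simp
  refine ⟨512, by norm_num, fun R hR => ?_⟩
  have hR0 : 0 < R := by linarith
  -- continuity of the inner integral
  have hcontΦ : ContinuousOn (fun x : ℝ => ∫ s in (1 : ℝ)..x, l0 1 s ^ 2) (Ioi 0) := by
    intro x hx
    apply ContinuousAt.continuousWithinAt
    have hx0 : (0 : ℝ) < x := hx
    have hd : HasDerivAt (fun x : ℝ => ∫ s in (1 : ℝ)..x, l0 1 s ^ 2) (l0 1 x ^ 2) x := by
      apply intervalIntegral.integral_hasDerivAt_right (hii 1 x one_pos hx0)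
      · exact ContinuousOn.stronglyMeasurableAtFilter isOpen_Ioi hcont x hx
      · exact hcont.continuousAt (Ioi_mem_nhds hx0)
    exact hd.continuousAt
  have hcontI : ContinuousOn (fun X : ℝ => X⁻¹ * ∫ s in (1 / X)..(R / X), l0 1 s ^ 2)
      (uIcc 1 R) := by
    rw [uIcc_of_le hR]
    have h0 : ∀ X ∈ Icc 1 R, (0 : ℝ) < X := fun X hX => by linarith [hX.1]
    apply ContinuousOn.mul
    · exact continuousOn_id.inv₀ (fun X hX => (h0 X hX).ne')
    · have : ContinuousOn (fun X : ℝ => (∫ s in (1 : ℝ)..(R / X), l0 1 s ^ 2) -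
          ∫ s in (1 : ℝ)..(1 / X), l0 1 s ^ 2) (Icc 1 R) := by
        apply ContinuousOn.sub
        · exact hcontΦ.comp (continuousOn_const.div continuousOn_id (fun X hX => (h0 X hX).ne'))
            (fun X hX => div_pos hR0 (h0 X hX))
        · exact hcontΦ.comp (continuousOn_const.div continuousOn_id (fun X hX => (h0 X hX).ne'))
            (fun X hX => div_pos one_pos (h0 X hX))
      refine this.congr (fun X hX => ?_)
      have hX0 := h0 X hX
      exact (intervalIntegral.integral_interval_sub_left (hii _ _ one_pos (div_pos hR0 hX0))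
        (hii _ _ one_pos (div_pos one_pos hX0))).symm
  have hI1 : ∫ X in (1 : ℝ)..R, ∫ Y in (1 : ℝ)..R, l0 X Y ^ 2 =
      ∫ X in (1 : ℝ)..R, X⁻¹ * ∫ s in (1 / X)..(R / X), l0 1 s ^ 2 := by
    apply intervalIntegral.integral_congr
    intro X hX
    rw [uIcc_of_le hR] at hX
    exact hinner R X hX.1 hR
  have hlog : T * Real.log R = ∫ X in (1 : ℝ)..R, T * X⁻¹ := by
    rw [intervalIntegral.integral_const_mul, integral_inv_of_pos one_pos hR0, div_one]
  have hinvI : IntervalIntegrable (fun X : ℝ => T * X⁻¹) volume 1 R := by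
    apply ContinuousOn.intervalIntegrable
    rw [uIcc_of_le hR]
    exact continuousOn_const.mul (continuousOn_id.inv₀ (fun X hX => by
      have : (0 : ℝ) < X := by linarith [hX.1]
      exact this.ne'))
  rw [hI1, hlog, ← intervalIntegral.integral_sub hcontI.intervalIntegrable hinvI]
  have hbound : ∀ X ∈ uIoc (1 : ℝ) R, ‖X⁻¹ * (∫ s in (1 / X)..(R / X), l0 1 s ^ 2) - T * X⁻¹‖ ≤
      128 * X ^ (-(3 / 2) : ℝ) + 128 * R ^ (-(1 / 2) : ℝ) * X ^ (-(1 / 2) : ℝ) := by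
    intro X hX
    rw [uIoc_of_le hR] at hX
    have hX1 : 1 ≤ X := hX.1.le
    have hX0 : 0 < X := by linarith
    have h1 := hmid (1 / X) (R / X) (div_pos one_pos hX0) (by
      rw [div_le_one hX0]; exact hX1) (by
      rw [one_le_div hX0]; exact hX.2)
    have h4 : X⁻¹ * (∫ s in (1 / X)..(R / X), l0 1 s ^ 2) - T * X⁻¹ =
        X⁻¹ * ((∫ s in (1 / X)..(R / X), l0 1 s ^ 2) - T) := by ring
    rw [h4, norm_mul, Real.norm_eq_abs, Real.norm_eq_abs, abs_of_pos (inv_pos.2 hX0)]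
    refine (mul_le_mul_of_nonneg_left h1 (inv_pos.2 hX0).le).trans (le_of_eq ?_)
    have e1 : X⁻¹ * (1 / X) ^ (1 / 2 : ℝ) = X ^ (-(3 / 2) : ℝ) := by
      rw [one_div, Real.inv_rpow hX0.le, ← Real.rpow_neg hX0.le, ← Real.rpow_neg_one,
        ← Real.rpow_add hX0]
      norm_num
    have e2 : X⁻¹ * (R / X) ^ (-(1 / 2) : ℝ) = R ^ (-(1 / 2) : ℝ) * X ^ (-(1 / 2) : ℝ) := by
      rw [Real.div_rpow hR0.le hX0.le, div_eq_mul_inv, ← Real.rpow_neg hX0.le,
        ← Real.rpow_neg_one]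
      rw [mul_left_comm, ← Real.rpow_add hX0]
      norm_num
    calc X⁻¹ * (128 * (1 / X) ^ (1 / 2 : ℝ) + 128 * (R / X) ^ (-(1 / 2) : ℝ))
        = 128 * (X⁻¹ * (1 / X) ^ (1 / 2 : ℝ)) + 128 * (X⁻¹ * (R / X) ^ (-(1 / 2) : ℝ)) := by ring
      _ = _ := by rw [e1, e2]; ring
  have hi1 : IntervalIntegrable (fun X : ℝ => 128 * X ^ (-(3 / 2) : ℝ)) volume 1 R := by
    apply IntervalIntegrable.const_mul
    apply intervalIntegral.intervalIntegrable_rpow
    right
    rw [uIcc_of_le hR]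
    intro h
    linarith [h.1]
  have hi2 : IntervalIntegrable (fun X : ℝ => 128 * R ^ (-(1 / 2) : ℝ) * X ^ (-(1 / 2) : ℝ))
      volume 1 R := by
    apply IntervalIntegrable.const_mul
    exact intervalIntegral.intervalIntegrable_rpow' (by norm_num)
  have hfin := intervalIntegral.norm_integral_le_of_norm_le hR
    (MeasureTheory.ae_of_all _ (fun X hX => hbound X (by rw [uIoc_of_le hR]; exact hX)))
    (hi1.add hi2)
  rw [Real.norm_eq_abs] at hfin
  refine hfin.trans ?_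
  rw [intervalIntegral.integral_add hi1 hi2, intervalIntegral.integral_const_mul,
    intervalIntegral.integral_const_mul, integral_rpow (Or.inr ⟨by norm_num, by
      rw [uIcc_of_le hR]
      intro h
      linarith [h.1]⟩), integral_rpow (Or.inl (by norm_num))]
  have e3 : (R : ℝ) ^ (-(1 / 2) : ℝ) * R ^ (1 / 2 : ℝ) = 1 := by
    rw [← Real.rpow_add hR0]
    norm_num
  have e4 : 0 ≤ R ^ (-(1 / 2) : ℝ) := Real.rpow_nonneg hR0.le _
  have e5 : (-(3 / 2) + 1 : ℝ) = -(1 / 2) := by norm_num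
  have e6 : (-(1 / 2) + 1 : ℝ) = 1 / 2 := by norm_num
  rw [e5, e6, Real.one_rpow, Real.one_rpow]
  have e7 : 128 * R ^ (-(1 / 2) : ℝ) * ((R ^ (1 / 2 : ℝ) - 1) / (1 / 2)) =
      256 * (R ^ (-(1 / 2) : ℝ) * R ^ (1 / 2 : ℝ)) - 256 * R ^ (-(1 / 2) : ℝ) := by ring
  rw [e7, e3]
  have e8 : 128 * ((R ^ (-(1 / 2) : ℝ) - 1) / -(1 / 2)) = 256 - 256 * R ^ (-(1 / 2) : ℝ) := by
    ring
  rw [e8]
  linarith

end Pool.Agent.Lib.MP4
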