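import Mathlib
import Pool.Agent.Lib.MP_f9aece_nt_mq.StmtsF

/-!
The fourth moment of the plain average of zeta over short windows, module FD5.

For fixed X split Y in [1,X] and [X,R]. On [X,R] integrate by parts in Y: |int cos(Y-X) l0^2 dY| <= l0(X,R)^2 + int_X^R 2 l0 |l1| dY <= (XR)^-1 + int_X^R 2 (XY)^-1 Y^-1 dY <= (XR)^-1 + 2 X^-2; integrate over X in [1,R]: <= 3. The part Y <= X: swap the order of integration (the integrand is symmetric), or: integral over the triangle Y <= X equals the one over X <= Y.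
-/

set_option autoImplicit false

namespace Pool.Agent.Lib.MP4

open MeasureTheory Set Filter Topology Complex
open scoped ComplexConjugate
open Pool.Agent.Lib.MS (psi Adm ZW ZS Res ZIdent PowClose)
open Pool.Agent.Lib
open Pool.Agent.Lib.MP2 (RD Av PA BumpFn Th Ss ph Prim PhAdm Cont Ident Top)

/-- exchange of the order of integration over a triangle, symmetric integrand -/
private theorem fd5_swap (G : ℝ → ℝ → ℝ) (hG : Continuous (Function.uncurry G))
    (hs : ∀ X Y, G X Y = G Y X) (R : ℝ) (hR : 1 ≤ R) :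
    (∫ X in (1 : ℝ)..R, ∫ Y in (1 : ℝ)..X, G X Y) = ∫ X in (1 : ℝ)..R, ∫ Y in X..R, G X Y := by
  rw [intervalIntegral.integral_of_le hR, intervalIntegral.integral_of_le hR]
  have h1 : (∫ X in Ioc (1 : ℝ) R, ∫ Y in (1 : ℝ)..X, G X Y)
      = ∫ X in Ioc (1 : ℝ) R, ∫ Y in Ioc (1 : ℝ) R, (Iic X).indicator (G X) Y := by
    refine setIntegral_congr_fun measurableSet_Ioc fun X hX => ?_
    show (∫ Y in (1 : ℝ)..X, G X Y) = ∫ Y in Ioc (1 : ℝ) R, (Iic X).indicator (G X) Y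
    rw [intervalIntegral.integral_of_le hX.1.le, setIntegral_indicator measurableSet_Iic]
    congr 2
    ext y
    simp only [mem_Ioc, mem_inter_iff, mem_Iic]
    constructor
    · rintro ⟨a, b⟩
      exact ⟨⟨a, b.trans hX.2⟩, b⟩
    · rintro ⟨⟨a, _⟩, b⟩
      exact ⟨a, b⟩
  have h2 : (∫ X in Ioc (1 : ℝ) R, ∫ Y in X..R, G X Y)
      = ∫ X in Ioc (1 : ℝ) R, ∫ Y in Ioc (1 : ℝ) R, (Ici X).indicator (G X) Y := by
    refine setIntegral_congr_fun measurableSet_Ioc fun X hX => ?_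
    show (∫ Y in X..R, G X Y) = ∫ Y in Ioc (1 : ℝ) R, (Ici X).indicator (G X) Y
    rw [intervalIntegral.integral_of_le hX.2, setIntegral_indicator measurableSet_Ici,
      ← integral_Icc_eq_integral_Ioc]
    congr 2
    ext y
    simp only [mem_Icc, mem_Ioc, mem_inter_iff, mem_Ici]
    constructor
    · rintro ⟨a, b⟩
      exact ⟨⟨lt_of_lt_of_le hX.1 a, b⟩, a⟩
    · rintro ⟨⟨_, b⟩, a⟩
      exact ⟨a, b⟩
  rw [h1, h2]
  have hint : Integrable (Function.uncurry fun X Y => (Iic X).indicator (G X) Y)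
      ((volume.restrict (Ioc (1 : ℝ) R)).prod (volume.restrict (Ioc (1 : ℝ) R))) := by
    have e : (Function.uncurry fun X Y => (Iic X).indicator (G X) Y)
        = {p : ℝ × ℝ | p.2 ≤ p.1}.indicator (Function.uncurry G) := by
      ext ⟨x, y⟩
      simp only [Function.uncurry, Set.indicator_apply, mem_Iic]
      rfl
    rw [e, Measure.prod_restrict]
    have hm : MeasurableSet {p : ℝ × ℝ | p.2 ≤ p.1} := measurableSet_le measurable_snd measurable_fst
    refine Integrable.indicator ?_ hm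
    have hK : IsCompact (Icc (1 : ℝ) R ×ˢ Icc (1 : ℝ) R) := isCompact_Icc.prod isCompact_Icc
    exact (hG.continuousOn.integrableOn_compact hK).mono_set
      (prod_mono Ioc_subset_Icc_self Ioc_subset_Icc_self)
  rw [integral_integral_swap hint]
  refine setIntegral_congr_fun measurableSet_Ioc fun X _ => ?_
  show (∫ Y in Ioc (1 : ℝ) R, (Iic Y).indicator (G Y) X)
    = ∫ Y in Ioc (1 : ℝ) R, (Ici X).indicator (G X) Y
  refine integral_congr_ae (Eventually.of_forall fun Y => ?_)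
  simp only [Set.indicator_apply, mem_Iic, mem_Ici]
  by_cases h : X ≤ Y
  · rw [if_pos h, if_pos h, hs]
  · rw [if_neg h, if_neg h]

private theorem fd5_sq (a X Y : ℝ) (hX : 0 < X) (hY : 0 < Y) (h0 : 0 ≤ a)
    (ha : a ≤ (Real.sqrt (X * Y))⁻¹) : a ^ 2 ≤ (X * Y)⁻¹ := by
  have hXY : 0 < X * Y := mul_pos hX hY
  calc a ^ 2 ≤ ((Real.sqrt (X * Y))⁻¹) ^ 2 := pow_le_pow_left₀ h0 ha 2
    _ = (X * Y)⁻¹ := by rw [inv_pow, Real.sq_sqrt hXY.le]

/-- the upper part, for fixed `X` -/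
private theorem fd5_part (h2 : LZero) (X R : ℝ) (hX : 1 ≤ X) (hXR : X ≤ R) :
    |∫ Y in X..R, Real.cos (Y - X) * l0 X Y ^ 2| ≤ (X * R)⁻¹ + 2 * (X ^ 2)⁻¹ := by
  obtain ⟨hb, -, -, hc, l1, hc1, hd⟩ := h2
  have hX0 : 0 < X := lt_of_lt_of_le one_pos hX
  have hR0 : 0 < R := lt_of_lt_of_le hX0 hXR
  have hpos : ∀ Y ∈ Icc X R, 0 < Y := fun Y hY => lt_of_lt_of_le hX0 hY.1
  have hcont0 : ContinuousOn (fun Y => l0 X Y) (Icc X R) := by
    intro Y hY
    exact (hd X Y hX0 (hpos Y hY)).1.continuousAt.continuousWithinAt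
  have hcont1 : ContinuousOn (fun Y => l1 X Y) (Icc X R) := by
    have : ContinuousOn (Function.uncurry l1 ∘ fun Y : ℝ => (X, Y)) (Icc X R) :=
      hc1.comp (by fun_prop) fun Y hY => ⟨hX0, hpos Y hY⟩
    exact this
  have key := intervalIntegral.integral_mul_deriv_eq_deriv_mul (a := X) (b := R)
    (u := fun Y => l0 X Y ^ 2) (u' := fun Y => 2 * l0 X Y * l1 X Y)
    (v := fun Y => Real.sin (Y - X)) (v' := fun Y => Real.cos (Y - X))
    (fun Y hY => by
      rw [uIcc_of_le hXR] at hY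
      show HasDerivAt (fun Y => l0 X Y ^ 2) (2 * l0 X Y * l1 X Y) Y
      have h := (hd X Y hX0 (hpos Y hY)).1.pow 2
      have e : ((2 : ℕ) : ℝ) * l0 X Y ^ (2 - 1) * l1 X Y = 2 * l0 X Y * l1 X Y := by norm_num
      rw [← e]
      exact h)
    (fun Y _ => by
      have := ((hasDerivAt_id Y).sub_const X).sin
      simpa using this)
    (by
      refine ContinuousOn.intervalIntegrable ?_
      rw [uIcc_of_le hXR]
      exact ((continuousOn_const.mul hcont0).mul hcont1))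
    ((Real.continuous_cos.comp (continuous_id.sub continuous_const)).intervalIntegrable _ _)
  have e1 : (∫ Y in X..R, Real.cos (Y - X) * l0 X Y ^ 2)
      = ∫ Y in X..R, l0 X Y ^ 2 * Real.cos (Y - X) := by
    refine intervalIntegral.integral_congr fun Y _ => ?_
    show Real.cos (Y - X) * l0 X Y ^ 2 = l0 X Y ^ 2 * Real.cos (Y - X)
    ring
  rw [e1, key]
  simp only [sub_self, Real.sin_zero, mul_zero, sub_zero]
  have b1 : |l0 X R ^ 2 * Real.sin (R - X)| ≤ (X * R)⁻¹ := by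
    rw [abs_mul, abs_of_nonneg (sq_nonneg _)]
    have h := fd5_sq (l0 X R) X R hX0 hR0 (hb X R hX0 hR0).1 (hb X R hX0 hR0).2.1
    calc l0 X R ^ 2 * |Real.sin (R - X)| ≤ l0 X R ^ 2 * 1 :=
          mul_le_mul_of_nonneg_left (Real.abs_sin_le_one _) (sq_nonneg _)
      _ ≤ (X * R)⁻¹ := by rw [mul_one]; exact h
  have hF : ∀ Y ∈ uIcc X R, HasDerivAt (fun Y : ℝ => -(2 * X⁻¹) * Y⁻¹)
      (2 * X⁻¹ * (Y ^ 2)⁻¹) Y := by
    intro Y hY
    rw [uIcc_of_le hXR] at hY
    have h0 := (hasDerivAt_inv (hpos Y hY).ne').const_mul (-(2 * X⁻¹))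
    have e : -(2 * X⁻¹) * -(Y ^ 2)⁻¹ = 2 * X⁻¹ * (Y ^ 2)⁻¹ := by ring
    rw [e] at h0
    exact h0
  have hgi : IntervalIntegrable (fun Y : ℝ => 2 * X⁻¹ * (Y ^ 2)⁻¹) volume X R := by
    refine ContinuousOn.intervalIntegrable ?_
    rw [uIcc_of_le hXR]
    refine continuousOn_const.mul (ContinuousOn.inv₀ (by fun_prop) fun Y hY => ?_)
    exact pow_ne_zero 2 (hpos Y hY).ne'
  have b2 : |∫ Y in X..R, 2 * l0 X Y * l1 X Y * Real.sin (Y - X)| ≤ 2 * (X ^ 2)⁻¹ := by
    have hle : ‖∫ Y in X..R, 2 * l0 X Y * l1 X Y * Real.sin (Y - X)‖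
        ≤ ∫ Y in X..R, 2 * X⁻¹ * (Y ^ 2)⁻¹ := by
      refine intervalIntegral.norm_integral_le_of_norm_le hXR ?_ hgi
      refine Eventually.of_forall fun Y hY => ?_
      have hY0 : 0 < Y := hX0.trans hY.1
      obtain ⟨a0, a1, -⟩ := hb X Y hX0 hY0
      obtain ⟨-, a2⟩ := hd X Y hX0 hY0
      have a3 := fd5_sq (l0 X Y) X Y hX0 hY0 a0 a1
      have a4 : ‖2 * l0 X Y * l1 X Y * Real.sin (Y - X)‖ ≤ 2 * l0 X Y * (l0 X Y / Y) * 1 := by
        rw [norm_mul, norm_mul, Real.norm_eq_abs, Real.norm_eq_abs, Real.norm_eq_abs,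
          abs_of_nonneg (mul_nonneg zero_le_two a0)]
        have p1 : 0 ≤ 2 * l0 X Y := mul_nonneg zero_le_two a0
        refine mul_le_mul (mul_le_mul_of_nonneg_left a2 p1) (Real.abs_sin_le_one _)
          (abs_nonneg _) (mul_nonneg p1 (div_nonneg a0 hY0.le))
      refine a4.trans ?_
      have e : 2 * l0 X Y * (l0 X Y / Y) * 1 = 2 * Y⁻¹ * (l0 X Y ^ 2) := by
        field_simp
      have e' : 2 * X⁻¹ * (Y ^ 2)⁻¹ = 2 * Y⁻¹ * (X * Y)⁻¹ := by
        field_simp
      rw [e, e']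
      exact mul_le_mul_of_nonneg_left a3 (mul_nonneg zero_le_two (inv_nonneg.mpr hY0.le))
    rw [intervalIntegral.integral_eq_sub_of_hasDerivAt hF hgi, Real.norm_eq_abs] at hle
    refine hle.trans ?_
    have p : 0 ≤ 2 * X⁻¹ * R⁻¹ := by positivity
    have e : 2 * (X ^ 2)⁻¹ = 2 * X⁻¹ * X⁻¹ := by
      rw [sq, mul_inv]; ring
    rw [e]
    linarith
  calc |l0 X R ^ 2 * Real.sin (R - X) - ∫ Y in X..R, 2 * l0 X Y * l1 X Y * Real.sin (Y - X)|
      ≤ |l0 X R ^ 2 * Real.sin (R - X)|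
        + |∫ Y in X..R, 2 * l0 X Y * l1 X Y * Real.sin (Y - X)| := abs_sub _ _
    _ ≤ (X * R)⁻¹ + 2 * (X ^ 2)⁻¹ := add_le_add b1 b2

theorem cosInt (h2 : LZero) : CosInt := by
  have hc := h2.2.2.2.1
  have hsym := h2.1
  refine ⟨6, by norm_num, fun R hR => ?_⟩
  have hR0 : (0 : ℝ) < R := lt_of_lt_of_le one_pos hR
  set G : ℝ → ℝ → ℝ := fun X Y => Real.cos (Y - X) * l0 (max 1 X) (max 1 Y) ^ 2 with hGdef
  have hGc : Continuous (Function.uncurry G) := by
    have h0 : Continuous fun p : ℝ × ℝ => Function.uncurry l0 (max 1 p.1, max 1 p.2) := by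
      refine hc.comp_continuous (by fun_prop) fun p => ?_
      have a1 : (0 : ℝ) < max 1 p.1 := lt_of_lt_of_le one_pos (le_max_left _ _)
      have a2 : (0 : ℝ) < max 1 p.2 := lt_of_lt_of_le one_pos (le_max_left _ _)
      exact ⟨a1, a2⟩
    have h1 : Continuous fun p : ℝ × ℝ => Real.cos (p.2 - p.1) := by fun_prop
    exact h1.mul (h0.pow 2)
  have hGs : ∀ X Y, G X Y = G Y X := by
    intro X Y
    show Real.cos (Y - X) * l0 (max 1 X) (max 1 Y) ^ 2 = Real.cos (X - Y) * l0 (max 1 Y) (max 1 X) ^ 2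
    have p1 : (0 : ℝ) < max 1 X := lt_of_lt_of_le one_pos (le_max_left _ _)
    have p2 : (0 : ℝ) < max 1 Y := lt_of_lt_of_le one_pos (le_max_left _ _)
    rw [(hsym _ _ p1 p2).2.2, ← Real.cos_neg (Y - X), neg_sub]
  have hGe : ∀ X Y, 1 ≤ X → 1 ≤ Y → G X Y = Real.cos (Y - X) * l0 X Y ^ 2 := by
    intro X Y hX hY
    show Real.cos (Y - X) * l0 (max 1 X) (max 1 Y) ^ 2 = _
    rw [max_eq_right hX, max_eq_right hY]
  have e1 : (∫ X in (1 : ℝ)..R, ∫ Y in (1 : ℝ)..R, Real.cos (Y - X) * l0 X Y ^ 2)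
      = ∫ X in (1 : ℝ)..R, ∫ Y in (1 : ℝ)..R, G X Y := by
    refine intervalIntegral.integral_congr fun X hX => ?_
    rw [uIcc_of_le hR] at hX
    refine intervalIntegral.integral_congr fun Y hY => ?_
    rw [uIcc_of_le hR] at hY
    exact (hGe X Y hX.1 hY.1).symm
  have hYi : ∀ X a b : ℝ, IntervalIntegrable (G X) volume a b := by
    intro X a b
    have : Continuous (G X) := hGc.comp (Continuous.prodMk_right X)
    exact this.intervalIntegrable _ _
  have e2 : (∫ X in (1 : ℝ)..R, ∫ Y in (1 : ℝ)..R, G X Y)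
      = (∫ X in (1 : ℝ)..R, ∫ Y in (1 : ℝ)..X, G X Y) + ∫ X in (1 : ℝ)..R, ∫ Y in X..R, G X Y := by
    rw [← intervalIntegral.integral_add]
    · refine intervalIntegral.integral_congr fun X _ => ?_
      exact (intervalIntegral.integral_add_adjacent_intervals (hYi X 1 X) (hYi X X R)).symm
    · exact (intervalIntegral.continuous_parametric_intervalIntegral_of_continuous hGc
        continuous_id).intervalIntegrable _ _
    · have h3 : Continuous fun X : ℝ => -∫ Y in R..X, G X Y :=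
        (intervalIntegral.continuous_parametric_intervalIntegral_of_continuous hGc
          continuous_id).neg
      have h4 : (fun X : ℝ => ∫ Y in X..R, G X Y) = fun X : ℝ => -∫ Y in R..X, G X Y := by
        ext X
        exact intervalIntegral.integral_symm _ _
      rw [h4]
      exact h3.intervalIntegrable _ _
  rw [e1, e2, fd5_swap G hGc hGs R hR]
  have hlog : Real.log R * R⁻¹ ≤ 1 := by
    have := Real.log_le_sub_one_of_pos hR0
    rw [← div_eq_mul_inv, div_le_one hR0]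
    linarith
  have hF : ∀ X ∈ uIcc 1 R, HasDerivAt (fun X : ℝ => R⁻¹ * Real.log X + -(2 * X⁻¹))
      ((X * R)⁻¹ + 2 * (X ^ 2)⁻¹) X := by
    intro X hX
    rw [uIcc_of_le hR] at hX
    have hX0 : (0 : ℝ) < X := lt_of_lt_of_le one_pos hX.1
    have h0 := ((Real.hasDerivAt_log hX0.ne').const_mul R⁻¹).add
      (((hasDerivAt_inv hX0.ne').const_mul 2).neg)
    have e : R⁻¹ * X⁻¹ + -(2 * -(X ^ 2)⁻¹) = (X * R)⁻¹ + 2 * (X ^ 2)⁻¹ := by
      rw [mul_inv]; ring
    rw [e] at h0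
    exact h0
  have hgi : IntervalIntegrable (fun X : ℝ => (X * R)⁻¹ + 2 * (X ^ 2)⁻¹) volume 1 R := by
    refine ContinuousOn.intervalIntegrable ?_
    rw [uIcc_of_le hR]
    refine ContinuousOn.add (ContinuousOn.inv₀ (by fun_prop) fun X hX => ?_)
      (continuousOn_const.mul (ContinuousOn.inv₀ (by fun_prop) fun X hX => ?_))
    · exact (mul_pos (lt_of_lt_of_le one_pos hX.1) hR0).ne'
    · exact pow_ne_zero 2 (lt_of_lt_of_le one_pos hX.1).ne'
  have hJ : |∫ X in (1 : ℝ)..R, ∫ Y in X..R, G X Y| ≤ 3 := by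
    have hle : ‖∫ X in (1 : ℝ)..R, ∫ Y in X..R, G X Y‖
        ≤ ∫ X in (1 : ℝ)..R, ((X * R)⁻¹ + 2 * (X ^ 2)⁻¹) := by
      refine intervalIntegral.norm_integral_le_of_norm_le hR ?_ hgi
      refine Eventually.of_forall fun X hX => ?_
      have e3 : (∫ Y in X..R, G X Y) = ∫ Y in X..R, Real.cos (Y - X) * l0 X Y ^ 2 := by
        refine intervalIntegral.integral_congr fun Y hY => ?_
        rw [uIcc_of_le hX.2] at hY
        exact hGe X Y hX.1.le (hX.1.le.trans hY.1)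
      rw [e3, Real.norm_eq_abs]
      exact fd5_part h2 X R hX.1.le hX.2
    rw [intervalIntegral.integral_eq_sub_of_hasDerivAt hF hgi, Real.norm_eq_abs] at hle
    refine hle.trans ?_
    have p : 0 ≤ 2 * R⁻¹ := by positivity
    rw [Real.log_one, mul_comm R⁻¹ (Real.log R)]
    norm_num
    linarith
  calc |(∫ X in (1 : ℝ)..R, ∫ Y in X..R, G X Y) + ∫ X in (1 : ℝ)..R, ∫ Y in X..R, G X Y|
      ≤ |∫ X in (1 : ℝ)..R, ∫ Y in X..R, G X Y| + |∫ X in (1 : ℝ)..R, ∫ Y in X..R, G X Y| :=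
        abs_add_le _ _
    _ ≤ 3 + 3 := add_le_add hJ hJ
    _ = 6 := by norm_num

end Pool.Agent.Lib.MP4
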