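import Mathlib
import Pool.Agent.Lib.MP_f9aece_nt_mq.StmtsF

/-!
The fourth moment of the plain average of zeta over short windows, module FD6.

Split [0,R]^2: the part X <= 1 or Y <= 1: |kk|^2 <= A^2 C^4 ll^2, int over X in [0,1] and all Y <= A by LSum (symmetry of ll). On [1,R]^2: M = (1 + e^(i(Y-X))) l0, |M|^2 = (2 + 2 cos(Y-X)) l0^2; | |kk|^2 - |M|^2 | <= 2|M| e + e^2, |M| <= 2 l0 <= 2 (XY)^(-1/2), e = KMain error: int int (XY)^(-3/2) <= 4, int int (XY)^-2 <= 1, R^-1 int int (XY)^(-1/2) (1 + log(R/X) + log(R/Y)) <= C, R^-2 int int (1 + log + log)^2 <= C. Then LInt, CosInt: 2 * (2 pi^2/3) log R + O(1).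
-/

set_option autoImplicit false

namespace Pool.Agent.Lib.MP4

open MeasureTheory Set Filter Topology Complex
open scoped ComplexConjugate
open Pool.Agent.Lib.MS (psi Adm ZW ZS Res ZIdent PowClose)
open Pool.Agent.Lib
open Pool.Agent.Lib.MP2 (RD Av PA BumpFn Th Ss ph Prim PhAdm Cont Ident Top)

namespace D6

private theorem ll_le_right {X Y : ℝ} (hX : 0 ≤ X) (hY : 0 ≤ Y) :
    ll X Y ≤ (1 + Y) ^ (-(3 / 4) : ℝ) := by
  unfold ll
  have h1 : (max (1 + X) (1 + Y)) ^ (-(3 / 4) : ℝ) ≤ (1 + Y) ^ (-(3 / 4) : ℝ) :=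
    Real.rpow_le_rpow_of_nonpos (by linarith) (le_max_right _ _) (by norm_num)
  have h2 : (min (1 + X) (1 + Y)) ^ (-(1 / 4) : ℝ) ≤ 1 :=
    Real.rpow_le_one_of_one_le_of_nonpos (le_min (by linarith) (by linarith)) (by norm_num)
  have h3 : 0 ≤ (min (1 + X) (1 + Y)) ^ (-(1 / 4) : ℝ) :=
    Real.rpow_nonneg (le_min (by linarith) (by linarith)) _
  have h4 : 0 ≤ (1 + Y) ^ (-(3 / 4) : ℝ) := Real.rpow_nonneg (by linarith) _
  calc _ ≤ (1 + Y) ^ (-(3 / 4) : ℝ) * 1 := mul_le_mul h1 h2 h3 h4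
    _ = _ := mul_one _

private theorem ll_le_left {X Y : ℝ} (hX : 0 ≤ X) (hY : 0 ≤ Y) :
    ll X Y ≤ (1 + X) ^ (-(3 / 4) : ℝ) := by
  have : ll X Y = ll Y X := by
    unfold ll
    rw [max_comm, min_comm]
  rw [this]
  exact ll_le_right hY hX

private theorem ll_nonneg {X Y : ℝ} (hX : 0 ≤ X) (hY : 0 ≤ Y) : 0 ≤ ll X Y := by
  unfold ll
  refine mul_nonneg (Real.rpow_nonneg ?_ _) (Real.rpow_nonneg ?_ _)
  · exact le_trans (by linarith : (0 : ℝ) ≤ 1 + X) (le_max_left _ _)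
  · exact le_min (by linarith) (by linarith)

private theorem sq34 {Y : ℝ} (hY : 0 ≤ Y) :
    ((1 + Y) ^ (-(3 / 4) : ℝ)) ^ 2 = (1 + Y) ^ (-(3 / 2) : ℝ) := by
  rw [← Real.rpow_natCast, ← Real.rpow_mul (by linarith)]
  norm_num

private theorem int32 {R : ℝ} (hR : 1 ≤ R) : ∫ x in (1 : ℝ)..R, x ^ (-(3 / 2) : ℝ) ≤ 2 := by
  rw [integral_rpow]
  · have h1 : 0 ≤ R ^ (-(3 / 2) + 1 : ℝ) := Real.rpow_nonneg (by linarith) _
    rw [Real.one_rpow]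
    have h2 : (R ^ (-(3 / 2) + 1 : ℝ) - 1) / (-(3 / 2) + 1 : ℝ) = 2 * (1 - R ^ (-(3 / 2) + 1 : ℝ)) := by
      ring
    rw [h2]
    linarith
  · right
    refine ⟨by norm_num, ?_⟩
    rw [uIcc_of_le hR]
    intro h
    linarith [h.1]

private theorem int32' {a R : ℝ} (ha : 0 ≤ a) (hR : a ≤ R) :
    ∫ x in a..R, (1 + x) ^ (-(3 / 2) : ℝ) ≤ 2 := by
  rw [intervalIntegral.integral_comp_add_left (fun x => x ^ (-(3 / 2) : ℝ)), integral_rpow]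
  · have h1 : 0 ≤ (1 + R) ^ (-(3 / 2) + 1 : ℝ) := Real.rpow_nonneg (by linarith) _
    have h3 : (1 + a) ^ (-(3 / 2) + 1 : ℝ) ≤ 1 :=
      Real.rpow_le_one_of_one_le_of_nonpos (by linarith) (by norm_num)
    have h2 : ((1 + R) ^ (-(3 / 2) + 1 : ℝ) - (1 + a) ^ (-(3 / 2) + 1 : ℝ)) / (-(3 / 2) + 1 : ℝ)
        = 2 * ((1 + a) ^ (-(3 / 2) + 1 : ℝ) - (1 + R) ^ (-(3 / 2) + 1 : ℝ)) := by
      ring
    rw [h2]
    linarith
  · right
    refine ⟨by norm_num, ?_⟩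
    rw [uIcc_of_le (by linarith)]
    intro h
    linarith [h.1]

private theorem int34 {R : ℝ} (hR : 1 ≤ R) :
    ∫ x in (1 : ℝ)..R, R ^ (-(1 / 4) : ℝ) * x ^ (-(3 / 4) : ℝ) ≤ 4 := by
  rw [intervalIntegral.integral_const_mul, integral_rpow (Or.inl (by norm_num)), Real.one_rpow]
  have h1 : R ^ (-(1 / 4) : ℝ) * R ^ (-(3 / 4) + 1 : ℝ) = 1 := by
    rw [← Real.rpow_add (by linarith)]
    norm_num
  have h2 : 0 ≤ R ^ (-(1 / 4) : ℝ) := Real.rpow_nonneg (by linarith) _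
  have h3 : R ^ (-(1 / 4) : ℝ) * ((R ^ (-(3 / 4) + 1 : ℝ) - 1) / (-(3 / 4) + 1 : ℝ))
      = 4 * (R ^ (-(1 / 4) : ℝ) * R ^ (-(3 / 4) + 1 : ℝ)) - 4 * R ^ (-(1 / 4) : ℝ) := by
    ring
  rw [h3, h1]
  linarith

private theorem iter_eq {R : ℝ} (hR : 1 ≤ R) {f : ℝ → ℝ → ℝ}
    (hf : ContinuousOn (Function.uncurry f) (Icc 1 R ×ˢ Icc 1 R)) :
    ∫ X in (1 : ℝ)..R, ∫ Y in (1 : ℝ)..R, f X Y
      = ∫ z in Icc (1 : ℝ) R ×ˢ Icc (1 : ℝ) R, Function.uncurry f z := by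
  have hi : IntegrableOn (Function.uncurry f) (Icc (1 : ℝ) R ×ˢ Icc (1 : ℝ) R)
      ((volume : Measure ℝ).prod volume) := by
    rw [← Measure.volume_eq_prod]
    exact hf.integrableOn_compact (isCompact_Icc.prod isCompact_Icc)
  rw [Measure.volume_eq_prod, setIntegral_prod _ hi, intervalIntegral.integral_of_le hR,
    ← integral_Icc_eq_integral_Ioc]
  refine setIntegral_congr_fun measurableSet_Icc fun X _ => ?_
  rw [intervalIntegral.integral_of_le hR, ← integral_Icc_eq_integral_Ioc]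
  rfl

private theorem log_le {R X : ℝ} (hX : 1 ≤ X) (hXR : X ≤ R) :
    1 + Real.log (R / X) ≤ 4 * (X ^ (-(1 / 4) : ℝ) / R ^ (-(1 / 4) : ℝ)) := by
  have hX0 : 0 < X := by linarith
  have hR0 : 0 < R := by linarith
  have h1 : X ^ (-(1 / 4) : ℝ) / R ^ (-(1 / 4) : ℝ) = (R / X) ^ ((1 / 4) : ℝ) := by
    rw [Real.rpow_neg hX0.le, Real.rpow_neg hR0.le, Real.div_rpow hR0.le hX0.le]
    have a1 := (Real.rpow_pos_of_pos hX0 (1 / 4)).ne'
    have a2 := (Real.rpow_pos_of_pos hR0 (1 / 4)).ne'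
    field_simp
  rw [h1]
  have h2 : 0 < (R / X) ^ ((1 / 4) : ℝ) := Real.rpow_pos_of_pos (by positivity) _
  have h3 := Real.log_le_sub_one_of_pos h2
  rw [Real.log_rpow (by positivity)] at h3
  linarith

private theorem normM (φ l : ℝ) : ‖(1 + cexp (I * (φ : ℂ))) * (l : ℂ)‖ ^ 2
    = (2 + 2 * Real.cos φ) * l ^ 2 := by
  rw [norm_mul, mul_pow, Complex.norm_real, Real.norm_eq_abs, sq_abs]
  congr 1
  rw [← Complex.normSq_eq_norm_sq, mul_comm I, Complex.exp_mul_I, Complex.normSq_apply]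
  have h1 : (1 + (Complex.cos φ + Complex.sin φ * I) : ℂ).re = 1 + Real.cos φ := by
    simp [Complex.cos_ofReal_re, Complex.sin_ofReal_im]
  have h2 : (1 + (Complex.cos φ + Complex.sin φ * I) : ℂ).im = Real.sin φ := by
    simp [Complex.cos_ofReal_im, Complex.sin_ofReal_re]
  rw [h1, h2]
  nlinarith [Real.sin_sq_add_cos_sq φ]

/-- the pointwise comparison -/
private theorem comp {R X Y C : ℝ} {k : ℂ} (hC : 1 ≤ C) (hX : 1 ≤ X) (hXR : X ≤ R) (hY : 1 ≤ Y)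
    (hYR : Y ≤ R) (hl0 : 0 ≤ l0 X Y) (hl : l0 X Y ≤ (Real.sqrt (X * Y))⁻¹)
    (hk : ‖k - (1 + cexp (I * ((Y - X : ℝ) : ℂ))) * (l0 X Y : ℂ)‖
      ≤ C * ((X * Y)⁻¹ + (1 + Real.log (R / X) + Real.log (R / Y)) / R)) :
    |‖k‖ ^ 2 - (2 + 2 * Real.cos (Y - X)) * l0 X Y ^ 2|
      ≤ (64 * C + 512 * C ^ 2) * (X ^ (-(3 / 2) : ℝ) * Y ^ (-(3 / 2) : ℝ)
        + (R ^ (-(1 / 4) : ℝ) * X ^ (-(3 / 4) : ℝ)) * (R ^ (-(1 / 4) : ℝ) * Y ^ (-(3 / 4) : ℝ))) := by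
  have hX0 : 0 < X := by linarith
  have hY0 : 0 < Y := by linarith
  have hR0 : 0 < R := by linarith
  obtain ⟨x, hx⟩ : ∃ x, x = X ^ (-(1 / 4) : ℝ) := ⟨_, rfl⟩
  obtain ⟨y, hy⟩ : ∃ y, y = Y ^ (-(1 / 4) : ℝ) := ⟨_, rfl⟩
  obtain ⟨ρ, hρ⟩ : ∃ ρ, ρ = R ^ (-(1 / 4) : ℝ) := ⟨_, rfl⟩
  have hx0 : 0 < x := by rw [hx]; exact Real.rpow_pos_of_pos hX0 _
  have hy0 : 0 < y := by rw [hy]; exact Real.rpow_pos_of_pos hY0 _
  have hρ0 : 0 < ρ := by rw [hρ]; exact Real.rpow_pos_of_pos hR0 _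
  have hx1 : x ≤ 1 := by
    rw [hx]; exact Real.rpow_le_one_of_one_le_of_nonpos hX (by norm_num)
  have hy1 : y ≤ 1 := by
    rw [hy]; exact Real.rpow_le_one_of_one_le_of_nonpos hY (by norm_num)
  have hρx : ρ ≤ x := by
    rw [hρ, hx]; exact Real.rpow_le_rpow_of_nonpos hX0 hXR (by norm_num)
  have hρy : ρ ≤ y := by
    rw [hρ, hy]; exact Real.rpow_le_rpow_of_nonpos hY0 hYR (by norm_num)
  have pw : ∀ (Z : ℝ) (n : ℕ), 0 < Z → (Z ^ (-(1 / 4) : ℝ)) ^ n = Z ^ (-(n / 4) : ℝ) := by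
    intro Z n hZ
    rw [← Real.rpow_natCast, ← Real.rpow_mul hZ.le]
    congr 1
    ring
  have hx4 : X⁻¹ = x ^ 4 := by
    rw [hx, pw X 4 hX0]
    norm_num
    rw [Real.rpow_neg_one]
  have hy4 : Y⁻¹ = y ^ 4 := by
    rw [hy, pw Y 4 hY0]
    norm_num
    rw [Real.rpow_neg_one]
  have hρ4 : R⁻¹ = ρ ^ 4 := by
    rw [hρ, pw R 4 hR0]
    norm_num
    rw [Real.rpow_neg_one]
  have hx6 : X ^ (-(3 / 2) : ℝ) = x ^ 6 := by
    rw [hx, pw X 6 hX0]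
    norm_num
  have hy6 : Y ^ (-(3 / 2) : ℝ) = y ^ 6 := by
    rw [hy, pw Y 6 hY0]
    norm_num
  have hx3 : X ^ (-(3 / 4) : ℝ) = x ^ 3 := by
    rw [hx, pw X 3 hX0]
    norm_num
  have hy3 : Y ^ (-(3 / 4) : ℝ) = y ^ 3 := by
    rw [hy, pw Y 3 hY0]
    norm_num
  have hsq : (Real.sqrt (X * Y))⁻¹ = (x * y) ^ 2 := by
    have h1 : ((x * y) ^ 2) ^ 2 = (X * Y)⁻¹ := by
      rw [mul_inv, hx4, hy4]; ring
    have h2 : Real.sqrt ((X * Y)⁻¹) = (x * y) ^ 2 := by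
      rw [← h1, Real.sqrt_sq (by positivity)]
    rw [← h2, Real.sqrt_inv]
  have hlogX := log_le hX hXR
  have hlogY := log_le hY hYR
  rw [← hx, ← hρ] at hlogX
  rw [← hy, ← hρ] at hlogY
  have hlX0 : 0 ≤ Real.log (R / X) := Real.log_nonneg (by rw [le_div_iff₀ hX0]; linarith)
  have hlY0 : 0 ≤ Real.log (R / Y) := Real.log_nonneg (by rw [le_div_iff₀ hY0]; linarith)
  have herr : (1 + Real.log (R / X) + Real.log (R / Y)) / R ≤ 16 * ρ ^ 2 * (x * y) := by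
    have h1 : 1 + Real.log (R / X) + Real.log (R / Y)
        ≤ (1 + Real.log (R / X)) * (1 + Real.log (R / Y)) := by nlinarith
    have h2 : (1 + Real.log (R / X)) * (1 + Real.log (R / Y)) ≤ (4 * (x / ρ)) * (4 * (y / ρ)) :=
      mul_le_mul hlogX hlogY (by linarith) (by positivity)
    rw [div_eq_mul_inv, hρ4]
    calc (1 + Real.log (R / X) + Real.log (R / Y)) * ρ ^ 4
        ≤ ((4 * (x / ρ)) * (4 * (y / ρ))) * ρ ^ 4 :=
          mul_le_mul_of_nonneg_right (h1.trans h2) (by positivity)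
      _ = 16 * ρ ^ 2 * (x * y) := by field_simp; ring
  obtain ⟨M, hM⟩ : ∃ M : ℂ, M = (1 + cexp (I * ((Y - X : ℝ) : ℂ))) * (l0 X Y : ℂ) := ⟨_, rfl⟩
  have hM2 : ‖M‖ ^ 2 = (2 + 2 * Real.cos (Y - X)) * l0 X Y ^ 2 := by
    rw [hM]; exact normM _ _
  rw [← hM2, hx6, hy6, hx3, hy3, ← hρ]
  rw [← hM] at hk
  obtain ⟨w, hw⟩ : ∃ w, w = x * y := ⟨_, rfl⟩
  have hw0 : 0 < w := by rw [hw]; positivity
  have hw1 : w ≤ 1 := by rw [hw]; exact mul_le_one₀ hx1 hy0.le hy1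
  have hρw : ρ ^ 2 ≤ w := by
    rw [hw, sq]
    exact mul_le_mul hρx hρy hρ0.le hx0.le
  have hMb : ‖M‖ ≤ 2 * w ^ 2 := by
    rw [hM, norm_mul]
    have h1 : ‖(1 : ℂ) + cexp (I * ((Y - X : ℝ) : ℂ))‖ ≤ 2 := by
      refine (norm_add_le _ _).trans ?_
      rw [norm_one, mul_comm I, Complex.norm_exp_ofReal_mul_I]
      norm_num
    have h2 : ‖(l0 X Y : ℂ)‖ ≤ w ^ 2 := by
      rw [Complex.norm_real, Real.norm_eq_abs, abs_of_nonneg hl0, hw, ← hsq]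
      exact hl
    exact mul_le_mul h1 h2 (norm_nonneg _) (by norm_num)
  obtain ⟨er, her⟩ : ∃ er, er = C * (w ^ 4 + 16 * ρ ^ 2 * w) := ⟨_, rfl⟩
  have her0 : 0 ≤ er := by rw [her]; positivity
  have hke : ‖k - M‖ ≤ er := by
    refine hk.trans ?_
    rw [her]
    refine mul_le_mul_of_nonneg_left (add_le_add (le_of_eq ?_) ?_) (by linarith)
    · rw [mul_inv, hx4, hy4, hw]; ring
    · rw [hw]; exact herr
  have h1 : |‖k‖ - ‖M‖| ≤ er := (abs_norm_sub_norm_le k M).trans hke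
  have h2 : |‖k‖ ^ 2 - ‖M‖ ^ 2| ≤ er * (er + 4 * w ^ 2) := by
    have e1 : ‖k‖ ^ 2 - ‖M‖ ^ 2 = (‖k‖ - ‖M‖) * (‖k‖ + ‖M‖) := by ring
    rw [e1, abs_mul]
    refine mul_le_mul h1 ?_ (abs_nonneg _) her0
    rw [abs_of_nonneg (by positivity)]
    have := (abs_le.1 h1).2
    linarith
  refine h2.trans ?_
  have e2 : x ^ 6 * y ^ 6 + ρ * x ^ 3 * (ρ * y ^ 3) = w ^ 6 + ρ ^ 2 * w ^ 3 := by
    rw [hw]; ring
  rw [e2, her]
  have hw84 : w ^ 8 ≤ w ^ 6 := pow_le_pow_of_le_one hw0.le hw1 (by norm_num)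
  have hmix : ρ ^ 4 * w ^ 2 ≤ ρ ^ 2 * w ^ 3 := by
    have : ρ ^ 2 * (ρ ^ 2 * w ^ 2) ≤ ρ ^ 2 * (w * w ^ 2) :=
      mul_le_mul_of_nonneg_left (mul_le_mul_of_nonneg_right hρw (by positivity)) (by positivity)
    calc ρ ^ 4 * w ^ 2 = ρ ^ 2 * (ρ ^ 2 * w ^ 2) := by ring
      _ ≤ ρ ^ 2 * (w * w ^ 2) := this
      _ = ρ ^ 2 * w ^ 3 := by ring
  have hsq2 : (w ^ 4 + 16 * ρ ^ 2 * w) ^ 2 ≤ 2 * w ^ 6 + 512 * (ρ ^ 2 * w ^ 3) := by
    have h3 : (w ^ 4 + 16 * ρ ^ 2 * w) ^ 2 ≤ 2 * (w ^ 4) ^ 2 + 2 * (16 * ρ ^ 2 * w) ^ 2 := by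
      nlinarith [sq_nonneg (w ^ 4 - 16 * ρ ^ 2 * w)]
    have h4 : 2 * (w ^ 4) ^ 2 + 2 * (16 * ρ ^ 2 * w) ^ 2 = 2 * w ^ 8 + 512 * (ρ ^ 4 * w ^ 2) := by
      ring
    linarith
  have hC2 : 0 < C ^ 2 := by positivity
  have h5 : C * (w ^ 4 + 16 * ρ ^ 2 * w) * (C * (w ^ 4 + 16 * ρ ^ 2 * w) + 4 * w ^ 2)
      = C ^ 2 * (w ^ 4 + 16 * ρ ^ 2 * w) ^ 2 + C * (4 * w ^ 6 + 64 * (ρ ^ 2 * w ^ 3)) := by ring
  rw [h5]
  have h6 := mul_le_mul_of_nonneg_left hsq2 hC2.le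
  have h7 : 0 ≤ w ^ 6 := by positivity
  have h8 : 0 ≤ ρ ^ 2 * w ^ 3 := by positivity
  have h9 : 0 ≤ C ^ 2 * w ^ 6 := by positivity
  have h10 : 0 ≤ C * w ^ 6 := by positivity
  nlinarith

end D6

open D6 in
theorem kInt (hF : FBd) (h4 : KDer) (h6 : LSum) (h1 : KMain) (h2 : LZero) (h4L : LInt) (h5 : CosInt) : KInt := by
  intro θ θ' B hθ
  obtain ⟨C0, hC0⟩ := hF θ θ' B hθ
  obtain ⟨A, hA, hK⟩ := h4
  obtain ⟨C1, hC1, hM⟩ := h1 θ θ' B hθ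
  obtain ⟨hl0, _, _, hlc, _⟩ := h2
  obtain ⟨CL, hCL, hL⟩ := h4L
  obtain ⟨CC, hCC, hCos⟩ := h5
  obtain ⟨K, hKdef⟩ : ∃ K : ℝ, K = (A * C0 ^ 2) ^ 2 := ⟨_, rfl⟩
  have hK0 : 0 ≤ K := by rw [hKdef]; positivity
  obtain ⟨C5, hC5⟩ : ∃ C5 : ℝ, C5 = 64 * C1 + 512 * C1 ^ 2 := ⟨_, rfl⟩
  have hC50 : 0 ≤ C5 := by rw [hC5]; positivity
  refine ⟨4 * K + 20 * C5 + 2 * CL + 2 * CC, by linarith, fun R hR => ?_⟩
  obtain ⟨F', hFn⟩ := hC0 R hR
  obtain ⟨hc, _, hb, _, _⟩ := hK (FF θ R) F' C0 R hFn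
  obtain ⟨g, hg⟩ : ∃ g : ℝ → ℝ → ℝ, g = fun X Y => ‖kk (FF θ R) R X Y‖ ^ 2 := ⟨_, rfl⟩
  have hgX : ∀ X Y, g X Y = ‖kk (FF θ R) R X Y‖ ^ 2 := fun X Y => by rw [hg]
  simp only [← hgX]
  have hgc : Continuous (Function.uncurry g) := by
    have : Function.uncurry g = fun p => ‖Function.uncurry (kk (FF θ R) R) p‖ ^ 2 := by
      rw [hg]; rfl
    rw [this]
    exact hc.norm.pow 2
  have hg0 : ∀ X Y, 0 ≤ g X Y := fun X Y => by rw [hgX]; exact sq_nonneg _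
  have hgb : ∀ X Y, 0 ≤ X → 0 ≤ Y → g X Y ≤ K * ll X Y ^ 2 := by
    intro X Y hX hY
    have h := hb X Y hX hY
    have h2 := pow_le_pow_left₀ (norm_nonneg _) h 2
    rw [mul_pow] at h2
    rw [hgX, hKdef]
    exact h2
  have hg1 : ∀ X Y, 0 ≤ X → 0 ≤ Y → g X Y ≤ K * (1 + Y) ^ (-(3 / 2) : ℝ) := by
    intro X Y hX hY
    refine (hgb X Y hX hY).trans (mul_le_mul_of_nonneg_left ?_ hK0)
    rw [← sq34 hY]
    exact pow_le_pow_left₀ (ll_nonneg hX hY) (ll_le_right hX hY) 2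
  have hg2 : ∀ X Y, 0 ≤ X → 0 ≤ Y → g X Y ≤ K * (1 + X) ^ (-(3 / 2) : ℝ) := by
    intro X Y hX hY
    refine (hgb X Y hX hY).trans (mul_le_mul_of_nonneg_left ?_ hK0)
    rw [← sq34 hX]
    exact pow_le_pow_left₀ (ll_nonneg hX hY) (ll_le_left hX hY) 2
  have hgY : ∀ X, Continuous (g X) := fun X => hgc.comp (by fun_prop : Continuous fun Y => (X, Y))
  have hint : ∀ a b : ℝ, Continuous fun X => ∫ Y in a..b, g X Y := fun a b =>
    intervalIntegral.continuous_parametric_intervalIntegral_of_continuous' hgc a b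
  -- decomposition
  have hdec : ∫ X in (0 : ℝ)..R, ∫ Y in (0 : ℝ)..R, g X Y
      = (∫ X in (0 : ℝ)..1, ∫ Y in (0 : ℝ)..R, g X Y) + ((∫ X in (1 : ℝ)..R, ∫ Y in (0 : ℝ)..1, g X Y)
        + ∫ X in (1 : ℝ)..R, ∫ Y in (1 : ℝ)..R, g X Y) := by
    rw [← intervalIntegral.integral_add_adjacent_intervals (a := 0) (b := 1) (c := R)
      ((hint 0 R).intervalIntegrable _ _) ((hint 0 R).intervalIntegrable _ _)]
    congr 1
    rw [← intervalIntegral.integral_add ((hint 0 1).intervalIntegrable _ _)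
      ((hint 1 R).intervalIntegrable _ _)]
    refine intervalIntegral.integral_congr fun X _ => ?_
    exact (intervalIntegral.integral_add_adjacent_intervals
      ((hgY X).intervalIntegrable _ _) ((hgY X).intervalIntegrable _ _)).symm
  have hcp : ∀ a b : ℝ, 0 ≤ a → a ≤ b → IntervalIntegrable (fun x : ℝ => K * (1 + x) ^ (-(3 / 2) : ℝ))
      volume a b := by
    intro a b ha hab
    refine ContinuousOn.intervalIntegrable ?_
    rw [uIcc_of_le hab]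
    refine continuousOn_const.mul (ContinuousOn.rpow_const (by fun_prop) fun x hx => Or.inl ?_)
    have := hx.1
    linarith
  have hr1 : ∫ X in (0 : ℝ)..1, ∫ Y in (0 : ℝ)..R, g X Y ≤ 2 * K := by
    have h : ∀ X ∈ Icc (0 : ℝ) 1, ∫ Y in (0 : ℝ)..R, g X Y ≤ 2 * K := by
      intro X hX
      calc ∫ Y in (0 : ℝ)..R, g X Y ≤ ∫ Y in (0 : ℝ)..R, K * (1 + Y) ^ (-(3 / 2) : ℝ) :=
            intervalIntegral.integral_mono_on (by linarith) ((hgY X).intervalIntegrable _ _)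
              (hcp 0 R le_rfl (by linarith)) fun Y hY => hg1 X Y hX.1 hY.1
        _ = K * ∫ Y in (0 : ℝ)..R, (1 + Y) ^ (-(3 / 2) : ℝ) := intervalIntegral.integral_const_mul _ _
        _ ≤ K * 2 := mul_le_mul_of_nonneg_left (int32' le_rfl (by linarith)) hK0
        _ = 2 * K := by ring
    calc ∫ X in (0 : ℝ)..1, ∫ Y in (0 : ℝ)..R, g X Y ≤ ∫ X in (0 : ℝ)..1, 2 * K :=
          intervalIntegral.integral_mono_on (by norm_num) ((hint 0 R).intervalIntegrable _ _)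
            (intervalIntegrable_const) h
      _ = 2 * K := by simp
  have hr2 : ∫ X in (1 : ℝ)..R, ∫ Y in (0 : ℝ)..1, g X Y ≤ 2 * K := by
    have h : ∀ X ∈ Icc (1 : ℝ) R, ∫ Y in (0 : ℝ)..1, g X Y ≤ K * (1 + X) ^ (-(3 / 2) : ℝ) := by
      intro X hX
      calc ∫ Y in (0 : ℝ)..1, g X Y ≤ ∫ Y in (0 : ℝ)..1, K * (1 + X) ^ (-(3 / 2) : ℝ) :=
            intervalIntegral.integral_mono_on (by norm_num) ((hgY X).intervalIntegrable _ _)
              intervalIntegrable_const fun Y hY => hg2 X Y (by linarith [hX.1]) hY.1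
        _ = K * (1 + X) ^ (-(3 / 2) : ℝ) := by simp
    calc ∫ X in (1 : ℝ)..R, ∫ Y in (0 : ℝ)..1, g X Y ≤ ∫ X in (1 : ℝ)..R, K * (1 + X) ^ (-(3 / 2) : ℝ) :=
          intervalIntegral.integral_mono_on hR ((hint 0 1).intervalIntegrable _ _)
            (hcp 1 R (by norm_num) hR) h
      _ = K * ∫ X in (1 : ℝ)..R, (1 + X) ^ (-(3 / 2) : ℝ) := intervalIntegral.integral_const_mul _ _
      _ ≤ K * 2 := mul_le_mul_of_nonneg_left (int32' (by norm_num) hR) hK0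
      _ = 2 * K := by ring
  have hr1' : 0 ≤ ∫ X in (0 : ℝ)..1, ∫ Y in (0 : ℝ)..R, g X Y :=
    intervalIntegral.integral_nonneg (by norm_num) fun X _ =>
      intervalIntegral.integral_nonneg (by linarith) fun Y _ => hg0 X Y
  have hr2' : 0 ≤ ∫ X in (1 : ℝ)..R, ∫ Y in (0 : ℝ)..1, g X Y :=
    intervalIntegral.integral_nonneg hR fun X _ =>
      intervalIntegral.integral_nonneg (by norm_num) fun Y _ => hg0 X Y
  -- the main part
  have hsub : (Icc (1 : ℝ) R ×ˢ Icc (1 : ℝ) R) ⊆ (Ioi (0 : ℝ) ×ˢ Ioi (0 : ℝ)) := by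
    rintro ⟨X, Y⟩ ⟨hX, hY⟩
    have h1 : (1 : ℝ) ≤ X := hX.1
    have h2 : (1 : ℝ) ≤ Y := hY.1
    exact ⟨lt_of_lt_of_le one_pos h1, lt_of_lt_of_le one_pos h2⟩
  have hlc2 : ContinuousOn (Function.uncurry l0) (Icc (1 : ℝ) R ×ˢ Icc (1 : ℝ) R) := hlc.mono hsub
  have hmsq : ContinuousOn (Function.uncurry fun X Y : ℝ => l0 X Y ^ 2)
      (Icc (1 : ℝ) R ×ˢ Icc (1 : ℝ) R) := hlc2.pow 2
  have hmcos : ContinuousOn (Function.uncurry fun X Y : ℝ => Real.cos (Y - X) * l0 X Y ^ 2)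
      (Icc (1 : ℝ) R ×ˢ Icc (1 : ℝ) R) := by
    refine ContinuousOn.mul ?_ (hlc2.pow 2)
    exact Continuous.continuousOn (by fun_prop)
  have hmain : ContinuousOn (Function.uncurry fun X Y : ℝ =>
      (2 + 2 * Real.cos (Y - X)) * l0 X Y ^ 2) (Icc (1 : ℝ) R ×ˢ Icc (1 : ℝ) R) := by
    refine ContinuousOn.mul ?_ (hlc2.pow 2)
    exact Continuous.continuousOn (by fun_prop)
  have hcomp : IsCompact (Icc (1 : ℝ) R ×ˢ Icc (1 : ℝ) R) := isCompact_Icc.prod isCompact_Icc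
  have hms : MeasurableSet (Icc (1 : ℝ) R ×ˢ Icc (1 : ℝ) R) := measurableSet_Icc.prod measurableSet_Icc
  have hrp : ∀ q : ℝ, ContinuousOn (fun x : ℝ => x ^ q) (Icc (1 : ℝ) R) := fun q =>
    ContinuousOn.rpow_const continuousOn_id fun x hx => Or.inl (by
      have := hx.1
      intro h
      have h' : x = 0 := h
      linarith)
  have hp1c : ContinuousOn (Function.uncurry fun X Y : ℝ => X ^ (-(3 / 2) : ℝ) * Y ^ (-(3 / 2) : ℝ))
      (Icc (1 : ℝ) R ×ˢ Icc (1 : ℝ) R) := by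
    refine ContinuousOn.mul ?_ ?_
    · exact (hrp _).comp continuousOn_fst fun z hz => hz.1
    · exact (hrp _).comp continuousOn_snd fun z hz => hz.2
  have hp2c : ContinuousOn (Function.uncurry fun X Y : ℝ =>
      (R ^ (-(1 / 4) : ℝ) * X ^ (-(3 / 4) : ℝ)) * (R ^ (-(1 / 4) : ℝ) * Y ^ (-(3 / 4) : ℝ)))
      (Icc (1 : ℝ) R ×ˢ Icc (1 : ℝ) R) := by
    refine ContinuousOn.mul (continuousOn_const.mul ?_) (continuousOn_const.mul ?_)
    · exact (hrp _).comp continuousOn_fst fun z hz => hz.1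
    · exact (hrp _).comp continuousOn_snd fun z hz => hz.2
  have e1 : ∫ z in Icc (1 : ℝ) R ×ˢ Icc (1 : ℝ) R, Function.uncurry (fun X Y : ℝ =>
      (2 + 2 * Real.cos (Y - X)) * l0 X Y ^ 2) z
      = 2 * (∫ X in (1 : ℝ)..R, ∫ Y in (1 : ℝ)..R, l0 X Y ^ 2)
        + 2 * ∫ X in (1 : ℝ)..R, ∫ Y in (1 : ℝ)..R, Real.cos (Y - X) * l0 X Y ^ 2 := by
    rw [iter_eq hR hmsq, iter_eq hR hmcos, ← integral_const_mul, ← integral_const_mul,
      ← integral_add ((hmsq.integrableOn_compact hcomp).const_mul 2)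
        ((hmcos.integrableOn_compact hcomp).const_mul 2)]
    refine integral_congr_ae (Eventually.of_forall fun z => ?_)
    obtain ⟨X, Y⟩ := z
    show (2 + 2 * Real.cos (Y - X)) * l0 X Y ^ 2
      = 2 * (l0 X Y ^ 2) + 2 * (Real.cos (Y - X) * l0 X Y ^ 2)
    ring
  have hdiff : |(∫ X in (1 : ℝ)..R, ∫ Y in (1 : ℝ)..R, g X Y)
      - ∫ z in Icc (1 : ℝ) R ×ˢ Icc (1 : ℝ) R, Function.uncurry (fun X Y : ℝ =>
      (2 + 2 * Real.cos (Y - X)) * l0 X Y ^ 2) z| ≤ 20 * C5 := by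
    rw [iter_eq hR hgc.continuousOn, ← integral_sub (hgc.continuousOn.integrableOn_compact hcomp)
      (hmain.integrableOn_compact hcomp)]
    calc |∫ z in Icc (1 : ℝ) R ×ˢ Icc (1 : ℝ) R, (Function.uncurry g z - Function.uncurry
          (fun X Y : ℝ => (2 + 2 * Real.cos (Y - X)) * l0 X Y ^ 2) z)|
        ≤ ∫ z in Icc (1 : ℝ) R ×ˢ Icc (1 : ℝ) R, |Function.uncurry g z - Function.uncurry
          (fun X Y : ℝ => (2 + 2 * Real.cos (Y - X)) * l0 X Y ^ 2) z| :=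
          abs_integral_le_integral_abs
      _ ≤ ∫ z in Icc (1 : ℝ) R ×ˢ Icc (1 : ℝ) R, C5 * (Function.uncurry (fun X Y : ℝ =>
            X ^ (-(3 / 2) : ℝ) * Y ^ (-(3 / 2) : ℝ)) z + Function.uncurry (fun X Y : ℝ =>
            (R ^ (-(1 / 4) : ℝ) * X ^ (-(3 / 4) : ℝ)) * (R ^ (-(1 / 4) : ℝ) * Y ^ (-(3 / 4) : ℝ))) z) := by
          refine setIntegral_mono_on ?_ ?_ hms ?_
          · exact ((hgc.continuousOn.sub hmain).abs).integrableOn_compact hcomp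
          · exact ((hp1c.add hp2c).integrableOn_compact hcomp).const_mul _
          · rintro ⟨X, Y⟩ ⟨hX, hY⟩
            have hX' : X ∈ Icc (1 : ℝ) R := hX
            have hY' : Y ∈ Icc (1 : ℝ) R := hY
            have h := hl0 X Y (by linarith [hX'.1]) (by linarith [hY'.1])
            have h7 := comp hC1 hX'.1 hX'.2 hY'.1 hY'.2 h.1 h.2.1
              (hM R X Y hX'.1 hX'.2 hY'.1 hY'.2)
            rw [← hgX, ← hC5] at h7
            exact h7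
      _ = C5 * ((∫ X in (1 : ℝ)..R, ∫ Y in (1 : ℝ)..R, X ^ (-(3 / 2) : ℝ) * Y ^ (-(3 / 2) : ℝ))
            + ∫ X in (1 : ℝ)..R, ∫ Y in (1 : ℝ)..R,
            (R ^ (-(1 / 4) : ℝ) * X ^ (-(3 / 4) : ℝ)) * (R ^ (-(1 / 4) : ℝ) * Y ^ (-(3 / 4) : ℝ))) := by
          rw [integral_const_mul, integral_add (hp1c.integrableOn_compact hcomp)
            (hp2c.integrableOn_compact hcomp), ← iter_eq hR hp1c, ← iter_eq hR hp2c]
      _ = C5 * ((∫ X in (1 : ℝ)..R, X ^ (-(3 / 2) : ℝ)) * (∫ X in (1 : ℝ)..R, X ^ (-(3 / 2) : ℝ))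
            + (∫ X in (1 : ℝ)..R, R ^ (-(1 / 4) : ℝ) * X ^ (-(3 / 4) : ℝ))
              * (∫ X in (1 : ℝ)..R, R ^ (-(1 / 4) : ℝ) * X ^ (-(3 / 4) : ℝ))) := by
          congr 2
          · rw [← intervalIntegral.integral_mul_const]
            refine intervalIntegral.integral_congr fun X _ => ?_
            exact intervalIntegral.integral_const_mul _ _
          · rw [← intervalIntegral.integral_mul_const]
            refine intervalIntegral.integral_congr fun X _ => ?_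
            exact intervalIntegral.integral_const_mul _ _
      _ ≤ C5 * (2 * 2 + 4 * 4) := by
          refine mul_le_mul_of_nonneg_left ?_ hC50
          have a1 := int32 hR
          have a2 := int34 hR
          have b1 : 0 ≤ ∫ X in (1 : ℝ)..R, X ^ (-(3 / 2) : ℝ) :=
            intervalIntegral.integral_nonneg hR fun X hX => Real.rpow_nonneg (by linarith [hX.1]) _
          have b2 : 0 ≤ ∫ X in (1 : ℝ)..R, R ^ (-(1 / 4) : ℝ) * X ^ (-(3 / 4) : ℝ) :=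
            intervalIntegral.integral_nonneg hR fun X hX =>
              mul_nonneg (Real.rpow_nonneg (by linarith) _) (Real.rpow_nonneg (by linarith [hX.1]) _)
          exact add_le_add (mul_le_mul a1 a1 b1 (by norm_num)) (mul_le_mul a2 a2 b2 (by norm_num))
      _ = 20 * C5 := by ring
  rw [hdec]
  rw [e1] at hdiff
  have hL' := hL R hR
  have hC' := hCos R hR
  rw [abs_le] at hdiff hL' hC' ⊢
  constructor <;> linarith [hdiff.1, hdiff.2, hL'.1, hL'.2, hC'.1, hC'.2]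

end Pool.Agent.Lib.MP4
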