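import Mathlib
import Pool.Agent.Lib.MP_f9aece_nt_mp.AllP
import Pool.Agent.Lib.MP_f9aece_nt_mq.A1GZero
import Pool.Agent.Lib.MP_f9aece_nt_mq.A2PsiPh
import Pool.Agent.Lib.MP_f9aece_nt_mq.A3FBd
import Pool.Agent.Lib.MP_f9aece_nt_mq.B1FourEn
import Pool.Agent.Lib.MP_f9aece_nt_mq.B2SumInt
import Pool.Agent.Lib.MP_f9aece_nt_mq.B3MajL
import Pool.Agent.Lib.MP_f9aece_nt_mq.B4KDer
import Pool.Agent.Lib.MP_f9aece_nt_mq.B5Kappa
import Pool.Agent.Lib.MP_f9aece_nt_mq.B6LSum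
import Pool.Agent.Lib.MP_f9aece_nt_mq.B7SumInt2
import Pool.Agent.Lib.MP_f9aece_nt_mq.B8CopSum
import Pool.Agent.Lib.MP_f9aece_nt_mq.B9EnKer
import Pool.Agent.Lib.MP_f9aece_nt_mq.D1KMain
import Pool.Agent.Lib.MP_f9aece_nt_mq.D2LZero
import Pool.Agent.Lib.MP_f9aece_nt_mq.D3Const
import Pool.Agent.Lib.MP_f9aece_nt_mq.D4LInt
import Pool.Agent.Lib.MP_f9aece_nt_mq.D5CosInt
import Pool.Agent.Lib.MP_f9aece_nt_mq.D6KInt
import Pool.Agent.Lib.MP_f9aece_nt_mq.D7Energy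
import Pool.Agent.Lib.MP_f9aece_nt_mq.C1FourMV
import Pool.Agent.Lib.MP_f9aece_nt_mq.C2ResU
import Pool.Agent.Lib.MP_f9aece_nt_mq.C3Low
import Pool.Agent.Lib.MP_f9aece_nt_mq.C4High
import Pool.Agent.Lib.MP_f9aece_nt_mq.C5Crit
import Pool.Agent.Lib.MP_f9aece_nt_mq.C6Sharp

/-!
The fourth moment of the plain average of zeta over short windows: everything together.
-/

set_option autoImplicit false

namespace Pool.Agent.Lib.MP4

open Pool.Agent.Lib

theorem xEnergy : Energy :=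
  energy (fBd gZero)
    (enKer fourEn (kDer majL) (kappa sumInt majL) lSum (copSum (sumInt2 sumInt lSum)))
    (kInt (fBd gZero) (kDer majL) lSum (kMain gZero lZero) lZero (lInt lZero const) (cosInt lZero))

theorem xPsiPh : PsiPh := psiPh MP2.prim gZero

theorem xLow : Low :=
  low (MP2.phAdm MP2.prim) xPsiPh xEnergy fourMV (resU xPsiPh gZero (MP2.phAdm MP2.prim))

theorem xHigh : High :=
  high MP2.prim MP2.cont (MP2.ident MP2.prim MP2.cont) (MP2.top MP2.exZ0 MP2.xLineShift MP2.xDiscPt MP2.cont)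

theorem xCrit : Crit := crit MP2.bump MP2.prim MP2.cont xLow xHigh

theorem xSharp : Sharp := sharp MP2.cont xCrit

end Pool.Agent.Lib.MP4
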