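import Mathlib
import Pool.Agent.Lib.MP_f9aece_nt_mq.StmtsF

/-!
The fourth moment of the plain average of zeta over short windows, module FB6.

ll^2 = max^(-3/2) min^(-1/2). int over X in (0,oo): split at X = Y: for 1+X <= 1+Y: (1+Y)^(-3/2) int (1+X)^(-1/2) <= 2 (1+Y)^-1; for X >= Y: (1+Y)^(-1/2) int_Y^oo (1+X)^(-3/2) = 2 (1+Y)^-1. Sums: phi(X) = ll X Y ^ 2 is decreasing in X (antitone), so for n >= 2, phi(H log n)/n <= phi(H log n) (log n - log(n-1)) <= H^-1 int_{H log(n-1)..H log n} phi; the term n = 1 gives H phi(0) <= H (1+Y)^(-3/2). Third part: inner sum <= A (1+Y)^-1, then the same with (1+Y)^-1: H + log(1+R) <= 2 + log R.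
-/

set_option autoImplicit false

namespace Pool.Agent.Lib.MP4

open MeasureTheory Set Filter Topology Complex
open scoped ComplexConjugate
open Pool.Agent.Lib.MS (psi Adm ZW ZS Res ZIdent PowClose)
open Pool.Agent.Lib
open Pool.Agent.Lib.MP2 (RD Av PA BumpFn Th Ss ph Prim PhAdm Cont Ident Top)

private theorem fb6_comm (X Y : ℝ) : ll X Y = ll Y X := by
  unfold ll
  rw [max_comm, min_comm]

private theorem fb6_nonneg {X Y : ℝ} (hX : 0 ≤ X) (hY : 0 ≤ Y) : 0 ≤ ll X Y := by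
  unfold ll
  have h1 : 0 ≤ max (1 + X) (1 + Y) := le_max_of_le_left (by linarith)
  have h2 : 0 ≤ min (1 + X) (1 + Y) := le_min (by linarith) (by linarith)
  exact mul_nonneg (Real.rpow_nonneg h1 _) (Real.rpow_nonneg h2 _)

private theorem fb6_sq_le {X Y : ℝ} (hX : 0 ≤ X) (hXY : X ≤ Y) :
    ll X Y ^ 2 = (1 + Y) ^ (-(3 / 2) : ℝ) * (1 + X) ^ (-(1 / 2) : ℝ) := by
  unfold ll
  have h1 : (0 : ℝ) ≤ 1 + X := by linarith
  have h2 : (0 : ℝ) ≤ 1 + Y := by linarith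
  rw [max_eq_right (by linarith), min_eq_left (by linarith), mul_pow, ← Real.rpow_natCast,
    ← Real.rpow_natCast, ← Real.rpow_mul h1, ← Real.rpow_mul h2]
  norm_num

private theorem fb6_sq_ge {X Y : ℝ} (hY : 0 ≤ Y) (hXY : Y ≤ X) :
    ll X Y ^ 2 = (1 + X) ^ (-(3 / 2) : ℝ) * (1 + Y) ^ (-(1 / 2) : ℝ) := by
  rw [fb6_comm]
  exact fb6_sq_le hY hXY

private theorem fb6_anti {Y : ℝ} (hY : 0 ≤ Y) : AntitoneOn (fun X => ll X Y ^ 2) (Ici 0) := by
  intro X hX X' hX' hXX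
  have h0 : (0 : ℝ) ≤ X := hX
  have h0' : (0 : ℝ) ≤ X' := hX'
  apply pow_le_pow_left₀ (fb6_nonneg h0' hY)
  unfold ll
  apply mul_le_mul
  · exact Real.rpow_le_rpow_of_nonpos (lt_of_lt_of_le (by linarith) (le_max_left _ _))
      (max_le_max (by linarith) le_rfl) (by norm_num)
  · exact Real.rpow_le_rpow_of_nonpos (lt_min (by linarith) (by linarith))
      (min_le_min (by linarith) le_rfl) (by norm_num)
  · exact Real.rpow_nonneg (le_min (by linarith) (by linarith)) _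
  · exact Real.rpow_nonneg (le_max_of_le_left (by linarith)) _

private theorem fb6_tail {Y : ℝ} (hY : 0 ≤ Y) :
    IntegrableOn (fun X : ℝ => (1 + X) ^ (-(3 / 2) : ℝ)) (Ioi Y) ∧
    ∫ X in Ioi Y, (1 + X) ^ (-(3 / 2) : ℝ) = 2 * (1 + Y) ^ (-(1 / 2) : ℝ) := by
  have hd : ∀ X ∈ Ici Y, HasDerivAt (fun X : ℝ => -2 * (1 + X) ^ (-(1 / 2) : ℝ))
      ((1 + X) ^ (-(3 / 2) : ℝ)) X := by
    intro X hX
    have hX0 : (0 : ℝ) < 1 + X := by
      have : Y ≤ X := hX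
      linarith
    have h1 : HasDerivAt (fun X : ℝ => 1 + X) 1 X := (hasDerivAt_id X).const_add 1
    have h2 := (h1.rpow_const (p := (-(1 / 2) : ℝ)) (Or.inl (ne_of_gt hX0))).const_mul (-2)
    refine h2.congr_deriv ?_
    rw [show (-(1 / 2) - 1 : ℝ) = -(3 / 2) by norm_num]
    ring
  have ht : Tendsto (fun X : ℝ => -2 * (1 + X) ^ (-(1 / 2) : ℝ)) atTop (𝓝 (-2 * 0)) := by
    apply Tendsto.const_mul
    exact (tendsto_rpow_neg_atTop (by norm_num : (0 : ℝ) < 1 / 2)).comp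
      (tendsto_atTop_add_const_left _ _ tendsto_id)
  have hi : IntegrableOn (fun X : ℝ => (1 + X) ^ (-(3 / 2) : ℝ)) (Ioi Y) := by
    apply integrableOn_Ioi_deriv_of_nonneg' hd _ ht
    intro X hX
    have : Y < X := hX
    exact Real.rpow_nonneg (by linarith) _
  refine ⟨hi, ?_⟩
  rw [integral_Ioi_of_hasDerivAt_of_tendsto' hd hi ht]
  ring

private theorem fb6_head {Y : ℝ} (hY : 0 ≤ Y) :
    ∫ X in (0 : ℝ)..Y, (1 + X) ^ (-(1 / 2) : ℝ) ≤ 2 * (1 + Y) ^ (1 / 2 : ℝ) := by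
  have hd : ∀ X ∈ uIcc 0 Y, HasDerivAt (fun X : ℝ => 2 * (1 + X) ^ (1 / 2 : ℝ))
      ((1 + X) ^ (-(1 / 2) : ℝ)) X := by
    intro X hX
    rw [uIcc_of_le hY] at hX
    have hX0 : (0 : ℝ) < 1 + X := by linarith [hX.1]
    have h1 : HasDerivAt (fun X : ℝ => 1 + X) 1 X := (hasDerivAt_id X).const_add 1
    have h2 := (h1.rpow_const (p := (1 / 2 : ℝ)) (Or.inl (ne_of_gt hX0))).const_mul 2
    refine h2.congr_deriv ?_
    rw [show (1 / 2 - 1 : ℝ) = -(1 / 2) by norm_num]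
    ring
  have hi : IntervalIntegrable (fun X : ℝ => (1 + X) ^ (-(1 / 2) : ℝ)) volume 0 Y := by
    apply ContinuousOn.intervalIntegrable
    apply ContinuousOn.rpow_const (by fun_prop)
    intro X hX
    rw [uIcc_of_le hY] at hX
    left
    have := hX.1
    linarith
  rw [intervalIntegral.integral_eq_sub_of_hasDerivAt hd hi]
  norm_num

private theorem fb6_int {Y : ℝ} (hY : 0 ≤ Y) : IntegrableOn (fun X : ℝ => ll X Y ^ 2) (Ioi 0) ∧
    ∫ X in Ioi (0 : ℝ), ll X Y ^ 2 ≤ 4 * (1 + Y)⁻¹ := by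
  have hY1 : (0 : ℝ) < 1 + Y := by linarith
  obtain ⟨ht1, ht2⟩ := fb6_tail hY
  have hIoc : IntegrableOn (fun X : ℝ => ll X Y ^ 2) (Ioc 0 Y) := by
    have h1 : IntervalIntegrable (fun X : ℝ => ll X Y ^ 2) volume 0 Y := by
      apply AntitoneOn.intervalIntegrable
      apply (fb6_anti hY).mono
      rw [uIcc_of_le hY]
      exact Icc_subset_Ici_self
    exact (intervalIntegrable_iff_integrableOn_Ioc_of_le hY).1 h1
  have hEq : ∀ X ∈ Ioi Y, (1 + Y) ^ (-(1 / 2) : ℝ) * (1 + X) ^ (-(3 / 2) : ℝ) = ll X Y ^ 2 := by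
    intro X hX
    rw [fb6_sq_ge hY (le_of_lt hX), mul_comm]
  have hIoi : IntegrableOn (fun X : ℝ => ll X Y ^ 2) (Ioi Y) :=
    IntegrableOn.congr_fun (ht1.const_mul ((1 + Y) ^ (-(1 / 2) : ℝ))) hEq measurableSet_Ioi
  have hU : Ioc 0 Y ∪ Ioi Y = Ioi (0 : ℝ) := Ioc_union_Ioi_eq_Ioi hY
  refine ⟨hU ▸ hIoc.union hIoi, ?_⟩
  rw [← hU, setIntegral_union _ measurableSet_Ioi hIoc hIoi]
  · have h1 : ∫ X in Ioi Y, ll X Y ^ 2 = 2 * (1 + Y)⁻¹ := by
      rw [← setIntegral_congr_fun measurableSet_Ioi hEq, integral_const_mul, ht2,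
        ← Real.rpow_neg_one]
      have : (1 + Y) ^ (-1 : ℝ) = (1 + Y) ^ (-(1 / 2) : ℝ) * (1 + Y) ^ (-(1 / 2) : ℝ) := by
        rw [← Real.rpow_add hY1]
        norm_num
      rw [this]
      ring
    have h2 : ∫ X in Ioc 0 Y, ll X Y ^ 2 ≤ 2 * (1 + Y)⁻¹ := by
      have hEq2 : ∀ X ∈ Ioc 0 Y,
          (1 + Y) ^ (-(3 / 2) : ℝ) * (1 + X) ^ (-(1 / 2) : ℝ) = ll X Y ^ 2 := by
        intro X hX
        rw [fb6_sq_le (le_of_lt hX.1) hX.2]
      rw [← setIntegral_congr_fun measurableSet_Ioc hEq2, integral_const_mul,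
        ← intervalIntegral.integral_of_le hY]
      calc (1 + Y) ^ (-(3 / 2) : ℝ) * ∫ X in (0 : ℝ)..Y, (1 + X) ^ (-(1 / 2) : ℝ)
          ≤ (1 + Y) ^ (-(3 / 2) : ℝ) * (2 * (1 + Y) ^ (1 / 2 : ℝ)) :=
            mul_le_mul_of_nonneg_left (fb6_head hY) (Real.rpow_nonneg hY1.le _)
        _ = 2 * ((1 + Y) ^ (-(3 / 2) : ℝ) * (1 + Y) ^ (1 / 2 : ℝ)) := by ring
        _ = 2 * (1 + Y)⁻¹ := by
            rw [← Real.rpow_add hY1, ← Real.rpow_neg_one]
            norm_num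
    linarith
  · rw [Set.disjoint_left]
    intro X hX hX'
    exact absurd hX.2 (not_le.2 hX')

/-- comparison of a sum with an integral -/
private theorem fb6_sum (φ : ℝ → ℝ) (hφ : AntitoneOn φ (Ici 0)) (H : ℝ) (hH : 0 < H)
    (hφ0 : ∀ X, 0 ≤ X → 0 ≤ φ X) (N : ℕ) :
    H * ∑ x ∈ Finset.Icc 1 (N + 1), φ (H * Real.log x) / x ≤
      H * φ 0 + ∫ X in (0 : ℝ)..(H * Real.log (N + 1 : ℕ)), φ X := by
  have hint : ∀ a b : ℝ, 0 ≤ a → 0 ≤ b → IntervalIntegrable φ volume a b := by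
    intro a b ha hb
    apply AntitoneOn.intervalIntegrable
    apply hφ.mono
    intro X hX
    have := hX.1
    exact le_trans (le_min ha hb) this
  induction N with
  | zero => simp
  | succ N ih =>
    rw [Finset.sum_Icc_succ_top (by omega), mul_add]
    have hN : (0 : ℝ) < ((N + 1 : ℕ) : ℝ) := by positivity
    have hN2 : (0 : ℝ) < ((N + 1 + 1 : ℕ) : ℝ) := by positivity
    have hl1 : 0 ≤ Real.log ((N + 1 : ℕ) : ℝ) :=
      Real.log_nonneg (by exact_mod_cast Nat.succ_le_succ (Nat.zero_le N))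
    have hl2 : Real.log ((N + 1 : ℕ) : ℝ) ≤ Real.log ((N + 1 + 1 : ℕ) : ℝ) :=
      Real.log_le_log hN (by exact_mod_cast Nat.le_succ _)
    have hl3 : (((N + 1 + 1 : ℕ) : ℝ))⁻¹ ≤
        Real.log ((N + 1 + 1 : ℕ) : ℝ) - Real.log ((N + 1 : ℕ) : ℝ) := by
      have h1 := Real.log_le_sub_one_of_pos (div_pos hN hN2)
      rw [Real.log_div (ne_of_gt hN) (ne_of_gt hN2)] at h1
      have h2 : ((N + 1 : ℕ) : ℝ) / ((N + 1 + 1 : ℕ) : ℝ) = 1 - (((N + 1 + 1 : ℕ) : ℝ))⁻¹ := by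
        rw [div_eq_iff (ne_of_gt hN2), sub_mul, inv_mul_cancel₀ (ne_of_gt hN2)]
        push_cast
        ring
      rw [h2] at h1
      linarith
    have ha : 0 ≤ H * Real.log ((N + 1 : ℕ) : ℝ) := mul_nonneg hH.le hl1
    have hab : H * Real.log ((N + 1 : ℕ) : ℝ) ≤ H * Real.log ((N + 1 + 1 : ℕ) : ℝ) :=
      mul_le_mul_of_nonneg_left hl2 hH.le
    have hb : 0 ≤ H * Real.log ((N + 1 + 1 : ℕ) : ℝ) := ha.trans hab
    rw [← intervalIntegral.integral_add_adjacent_intervals (hint _ _ le_rfl ha)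
      (hint _ _ ha hb)]
    have hstep : H * (φ (H * Real.log ((N + 1 + 1 : ℕ) : ℝ)) / ((N + 1 + 1 : ℕ) : ℝ)) ≤
        ∫ X in (H * Real.log ((N + 1 : ℕ) : ℝ))..(H * Real.log ((N + 1 + 1 : ℕ) : ℝ)), φ X := by
      have h1 : ∫ X in (H * Real.log ((N + 1 : ℕ) : ℝ))..(H * Real.log ((N + 1 + 1 : ℕ) : ℝ)),
          φ (H * Real.log ((N + 1 + 1 : ℕ) : ℝ)) ≤
          ∫ X in (H * Real.log ((N + 1 : ℕ) : ℝ))..(H * Real.log ((N + 1 + 1 : ℕ) : ℝ)), φ X := by
        apply intervalIntegral.integral_mono_on hab intervalIntegrable_const (hint _ _ ha hb)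
        intro X hX
        exact hφ (le_trans ha hX.1) hb hX.2
      rw [intervalIntegral.integral_const, smul_eq_mul, ← mul_sub] at h1
      refine le_trans ?_ h1
      rw [mul_assoc, div_eq_inv_mul]
      apply mul_le_mul_of_nonneg_left _ hH.le
      exact mul_le_mul_of_nonneg_right hl3 (hφ0 _ hb)
    linarith

private theorem fb6_ii {H Y : ℝ} (N : ℕ) (hH : 0 < H) (hH1 : H ≤ 1) (hY : 0 ≤ Y) :
    H * ∑ x ∈ Finset.Icc 1 N, ll (H * Real.log x) Y ^ 2 / x ≤ 5 * (1 + Y)⁻¹ := by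
  have hY1 : (0 : ℝ) < 1 + Y := by linarith
  cases N with
  | zero =>
    simp
    exact hY1.le
  | succ N =>
    have h1 := fb6_sum (fun X => ll X Y ^ 2) (fb6_anti hY) H hH (fun X _ => sq_nonneg _) N
    obtain ⟨h2, h3⟩ := fb6_int hY
    have hb : 0 ≤ H * Real.log (N + 1 : ℕ) := mul_nonneg hH.le
      (Real.log_nonneg (by exact_mod_cast Nat.succ_le_succ (Nat.zero_le N)))
    have h4 : ∫ X in (0 : ℝ)..(H * Real.log (N + 1 : ℕ)), ll X Y ^ 2 ≤
        ∫ X in Ioi (0 : ℝ), ll X Y ^ 2 := by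
      rw [intervalIntegral.integral_of_le hb]
      apply setIntegral_mono_set h2 (ae_of_all _ fun X => sq_nonneg _)
      exact (Ioc_subset_Ioi_self).eventuallyLE
    have h5 : ll 0 Y ^ 2 ≤ (1 + Y)⁻¹ := by
      rw [fb6_sq_le le_rfl hY, add_zero, Real.one_rpow, mul_one, ← Real.rpow_neg_one]
      exact Real.rpow_le_rpow_of_exponent_le (by linarith) (by norm_num)
    have h6 : H * ll 0 Y ^ 2 ≤ (1 + Y)⁻¹ :=
      le_trans (mul_le_of_le_one_left (sq_nonneg _) hH1) h5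
    linarith

private theorem fb6_inv_anti : AntitoneOn (fun X : ℝ => (1 + X)⁻¹) (Ici 0) := by
  intro X hX X' hX' hXX
  have h0 : (0 : ℝ) ≤ X := hX
  exact inv_anti₀ (by linarith) (by linarith)

private theorem fb6_log {M : ℝ} (hM : 0 ≤ M) :
    ∫ X in (0 : ℝ)..M, (1 + X)⁻¹ = Real.log (1 + M) := by
  have hd : ∀ X ∈ uIcc 0 M, HasDerivAt (fun X : ℝ => Real.log (1 + X)) (1 + X)⁻¹ X := by
    intro X hX
    rw [uIcc_of_le hM] at hX
    have hX0 : (0 : ℝ) < 1 + X := by linarith [hX.1]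
    have h1 : HasDerivAt (fun X : ℝ => 1 + X) 1 X := (hasDerivAt_id X).const_add 1
    have h2 := h1.log (ne_of_gt hX0)
    rwa [one_div] at h2
  have hi : IntervalIntegrable (fun X : ℝ => (1 + X)⁻¹) volume 0 M := by
    apply AntitoneOn.intervalIntegrable
    apply fb6_inv_anti.mono
    rw [uIcc_of_le hM]
    exact Icc_subset_Ici_self
  rw [intervalIntegral.integral_eq_sub_of_hasDerivAt hd hi]
  simp

private theorem fb6_iii {H R : ℝ} (hH : 0 < H) (hH1 : H ≤ 1) (hR : 1 ≤ R) :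
    H ^ 2 * ∑ x ∈ Finset.Icc 1 ⌊Real.exp (R / H)⌋₊, ∑ y ∈ Finset.Icc 1 ⌊Real.exp (R / H)⌋₊,
      ll (H * Real.log x) (H * Real.log y) ^ 2 / (x * y) ≤ 10 * (1 + Real.log R) := by
  set N : ℕ := ⌊Real.exp (R / H)⌋₊ with hN
  have hN1 : 1 ≤ N := by
    rw [hN, Nat.one_le_floor_iff]
    exact Real.one_le_exp (div_nonneg (by linarith) hH.le)
  have hlogN : H * Real.log N ≤ R := by
    have h1 : (N : ℝ) ≤ Real.exp (R / H) := Nat.floor_le (Real.exp_pos _).le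
    have h2 : Real.log N ≤ R / H := by
      rw [Real.log_le_iff_le_exp (by exact_mod_cast hN1)]
      exact h1
    calc H * Real.log N ≤ H * (R / H) := mul_le_mul_of_nonneg_left h2 hH.le
      _ = R := mul_div_cancel₀ _ (ne_of_gt hH)
  have hlogN0 : 0 ≤ H * Real.log N :=
    mul_nonneg hH.le (Real.log_nonneg (by exact_mod_cast hN1))
  have h1 : H ^ 2 * ∑ x ∈ Finset.Icc 1 N, ∑ y ∈ Finset.Icc 1 N,
      ll (H * Real.log x) (H * Real.log y) ^ 2 / (x * y) ≤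
      H * ∑ x ∈ Finset.Icc 1 N, 5 * (1 + H * Real.log x)⁻¹ / x := by
    rw [pow_two, mul_assoc]
    apply mul_le_mul_of_nonneg_left _ hH.le
    rw [Finset.mul_sum]
    apply Finset.sum_le_sum
    intro x hx
    have hx1 : 1 ≤ x := (Finset.mem_Icc.1 hx).1
    have hx0 : (0 : ℝ) < x := by exact_mod_cast hx1
    have hX : 0 ≤ H * Real.log x := mul_nonneg hH.le (Real.log_nonneg (by exact_mod_cast hx1))
    have h2 := fb6_ii N hH hH1 hX
    have h3 : H * ∑ y ∈ Finset.Icc 1 N, ll (H * Real.log x) (H * Real.log y) ^ 2 / (x * y) =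
        (H * ∑ y ∈ Finset.Icc 1 N, ll (H * Real.log y) (H * Real.log x) ^ 2 / y) / x := by
      rw [mul_div_assoc, Finset.sum_div]
      congr 1
      apply Finset.sum_congr rfl
      intro y _
      rw [fb6_comm, div_div, mul_comm (x : ℝ)]
    rw [h3]
    exact div_le_div_of_nonneg_right h2 hx0.le
  have h4 : H * ∑ x ∈ Finset.Icc 1 N, 5 * (1 + H * Real.log x)⁻¹ / x =
      5 * (H * ∑ x ∈ Finset.Icc 1 N, (1 + H * Real.log x)⁻¹ / x) := by
    rw [Finset.mul_sum, Finset.mul_sum, Finset.mul_sum]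
    apply Finset.sum_congr rfl
    intro x _
    ring
  obtain ⟨M, hM⟩ : ∃ M, N = M + 1 := ⟨N - 1, by omega⟩
  have h5 := fb6_sum (fun X => (1 + X)⁻¹) fb6_inv_anti H hH
    (fun X hX => inv_nonneg.2 (by linarith)) M
  rw [← hM, fb6_log hlogN0] at h5
  have h6 : Real.log (1 + H * Real.log N) ≤ 1 + Real.log R := by
    have h7 : Real.log (1 + H * Real.log N) ≤ Real.log (2 * R) :=
      Real.log_le_log (by linarith) (by linarith)
    rw [Real.log_mul (by norm_num) (by linarith)] at h7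
    have h8 : Real.log 2 ≤ 1 := by
      have := Real.log_two_lt_d9
      linarith
    linarith
  have h9 : 0 ≤ Real.log R := Real.log_nonneg hR
  simp only [add_zero, inv_one, mul_one] at h5
  rw [h4] at h1
  linarith

theorem lSum : LSum := by
  refine ⟨10, by norm_num, ?_, ?_, ?_⟩
  · intro Y hY
    obtain ⟨h1, h2⟩ := fb6_int hY
    refine ⟨h1, h2.trans ?_⟩
    have : 0 ≤ (1 + Y)⁻¹ := inv_nonneg.2 (by linarith)
    linarith
  · intro H Y N hH hH1 hY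
    refine (fb6_ii N hH hH1 hY).trans ?_
    have : 0 ≤ (1 + Y)⁻¹ := inv_nonneg.2 (by linarith)
    linarith
  · intro H R hH hH1 hR
    exact fb6_iii hH hH1 hR

end Pool.Agent.Lib.MP4
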