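import Mathlib
import Pool.Agent.Lib.MP_f9aece_nt_mq.StmtsF

/-!
The fourth moment of the plain average of zeta over short windows, module FD7.
-/

set_option autoImplicit false

namespace Pool.Agent.Lib.MP4

open MeasureTheory Set Filter Topology Complex
open scoped ComplexConjugate
open Pool.Agent.Lib.MS (psi Adm ZW ZS Res ZIdent PowClose)
open Pool.Agent.Lib
open Pool.Agent.Lib.MP2 (RD Av PA BumpFn Th Ss ph Prim PhAdm Cont Ident Top)

theorem energy (hF : FBd) (h9 : EnKer) (h6 : KInt) : Energy := by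
  intro θ θ' B hθ
  obtain ⟨C0, hC0⟩ := hF θ θ' B hθ
  obtain ⟨A, hA1, hA⟩ := h9
  obtain ⟨C1, hC11, hC1⟩ := h6 θ θ' B hθ
  refine ⟨A * C0 ^ 4 + 6 / Real.pi ^ 2 * C1 + 1, ?_, ?_⟩
  · have : 0 ≤ A * C0 ^ 4 := by positivity
    have : 0 ≤ 6 / Real.pi ^ 2 * C1 := by positivity
    linarith
  intro R H hR hH hH1
  obtain ⟨F', hFn⟩ := hC0 R hR
  have e1 := hA (FF θ R) F' C0 R hFn H hH hH1
  have e2 := hC1 R hR
  have hlog : 0 ≤ Real.log R := Real.log_nonneg hR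
  have hpi : (Real.pi : ℝ) ≠ 0 := Real.pi_ne_zero
  set Int := ∫ X in (0 : ℝ)..R, ∫ Y in (0 : ℝ)..R, ‖kk (FF θ R) R X Y‖ ^ 2 with hInt
  have e3 : |6 / Real.pi ^ 2 * Int - 8 * Real.log R| ≤ 6 / Real.pi ^ 2 * C1 := by
    have : 6 / Real.pi ^ 2 * Int - 8 * Real.log R =
        6 / Real.pi ^ 2 * (Int - 4 * Real.pi ^ 2 / 3 * Real.log R) := by
      field_simp
      ring
    rw [this, abs_mul, abs_of_pos (by positivity : (0:ℝ) < 6 / Real.pi ^ 2)]
    gcongr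
  have e4 := abs_sub_le (H ^ 4 * E4 (fun n => FF θ R (H * Real.log n)) ⌊Real.exp (R / H)⌋₊)
    (6 / Real.pi ^ 2 * Int) (8 * Real.log R)
  have hA0 : 0 ≤ A * C0 ^ 4 := by positivity
  have h5 : A * C0 ^ 4 * H * (1 + Real.log R) ≤ A * C0 ^ 4 * (1 + H * Real.log R) := by
    rw [mul_assoc]
    gcongr
    nlinarith
  have h6' : 6 / Real.pi ^ 2 * C1 ≤ 6 / Real.pi ^ 2 * C1 * (1 + H * Real.log R) := by
    have h0 : 0 ≤ 6 / Real.pi ^ 2 * C1 := by positivity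
    have h1 : 0 ≤ H * Real.log R := by positivity
    nlinarith
  have h7 : 0 ≤ H * Real.log R := by positivity
  calc _ ≤ _ := e4
    _ ≤ A * C0 ^ 4 * H * (1 + Real.log R) + 6 / Real.pi ^ 2 * C1 := add_le_add e1 e3
    _ ≤ A * C0 ^ 4 * (1 + H * Real.log R) + 6 / Real.pi ^ 2 * C1 * (1 + H * Real.log R) :=
        add_le_add h5 h6'
    _ ≤ (A * C0 ^ 4 + 6 / Real.pi ^ 2 * C1 + 1) * (1 + H * Real.log R) := by nlinarith

end Pool.Agent.Lib.MP4
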